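import Pool.Agent.H306.HD.Stm2

/-! Rapidly converging series of fields and continuous operators (statement `S_CONT`). -/

noncomputable section

namespace Pool.Agent.H306.HD.TCONT

open Set MeasureTheory Filter

open scoped Real ContDiff ENNReal Topology

open Pool.Agent.H306.CK Pool.Agent.H306.DS

/-! ### Series -/

theorem hasSum_of_tail {ι E : Type} [NormedAddCommGroup E] {f : ι → E} {a : E} {B : ι → ℝ}
    (hB : Summable B) (K : ℝ)
    (h : ∀ F : Finset ι, ‖∑ r ∈ F, f r - a‖ ≤ K * ((∑' r, B r) - ∑ r ∈ F, B r)) : HasSum f a := by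
  have h1 := ((tendsto_const_nhds (x := ∑' r, B r)).sub hB.hasSum).const_mul K
  rw [sub_self, mul_zero] at h1
  exact tendsto_iff_norm_sub_tendsto_zero.2 (squeeze_zero (fun _ => norm_nonneg _) h h1)

theorem tsum_off {ι : Type} {f : ι → ℝ} (hf : Summable f) (F : Finset ι) [DecidableEq ι] :
    HasSum (fun r => if r ∈ F then 0 else f r) ((∑' r, f r) - ∑ r ∈ F, f r) := by
  have h1 : HasSum (fun r => if r ∈ F then f r else 0) (∑ r ∈ F, f r) := by
    have h2 : HasSum (fun r => if r ∈ F then f r else 0)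
        (∑ r ∈ F, (if r ∈ F then f r else 0)) :=
      hasSum_sum_of_ne_finset_zero fun r hr => if_neg hr
    have h3 : ∑ r ∈ F, (if r ∈ F then f r else 0) = ∑ r ∈ F, f r :=
      Finset.sum_congr rfl fun r hr => if_pos hr
    rwa [h3] at h2
  have h4 := hf.hasSum.sub h1
  refine h4.congr_fun fun r => ?_
  by_cases hr : r ∈ F
  · rw [if_pos hr, if_pos hr, sub_self]
  · rw [if_neg hr, if_neg hr, sub_zero]

theorem tail_le {ι : Type} {g B : ι → ℝ} (hB : Summable B) (h : ∀ r, |g r| ≤ B r)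
    (F : Finset ι) : |(∑ r ∈ F, g r) - ∑' r, g r| ≤ (∑' r, B r) - ∑ r ∈ F, B r := by
  classical
  have hg : Summable g := Summable.of_norm_bounded hB h
  have h1 := tsum_off hg F
  have h2 := tsum_off hB F
  have h3 : ∀ r, ‖(if r ∈ F then 0 else g r : ℝ)‖ ≤ (if r ∈ F then 0 else B r) := by
    intro r
    by_cases hr : r ∈ F
    · rw [if_pos hr, if_pos hr, norm_zero]
    · rw [if_neg hr, if_neg hr]
      exact h r
  have h4 := tsum_of_norm_bounded h2 h3
  rw [h1.tsum_eq, Real.norm_eq_abs] at h4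
  rwa [abs_sub_comm]

theorem cs_tsum {ι : Type} {a b : ι → ℝ} (ha : ∀ r, 0 ≤ a r) (hab : ∀ r, a r ≤ b r)
    (hb : Summable b) : (Summable fun r => a r ^ 2 / b r) ∧
      (∑' r, a r) ^ 2 ≤ (∑' r, b r) * ∑' r, a r ^ 2 / b r := by
  have hb0 : ∀ r, 0 ≤ b r := fun r => (ha r).trans (hab r)
  have hsa : Summable a := Summable.of_nonneg_of_le ha hab hb
  have hc0 : ∀ r, 0 ≤ a r ^ 2 / b r := fun r => div_nonneg (sq_nonneg _) (hb0 r)
  have hc : ∀ r, a r ^ 2 / b r ≤ a r := by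
    intro r
    rcases (hb0 r).eq_or_lt with h | h
    · rw [← h, div_zero]
      exact ha r
    · rw [div_le_iff₀ h, sq]
      exact mul_le_mul_of_nonneg_left (hab r) (ha r)
  have hsc : Summable fun r => a r ^ 2 / b r := Summable.of_nonneg_of_le hc0 hc hsa
  refine ⟨hsc, ?_⟩
  have hfin : ∀ F : Finset ι, (∑ r ∈ F, a r) ^ 2 ≤ (∑' r, b r) * ∑' r, a r ^ 2 / b r := by
    intro F
    have key : ∀ r, a r ^ 2 = b r * (a r ^ 2 / b r) := by
      intro r
      rcases (hb0 r).eq_or_lt with h | h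
      · have h1 : a r = 0 := le_antisymm ((hab r).trans h.ge) (ha r)
        rw [h1]
        ring
      · field_simp
    have h := Finset.sum_sq_le_sum_mul_sum_of_sq_le_mul F (r := a) (f := b)
      (g := fun r => a r ^ 2 / b r) (fun r _ => hb0 r) (fun r _ => hc0 r)
      (fun r _ => (key r).le)
    refine h.trans (mul_le_mul (hb.sum_le_tsum F fun r _ => hb0 r)
      (hsc.sum_le_tsum F fun r _ => hc0 r) (Finset.sum_nonneg fun r _ => hc0 r)
      (tsum_nonneg hb0))
  exact le_of_tendsto' (hsa.hasSum.pow 2) hfin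

/-! ### Fourier integrals of series -/

theorem fc_norm_le {f : V → ℝ} (hf : Continuous f) {M : ℝ} (hM : ∀ x, |f x| ≤ M)
    (k : Fin 3 → ℤ) : ‖fc f k‖ ≤ volume.real torus * M := by
  rw [fc_eq]
  unfold fcC
  refine (norm_integral_le_integral_norm _).trans ?_
  have h1 : ∫ x in torus, ‖(f x : ℂ) * ex (-k) x‖ ≤ ∫ _ in torus, M := by
    apply setIntegral_mono_on
    · exact (cont_intC ((Complex.continuous_ofReal.comp hf).mul (ex_continuous _))).norm
    · exact cont_integrableOn continuous_const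
    · exact measurableSet_torus
    · intro x _
      rw [norm_mul, norm_ex, mul_one, Complex.norm_real, Real.norm_eq_abs]
      exact hM x
  refine h1.trans (le_of_eq ?_)
  rw [setIntegral_const, smul_eq_mul]

theorem fc_fsum {ι : Type} (g : ι → V → ℝ) (hg : ∀ r, Continuous (g r)) (F : Finset ι)
    (k : Fin 3 → ℤ) : fc (fun x => ∑ r ∈ F, g r x) k = ∑ r ∈ F, fc (g r) k := by
  classical
  induction F using Finset.induction_on with
  | empty =>
    simp only [Finset.sum_empty]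
    unfold fc
    simp
  | insert r F hr ih =>
    simp only [Finset.sum_insert hr]
    rw [fc_add (f := g r) (g := fun x => ∑ s ∈ F, g s x) (hg r)
      (continuous_finsetSum _ fun s _ => hg s), ih]

theorem fc_hasSum {ι : Type} {g : ι → V → ℝ} (hg : ∀ r, Continuous (g r)) {B : ι → ℝ}
    (hB : Summable B) (hb : ∀ r x, |g r x| ≤ B r) (k : Fin 3 → ℤ) :
    HasSum (fun r => fc (g r) k) (fc (fun x => ∑' r, g r x) k) := by
  refine hasSum_of_tail hB (volume.real torus) fun F => ?_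
  have hc : Continuous fun x => ∑' r, g r x := continuous_tsum hg hB hb
  have hF : Continuous fun x => ∑ r ∈ F, g r x := continuous_finsetSum _ fun s _ => hg s
  have h1 : ∑ r ∈ F, fc (g r) k - fc (fun x => ∑' r, g r x) k =
      fc (fun x => (∑ r ∈ F, g r x) + (-1) * ∑' r, g r x) k := by
    rw [fc_add (f := fun x => ∑ r ∈ F, g r x) (g := fun x => (-1) * ∑' r, g r x) hF
      (continuous_const.mul hc), fc_smul, fc_fsum g hg]
    push_cast
    ring
  rw [h1]
  have h4 : Continuous fun x => (∑ r ∈ F, g r x) + (-1) * ∑' r, g r x :=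
    hF.add (continuous_const.mul hc)
  refine fc_norm_le h4 (fun x => ?_) k
  have h2 := tail_le hB (fun r => hb r x) F
  have h3 : (∑ r ∈ F, g r x) + (-1) * ∑' r, g r x = (∑ r ∈ F, g r x) - ∑' r, g r x := by ring
  rw [h3]
  exact h2

/-! ### Sobolev norms -/

theorem hr_smul (s c : ℝ) (v : V → V) : hr s (fun x i => c * v x i) = c ^ 2 * hr s v := by
  unfold hr
  rw [hs_smul, ENNReal.toReal_mul, ENNReal.toReal_ofReal (sq_nonneg c)]

theorem sqrt_hr_smul (s c : ℝ) (v : V → V) :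
    Real.sqrt (hr s (fun x i => c * v x i)) = |c| * Real.sqrt (hr s v) := by
  rw [hr_smul, Real.sqrt_mul (sq_nonneg c), Real.sqrt_sq_eq_abs]

theorem smul_sp {v : V → V} (hv : SP v) (c : ℝ) : SP (fun x i => c * v x i) := by
  refine ⟨contDiff_pi.2 fun i => contDiff_const.mul (contDiff_pi.1 hv.1 i), fun j x => ?_⟩
  ext i
  simp only
  rw [hv.2 j x]

/-- The constant field. -/
def vv (f : V → ℝ) : V → V := fun x _ => f x

theorem vv_sp {f : V → ℝ} (hf : SPf f) : SP (vv f) :=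
  ⟨contDiff_pi.2 fun _ => hf.1, fun i x => by
    ext
    exact hf.2 i x⟩

theorem hr_pd {f : V → ℝ} (hf : SPf f) (j : Fin 3) (s : ℝ) :
    hr s (vv (pd j f)) ≤ hr (s + 1) (vv f) := by
  unfold hr
  refine ENNReal.toReal_mono (hs_lt_top (vv_sp hf) _).ne ?_
  rw [hs_def, hs_def]
  refine ENNReal.tsum_le_tsum fun k => ENNReal.ofReal_le_ofReal ?_
  have hW := W_pos s k
  have h1 : ‖fc (pd j f) k‖ ^ 2 = (k j : ℝ) ^ 2 * ‖fc f k‖ ^ 2 := by
    rw [fc_pd hf.c1 hf.2 j k, norm_mul, norm_mul, Complex.norm_I, one_mul, mul_pow]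
    congr 1
    rw [← Complex.ofReal_intCast, Complex.norm_real, Real.norm_eq_abs, sq_abs]
  have h2 : (k j : ℝ) ^ 2 ≤ W 1 k := by
    rw [W_one]
    have h3 : (k j : ℝ) ^ 2 ≤ ∑ j, (k j : ℝ) ^ 2 :=
      Finset.single_le_sum (f := fun j => (k j : ℝ) ^ 2) (fun j _ => sq_nonneg _)
        (Finset.mem_univ j)
    linarith
  have h4 : ∀ i : Fin 3, ‖fc (fun x => vv (pd j f) x i) k‖ ^ 2 ≤
      W 1 k * ‖fc (fun x => vv f x i) k‖ ^ 2 := by
    intro i
    change ‖fc (pd j f) k‖ ^ 2 ≤ W 1 k * ‖fc f k‖ ^ 2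
    rw [h1]
    exact mul_le_mul_of_nonneg_right h2 (sq_nonneg _)
  calc W s k * ∑ i, ‖fc (fun x => vv (pd j f) x i) k‖ ^ 2 ≤
        W s k * ∑ i, W 1 k * ‖fc (fun x => vv f x i) k‖ ^ 2 :=
        mul_le_mul_of_nonneg_left (Finset.sum_le_sum fun i _ => h4 i) hW.le
    _ = W (s + 1) k * ∑ i, ‖fc (fun x => vv f x i) k‖ ^ 2 := by
        rw [W_add, ← Finset.mul_sum]
        ring

theorem hr_vv (v : V → V) (hv : SP v) (i : Fin 3) (s : ℝ) :
    hr s (vv fun x => v x i) ≤ 3 * hr s v := by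
  have h1 : hs s (vv fun x => v x i) ≤ ENNReal.ofReal 3 * hs s v := by
    rw [hs_def, hs_def, ← ENNReal.tsum_mul_left]
    refine ENNReal.tsum_le_tsum fun k => ?_
    rw [← ENNReal.ofReal_mul (by norm_num)]
    refine ENNReal.ofReal_le_ofReal ?_
    have hW := W_pos s k
    have h2 : ∑ j : Fin 3, ‖fc (fun x => vv (fun x => v x i) x j) k‖ ^ 2 =
        3 * ‖fc (fun x => v x i) k‖ ^ 2 := by
      change ∑ _j : Fin 3, ‖fc (fun x => v x i) k‖ ^ 2 = _
      rw [Finset.sum_const, Finset.card_univ, Fintype.card_fin, nsmul_eq_mul]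
      norm_num
    have h3 : ‖fc (fun x => v x i) k‖ ^ 2 ≤ ∑ j, ‖fc (fun x => v x j) k‖ ^ 2 :=
      Finset.single_le_sum (f := fun j => ‖fc (fun x => v x j) k‖ ^ 2)
        (fun j _ => sq_nonneg _) (Finset.mem_univ i)
    rw [h2]
    have h4 := mul_le_mul_of_nonneg_left h3 hW.le
    linarith
  have h5 := ENNReal.toReal_mono
    (ENNReal.mul_ne_top ENNReal.ofReal_ne_top (hs_lt_top hv s).ne) h1
  rwa [ENNReal.toReal_mul, ENNReal.toReal_ofReal (by norm_num)] at h5

theorem iter_le (q : ℕ) : ∃ C : ℝ, 0 ≤ C ∧ ∀ f : V → ℝ, SPf f → ∀ x,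
    ‖iteratedFDeriv ℝ q f x‖ ≤ C * Real.sqrt (hr (q + 3) (vv f)) := by
  induction q with
  | zero =>
    obtain ⟨C, hC0, hC⟩ := sobolev
    refine ⟨Real.sqrt C, Real.sqrt_nonneg C, fun f hf x => ?_⟩
    have h1 := hC (vv f) (vv_sp hf) x 0
    rw [norm_iteratedFDeriv_zero, Real.norm_eq_abs, ← Real.sqrt_mul hC0]
    have h2 : ((0 : ℕ) : ℝ) + 3 = 3 := by norm_num
    rw [h2]
    exact Real.abs_le_sqrt h1
  | succ q ih =>
    obtain ⟨C, hC0, hC⟩ := ih
    refine ⟨3 * C, by positivity, fun f hf x => ?_⟩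
    refine (iter_pd' hf.1 q x).trans ?_
    have h1 : ∀ i, ‖iteratedFDeriv ℝ q (pd i f) x‖ ≤
        C * Real.sqrt (hr ((q + 1 : ℕ) + 3) (vv f)) := by
      intro i
      refine (hC (pd i f) (hf.pd i) x).trans ?_
      have h2 := hr_pd hf i ((q : ℝ) + 3)
      have h3 : ((q + 1 : ℕ) : ℝ) + 3 = (q : ℝ) + 3 + 1 := by push_cast; ring
      rw [h3]
      exact mul_le_mul_of_nonneg_left (Real.sqrt_le_sqrt h2) hC0
    refine (Finset.sum_le_sum fun i _ => h1 i).trans (le_of_eq ?_)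
    rw [Finset.sum_const, Finset.card_univ, Fintype.card_fin, nsmul_eq_mul]
    push_cast
    ring

theorem iter_le' (q : ℕ) : ∃ C : ℝ, 0 ≤ C ∧ ∀ v : V → V, SP v → ∀ x i,
    ‖iteratedFDeriv ℝ q (fun y => v y i) x‖ ≤ C * Real.sqrt (hr (q + 3) v) := by
  obtain ⟨C, hC0, hC⟩ := iter_le q
  refine ⟨C * Real.sqrt 3, by positivity, fun v hv x i => ?_⟩
  refine (hC _ (hv.comp i) x).trans ?_
  rw [mul_assoc, ← Real.sqrt_mul (by norm_num)]
  exact mul_le_mul_of_nonneg_left (Real.sqrt_le_sqrt (hr_vv v hv i _)) hC0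

/-! ### Series of fields -/

section

variable {ι : Type} {φ : ι → V → V} {y : ι → ℝ}

theorem term_le : ∃ C : ℝ, 0 ≤ C ∧ ∀ (φ : V → V) (c : ℝ), SP φ → ∀ x i,
    |c * φ x i| ≤ C * (|c| * Real.sqrt (hr 3 φ)) := by
  obtain ⟨C, hC0, hC⟩ := sobolev
  refine ⟨Real.sqrt C, Real.sqrt_nonneg C, fun φ c hφ x i => ?_⟩
  have h1 := Real.abs_le_sqrt (hC φ hφ x i)
  rw [Real.sqrt_mul hC0] at h1
  rw [abs_mul]
  calc |c| * |φ x i| ≤ |c| * (Real.sqrt C * Real.sqrt (hr 3 φ)) :=
        mul_le_mul_of_nonneg_left h1 (abs_nonneg c)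
    _ = _ := by ring

theorem sp_sum (hφ : ∀ r, SP (φ r)) (hy : ∀ s : ℝ, Summable fun r => |y r| * Real.sqrt (hr s (φ r))) :
    SP (fun x i => ∑' r, y r * φ r x i) := by
  choose C hC0 hC using iter_le'
  constructor
  · refine contDiff_pi.2 fun i => ?_
    refine contDiff_tsum (v := fun q r => C q * (|y r| * Real.sqrt (hr (q + 3) (φ r))))
      (fun r => contDiff_const.mul (contDiff_pi.1 (hφ r).1 i))
      (fun q _ => (hy (q + 3)).mul_left _) (fun q r x _ => ?_)
    have h1 := hC q _ (smul_sp (hφ r) (y r)) x i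
    rwa [sqrt_hr_smul] at h1
  · intro j x
    ext i
    simp only
    refine tsum_congr fun r => ?_
    rw [(hφ r).2 j x]

theorem pt_sum (hφ : ∀ r, SP (φ r)) (h3 : Summable fun r => |y r| * Real.sqrt (hr 3 (φ r)))
    (x : V) (i : Fin 3) : Summable fun r => y r * φ r x i := by
  obtain ⟨C, hC0, hC⟩ := term_le
  exact Summable.of_norm_bounded (h3.mul_left C) fun r => hC (φ r) (y r) (hφ r) x i

theorem fc_sum' (hφ : ∀ r, SP (φ r)) (h3 : Summable fun r => |y r| * Real.sqrt (hr 3 (φ r)))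
    (i : Fin 3) (k : Fin 3 → ℤ) :
    HasSum (fun r => (y r : ℂ) * fc (fun x => φ r x i) k)
      (fc (fun x => ∑' r, y r * φ r x i) k) := by
  obtain ⟨C, hC0, hC⟩ := term_le
  have h := fc_hasSum (g := fun r x => y r * φ r x i)
    (fun r => continuous_const.mul ((hφ r).comp i).cont) (h3.mul_left C)
    (fun r x => hC (φ r) (y r) (hφ r) x i) k
  refine h.congr_fun fun r => ?_
  exact (fc_smul _ _ _).symm

theorem sf_sum (hφ : ∀ r, SF (φ r)) (hy : ∀ s : ℝ, Summable fun r => |y r| * Real.sqrt (hr s (φ r))) :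
    SF (fun x i => ∑' r, y r * φ r x i) := by
  have hA := sp_sum (fun r => (hφ r).sp) hy
  refine ⟨hA.1, hA.2, fun x => ?_⟩
  have h1 : (fun x => ∑ i, pd i (fun z => ∑' r, y r * φ r z i) x) = fun _ => (0 : ℝ) := by
    refine fc_inj (continuous_finsetSum _ fun i _ => ((hA.comp i).pd i).cont) continuous_const
      (fun j x => Finset.sum_congr rfl fun i _ => ((hA.comp i).pd i).2 j x) (fun _ _ => rfl)
      fun k => ?_
    have h6 : fc (fun _ => (0 : ℝ)) k = 0 := by
      unfold fc; simp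
    have h3 : ∀ r, ∑ i, Complex.I * (k i : ℂ) * fc (fun x => φ r x i) k = 0 := by
      intro r
      have h2 : (fun x => ∑ i, pd i (fun y => φ r y i) x) = fun _ => (0 : ℝ) := by
        ext x; exact (hφ r).2.2 x
      have h3 := fc_div (hφ r).sp k
      rw [h2, h6] at h3
      exact h3.symm
    have h4 := fc_div hA k
    have h5 : HasSum (fun r => ∑ i, Complex.I * (k i : ℂ) * ((y r : ℂ) * fc (fun x => φ r x i) k))
        (∑ i, Complex.I * (k i : ℂ) * fc (fun x => ∑' r, y r * φ r x i) k) :=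
      hasSum_sum fun i _ => (fc_sum' (fun r => (hφ r).sp) (hy 3) i k).mul_left _
    have h7 : ∀ r, ∑ i, Complex.I * (k i : ℂ) * ((y r : ℂ) * fc (fun x => φ r x i) k) = 0 := by
      intro r
      have h8 := congrArg (fun z : ℂ => (y r : ℂ) * z) (h3 r)
      simp only [mul_zero, Finset.mul_sum] at h8
      rw [← h8]
      exact Finset.sum_congr rfl fun i _ => by ring
    simp only [h7] at h5
    have h9 := h5.unique hasSum_zero
    rw [h4, h6]
    exact h9
  exact congrFun h1 x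

theorem W_fc_le {φ : V → V} (hφ : SP φ) (s : ℝ) (i : Fin 3) (k : Fin 3 → ℤ) :
    W (s / 2) k * ‖fc (fun x => φ x i) k‖ ≤ Real.sqrt (hr s φ) := by
  apply Real.le_sqrt_of_sq_le
  have h2 : ENNReal.ofReal (W (s / 2) k * ‖fc (fun x => φ x i) k‖) ^ 2 ≤
      ENNReal.ofReal (hr s φ) := by
    rw [ofReal_hr hφ, hs_eq]
    refine le_trans ?_ (ENNReal.le_tsum k)
    exact Finset.single_le_sum
      (f := fun i => ENNReal.ofReal (W (s / 2) k * ‖fc (fun x => φ x i) k‖) ^ 2)
      (fun i _ => zero_le) (Finset.mem_univ i)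
  have hW := (W_pos (s / 2) k).le
  rw [← ENNReal.ofReal_pow (by positivity)] at h2
  exact (ENNReal.ofReal_le_ofReal_iff (hr_nonneg _ _)).1 h2

theorem hs_sum_le (hφ : ∀ r, SP (φ r)) (h3 : Summable fun r => |y r| * Real.sqrt (hr 3 (φ r)))
    (s : ℝ) (hb : Summable fun r => |y r| * Real.sqrt (hr s (φ r))) :
    hs s (fun x i => ∑' r, y r * φ r x i) ≤
      ENNReal.ofReal ((∑' r, |y r| * Real.sqrt (hr s (φ r))) ^ 2) := by
  set b : ι → ℝ := fun r => |y r| * Real.sqrt (hr s (φ r)) with hbdef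
  have hb0 : ∀ r, 0 ≤ b r := fun r => by positivity
  have hB0 : 0 ≤ ∑' r, b r := tsum_nonneg hb0
  -- the terms
  have ha0 : ∀ r k i, 0 ≤ |y r| * (W (s / 2) k * ‖fc (fun x => φ r x i) k‖) := fun r k i => by
    have := (W_pos (s / 2) k).le
    positivity
  have hab : ∀ r k i, |y r| * (W (s / 2) k * ‖fc (fun x => φ r x i) k‖) ≤ b r := fun r k i =>
    mul_le_mul_of_nonneg_left (W_fc_le (hφ r) s i k) (abs_nonneg _)
  have h1 : ∀ k i, ENNReal.ofReal (W (s / 2) k *
      ‖fc (fun x => ∑' r, y r * φ r x i) k‖) ^ 2 ≤ ENNReal.ofReal (∑' r, b r) *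
      ∑' r, ENNReal.ofReal ((|y r| * (W (s / 2) k * ‖fc (fun x => φ r x i) k‖)) ^ 2 / b r) := by
    intro k i
    have hW := (W_pos (s / 2) k).le
    obtain ⟨hsc, hcs⟩ := cs_tsum (fun r => ha0 r k i) (fun r => hab r k i) hb
    have hsa : Summable fun r => |y r| * (W (s / 2) k * ‖fc (fun x => φ r x i) k‖) :=
      Summable.of_nonneg_of_le (fun r => ha0 r k i) (fun r => hab r k i) hb
    have h2 : W (s / 2) k * ‖fc (fun x => ∑' r, y r * φ r x i) k‖ ≤
        ∑' r, |y r| * (W (s / 2) k * ‖fc (fun x => φ r x i) k‖) := by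
      have h4 := (fc_sum' hφ h3 i k).mul_left ((W (s / 2) k : ℝ) : ℂ)
      have h5 : ∀ r, ‖((W (s / 2) k : ℝ) : ℂ) * ((y r : ℂ) * fc (fun x => φ r x i) k)‖ ≤
          |y r| * (W (s / 2) k * ‖fc (fun x => φ r x i) k‖) := by
        intro r
        rw [norm_mul, norm_mul, Complex.norm_real, Complex.norm_real, Real.norm_eq_abs,
          Real.norm_eq_abs, abs_of_nonneg hW]
        exact le_of_eq (by ring)
      have h6 := tsum_of_norm_bounded hsa.hasSum h5
      rw [h4.tsum_eq, norm_mul, Complex.norm_real, Real.norm_eq_abs, abs_of_nonneg hW] at h6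
      exact h6
    rw [← ENNReal.ofReal_pow (by positivity), ← ENNReal.ofReal_tsum_of_nonneg
      (fun r => div_nonneg (sq_nonneg _) (hb0 r)) hsc, ← ENNReal.ofReal_mul hB0]
    refine ENNReal.ofReal_le_ofReal (le_trans ?_ hcs)
    exact pow_le_pow_left₀ (by positivity) h2 2
  have h7 : ∀ r, ∑' k, ∑ i, ENNReal.ofReal
      ((|y r| * (W (s / 2) k * ‖fc (fun x => φ r x i) k‖)) ^ 2 / b r) ≤ ENNReal.ofReal (b r) := by
    intro r
    rcases (hb0 r).eq_or_lt with h | h
    · have h8 : ∀ k i, ENNReal.ofReal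
          ((|y r| * (W (s / 2) k * ‖fc (fun x => φ r x i) k‖)) ^ 2 / b r) = 0 := fun k i => by
        rw [← h, div_zero, ENNReal.ofReal_zero]
      simp only [h8, Finset.sum_const_zero, tsum_zero, zero_le]
    · have h8 : ∀ k i, ENNReal.ofReal
          ((|y r| * (W (s / 2) k * ‖fc (fun x => φ r x i) k‖)) ^ 2 / b r) =
          ENNReal.ofReal (|y r| ^ 2 / b r) *
            ENNReal.ofReal (W (s / 2) k * ‖fc (fun x => φ r x i) k‖) ^ 2 := fun k i => by
        have hW := (W_pos (s / 2) k).le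
        rw [← ENNReal.ofReal_pow (by positivity), ← ENNReal.ofReal_mul (by positivity)]
        congr 1
        ring
      simp only [h8]
      simp only [← Finset.mul_sum]
      rw [ENNReal.tsum_mul_left, ← hs_eq, ← ofReal_hr (hφ r),
        ← ENNReal.ofReal_mul (by positivity)]
      refine ENNReal.ofReal_le_ofReal (le_of_eq ?_)
      have h9 : b r ^ 2 = |y r| ^ 2 * hr s (φ r) := by
        rw [hbdef]
        simp only
        rw [mul_pow, Real.sq_sqrt (hr_nonneg _ _)]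
      rw [div_mul_eq_mul_div, ← h9, sq, mul_div_assoc, div_self h.ne', mul_one]
  rw [hs_eq]
  calc ∑' k, ∑ i, ENNReal.ofReal (W (s / 2) k * ‖fc (fun x => ∑' r, y r * φ r x i) k‖) ^ 2 ≤
        ∑' k, ∑ i, ENNReal.ofReal (∑' r, b r) * ∑' r, ENNReal.ofReal
          ((|y r| * (W (s / 2) k * ‖fc (fun x => φ r x i) k‖)) ^ 2 / b r) :=
        ENNReal.tsum_le_tsum fun k => Finset.sum_le_sum fun i _ => h1 k i
    _ = ∑' k, ENNReal.ofReal (∑' r, b r) * ∑' r, ∑ i, ENNReal.ofReal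
          ((|y r| * (W (s / 2) k * ‖fc (fun x => φ r x i) k‖)) ^ 2 / b r) := by
        refine tsum_congr fun k => ?_
        rw [← Finset.mul_sum, Summable.tsum_finsetSum fun i _ => ENNReal.summable]
    _ = ENNReal.ofReal (∑' r, b r) * ∑' r, ∑' k, ∑ i, ENNReal.ofReal
          ((|y r| * (W (s / 2) k * ‖fc (fun x => φ r x i) k‖)) ^ 2 / b r) := by
        rw [ENNReal.tsum_mul_left, ENNReal.tsum_comm]
    _ ≤ ENNReal.ofReal (∑' r, b r) * ∑' r, ENNReal.ofReal (b r) := by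
        gcongr with r
        exact h7 r
    _ = ENNReal.ofReal ((∑' r, b r) ^ 2) := by
        rw [← ENNReal.ofReal_tsum_of_nonneg hb0 hb, ← ENNReal.ofReal_mul hB0, sq]

theorem hr_sum_le (hφ : ∀ r, SP (φ r)) (h3 : Summable fun r => |y r| * Real.sqrt (hr 3 (φ r)))
    (s : ℝ) (hb : Summable fun r => |y r| * Real.sqrt (hr s (φ r))) :
    hr s (fun x i => ∑' r, y r * φ r x i) ≤ (∑' r, |y r| * Real.sqrt (hr s (φ r))) ^ 2 := by
  unfold hr
  refine (ENNReal.toReal_mono ENNReal.ofReal_ne_top (hs_sum_le hφ h3 s hb)).trans ?_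
  rw [ENNReal.toReal_ofReal (sq_nonneg _)]
  rfl

/-! ### Operators -/

theorem op_fin {A : (V → V) → V → V} (hlin : ∀ v w, SP v → SP w → ∀ a b : ℝ,
    A (fun x i => a * v x i + b * w x i) = fun x i => a * A v x i + b * A w x i)
    (hφ : ∀ r, SP (φ r)) (F : Finset ι) : SP (fun x i => ∑ r ∈ F, y r * φ r x i) ∧
    A (fun x i => ∑ r ∈ F, y r * φ r x i) = fun x i => ∑ r ∈ F, y r * A (φ r) x i := by
  classical
  have h0 : SP (fun _ _ => (0 : ℝ)) := ⟨contDiff_const, fun _ _ => rfl⟩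
  induction F using Finset.induction_on with
  | empty =>
    simp only [Finset.sum_empty]
    refine ⟨h0, ?_⟩
    have h1 := hlin _ _ h0 h0 0 0
    simp only [zero_mul, add_zero] at h1
    exact h1
  | insert r F hr ih =>
    obtain ⟨ih1, ih2⟩ := ih
    have e1 : (fun (x : V) (i : Fin 3) => ∑ r ∈ insert r F, y r * φ r x i) =
        fun x i => y r * φ r x i + 1 * (fun x i => ∑ r ∈ F, y r * φ r x i) x i := by
      ext x i
      rw [Finset.sum_insert hr, one_mul]
    rw [e1]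
    refine ⟨comb_sp (hφ r) ih1 _ _, ?_⟩
    rw [hlin _ _ (hφ r) ih1, ih2]
    ext x i
    rw [Finset.sum_insert hr, one_mul]

end

theorem cont : S_CONT := by
  classical
  intro ι φ y hφ hy
  refine ⟨sp_sum hφ hy, fun h => sf_sum h hy, fun x i => (pt_sum hφ (hy 3) x i).hasSum,
    fun s => hr_sum_le hφ (hy 3) s (hy s), ?_⟩
  intro A N hA hlin hbd x i
  obtain ⟨C0, hC0, hsob⟩ := sobolev
  obtain ⟨C, hC, hbd3⟩ := hbd 3
  refine hasSum_of_tail (hy (3 + N)) (Real.sqrt (C0 * C)) fun F => ?_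
  -- the tail
  set y' : ι → ℝ := fun r => if r ∈ F then 0 else y r with hy'def
  have hoff : ∀ s : ℝ, HasSum (fun r => |y' r| * Real.sqrt (hr s (φ r)))
      ((∑' r, |y r| * Real.sqrt (hr s (φ r))) - ∑ r ∈ F, |y r| * Real.sqrt (hr s (φ r))) := by
    intro s
    refine (tsum_off (hy s) F).congr_fun fun r => ?_
    rw [hy'def]
    simp only
    by_cases hr : r ∈ F
    · rw [if_pos hr, if_pos hr, abs_zero, zero_mul]
    · rw [if_neg hr, if_neg hr]
  have hy' : ∀ s : ℝ, Summable fun r => |y' r| * Real.sqrt (hr s (φ r)) := fun s => (hoff s).summable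
  have hsp' := sp_sum hφ hy'
  obtain ⟨hF1, hF2⟩ := op_fin (y := y) hlin hφ F
  have hu : (fun (x : V) (i : Fin 3) => ∑' r, y r * φ r x i) =
      fun x i => 1 * (fun x i => ∑ r ∈ F, y r * φ r x i) x i +
        1 * (fun x i => ∑' r, y' r * φ r x i) x i := by
    ext x i
    have h1 := (tsum_off (pt_sum hφ (hy 3) x i) F).tsum_eq
    have h2 : ∑' r, y' r * φ r x i = ∑' r, (if r ∈ F then 0 else y r * φ r x i) := by
      refine tsum_congr fun r => ?_
      rw [hy'def]
      simp only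
      by_cases hr : r ∈ F
      · rw [if_pos hr, if_pos hr, zero_mul]
      · rw [if_neg hr, if_neg hr]
    simp only
    rw [h2, h1]
    ring
  have hAu : A (fun x i => ∑' r, y r * φ r x i) x i =
      (∑ r ∈ F, y r * A (φ r) x i) + A (fun x i => ∑' r, y' r * φ r x i) x i := by
    rw [hu, hlin _ _ hF1 hsp', hF2]
    simp only [one_mul]
  have h1 : ∑ r ∈ F, y r * A (φ r) x i - A (fun x i => ∑' r, y r * φ r x i) x i =
      -A (fun x i => ∑' r, y' r * φ r x i) x i := by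
    rw [hAu]
    ring
  rw [h1, norm_neg, Real.norm_eq_abs]
  have h2 := hsob _ (hA _ hsp') x i
  have h3 : hr 3 (A (fun x i => ∑' r, y' r * φ r x i)) ≤
      C * hr (3 + N) (fun x i => ∑' r, y' r * φ r x i) := by
    have h4 := ENNReal.toReal_mono
      (ENNReal.mul_ne_top ENNReal.ofReal_ne_top (hs_lt_top hsp' (3 + N)).ne) (hbd3 _ hsp')
    rwa [ENNReal.toReal_mul, ENNReal.toReal_ofReal hC] at h4
  have h4 := hr_sum_le hφ (hy' 3) (3 + N) (hy' (3 + N))
  rw [(hoff (3 + N)).tsum_eq] at h4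
  have hT : 0 ≤ (∑' r, |y r| * Real.sqrt (hr (3 + N) (φ r))) -
      ∑ r ∈ F, |y r| * Real.sqrt (hr (3 + N) (φ r)) := by
    rw [← (hoff (3 + N)).tsum_eq]
    exact tsum_nonneg fun r => by positivity
  have h5 : A (fun x i => ∑' r, y' r * φ r x i) x i ^ 2 ≤
      (C0 * C) * ((∑' r, |y r| * Real.sqrt (hr (3 + N) (φ r))) -
        ∑ r ∈ F, |y r| * Real.sqrt (hr (3 + N) (φ r))) ^ 2 := by
    refine h2.trans ?_
    rw [mul_assoc]
    exact mul_le_mul_of_nonneg_left (h3.trans (mul_le_mul_of_nonneg_left h4 hC)) hC0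
  have h6 := Real.abs_le_sqrt h5
  rwa [Real.sqrt_mul (by positivity), Real.sqrt_sq hT] at h6

end Pool.Agent.H306.HD.TCONT
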