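import Pool.Agent.H306.HD.Stm5
import Pool.Agent.H306.HD.TCONT

/-! Assembly, part 1: bounds of the coefficients. -/

noncomputable section

namespace Pool.Agent.H306.HD.Asm

open Set MeasureTheory

open scoped Real ContDiff ENNReal

open Pool.Agent.H306.CK Pool.Agent.H306.DS

/-- The standing hypotheses on the parameters. -/
structure Std (P : Prm) : Prop where
  ok : P.Ok
  rapid : ∀ N : ℕ, ∃ C : ℝ, ∀ m, P.ε m * (P.K (m + 2) : ℝ) ^ N ≤ C
  ε_pos : ∀ m, 0 < P.ε m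
  c_pos : ∀ m, 0 < P.c m
  c_le : ∃ C : ℝ, ∀ m, P.c m ≤ C * P.K (m + 1)

def uF (P : Prm) (m : ℕ) : ℝ := (eb P m + P.ε m) * (P.K (m + 1) : ℝ) ^ 3

def uG (P : Prm) (r : ℕ × ℕ) : ℝ :=
  (1 / 4) ^ r.2 * (1 + r.2 : ℝ) ^ 3 * (eb P r.1 + P.ε r.1) * (P.K (r.1 + 1) : ℝ) ^ 3

def uP (P : Prm) (m : ℕ) : ℝ := eb P m * (P.K (m + 1) : ℝ) ^ 3

section

variable {P : Prm} (hS : Std P)

include hS

theorem eb_pos (m : ℕ) : 0 < eb P m := by
  cases m with
  | zero => exact one_pos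
  | succ m => exact hS.ε_pos m

theorem K1 (m : ℕ) : (1 : ℝ) ≤ P.K m := by exact_mod_cast hS.ok.K_one m

theorem Kle (m : ℕ) : (P.K m : ℝ) ≤ P.K (m + 1) := by
  exact_mod_cast (hS.ok.K_mono (Nat.lt_succ_self m)).le

theorem eps_le : ∃ C : ℝ, 0 ≤ C ∧ ∀ m, P.ε m ≤ C := by
  obtain ⟨C, hC⟩ := hS.rapid 0
  refine ⟨C, ?_, fun m => by simpa using hC m⟩
  have := hC 0
  have h := hS.ε_pos 0
  rw [pow_zero, mul_one] at this
  linarith

theorem mu_le (m i : ℕ) : mu P m i ≤ P.ν * ((1 + i : ℝ) ^ 2 * (P.K (m + 1) : ℝ) ^ 2) := by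
  have h1 := K1 hS m
  have h2 := Kle hS m
  have h3 := hS.ok.ν_pos
  unfold mu
  refine mul_le_mul_of_nonneg_left ?_ h3.le
  have hi : (0 : ℝ) ≤ i := Nat.cast_nonneg i
  have h4 : (P.K m : ℝ) ^ 2 + (i * P.K (m + 1) : ℝ) ^ 2 ≤
      (1 + i : ℝ) ^ 2 * (P.K (m + 1) : ℝ) ^ 2 := by
    have h5 : (P.K m : ℝ) ^ 2 ≤ (P.K (m + 1) : ℝ) ^ 2 := by gcongr
    nlinarith [mul_nonneg hi (sq_nonneg (P.K (m + 1) : ℝ))]
  have h6 : 1 ≤ (P.K m : ℝ) ^ 2 + (i * P.K (m + 1) : ℝ) ^ 2 := by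
    have : 1 ≤ (P.K m : ℝ) ^ 2 := one_le_pow₀ h1
    nlinarith [sq_nonneg (i * P.K (m + 1) : ℝ)]
  calc ((P.K m : ℝ) ^ 2 + (i * P.K (m + 1) : ℝ) ^ 2) ^ P.α ≤
        ((P.K m : ℝ) ^ 2 + (i * P.K (m + 1) : ℝ) ^ 2) ^ (1 : ℝ) :=
        Real.rpow_le_rpow_of_exponent_le h6 (by linarith [hS.ok.α_le])
    _ ≤ _ := by rw [Real.rpow_one]; exact h4

theorem mu_nn (m i : ℕ) : 0 ≤ mu P m i := by
  unfold mu
  have := hS.ok.ν_pos
  positivity

theorem mu_succ (m : ℕ) : mu P (m + 1) 0 ≤ P.ν * (P.K (m + 1) : ℝ) ^ 2 := by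
  have h1 := K1 hS (m + 1)
  unfold mu
  refine mul_le_mul_of_nonneg_left ?_ hS.ok.ν_pos.le
  have h2 : 1 ≤ (P.K (m + 1) : ℝ) ^ 2 := one_le_pow₀ h1
  simp only [Nat.cast_zero, zero_mul, ne_eq, OfNat.ofNat_ne_zero, not_false_eq_true, zero_pow,
    add_zero]
  calc ((P.K (m + 1) : ℝ) ^ 2) ^ P.α ≤ ((P.K (m + 1) : ℝ) ^ 2) ^ (1 : ℝ) :=
        Real.rpow_le_rpow_of_exponent_le h2 (by linarith [hS.ok.α_le])
    _ = _ := Real.rpow_one _

theorem uF_nn (m : ℕ) : 0 ≤ uF P m := by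
  have := eb_pos hS m
  have := hS.ε_pos m
  unfold uF
  positivity

theorem uP_le (m : ℕ) : uP P m ≤ uF P m := by
  have := eb_pos hS m
  have := hS.ε_pos m
  unfold uF uP
  gcongr
  linarith

theorem uG_nn (r : ℕ × ℕ) : 0 ≤ uG P r := by
  have := eb_pos hS r.1
  have := hS.ε_pos r.1
  unfold uG
  positivity

/-- Bounds of all the coefficients. -/
theorem cbd {θ₀ T : ℝ} {b : ℕ → ℝ → ℝ} {g : ℕ → ℕ → ℝ → ℝ} (h : ChSol P θ₀ T b g) {t : ℝ}
    (ht : t ∈ Ico 0 T) : ∃ R : ℝ, 0 ≤ R ∧ ∀ s ∈ Icc 0 t,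
      (∀ m, |b m s| ≤ R * uF P m ∧ |mu P (m + 1) 0 * b m s| ≤ R * uF P m ∧
        |P.c m * g m 1 s + P.ε m * g m 0 s| ≤ R * uP P m) ∧
      ∀ m i, |g m i s| ≤ R * uG P (m, i) ∧ |mu P m i * g m i s| ≤ R * uG P (m, i) ∧
        |nl P (fun m => b m s) (fun m j => g m j s) m i| ≤ R * uG P (m, i) := by
  obtain ⟨R, hR0, hR⟩ := h.bd t ht
  obtain ⟨C, hC⟩ := hS.c_le
  obtain ⟨D, hD0, hD⟩ := eps_le hS
  have hν := hS.ok.ν_pos
  set R' : ℝ := R * (1 + P.ν + |C| + D + 4 * R * (1 + D)) with hR'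
  have hR'0 : 0 ≤ R' := by positivity
  refine ⟨R', hR'0, fun s hs => ⟨fun m => ?_, fun m i => ?_⟩⟩
  · obtain ⟨hb, hg⟩ := hR s hs m
    have h1 := eb_pos hS m
    have h2 := hS.ε_pos m
    have hK := K1 hS (m + 1)
    have hK3 : (1 : ℝ) ≤ (P.K (m + 1) : ℝ) ^ 3 := one_le_pow₀ hK
    have hK2 : (P.K (m + 1) : ℝ) ^ 2 ≤ (P.K (m + 1) : ℝ) ^ 3 := pow_le_pow_right₀ hK (by norm_num)
    have hK1 : (P.K (m + 1) : ℝ) ≤ (P.K (m + 1) : ℝ) ^ 3 := le_self_pow₀ hK (by norm_num)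
    have hRle : R * 1 ≤ R' := mul_le_mul_of_nonneg_left (by
      have := abs_nonneg C
      have : 0 ≤ 4 * R * (1 + D) := by positivity
      linarith) hR0
    have hRν : R * P.ν ≤ R' := mul_le_mul_of_nonneg_left (by
      have := abs_nonneg C
      have : 0 ≤ 4 * R * (1 + D) := by positivity
      linarith) hR0
    have hRc : R * (|C| + D) ≤ R' := mul_le_mul_of_nonneg_left (by
      have : 0 ≤ 4 * R * (1 + D) := by positivity
      linarith) hR0
    refine ⟨?_, ?_, ?_⟩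
    · unfold uF
      calc |b m s| ≤ R * P.ε m := hb
        _ ≤ (R * 1) * ((eb P m + P.ε m) * 1) := by nlinarith
        _ ≤ R' * ((eb P m + P.ε m) * (P.K (m + 1) : ℝ) ^ 3) := by gcongr
    · unfold uF
      rw [abs_mul, abs_of_nonneg (mu_nn hS _ _)]
      calc mu P (m + 1) 0 * |b m s| ≤ (P.ν * (P.K (m + 1) : ℝ) ^ 3) * (R * (eb P m + P.ε m)) := by
            refine mul_le_mul ((mu_succ hS m).trans (by gcongr)) (hb.trans ?_) (abs_nonneg _)
              (by positivity)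
            gcongr
            linarith
        _ = (R * P.ν) * ((eb P m + P.ε m) * (P.K (m + 1) : ℝ) ^ 3) := by ring
        _ ≤ _ := by gcongr
    · unfold uP
      have g1 := hg 1
      have g0 := hg 0
      have hc : P.c m ≤ |C| * (P.K (m + 1) : ℝ) ^ 3 := (hC m).trans (by
        have h5 := le_abs_self C
        have h6 := abs_nonneg C
        calc C * (P.K (m + 1) : ℝ) ≤ |C| * P.K (m + 1) := by gcongr
          _ ≤ _ := by gcongr)
      have hc0 := hS.c_pos m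
      calc |P.c m * g m 1 s + P.ε m * g m 0 s| ≤ P.c m * |g m 1 s| + P.ε m * |g m 0 s| := by
            refine (abs_add_le _ _).trans ?_
            rw [abs_mul, abs_mul, abs_of_pos hc0, abs_of_pos h2]
        _ ≤ (|C| * (P.K (m + 1) : ℝ) ^ 3) * (R * ((1 / 4) ^ 1 * eb P m)) +
              D * (R * ((1 / 4) ^ 0 * eb P m)) := by
            have := hD m
            gcongr
        _ ≤ (|C| * (P.K (m + 1) : ℝ) ^ 3) * (R * eb P m) + D * (R * eb P m) *
              (P.K (m + 1) : ℝ) ^ 3 := by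
            have h7 : (0 : ℝ) ≤ |C| * (P.K (m + 1) : ℝ) ^ 3 * (R * eb P m) := by positivity
            have h8 : (0 : ℝ) ≤ D * (R * eb P m) := by positivity
            nlinarith
        _ = (R * (|C| + D)) * (eb P m * (P.K (m + 1) : ℝ) ^ 3) := by ring
        _ ≤ _ := by gcongr
  · obtain ⟨hb, hg⟩ := hR s hs m
    have h1 := eb_pos hS m
    have h2 := hS.ε_pos m
    have hK := K1 hS (m + 1)
    have hKm := K1 hS m
    have hKle := Kle hS m
    have hK3 : (1 : ℝ) ≤ (P.K (m + 1) : ℝ) ^ 3 := one_le_pow₀ hK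
    have hK2 : (P.K (m + 1) : ℝ) ^ 2 ≤ (P.K (m + 1) : ℝ) ^ 3 := pow_le_pow_right₀ hK (by norm_num)
    have hK1 : (P.K (m + 1) : ℝ) ≤ (P.K (m + 1) : ℝ) ^ 3 := le_self_pow₀ hK (by norm_num)
    have hi1 : (1 : ℝ) ≤ 1 + i := by have : (0 : ℝ) ≤ i := Nat.cast_nonneg i; linarith
    have hi3 : (1 : ℝ) ≤ (1 + i : ℝ) ^ 3 := one_le_pow₀ hi1
    have hi2 : (1 + i : ℝ) ^ 2 ≤ (1 + i : ℝ) ^ 3 := pow_le_pow_right₀ hi1 (by norm_num)
    have hRle : R * 1 ≤ R' := mul_le_mul_of_nonneg_left (by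
      have := abs_nonneg C
      have : 0 ≤ 4 * R * (1 + D) := by positivity
      linarith) hR0
    have hRν : R * P.ν ≤ R' := mul_le_mul_of_nonneg_left (by
      have := abs_nonneg C
      have : 0 ≤ 4 * R * (1 + D) := by positivity
      linarith) hR0
    have hRR : R * (4 * R * (1 + D)) ≤ R' := mul_le_mul_of_nonneg_left (by
      have := abs_nonneg C
      linarith) hR0
    have hq : (0 : ℝ) < (1 / 4) ^ i := by positivity
    have hE : eb P m ≤ eb P m + P.ε m := by linarith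
    refine ⟨?_, ?_, ?_⟩
    · unfold uG
      calc |g m i s| ≤ R * ((1 / 4) ^ i * eb P m) := hg i
        _ = (R * 1) * ((1 / 4) ^ i * 1 * eb P m * 1) := by ring
        _ ≤ R' * ((1 / 4) ^ i * (1 + i : ℝ) ^ 3 * (eb P m + P.ε m) *
              (P.K (m + 1) : ℝ) ^ 3) := by gcongr
    · unfold uG
      rw [abs_mul, abs_of_nonneg (mu_nn hS _ _)]
      calc mu P m i * |g m i s| ≤ (P.ν * ((1 + i : ℝ) ^ 3 * (P.K (m + 1) : ℝ) ^ 3)) *
            (R * ((1 / 4) ^ i * (eb P m + P.ε m))) := by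
            refine mul_le_mul ((mu_le hS m i).trans (by gcongr)) ((hg i).trans ?_) (abs_nonneg _)
              (by positivity)
            gcongr
        _ = (R * P.ν) * ((1 / 4) ^ i * (1 + i : ℝ) ^ 3 * (eb P m + P.ε m) *
              (P.K (m + 1) : ℝ) ^ 3) := by ring
        _ ≤ _ := by gcongr
    · have hbD : |b m s| ≤ R * D := hb.trans (by have := hD m; gcongr)
      have hKb : P.K m * |b m s| ≤ (P.K (m + 1) : ℝ) ^ 3 * (R * D) :=
        mul_le_mul (hKle.trans hK1) hbD (abs_nonneg _) (by positivity)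
      have key : |nl P (fun m => b m s) (fun m j => g m j s) m i| ≤
          ((P.K (m + 1) : ℝ) ^ 3 * (R * D)) * (4 * R * ((1 / 4) ^ i * eb P m) ) *
            (1 + i : ℝ) ^ 3 := by
        have hKm0 : (0 : ℝ) ≤ P.K m := by linarith
        rcases i with _ | _ | i
        · simp only [nl]
          have e : P.K m * b m s / 2 * g m 1 s = (P.K m * b m s) * g m 1 s / 2 := by ring
          rw [e, abs_div, abs_mul, abs_mul, abs_of_nonneg hKm0, abs_two]
          have g1 := hg 1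
          have : P.K m * |b m s| * |g m 1 s| ≤ ((P.K (m + 1) : ℝ) ^ 3 * (R * D)) *
              (R * ((1 / 4) ^ 1 * eb P m)) := mul_le_mul hKb g1 (abs_nonneg _) (by positivity)
          have h9 : (0 : ℝ) ≤ ((P.K (m + 1) : ℝ) ^ 3 * (R * D)) * (R * eb P m) := by positivity
          simp only [Nat.cast_zero, pow_zero, one_mul, add_zero, one_pow, mul_one]
          nlinarith
        · simp only [nl, zero_add]
          rw [abs_neg, abs_mul, abs_mul, abs_of_nonneg hKm0]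
          have g0 := hg 0
          have g2 := hg 2
          have h8 : |g m 0 s + g m 2 s / 2| ≤ 2 * (R * eb P m) := by
            refine (abs_add_le _ _).trans ?_
            rw [abs_div, abs_two]
            have h10 : 0 ≤ R * eb P m := by positivity
            have e1 : R * ((1 / 4) ^ 0 * eb P m) = R * eb P m := by ring
            have e2 : R * ((1 / 4) ^ 2 * eb P m) = 1 / 16 * (R * eb P m) := by ring
            rw [e1] at g0
            rw [e2] at g2
            linarith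
          have : P.K m * |b m s| * |g m 0 s + g m 2 s / 2| ≤ ((P.K (m + 1) : ℝ) ^ 3 * (R * D)) *
              (2 * (R * eb P m)) := mul_le_mul hKb h8 (abs_nonneg _) (by positivity)
          have h9 : (0 : ℝ) ≤ ((P.K (m + 1) : ℝ) ^ 3 * (R * D)) * (R * eb P m) := by positivity
          push_cast
          nlinarith
        · simp only [nl]
          have e : (-1 : ℝ) ^ i * (P.K m * b m s / 2) * (g m (i + 1) s + g m (i + 3) s) =
              (-1) ^ i * ((P.K m * b m s) * (g m (i + 1) s + g m (i + 3) s) / 2) := by ring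
          rw [e, abs_mul, abs_pow, abs_neg, abs_one, one_pow, one_mul, abs_div, abs_two, abs_mul,
            abs_mul, abs_of_nonneg hKm0]
          have g0 := hg (i + 1)
          have g2 := hg (i + 3)
          have h8 : |g m (i + 1) s + g m (i + 3) s| ≤ 5 * (R * ((1 / 4) ^ (i + 2) * eb P m)) := by
            refine (abs_add_le _ _).trans ?_
            have h10 : 0 ≤ R * ((1 / 4) ^ (i + 2) * eb P m) := by positivity
            have e1 : R * ((1 / 4) ^ (i + 1) * eb P m) = 4 * (R * ((1 / 4) ^ (i + 2) * eb P m)) := by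
              ring
            have e2 : R * ((1 / 4) ^ (i + 3) * eb P m) =
              1 / 4 * (R * ((1 / 4) ^ (i + 2) * eb P m)) := by ring
            rw [e1] at g0
            rw [e2] at g2
            linarith
          have h7 : P.K m * |b m s| * |g m (i + 1) s + g m (i + 3) s| ≤
              ((P.K (m + 1) : ℝ) ^ 3 * (R * D)) * (5 * (R * ((1 / 4) ^ (i + 2) * eb P m))) :=
            mul_le_mul hKb h8 (abs_nonneg _) (by positivity)
          have h9 : (0 : ℝ) ≤ ((P.K (m + 1) : ℝ) ^ 3 * (R * D)) *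
            (R * ((1 / 4) ^ (i + 2) * eb P m)) := by positivity
          have h11 : ((P.K (m + 1) : ℝ) ^ 3 * (R * D)) * (4 * R * ((1 / 4) ^ (i + 2) * eb P m)) ≤
              ((P.K (m + 1) : ℝ) ^ 3 * (R * D)) * (4 * R * ((1 / 4) ^ (i + 2) * eb P m)) *
              (1 + ((i + 1 + 1 : ℕ) : ℝ)) ^ 3 := le_mul_of_one_le_right (by positivity) hi3
          refine le_trans ?_ h11
          nlinarith
      refine key.trans ?_
      unfold uG
      calc ((P.K (m + 1) : ℝ) ^ 3 * (R * D)) * (4 * R * ((1 / 4) ^ i * eb P m)) *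
            (1 + i : ℝ) ^ 3 = (R * (4 * R * D)) * ((1 / 4) ^ i * (1 + i : ℝ) ^ 3 * eb P m *
              (P.K (m + 1) : ℝ) ^ 3) := by ring
        _ ≤ R' * ((1 / 4) ^ i * (1 + i : ℝ) ^ 3 * (eb P m + P.ε m) * (P.K (m + 1) : ℝ) ^ 3) := by
            gcongr
            refine le_trans ?_ hRR
            gcongr
            linarith

end

end Pool.Agent.H306.HD.Asm
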