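import Pool.Agent.H306.HD.Asm1

/-! Assembly, part 2: the series at a fixed time. -/

noncomputable section

namespace Pool.Agent.H306.HD.Asm

open Set MeasureTheory

open scoped Real ContDiff ENNReal

open Pool.Agent.H306.CK Pool.Agent.H306.DS

/-- The derivatives of the coefficients. -/
def yd (P : Prm) (b : ℕ → ℝ → ℝ) (g : ℕ → ℕ → ℝ → ℝ) : ℕ ⊕ ℕ × ℕ → ℝ → ℝ
  | Sum.inl m, t => -mu P (m + 1) 0 * b m t + P.c m * g m 1 t + P.ε m * g m 0 t
  | Sum.inr r, t => -mu P r.1 r.2 * g r.1 r.2 t - nl P (fun m => b m t) (fun m j => g m j t) r.1 r.2 +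
      pre P (fun m j => g m j t) r.1 r.2

/-- The weight from the previous band. -/
def uR (P : Prm) : ℕ × ℕ → ℝ
  | (m + 1, 0) => uP P m
  | _ => 0

/-- The weights. -/
def uI (P : Prm) : ℕ ⊕ ℕ × ℕ → ℝ
  | Sum.inl m => uF P m
  | Sum.inr r => uG P r + uR P r

theorem uR_zero (P : Prm) {r : ℕ × ℕ} (h : r ∉ range fun m : ℕ => (m + 1, 0)) : uR P r = 0 := by
  rcases r with ⟨_ | m, _ | j⟩
  · rfl
  · rfl
  · exact absurd ⟨m, rfl⟩ h
  · rfl

theorem pre_zero (P : Prm) (g : ℕ → ℕ → ℝ) {r : ℕ × ℕ} (h : r ∉ range fun m : ℕ => (m + 1, 0)) :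
    pre P g r.1 r.2 = 0 := by
  rcases r with ⟨_ | m, _ | j⟩
  · rfl
  · rfl
  · exact absurd ⟨m, rfl⟩ h
  · rfl

theorem inj_succ : Function.Injective fun m : ℕ => ((m + 1, 0) : ℕ × ℕ) := fun a b h => by
  have := (Prod.mk.inj h).1
  omega

section

variable {P : Prm} (hS : Std P)

include hS

theorem uR_nn (r : ℕ × ℕ) : 0 ≤ uR P r := by
  rcases r with ⟨_ | m, _ | j⟩
  · exact le_rfl
  · exact le_rfl
  · change 0 ≤ uP P m
    have := eb_pos hS m
    unfold uP
    positivity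
  · exact le_rfl

theorem uI_nn (r : ℕ ⊕ ℕ × ℕ) : 0 ≤ uI P r := by
  rcases r with m | r
  · exact uF_nn hS m
  · exact add_nonneg (uG_nn hS r) (uR_nn hS r)

/-- Summability of the weighted norms of the modes. -/
theorem sumF (hSer : S_SER) (hprof : S_PROF) (hcomm : S_COMM) (hbdm : S_BDM) (s : ℝ) :
    Summable fun m => uF P m * Real.sqrt (hr s (Fm P m)) :=
  (hSer hprof hcomm hbdm P hS.ok hS.rapid hS.ε_pos s 3).1

theorem sumG (hSer : S_SER) (hprof : S_PROF) (hcomm : S_COMM) (hbdm : S_BDM) (s : ℝ) :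
    Summable fun r : ℕ × ℕ => uG P r * Real.sqrt (hr s (Em P r.1 r.2)) :=
  (hSer hprof hcomm hbdm P hS.ok hS.rapid hS.ε_pos s 3).2.1

theorem sumP (hSer : S_SER) (hprof : S_PROF) (hcomm : S_COMM) (hbdm : S_BDM) (s : ℝ) :
    Summable fun m => uP P m * Real.sqrt (hr s (Em P (m + 1) 0)) :=
  (hSer hprof hcomm hbdm P hS.ok hS.rapid hS.ε_pos s 3).2.2

theorem sumR (hSer : S_SER) (hprof : S_PROF) (hcomm : S_COMM) (hbdm : S_BDM) (s : ℝ) :
    Summable fun r : ℕ × ℕ => uR P r * Real.sqrt (hr s (Em P r.1 r.2)) := by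
  rw [← inj_succ.summable_iff]
  · exact sumP hS hSer hprof hcomm hbdm s
  · intro r hr
    rw [uR_zero P hr, zero_mul]

theorem sumI (hSer : S_SER) (hprof : S_PROF) (hcomm : S_COMM) (hbdm : S_BDM) (s : ℝ) :
    Summable fun r => uI P r * Real.sqrt (hr s (ph P r)) := by
  refine Summable.sum _ (sumF hS hSer hprof hcomm hbdm s) ?_
  refine ((sumG hS hSer hprof hcomm hbdm s).add (sumR hS hSer hprof hcomm hbdm s)).congr fun r => ?_
  simp only [Function.comp, uI, ph]
  ring

theorem ph_sf (hmodes : S_MODES) (hprof : S_PROF) (hfcp : S_FCP) (r : ℕ ⊕ ℕ × ℕ) :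
    SF (ph P r) := by
  obtain ⟨h1, h2, -⟩ := hmodes hprof hfcp P hS.ok
  rcases r with m | r
  · exact h1 m
  · exact h2 r.1 r.2

section

variable {θ₀ T : ℝ} {b : ℕ → ℝ → ℝ} {g : ℕ → ℕ → ℝ → ℝ} (h : ChSol P θ₀ T b g)

include h

/-- Uniform bounds of the coefficients and of their derivatives. -/
theorem ybd {t : ℝ} (ht : t ∈ Ico 0 T) : ∃ R : ℝ, 0 ≤ R ∧ ∀ s ∈ Icc 0 t, ∀ r,
    |yy b g r s| ≤ R * uI P r ∧ |yd P b g r s| ≤ R * uI P r := by
  obtain ⟨R, hR0, hR⟩ := cbd hS h ht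
  refine ⟨3 * R, by positivity, fun s hs r => ?_⟩
  rcases r with m | ⟨m, i⟩
  · obtain ⟨h1, h2, h3⟩ := (hR s hs).1 m
    have hu := uF_nn hS m
    have hP := uP_le hS m
    have hRu : 0 ≤ R * uF P m := by positivity
    have hRP : R * uP P m ≤ R * uF P m := by gcongr
    constructor
    · change |b m s| ≤ 3 * R * uF P m
      linarith
    · change |-mu P (m + 1) 0 * b m s + P.c m * g m 1 s + P.ε m * g m 0 s| ≤ 3 * R * uF P m
      have e : -mu P (m + 1) 0 * b m s + P.c m * g m 1 s + P.ε m * g m 0 s =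
          -(mu P (m + 1) 0 * b m s) + (P.c m * g m 1 s + P.ε m * g m 0 s) := by ring
      rw [e]
      refine (abs_add_le _ _).trans ?_
      rw [abs_neg]
      linarith
  · obtain ⟨h1, h2, h3⟩ := (hR s hs).2 m i
    have hu := uG_nn hS (m, i)
    have hv := uR_nn hS (m, i)
    have hRu : 0 ≤ R * uG P (m, i) := by positivity
    have hRv : 0 ≤ R * uR P (m, i) := by positivity
    have h4 : |pre P (fun m j => g m j s) m i| ≤ R * uR P (m, i) := by
      rcases m with _ | m
      · rcases i with _ | i <;> · simp only [pre, uR, abs_zero, mul_zero, le_refl]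
      · rcases i with _ | i
        · exact ((hR s hs).1 m).2.2
        · simp only [pre, uR, abs_zero, mul_zero, le_refl]
    constructor
    · change |g m i s| ≤ 3 * R * (uG P (m, i) + uR P (m, i))
      nlinarith
    · change |-mu P m i * g m i s - nl P (fun m => b m s) (fun m j => g m j s) m i +
        pre P (fun m j => g m j s) m i| ≤ 3 * R * (uG P (m, i) + uR P (m, i))
      have e : -mu P m i * g m i s - nl P (fun m => b m s) (fun m j => g m j s) m i +
          pre P (fun m j => g m j s) m i = -(mu P m i * g m i s) +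
          (-nl P (fun m => b m s) (fun m j => g m j s) m i) +
          pre P (fun m j => g m j s) m i := by ring
      rw [e]
      have h5 := abs_add_three (-(mu P m i * g m i s))
        (-nl P (fun m => b m s) (fun m j => g m j s) m i) (pre P (fun m j => g m j s) m i)
      rw [abs_neg, abs_neg] at h5
      nlinarith

theorem ysum (hSer : S_SER) (hprof : S_PROF) (hcomm : S_COMM) (hbdm : S_BDM) {t : ℝ}
    (ht : t ∈ Ico 0 T) (s : ℝ) : Summable fun r => |yy b g r t| * Real.sqrt (hr s (ph P r)) := by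
  obtain ⟨R, hR0, hR⟩ := ybd hS h ht
  refine Summable.of_nonneg_of_le (fun r => by positivity) (fun r => ?_)
    ((sumI hS hSer hprof hcomm hbdm s).mul_left R)
  rw [← mul_assoc]
  gcongr
  exact (hR t ⟨ht.1, le_rfl⟩ r).1

end

end

end Pool.Agent.H306.HD.Asm
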