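import Pool.Agent.H306.HD.Stm2

noncomputable section

namespace Pool.Agent.H306.HD.TDIS

open Set MeasureTheory

open scoped Real ContDiff ENNReal ComplexConjugate

open Pool.Agent.H306.CK Pool.Agent.H306.DS Pool.Agent.H306.HD

theorem lam_nonneg {ν α : ℝ} (hν : 0 < ν) (k : Fin 3 → ℤ) : 0 ≤ lam ν α k :=
  mul_nonneg hν.le (Real.rpow_nonneg (Finset.sum_nonneg fun j _ => sq_nonneg _) _)

theorem Mb_lam {ν α : ℝ} (hν : 0 < ν) (hα : 0 < α) : Mb (lam ν α) := by
  constructor
  · intro k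
    unfold lam
    simp
  · refine ⟨ν, α, hν.le, fun k => ?_⟩
    rw [abs_of_nonneg (lam_nonneg hν k)]
    unfold lam W
    apply mul_le_mul_of_nonneg_left _ hν.le
    have h0 : (0 : ℝ) ≤ ∑ j, (k j : ℝ) ^ 2 := Finset.sum_nonneg fun j _ => sq_nonneg _
    exact Real.rpow_le_rpow h0 (by linarith) hα.le

theorem lam_ge {ν α : ℝ} (hν : 0 < ν) (hα : 0 < α) (hα1 : α ≤ 1) {k : Fin 3 → ℤ} (hk : k ≠ 0) :
    ν / 2 * W α k ≤ lam ν α k := by
  unfold lam W
  set S : ℝ := ∑ j, (k j : ℝ) ^ 2 with hS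
  have hS1 : 1 ≤ S := by
    obtain ⟨j, hj⟩ : ∃ j, k j ≠ 0 := by
      by_contra h
      push Not at h
      exact hk (funext h)
    have h1 : (1 : ℝ) ≤ (k j : ℝ) ^ 2 := by
      have h2 : (1 : ℤ) ≤ (k j) ^ 2 := by
        have : 0 < (k j) ^ 2 := by positivity
        omega
      exact_mod_cast h2
    calc (1 : ℝ) ≤ (k j : ℝ) ^ 2 := h1
      _ ≤ S := Finset.single_le_sum (f := fun j => (k j : ℝ) ^ 2) (fun i _ => sq_nonneg _)
        (Finset.mem_univ j)
  have h1 : (1 + S) ^ α ≤ 2 * S ^ α := by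
    calc (1 + S) ^ α ≤ (2 * S) ^ α := Real.rpow_le_rpow (by linarith) (by linarith) hα.le
      _ = 2 ^ α * S ^ α := Real.mul_rpow (by norm_num) (by linarith)
      _ ≤ 2 * S ^ α := by
        apply mul_le_mul_of_nonneg_right _ (Real.rpow_nonneg (by linarith) _)
        calc (2 : ℝ) ^ α ≤ 2 ^ (1 : ℝ) := Real.rpow_le_rpow_of_exponent_le (by norm_num) hα1
          _ = 2 := Real.rpow_one 2
  nlinarith

theorem lam_zero {ν α : ℝ} (hα : 0 < α) : lam ν α 0 = 0 := by
  unfold lam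
  simp [Real.zero_rpow hα.ne']

theorem young {t x y : ℝ} (ht : 0 < t) : x * y ≤ t / 4 * x ^ 2 + t⁻¹ * y ^ 2 := by
  have h1 : t / 4 * x ^ 2 + t⁻¹ * y ^ 2 - x * y = (t * x - 2 * y) ^ 2 / (4 * t) := by
    field_simp
    ring
  have h2 : 0 ≤ (t * x - 2 * y) ^ 2 / (4 * t) := by positivity
  linarith

theorem dis : S_DIS := by
  intro ν α η v w hν hα hα1 hη h4 hv hw hw0 hH
  have hpi := Real.pi_pos
  have hm := Mb_lam hν hα
  set u : V → V := fun x i => -MG (lam ν α) v x i + w x i with hu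
  have hu' : u = fun x i => (-1) * MG (lam ν α) v x i + 1 * w x i := by
    ext x i
    rw [hu]
    ring
  have hus : SP u := by
    rw [hu']
    exact comb_sp (MG_sp hm hv) hw (-1) 1
  have hfu : ∀ i k, fc (fun x => u x i) k =
      -((lam ν α k : ℂ) * fc (fun x => v x i) k) + fc (fun x => w x i) k := by
    intro i k
    have e1 := fc_comb (MG_sp hm hv) hw (-1) 1 i k
    rw [hu', e1, fc_MG hm hv]
    push_cast
    ring
  -- sequences
  set a : (Fin 3 → ℤ) → ℝ := fun k =>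
    if k = 0 then 0 else W α k * ∑ i, ‖fc (fun x => v x i) k‖ ^ 2 with ha
  set b : (Fin 3 → ℤ) → ℝ := fun k => W (-α) k * ∑ i, ‖fc (fun x => w x i) k‖ ^ 2 with hb
  have ha0 : ∀ k, 0 ≤ a k := by
    intro k
    rw [ha]
    dsimp only
    split_ifs
    · exact le_rfl
    · exact mul_nonneg (W_pos _ k).le (Finset.sum_nonneg fun i _ => sq_nonneg _)
  have hb0 : ∀ k, 0 ≤ b k := fun k =>
    mul_nonneg (W_pos _ k).le (Finset.sum_nonneg fun i _ => sq_nonneg _)
  have hsa : Summable a := by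
    refine Summable.of_nonneg_of_le ha0 (fun k => ?_) (FA_form hv α).summable
    rw [ha]
    dsimp only
    split_ifs
    · exact mul_nonneg (W_pos _ k).le (Finset.sum_nonneg fun i _ => sq_nonneg _)
    · exact le_rfl
  have hsb : Summable b := (FA_form hw (-α)).summable
  have hBG : ∑' k, b k ≤ η * ∑' k, a k := by
    have e1 : hs (-α) w = ENNReal.ofReal (∑' k, b k) := by
      rw [ENNReal.ofReal_tsum_of_nonneg hb0 hsb, hs_def]
    have e2 : ∑' k : Fin 3 → ℤ, ENNReal.ofReal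
        (if k = 0 then 0 else W α k * ∑ i, ‖fc (fun x => v x i) k‖ ^ 2) =
        ENNReal.ofReal (∑' k, a k) := by
      rw [ENNReal.ofReal_tsum_of_nonneg ha0 hsa]
    rw [e1, e2, ← ENNReal.ofReal_mul hη] at hH
    exact (ENNReal.ofReal_le_ofReal_iff (mul_nonneg hη (tsum_nonneg ha0))).1 hH
  have hG0 : 0 ≤ ∑' k, a k := tsum_nonneg ha0
  -- Parseval
  have hP := parseval3 hv.cp hus.cp
  have hR := Complex.hasSum_re hP
  rw [Complex.ofReal_re] at hR
  have hS : HasSum (fun k => -(ν / 4) * a k + ν⁻¹ * b k)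
      (-(ν / 4) * ∑' k, a k + ν⁻¹ * ∑' k, b k) :=
    (hsa.hasSum.mul_left _).add (hsb.hasSum.mul_left _)
  have hle : ∀ k, (∑ i, conj (fc (fun x => v x i) k) * fc (fun x => u x i) k).re ≤
      -(ν / 4) * a k + ν⁻¹ * b k := by
    intro k
    by_cases hk : k = 0
    · have hb00 : b k = 0 := by
        rw [hb]
        dsimp only
        rw [hk]
        simp [hw0]
      have ha00 : a k = 0 := by
        rw [ha]
        dsimp only
        rw [if_pos hk]
      rw [ha00, hb00]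
      have : ∑ i, conj (fc (fun x => v x i) k) * fc (fun x => u x i) k = 0 := by
        apply Finset.sum_eq_zero
        intro i _
        rw [hfu, hk, lam_zero hα, hw0]
        simp
      rw [this]
      simp
    · have hlam := lam_ge hν hα hα1 hk
      have hW := W_pos α k
      have hWn : W (-α) k = (W α k)⁻¹ := by
        unfold W
        exact Real.rpow_neg (W_base k).le α
      have e1 : a k = W α k * ∑ i, ‖fc (fun x => v x i) k‖ ^ 2 := by
        rw [ha]
        dsimp only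
        rw [if_neg hk]
      have e2 : b k = (W α k)⁻¹ * ∑ i, ‖fc (fun x => w x i) k‖ ^ 2 := by
        rw [hb]
        dsimp only
        rw [hWn]
      rw [e1, e2, Complex.re_sum, Finset.mul_sum, Finset.mul_sum, Finset.mul_sum, Finset.mul_sum,
        ← Finset.sum_add_distrib]
      apply Finset.sum_le_sum
      intro i _
      set x := fc (fun x => v x i) k with hx
      set y := fc (fun x => w x i) k with hy
      rw [hfu, ← hx, ← hy]
      have e3 : conj x * (-((lam ν α k : ℂ) * x) + y) =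
          ((-(lam ν α k * ‖x‖ ^ 2) : ℝ) : ℂ) + conj x * y := by
        have e4 : conj x * x = ((‖x‖ ^ 2 : ℝ) : ℂ) := by
          rw [mul_comm, Complex.mul_conj, Complex.normSq_eq_norm_sq]
        have e5 : conj x * (-((lam ν α k : ℂ) * x) + y) = -((lam ν α k : ℂ) * (conj x * x)) +
            conj x * y := by ring
        rw [e5, e4]
        push_cast
        ring
      rw [e3, Complex.add_re, Complex.ofReal_re]
      have e6 : (conj x * y).re ≤ ‖x‖ * ‖y‖ := by
        calc (conj x * y).re ≤ ‖conj x * y‖ := Complex.re_le_norm _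
          _ = ‖x‖ * ‖y‖ := by rw [norm_mul, Complex.norm_conj]
      have e7 := young (t := ν * W α k) (x := ‖x‖) (y := ‖y‖) (mul_pos hν hW)
      have e8 : (ν / 2 * W α k) * ‖x‖ ^ 2 ≤ lam ν α k * ‖x‖ ^ 2 :=
        mul_le_mul_of_nonneg_right hlam (sq_nonneg _)
      have e9 : (ν * W α k)⁻¹ * ‖y‖ ^ 2 = ν⁻¹ * ((W α k)⁻¹ * ‖y‖ ^ 2) := by
        rw [mul_inv]
        ring
      rw [e9] at e7
      linarith
  have hfin := hasSum_le hle hR hS
  have h5 : ν⁻¹ * ∑' k, b k ≤ ν⁻¹ * (η * ∑' k, a k) :=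
    mul_le_mul_of_nonneg_left hBG (inv_pos.2 hν).le
  have h6 : ν⁻¹ * η ≤ ν / 4 := by
    rw [inv_mul_le_iff₀ hν]
    nlinarith
  have h7 : ν⁻¹ * (η * ∑' k, a k) ≤ ν / 4 * ∑' k, a k := by
    rw [← mul_assoc]
    exact mul_le_mul_of_nonneg_right h6 hG0
  have h8 : (2 * π) ^ 3 * inner3 v u ≤ 0 := by linarith
  have h9 : 0 < (2 * π) ^ 3 := by positivity
  exact nonpos_of_mul_nonpos_right h8 h9

end Pool.Agent.H306.HD.TDIS
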