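import Pool.Agent.H306.HD.Asm2
import Pool.Agent.H306.HD.TDIS

/-! Assembly, part 3: the operator. -/

noncomputable section

namespace Pool.Agent.H306.HD.Asm

open Set MeasureTheory

open scoped Real ContDiff ENNReal

open Pool.Agent.H306.CK Pool.Agent.H306.DS

/-- The linear term. -/
def Aop (P : Prm) (v : V → V) (x : V) : V := fun i => -MG (lam P.ν P.α) v x i + KK P v x i

/-- Bounds of the pieces. -/
def OpB (P : Prm) (σ : ℝ) : Prop := ∀ s : ℝ, ∃ C : ℝ, 0 ≤ C ∧ ∀ m v, SP v →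
  hs (s + σ) (PP P m v) ≤ ENNReal.ofReal (C * (1 / 8) ^ m) * hs s v

/-- The proved facts on operators. -/
structure Facts : Prop where
  prof : S_PROF
  fcp : S_FCP
  modes : S_MODES
  lop1 : S_LOP1
  sumop : S_SUMOP
  act : ∀ P : Prm, P.Ok →
    (∀ m x i, KK P (Fm P m) x i = MG (lam P.ν P.α) (Fm P m) x i - mu P (m + 1) 0 * Fm P m x i) ∧
    ∀ m j x i, KK P (Em P m j) x i = MG (lam P.ν P.α) (Em P m j) x i - mu P m j * Em P m j x i +
    ((if j = 1 then P.c m else 0) + (if j = 0 then P.ε m else 0)) * pv P m x i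
  cont : S_CONT
  c1 : S_C1
  ser : S_SER
  comm : S_COMM
  bdm : S_BDM
  nl : S_NL
  pt : S_PT

section

variable (H : Facts) {P : Prm} (hS : Std P) {σ : ℝ} (hO : OpB P σ)

include H hS

theorem mb : Mb (lam P.ν P.α) := (H.modes H.prof H.fcp P hS.ok).2.2.1

theorem PP_sf (m : ℕ) {v : V → V} (hv : SP v) : SF (PP P m v) :=
  (H.lop1 H.prof H.fcp H.modes P hS.ok m).1 v hv

theorem PP_comb (m : ℕ) {v w : V → V} (hv : SP v) (hw : SP w) (a b : ℝ) :
    PP P m (fun x i => a * v x i + b * w x i) = fun x i => a * PP P m v x i + b * PP P m w x i :=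
  (H.lop1 H.prof H.fcp H.modes P hS.ok m).2 v w hv hw a b

include hO

theorem KK_sf {v : V → V} (hv : SP v) : SF (KK P v) :=
  (H.sumop σ (PP P) (fun m _ hv => PP_sf H hS m hv) (fun m _ _ hv hw a b => PP_comb H hS m hv hw a b)
    hO).1 v hv

theorem KK_sum {v : V → V} (hv : SP v) (x : V) (i : Fin 3) : Summable fun m => PP P m v x i :=
  (H.sumop σ (PP P) (fun m _ hv => PP_sf H hS m hv) (fun m _ _ hv hw a b => PP_comb H hS m hv hw a b)
    hO).2.1 v hv x i

theorem KK_hs {s C : ℝ} (hC : 0 ≤ C) (h : ∀ m v, SP v →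
      hs (s + σ) (PP P m v) ≤ ENNReal.ofReal (C * (1 / 8) ^ m) * hs s v) {v : V → V} (hv : SP v) :
    hs (s + σ) (KK P v) ≤ ENNReal.ofReal (3 * C) * hs s v :=
  (H.sumop σ (PP P) (fun m _ hv => PP_sf H hS m hv) (fun m _ _ hv hw a b => PP_comb H hS m hv hw a b)
    hO).2.2.2 s C hC h v hv

theorem KK_comb {v w : V → V} (hv : SP v) (hw : SP w) (a b : ℝ) :
    KK P (fun x i => a * v x i + b * w x i) = fun x i => a * KK P v x i + b * KK P w x i := by
  ext x i
  unfold KK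
  rw [← tsum_mul_left, ← tsum_mul_left,
    ← ((KK_sum H hS hO hv x i).mul_left a).tsum_add ((KK_sum H hS hO hw x i).mul_left b)]
  refine tsum_congr fun m => ?_
  rw [PP_comb H hS m hv hw]

theorem Aop_sp {v : V → V} (hv : SP v) : SP (Aop P v) := by
  have h1 := comb_sp (MG_sp (mb H hS) hv) (KK_sf H hS hO hv).sp (-1) 1
  have h2 : (fun x i => -1 * MG (lam P.ν P.α) v x i + 1 * KK P v x i) = Aop P v := by
    ext x i
    unfold Aop
    ring
  rwa [h2] at h1

theorem Aop_sf {v : V → V} (hv : SF v) : SF (Aop P v) := by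
  have h1 := comb_sf (MG_sf (mb H hS) hv) (KK_sf H hS hO hv.sp) (-1) 1
  have h2 : (fun x i => -1 * MG (lam P.ν P.α) v x i + 1 * KK P v x i) = Aop P v := by
    ext x i
    unfold Aop
    ring
  rwa [h2] at h1

theorem Aop_comb {v w : V → V} (hv : SP v) (hw : SP w) (a b : ℝ) :
    Aop P (fun x i => a * v x i + b * w x i) = fun x i => a * Aop P v x i + b * Aop P w x i := by
  ext x i
  unfold Aop
  rw [KK_comb H hS hO hv hw, MG_comb (mb H hS) hv hw]
  ring

theorem Aop_hs (hσ : -1 ≤ σ) (s : ℝ) : ∃ C : ℝ, 0 ≤ C ∧ ∀ v, SP v →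
    hs s (Aop P v) ≤ ENNReal.ofReal C * hs (s + 2) v := by
  obtain ⟨C, hC0, hC⟩ := hO (s - σ)
  have hν := hS.ok.ν_pos
  refine ⟨2 * P.ν ^ 2 + 2 * (3 * C), by positivity, fun v hv => ?_⟩
  have h1 : hs s (MG (lam P.ν P.α) v) ≤ ENNReal.ofReal (P.ν ^ 2) * hs (s + 2) v := by
    refine hs_MG_le (mb H hS) hv (fun k => ?_) (by positivity)
    have h2 : lam P.ν P.α k ≤ P.ν * W 1 k := by
      unfold lam W
      refine mul_le_mul_of_nonneg_left ?_ hν.le
      have h3 : (0 : ℝ) ≤ ∑ j, (k j : ℝ) ^ 2 := Finset.sum_nonneg fun j _ => sq_nonneg _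
      calc (∑ j, (k j : ℝ) ^ 2) ^ P.α ≤ (1 + ∑ j, (k j : ℝ) ^ 2) ^ P.α :=
            Real.rpow_le_rpow h3 (by linarith) hS.ok.α_pos.le
        _ ≤ (1 + ∑ j, (k j : ℝ) ^ 2) ^ (1 : ℝ) :=
            Real.rpow_le_rpow_of_exponent_le (by linarith) (by linarith [hS.ok.α_le])
    have h4 := TDIS.lam_nonneg (α := P.α) hν k
    have h5 := W_pos s k
    have h6 : W (s + 2) k = W 1 k ^ 2 * W s k := by
      unfold W
      have h3 : (0 : ℝ) < 1 + ∑ j, (k j : ℝ) ^ 2 := by
        have : (0 : ℝ) ≤ ∑ j, (k j : ℝ) ^ 2 := Finset.sum_nonneg fun j _ => sq_nonneg _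
        linarith
      rw [Real.rpow_add h3, Real.rpow_one, Real.rpow_two, mul_comm]
    rw [h6]
    have h7 : lam P.ν P.α k ^ 2 ≤ (P.ν * W 1 k) ^ 2 := by gcongr
    calc lam P.ν P.α k ^ 2 * W s k ≤ (P.ν * W 1 k) ^ 2 * W s k := by gcongr
      _ = _ := by ring
  have h2 : hs s (KK P v) ≤ ENNReal.ofReal (3 * C) * hs (s + 2) v := by
    have h3 := KK_hs H hS hO (s := s - σ) hC0 hC hv
    rw [sub_add_cancel] at h3
    refine h3.trans ?_
    gcongr
    exact hs_mono (by linarith) v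
  have h3 := hs_add (t := s) (MG_sp (mb H hS) (v := fun x i => (-1) * v x i + 0 * v x i)
    (comb_sp hv hv (-1) 0)).cp (KK_sf H hS hO hv).cp
  have h4 : (fun x => MG (lam P.ν P.α) (fun x i => (-1) * v x i + 0 * v x i) x + KK P v x) =
      Aop P v := by
    rw [MG_comb (mb H hS) hv hv]
    ext x i
    simp only [Pi.add_apply, Aop]
    ring
  rw [h4] at h3
  have h5 : hs s (MG (lam P.ν P.α) (fun x i => (-1) * v x i + 0 * v x i)) =
      hs s (MG (lam P.ν P.α) v) := by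
    rw [MG_comb (mb H hS) hv hv]
    have : (fun x i => -1 * MG (lam P.ν P.α) v x i + 0 * MG (lam P.ν P.α) v x i) =
        fun x i => (-1) * MG (lam P.ν P.α) v x i := by
      ext x i; ring
    rw [this, hs_smul]
    simp
  rw [h5] at h3
  refine h3.trans ?_
  calc 2 * hs s (MG (lam P.ν P.α) v) + 2 * hs s (KK P v) ≤
        2 * (ENNReal.ofReal (P.ν ^ 2) * hs (s + 2) v) +
          2 * (ENNReal.ofReal (3 * C) * hs (s + 2) v) := by gcongr
    _ = _ := by
      rw [ENNReal.ofReal_add (by positivity) (by positivity), ENNReal.ofReal_mul (p := 2) (by norm_num),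
        ENNReal.ofReal_mul (p := 2) (by norm_num), add_mul]
      simp only [ENNReal.ofReal_ofNat]
      ring

omit hO in
/-- The action on the modes. -/
theorem Aop_F (m : ℕ) (x : V) (i : Fin 3) : Aop P (Fm P m) x i = -mu P (m + 1) 0 * Fm P m x i := by
  unfold Aop
  rw [(H.act P hS.ok).1]
  ring

omit hO in
theorem Aop_E (m j : ℕ) (x : V) (i : Fin 3) : Aop P (Em P m j) x i = -mu P m j * Em P m j x i +
    ((if j = 1 then P.c m else 0) + (if j = 0 then P.ε m else 0)) * pv P m x i := by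
  unfold Aop
  rw [(H.act P hS.ok).2]
  ring

end

end Pool.Agent.H306.HD.Asm
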