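import Pool.Agent.H306.HD.Asm3

/-! Assembly, part 4: the equation. -/

noncomputable section

namespace Pool.Agent.H306.HD.Asm

open Set MeasureTheory

open scoped Real ContDiff ENNReal

open Pool.Agent.H306.CK Pool.Agent.H306.DS

/-- The field. -/
def UU (P : Prm) (b : ℕ → ℝ → ℝ) (g : ℕ → ℕ → ℝ → ℝ) (t : ℝ) (x : V) : V := fun i =>
  ∑' r, yy b g r t * ph P r x i

theorem Fm_one (P : Prm) (m : ℕ) (x : V) : Fm P m x 1 = 0 := rfl

theorem Fm_two (P : Prm) (m : ℕ) (x : V) : Fm P m x 2 = 0 := rfl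

theorem Fm_zero (P : Prm) (m : ℕ) (x : V) :
    Fm P m x 0 = hχ m (x 1) * Real.cos (P.K (m + 1) * x 1) := rfl

theorem Em_zero (P : Prm) (m j : ℕ) (x : V) : Em P m j x 0 = 0 := rfl

theorem Em_one (P : Prm) (m j : ℕ) (x : V) : Em P m j x 1 = 0 := rfl

theorem Em_two (P : Prm) (m j : ℕ) (x : V) : Em P m j x 2 = X P m (x 1) * cmode P m j x := rfl

/-- Derivatives vanish in directions on which a function does not depend. -/
theorem pd_const_dir {f : V → ℝ} (j : Fin 3) (h : ∀ x : V, ∀ τ : ℝ, f (x + τ • Pi.single j 1) = f x)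
    (x : V) (hf : DifferentiableAt ℝ f x) : pd j f x = 0 := by
  unfold pd
  have h1 : HasDerivAt (fun τ : ℝ => f (x + τ • Pi.single j 1)) (fderiv ℝ f x (Pi.single j 1)) 0 := by
    have h2 : HasFDerivAt f (fderiv ℝ f x) (x + (0 : ℝ) • Pi.single j 1) := by
      rw [zero_smul, add_zero]
      exact hf.hasFDerivAt
    have h3 : HasDerivAt (fun τ : ℝ => x + τ • (Pi.single j 1 : V)) (Pi.single j 1) 0 := by
      have := ((hasDerivAt_id (0 : ℝ)).smul_const (Pi.single j 1 : V)).const_add x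
      simpa using this
    exact h2.comp_hasDerivAt (0 : ℝ) h3
  have h4 : HasDerivAt (fun τ : ℝ => f (x + τ • Pi.single j 1)) 0 0 := by
    simp only [h]
    exact hasDerivAt_const _ _
  exact h1.unique h4

section

variable (H : Facts) {P : Prm} (hS : Std P)

include H hS

theorem phs (r : ℕ ⊕ ℕ × ℕ) : SF (ph P r) := ph_sf hS H.modes H.prof H.fcp r

theorem ph_diff (r : ℕ ⊕ ℕ × ℕ) (i : Fin 3) (x : V) :
    DifferentiableAt ℝ (fun z => ph P r z i) x :=
  ((phs H hS r).sp.comp i).1.differentiable (by simp) x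

theorem pd_ph_0 (r : ℕ ⊕ ℕ × ℕ) (x : V) : pd 0 (fun z => ph P r z 0) x = 0 := by
  refine pd_const_dir 0 (fun x τ => ?_) x (ph_diff H hS r 0 x)
  rcases r with m | r
  · change Fm P m _ 0 = Fm P m x 0
    simp [Fm_zero]
  · rfl

theorem pd_ph_2 (r : ℕ ⊕ ℕ × ℕ) (i : Fin 3) (x : V) : pd 2 (fun z => ph P r z i) x = 0 := by
  refine pd_const_dir 2 (fun x τ => ?_) x (ph_diff H hS r i x)
  have h0 : (x + τ • Pi.single 2 1 : V) 0 = x 0 := by simp
  have h1 : (x + τ • Pi.single 2 1 : V) 1 = x 1 := by simp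
  rcases r with m | ⟨m, j⟩
  · change Fm P m _ i = Fm P m x i
    unfold Fm
    rw [h1]
  · change Em P m j _ i = Em P m j x i
    unfold Em cmode
    rw [h0, h1]

/-- Pointwise bound. -/
theorem pt_bd : ∃ C : ℝ, 0 ≤ C ∧ ∀ r x i, |ph P r x i| ≤ C * Real.sqrt (hr 3 (ph P r)) := by
  obtain ⟨C, hC0, hC⟩ := TCONT.term_le
  refine ⟨C, hC0, fun r x i => ?_⟩
  have := hC (ph P r) 1 (phs H hS r).sp x i
  simpa using this

section

variable {θ₀ T : ℝ} {b : ℕ → ℝ → ℝ} {g : ℕ → ℕ → ℝ → ℝ} (h : ChSol P θ₀ T b g)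

include h

theorem UU_sf {t : ℝ} (ht : t ∈ Ico 0 T) : SF (UU P b g t) :=
  (H.cont _ (ph P) (fun r => yy b g r t) (fun r => (phs H hS r).sp)
    (fun s => ysum hS h H.ser H.prof H.comm H.bdm ht s)).2.1 (fun r => phs H hS r)

theorem UU_hs (s : ℝ) {t : ℝ} (ht : t ∈ Ico 0 T) : ∃ C : ℝ, ∀ τ ∈ Icc 0 t,
    hs s (UU P b g τ) ≤ ENNReal.ofReal C := by
  obtain ⟨R, hR0, hR⟩ := ybd hS h ht
  have hs1 := sumI hS H.ser H.prof H.comm H.bdm s
  refine ⟨(R * ∑' r, uI P r * Real.sqrt (hr s (ph P r))) ^ 2, fun τ hτ => ?_⟩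
  have hτT : τ ∈ Ico 0 T := ⟨hτ.1, hτ.2.trans_lt ht.2⟩
  have hys := fun s => ysum hS h H.ser H.prof H.comm H.bdm hτT s
  have h1 := (H.cont _ (ph P) (fun r => yy b g r τ) (fun r => (phs H hS r).sp) hys).2.2.2.1 s
  have h2 : hr s (UU P b g τ) ≤ (R * ∑' r, uI P r * Real.sqrt (hr s (ph P r))) ^ 2 := by
    refine h1.trans ?_
    have h3 : 0 ≤ ∑' r, |yy b g r τ| * Real.sqrt (hr s (ph P r)) :=
      tsum_nonneg fun r => by positivity
    refine pow_le_pow_left₀ h3 ?_ 2
    rw [← tsum_mul_left]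
    refine (hys s).tsum_le_tsum (fun r => ?_) (hs1.mul_left R)
    rw [← mul_assoc]
    gcongr
    exact (hR τ hτ r).1
  rw [← ofReal_hr (UU_sf H hS h hτT).sp]
  exact ENNReal.ofReal_le_ofReal h2

/-- Regularity in time and space, and the derivatives. -/
theorem UU_c1 (hT : 0 < T) :
    ContDiffOn ℝ 1 (fun z : ℝ × V => UU P b g z.1 z.2) (Ico 0 T ×ˢ univ) ∧
    ∀ t ∈ Ico 0 T, ∀ x i,
      HasDerivWithinAt (fun s => UU P b g s x i) (∑' r, yd P b g r t * ph P r x i) (Ico 0 T) t ∧
      ∀ j, HasSum (fun r => yy b g r t * pd j (fun z => ph P r z i) x)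
        (pd j (fun z => UU P b g t z i) x) := by
  obtain ⟨C0, hC0, hC0'⟩ := TCONT.iter_le' 0
  obtain ⟨C1, hC1, hC1'⟩ := TCONT.iter_le' 1
  refine H.c1 _ (ph P) (yy b g) (yd P b g) (fun r => (C0 + C1) * Real.sqrt (hr 4 (ph P r))) T hT
    (fun r => (phs H hS r).1.of_le (by exact_mod_cast le_top)) (fun r x i => ?_) (fun r t ht => ?_)
    (fun r => ?_) (fun t ht => ?_)
  · have h0 := hC0' (ph P r) (phs H hS r).sp x i
    have h1 := hC1' (ph P r) (phs H hS r).sp x i
    rw [norm_iteratedFDeriv_zero, Real.norm_eq_abs] at h0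
    rw [norm_iteratedFDeriv_one] at h1
    have h34 : Real.sqrt (hr ((0 : ℕ) + 3) (ph P r)) ≤ Real.sqrt (hr 4 (ph P r)) := by
      apply Real.sqrt_le_sqrt
      unfold hr
      exact ENNReal.toReal_mono (hs_lt_top (phs H hS r).sp _).ne (hs_mono (by norm_num) _)
    have h44 : Real.sqrt (hr ((1 : ℕ) + 3) (ph P r)) = Real.sqrt (hr 4 (ph P r)) := by norm_num
    rw [h44] at h1
    have hq := Real.sqrt_nonneg (hr 4 (ph P r))
    refine ⟨?_, fun j => ?_⟩
    · nlinarith [mul_le_mul_of_nonneg_left h34 hC0, mul_nonneg hC1 hq]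
    · have h5 : |pd j (fun z => ph P r z i) x| ≤ ‖fderiv ℝ (fun z => ph P r z i) x‖ := by
        unfold pd
        rw [← Real.norm_eq_abs]
        refine (ContinuousLinearMap.le_opNorm _ _).trans ?_
        have : ‖(Pi.single j 1 : V)‖ ≤ 1 := by
          rw [pi_norm_le_iff_of_nonneg zero_le_one]
          intro k
          by_cases hk : k = j
          · subst hk; simp
          · simp [hk]
        exact mul_le_of_le_one_right (norm_nonneg _) this
      nlinarith [mul_nonneg hC0 hq]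
  · rcases r with m | r
    · exact h.db m t ht
    · exact h.dg r.1 r.2 t ht
  · -- continuity of the derivatives
    have hb : ∀ m, ContinuousOn (b m) (Ico 0 T) := fun m t ht => (h.db m t ht).continuousWithinAt
    have hg : ∀ m i, ContinuousOn (g m i) (Ico 0 T) := fun m i t ht =>
      (h.dg m i t ht).continuousWithinAt
    have hnl : ∀ m i, ContinuousOn (fun t => nl P (fun m => b m t) (fun m j => g m j t) m i)
        (Ico 0 T) := by
      intro m i
      have h1 := hb m
      rcases i with _ | _ | i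
      · have h2 := hg m 1
        simp only [nl]
        fun_prop
      · have h2 := hg m 0
        have h3 := hg m 2
        simp only [nl]
        fun_prop
      · have h2 := hg m (i + 1)
        have h3 := hg m (i + 3)
        simp only [nl]
        fun_prop
    have hpre : ∀ m i, ContinuousOn (fun t => pre P (fun m j => g m j t) m i) (Ico 0 T) := by
      intro m i
      rcases m with _ | m
      · simp only [pre]
        exact continuousOn_const
      · rcases i with _ | i
        · have h2 := hg m 0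
          have h3 := hg m 1
          simp only [pre]
          fun_prop
        · simp only [pre]
          exact continuousOn_const
    rcases r with m | r
    · have h1 := hb m
      have h2 := hg m 0
      have h3 := hg m 1
      change ContinuousOn (fun t => -mu P (m + 1) 0 * b m t + P.c m * g m 1 t + P.ε m * g m 0 t) _
      fun_prop
    · have h1 := hg r.1 r.2
      have h2 := hnl r.1 r.2
      have h3 := hpre r.1 r.2
      change ContinuousOn (fun t => -mu P r.1 r.2 * g r.1 r.2 t -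
        nl P (fun m => b m t) (fun m j => g m j t) r.1 r.2 + pre P (fun m j => g m j t) r.1 r.2) _
      fun_prop
  · obtain ⟨R, hR0, hR⟩ := ybd hS h ht
    refine ⟨fun r => (2 * R * (C0 + C1)) * (uI P r * Real.sqrt (hr 4 (ph P r))),
      (sumI hS H.ser H.prof H.comm H.bdm 4).mul_left _, fun r s hs => ?_⟩
    obtain ⟨h1, h2⟩ := hR s hs r
    have hq := Real.sqrt_nonneg (hr 4 (ph P r))
    calc (|yy b g r s| + |yd P b g r s|) * ((C0 + C1) * Real.sqrt (hr 4 (ph P r))) ≤
          (R * uI P r + R * uI P r) * ((C0 + C1) * Real.sqrt (hr 4 (ph P r))) := by gcongr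
      _ = _ := by ring

end

end

end Pool.Agent.H306.HD.Asm
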