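import Pool.Agent.H306.HD.Asm4

/-! Assembly, part 5: the momentum equation. -/

noncomputable section

namespace Pool.Agent.H306.HD.Asm

open Set MeasureTheory

open scoped Real ContDiff ENNReal

open Pool.Agent.H306.CK Pool.Agent.H306.DS

section

variable (H : Facts) {P : Prm} (hS : Std P) {θ₀ T : ℝ} {b : ℕ → ℝ → ℝ} {g : ℕ → ℕ → ℝ → ℝ}
  (h : ChSol P θ₀ T b g)

include H hS h

theorem sum_identity {σ : ℝ} (hO : OpB P σ) (hσ : -1 ≤ σ) {t : ℝ} (ht : t ∈ Ico 0 T) (x : V)
    (i : Fin 3) : ∑' r, yd P b g r t * ph P r x i +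
      ∑' r : ℕ × ℕ, nl P (fun m => b m t) (fun m j => g m j t) r.1 r.2 * Em P r.1 r.2 x i =
    Aop P (UU P b g t) x i := by
  obtain ⟨R, hR0, hR⟩ := cbd hS h ht
  obtain ⟨C, hC0, hC⟩ := pt_bd H hS
  have htt : t ∈ Icc 0 t := ⟨ht.1, le_rfl⟩
  obtain ⟨hR1, hR2⟩ := hR t htt
  have sF := sumF hS H.ser H.prof H.comm H.bdm 3
  have sG := sumG hS H.ser H.prof H.comm H.bdm 3
  have sP := sumP hS H.ser H.prof H.comm H.bdm 3
  have bF : ∀ m, |Fm P m x i| ≤ C * Real.sqrt (hr 3 (Fm P m)) := fun m => hC (Sum.inl m) x i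
  have bE : ∀ r : ℕ × ℕ, |Em P r.1 r.2 x i| ≤ C * Real.sqrt (hr 3 (Em P r.1 r.2)) :=
    fun r => hC (Sum.inr r) x i
  -- the five families
  have mkF : ∀ c : ℕ → ℝ, (∀ m, |c m| ≤ R * uF P m) → Summable fun m => c m * Fm P m x i := by
    intro c hc
    refine Summable.of_norm_bounded (sF.mul_left (R * C)) fun m => ?_
    rw [Real.norm_eq_abs, abs_mul]
    have hu := uF_nn hS m
    calc |c m| * |Fm P m x i| ≤ (R * uF P m) * (C * Real.sqrt (hr 3 (Fm P m))) :=
          mul_le_mul (hc m) (bF m) (abs_nonneg _) (by positivity)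
      _ = _ := by ring
  have mkG : ∀ c : ℕ × ℕ → ℝ, (∀ r, |c r| ≤ R * uG P r) →
      Summable fun r : ℕ × ℕ => c r * Em P r.1 r.2 x i := by
    intro c hc
    refine Summable.of_norm_bounded (sG.mul_left (R * C)) fun r => ?_
    rw [Real.norm_eq_abs, abs_mul]
    have hu := uG_nn hS r
    calc |c r| * |Em P r.1 r.2 x i| ≤ (R * uG P r) * (C * Real.sqrt (hr 3 (Em P r.1 r.2))) :=
          mul_le_mul (hc r) (bE r) (abs_nonneg _) (by positivity)
      _ = _ := by ring
  have s1F := mkF (fun m => -(mu P (m + 1) 0 * b m t)) fun m => by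
    rw [abs_neg]; exact (hR1 m).2.1
  have s1G := mkG (fun r => -(mu P r.1 r.2 * g r.1 r.2 t)) fun r => by
    rw [abs_neg]; exact (hR2 r.1 r.2).2.1
  have s2 := mkF (fun m => P.c m * g m 1 t + P.ε m * g m 0 t) fun m => by
    refine (hR1 m).2.2.trans ?_
    gcongr
    exact uP_le hS m
  have s3 : Summable fun m => (P.c m * g m 1 t + P.ε m * g m 0 t) * Em P (m + 1) 0 x i := by
    refine Summable.of_norm_bounded (sP.mul_left (R * C)) fun m => ?_
    rw [Real.norm_eq_abs, abs_mul]
    have hu : 0 ≤ uP P m := uR_nn hS (m + 1, 0)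
    calc |P.c m * g m 1 t + P.ε m * g m 0 t| * |Em P (m + 1) 0 x i| ≤
          (R * uP P m) * (C * Real.sqrt (hr 3 (Em P (m + 1) 0))) :=
          mul_le_mul (hR1 m).2.2 (bE (m + 1, 0)) (abs_nonneg _) (by positivity)
      _ = _ := by ring
  have s4 := mkG (fun r => nl P (fun m => b m t) (fun m j => g m j t) r.1 r.2) fun r =>
    (hR2 r.1 r.2).2.2
  have hpre : HasSum (fun r : ℕ × ℕ => pre P (fun m j => g m j t) r.1 r.2 * Em P r.1 r.2 x i)
      (∑' m, (P.c m * g m 1 t + P.ε m * g m 0 t) * Em P (m + 1) 0 x i) := by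
    rw [← inj_succ.hasSum_iff]
    · exact s3.hasSum
    · intro r hr
      rw [pre_zero P _ hr, zero_mul]
  -- the time derivative
  have e1 : HasSum (fun r => yd P b g r t * ph P r x i)
      ((∑' m, -(mu P (m + 1) 0 * b m t) * Fm P m x i +
        ∑' m, (P.c m * g m 1 t + P.ε m * g m 0 t) * Fm P m x i) +
      ((∑' r : ℕ × ℕ, -(mu P r.1 r.2 * g r.1 r.2 t) * Em P r.1 r.2 x i -
        ∑' r : ℕ × ℕ, nl P (fun m => b m t) (fun m j => g m j t) r.1 r.2 * Em P r.1 r.2 x i) +
        ∑' m, (P.c m * g m 1 t + P.ε m * g m 0 t) * Em P (m + 1) 0 x i)) := by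
    refine HasSum.sum ?_ ?_
    · refine (s1F.hasSum.add s2.hasSum).congr_fun fun m => ?_
      change (-mu P (m + 1) 0 * b m t + P.c m * g m 1 t + P.ε m * g m 0 t) * Fm P m x i = _
      ring
    · refine ((s1G.hasSum.sub s4.hasSum).add hpre).congr_fun fun r => ?_
      change (-mu P r.1 r.2 * g r.1 r.2 t - nl P (fun m => b m t) (fun m j => g m j t) r.1 r.2 +
        pre P (fun m j => g m j t) r.1 r.2) * Em P r.1 r.2 x i = _
      ring
  -- the operator
  have hA := (H.cont _ (ph P) (fun r => yy b g r t) (fun r => (phs H hS r).sp)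
    (fun s => ysum hS h H.ser H.prof H.comm H.bdm ht s)).2.2.2.2 (Aop P) 2
    (fun v hv => Aop_sp H hS hO hv) (fun v w hv hw a c => Aop_comb H hS hO hv hw a c)
    (fun s => Aop_hs H hS hO hσ s) x i
  change HasSum (fun r => yy b g r t * Aop P (ph P r) x i) (Aop P (UU P b g t) x i) at hA
  have hsG : Summable fun r : ℕ × ℕ => g r.1 r.2 t *
      (((if r.2 = 1 then P.c r.1 else 0) + (if r.2 = 0 then P.ε r.1 else 0)) * pv P r.1 x i) := by
    have h1 : Summable fun r : ℕ × ℕ => g r.1 r.2 t * Aop P (Em P r.1 r.2) x i :=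
      hA.summable.comp_injective Sum.inr_injective
    refine (h1.sub s1G).congr fun r => ?_
    rw [Aop_E H hS]
    ring
  have hfib : ∀ m, HasSum (fun j => g m j t *
      (((if j = 1 then P.c m else 0) + (if j = 0 then P.ε m else 0)) * pv P m x i))
      ((P.c m * g m 1 t + P.ε m * g m 0 t) * Fm P m x i +
        (P.c m * g m 1 t + P.ε m * g m 0 t) * Em P (m + 1) 0 x i) := by
    intro m
    have h1 := hasSum_sum_of_ne_finset_zero (s := Finset.range 2) (f := fun j => g m j t *
      (((if j = 1 then P.c m else 0) + (if j = 0 then P.ε m else 0)) * pv P m x i))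
      (L := SummationFilter.unconditional ℕ) (fun j hj => by
        have hj2 : 2 ≤ j := by
          have h9 : ¬ j < 2 := fun h => hj (Finset.mem_range.2 h)
          omega
        rw [if_neg (by omega), if_neg (by omega)]
        ring)
    convert h1 using 1
    rw [Finset.sum_range_succ, Finset.sum_range_succ, Finset.sum_range_zero]
    simp only [pv]
    norm_num
    ring
  have hG2 := (hsG.hasSum.prod_fiberwise hfib).unique (s2.hasSum.add s3.hasSum)
  have e2 : HasSum (fun r => yy b g r t * Aop P (ph P r) x i)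
      (∑' m, -(mu P (m + 1) 0 * b m t) * Fm P m x i +
      (∑' r : ℕ × ℕ, -(mu P r.1 r.2 * g r.1 r.2 t) * Em P r.1 r.2 x i +
        ∑' r : ℕ × ℕ, g r.1 r.2 t * (((if r.2 = 1 then P.c r.1 else 0) +
          (if r.2 = 0 then P.ε r.1 else 0)) * pv P r.1 x i))) := by
    refine HasSum.sum ?_ ?_
    · refine s1F.hasSum.congr_fun fun m => ?_
      change b m t * Aop P (Fm P m) x i = _
      rw [Aop_F H hS]
      ring
    · refine (s1G.hasSum.add hsG.hasSum).congr_fun fun r => ?_
      change g r.1 r.2 t * Aop P (Em P r.1 r.2) x i = _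
      rw [Aop_E H hS]
      ring
  rw [hA.unique e2, hG2, e1.tsum_eq]
  ring

/-- The field is a solution. -/
theorem UU_sol {σ : ℝ} (hO : OpB P σ) (hσ : -1 ≤ σ) (hT : 0 < T) :
    IsSol (Aop P) (Ico 0 T) (UU P b g) (fun _ _ => 0) := by
  obtain ⟨c1, c2⟩ := UU_c1 H hS h hT
  refine ⟨c1, contDiffOn_const, fun t ht => (UU_sf H hS h ht).2.1, fun t _ i x => rfl,
    fun t ht => (UU_sf H hS h ht).2.2, fun t ht x i => ?_⟩
  have hI := sum_identity H hS h hO hσ ht x i
  have hd := ((c2 t ht x i).1).derivWithin (uniqueDiffOn_Ico 0 T t ht)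
  have hp : pd i (fun _ : V => (0 : ℝ)) x = 0 := by
    unfold pd
    simp
  -- the derivatives
  have d0 : pd 0 (fun y => UU P b g t y 0) x = 0 := by
    refine ((c2 t ht x 0).2 0).unique ?_
    simp only [pd_ph_0 H hS, mul_zero]
    exact hasSum_zero
  have d2 : ∀ i, pd 2 (fun y => UU P b g t y i) x = 0 := by
    intro i
    refine ((c2 t ht x i).2 2).unique ?_
    simp only [pd_ph_2 H hS, mul_zero]
    exact hasSum_zero
  have hph1 : ∀ r z, ph P r z 1 = 0 := by
    intro r z
    rcases r with m | r <;> rfl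
  have u1 : ∀ z, UU P b g t z 1 = 0 := by
    intro z
    unfold UU
    simp only [hph1, mul_zero, tsum_zero]
  have d1 : ∀ j, pd j (fun y => UU P b g t y 1) x = 0 := by
    intro j
    simp only [u1]
    unfold pd
    simp
  have hmain : ∑ j, UU P b g t x j * pd j (fun y => UU P b g t y i) x =
      ∑' r : ℕ × ℕ, nl P (fun m => b m t) (fun m j => g m j t) r.1 r.2 * Em P r.1 r.2 x i := by
    rw [Fin.sum_univ_three, d2, u1, zero_mul, mul_zero, add_zero, add_zero]
    fin_cases i
    · change UU P b g t x 0 * pd 0 (fun y => UU P b g t y 0) x = _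
      rw [d0, mul_zero]
      change 0 = ∑' r : ℕ × ℕ, nl P (fun m => b m t) (fun m j => g m j t) r.1 r.2 *
        Em P r.1 r.2 x 0
      simp only [Em_zero, mul_zero, tsum_zero]
    · change UU P b g t x 0 * pd 0 (fun y => UU P b g t y 1) x = _
      rw [d1, mul_zero]
      change 0 = ∑' r : ℕ × ℕ, nl P (fun m => b m t) (fun m j => g m j t) r.1 r.2 *
        Em P r.1 r.2 x 1
      simp only [Em_one, mul_zero, tsum_zero]
    · change UU P b g t x 0 * pd 0 (fun y => UU P b g t y 2) x = ∑' r : ℕ × ℕ,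
        nl P (fun m => b m t) (fun m j => g m j t) r.1 r.2 * Em P r.1 r.2 x 2
      obtain ⟨R, hR0, hR⟩ := h.bd t ht
      rw [← H.nl H.prof P hS.ok (fun m => b m t) (fun m j => g m j t) x (fun m => ?_)]
      · congr 1
        · -- the component 0
          have h1 := ((H.cont _ (ph P) (fun r => yy b g r t) (fun r => (phs H hS r).sp)
            (fun s => ysum hS h H.ser H.prof H.comm H.bdm ht s)).2.2.1 x 0)
          have h2 : HasSum (fun r => yy b g r t * ph P r x 0) (∑' m, b m t * Fm P m x 0 + 0) := by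
            refine HasSum.sum ?_ ?_
            · exact (h1.summable.comp_injective Sum.inl_injective).hasSum
            · refine hasSum_zero.congr_fun fun r => ?_
              change g r.1 r.2 t * Em P r.1 r.2 x 0 = 0
              rw [Em_zero, mul_zero]
          rw [add_zero] at h2
          exact h1.unique h2
        · have h1 := (c2 t ht x 2).2 0
          have hF : ∀ m, pd 0 (fun z => Fm P m z 2) x = 0 := by
            intro m
            simp only [Fm_two]
            unfold pd
            simp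
          have h2 : HasSum (fun r => yy b g r t * pd 0 (fun z => ph P r z 2) x)
              (0 + ∑' r : ℕ × ℕ, g r.1 r.2 t * pd 0 (fun z => Em P r.1 r.2 z 2) x) := by
            refine HasSum.sum ?_ ?_
            · refine hasSum_zero.congr_fun fun m => ?_
              change b m t * pd 0 (fun z => Fm P m z 2) x = 0
              rw [hF, mul_zero]
            · exact (h1.summable.comp_injective Sum.inr_injective).hasSum
          rw [zero_add] at h2
          exact h1.unique h2
      · -- summability over the harmonics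
        have h5 := (hR t ⟨ht.1, le_rfl⟩ m).2
        refine Summable.of_nonneg_of_le (fun j => abs_nonneg _) h5 ?_
        refine Summable.mul_left _ (Summable.mul_right _ ?_)
        exact summable_geometric_of_lt_one (by norm_num) (by norm_num)
  rw [hmain, hp, add_zero]
  change derivWithin (fun s => UU P b g s x i) (Ico 0 T) t + _ = _
  rw [hd]
  exact hI

/-- The vorticity at the test points. -/
theorem UU_curl (hT : 0 < T) (m : ℕ) : ∃ x : V, ∀ t ∈ Ico 0 T,
    P.K (m + 1) * b m t ≤ ‖curl (UU P b g t) x‖ := by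
  obtain ⟨c1, c2⟩ := UU_c1 H hS h hT
  obtain ⟨x, hx⟩ := H.pt P hS.ok m
  refine ⟨x, fun t ht => ?_⟩
  have hph1 : ∀ r z, ph P r z 1 = 0 := by
    intro r z
    rcases r with m | r <;> rfl
  have u1 : ∀ z, UU P b g t z 1 = 0 := by
    intro z
    unfold UU
    simp only [hph1, mul_zero, tsum_zero]
  have d1 : pd 0 (fun y => UU P b g t y 1) x = 0 := by
    simp only [u1]
    unfold pd
    simp
  have d0 : pd 1 (fun y => UU P b g t y 0) x = b m t * P.K (m + 1) := by
    refine ((c2 t ht x 0).2 1).unique ?_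
    have h1 : HasSum (fun r => yy b g r t * pd 1 (fun z => ph P r z 0) x)
        (b m t * P.K (m + 1) + 0) := by
      refine HasSum.sum ?_ ?_
      · have h2 := hasSum_ite_eq m (b m t * (P.K (m + 1) : ℝ))
        refine h2.congr_fun fun m' => ?_
        change b m' t * pd 1 (fun z => Fm P m' z 0) x = _
        rw [hx m']
        split_ifs with h3
        · rw [h3]
        · rw [mul_zero]
      · refine hasSum_zero.congr_fun fun r => ?_
        change g r.1 r.2 t * pd 1 (fun z => Em P r.1 r.2 z 0) x = 0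
        simp only [Em_zero]
        unfold pd
        simp
    rwa [add_zero] at h1
  have h3 : curl (UU P b g t) x 2 = -(b m t * P.K (m + 1)) := by
    change pd 0 (fun y => UU P b g t y 1) x - pd 1 (fun y => UU P b g t y 0) x = _
    rw [d1, d0, zero_sub]
  have h4 := norm_le_pi_norm (curl (UU P b g t) x) 2
  rw [h3, norm_neg, Real.norm_eq_abs] at h4
  have h5 := le_abs_self (b m t * P.K (m + 1))
  linarith

omit H hS in
theorem UU_zero : UU P b g 0 = fun x i => θ₀ * Em P 0 0 x i := by
  ext x i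
  unfold UU
  rw [tsum_eq_single (Sum.inr (0, 0)) (fun r hr => ?_)]
  · change g 0 0 0 * Em P 0 0 x i = _
    rw [h.g0, if_pos ⟨rfl, rfl⟩]
  · rcases r with m | ⟨m, j⟩
    · change b m 0 * _ = 0
      rw [h.b0, zero_mul]
    · change g m j 0 * _ = 0
      rw [h.g0, if_neg, zero_mul]
      rintro ⟨rfl, rfl⟩
      exact hr rfl

end

end Pool.Agent.H306.HD.Asm
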