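import Pool.Agent.H306.HD.Stm4

/-! The form inequality for the perturbation. -/

noncomputable section

namespace Pool.Agent.H306.HD.TFORM

open Set MeasureTheory

open scoped Real ContDiff ENNReal ComplexConjugate

open Pool.Agent.H306.CK Pool.Agent.H306.DS

theorem fc_one (k : Fin 3 → ℤ) : fc (fun _ => 1) k = if k = 0 then ((2 * π : ℝ) : ℂ) ^ 3 else 0 := by
  rw [fc_eq]
  unfold fcC
  simp only [Complex.ofReal_one, one_mul]
  rw [int_ex]
  simp only [neg_eq_zero]

theorem fc_const (c : ℝ) (k : Fin 3 → ℤ) :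
    fc (fun _ => c) k = if k = 0 then c * ((2 * π : ℝ) : ℂ) ^ 3 else 0 := by
  have h := fc_smul c (fun _ => 1) k
  simp only [mul_one] at h
  rw [h, fc_one]
  split_ifs <;> simp

theorem fc_sub_const {f : V → ℝ} (hf : Continuous f) (c : ℝ) (k : Fin 3 → ℤ) :
    fc (fun x => f x - c) k = fc f k - (if k = 0 then c * ((2 * π : ℝ) : ℂ) ^ 3 else 0) := by
  have h := fc_add (f := f) (g := fun _ => -c) hf continuous_const k
  have e : (fun x => f x + -c) = fun x => f x - c := by
    ext x
    ring
  rw [e] at h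
  rw [h, fc_const]
  split_ifs
  · push_cast
    ring
  · ring

/-- The mean. -/
def mean (v : V → V) (i : Fin 3) : ℝ := ((2 * π) ^ 3)⁻¹ * (fc (fun x => v x i) 0).re

theorem fc_zero_real (f : V → ℝ) : (((fc f 0).re : ℝ) : ℂ) = fc f 0 := by
  have h := fc_conj f 0
  rw [neg_zero] at h
  exact Complex.conj_eq_iff_re.1 h

theorem fc_v0 {v : V → V} (hv : SP v) (i : Fin 3) (k : Fin 3 → ℤ) :
    fc (fun x => v x i - mean v i) k = if k = 0 then 0 else fc (fun x => v x i) k := by
  have hpi := Real.pi_pos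
  rw [fc_sub_const (hv.comp i).cont]
  split_ifs with h
  · subst h
    rw [← fc_zero_real (fun x => v x i)]
    unfold mean
    have h6 : ((2 * π : ℝ) : ℂ) ≠ 0 := by
      exact_mod_cast (by positivity : (2 * π : ℝ) ≠ 0)
    push_cast at h6 ⊢
    field_simp
    ring
  · ring

theorem sp_v0 {v : V → V} (hv : SP v) (c : V) : SP (fun x i => v x i - c i) := by
  refine ⟨contDiff_pi.2 fun i => (contDiff_pi.1 hv.1 i).sub contDiff_const, fun j x => ?_⟩
  ext i
  simp only
  rw [hv.2 j x]

theorem form : S_FORM := by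
  intro hDIS hSUM hL1 hL2 hPROF hFCP hMODES P σ C hP hodd hσ hC h12 hbd hbd2 v hv
  have hLOP1 := hL1 hPROF hFCP hMODES P hP
  have hLOP2 := hL2 hPROF hFCP hMODES hL1 P hP
  have hα := hP.α_pos
  have hα2 := hP.α_le
  have hν := hP.ν_pos
  obtain ⟨s1, -, s3, s4⟩ := hSUM σ (PP P) (fun m v hv => (hLOP1 m).1 v hv)
    (fun m v w hv hw a b => (hLOP1 m).2 v w hv hw a b) hbd
  have hv0 : SP (fun x i => v x i - mean v i) := sp_v0 hv (mean v)
  -- the perturbation does not see the mean
  have hKK : KK P (fun x i => v x i - mean v i) = KK P v := by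
    funext x i
    unfold KK
    exact tsum_congr fun m => by rw [(hLOP2 m).1 v hv (mean v)]
  have hw : SP (fun x i => KK P v x i) := (s1 v hv).sp
  have hw0 : ∀ i, fc (fun x => KK P v x i) 0 = 0 := by
    intro i
    have h1 := s3 v hv i 0
    have h2 : (fun m => fc (fun x => PP P m v x i) 0) = fun _ => 0 := by
      funext m
      exact (hLOP2 m).2 (hodd m) v hv i
    rw [h2] at h1
    exact h1.unique hasSum_zero
  refine hDIS P.ν P.α (3 * C) v (fun x i => KK P v x i) hν hα (by linarith) (by linarith)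
    (by linarith) hv hw hw0 ?_
  have h1 := s4 (-P.α - σ) C hC (fun m v hv => by
    have e : -P.α - σ + σ = -P.α := by ring
    rw [e]
    exact hbd2 m v hv) (fun x i => v x i - mean v i) hv0
  have e : -P.α - σ + σ = -P.α := by ring
  rw [e] at h1
  have h2 : hs (-P.α) (fun x i => KK P v x i) ≤
      ENNReal.ofReal (3 * C) * hs (-P.α - σ) (fun x i => v x i - mean v i) := by
    have h3 : (fun x i => KK P v x i) =
        fun x i => ∑' m, PP P m (fun x i => v x i - mean v i) x i := by
      funext x i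
      have h4 := congrFun (congrFun hKK x) i
      rw [← h4]
      rfl
    rw [h3]
    exact h1
  refine h2.trans ?_
  gcongr
  rw [hs_def]
  refine ENNReal.tsum_le_tsum fun k => ENNReal.ofReal_le_ofReal ?_
  simp only [fc_v0 hv]
  split_ifs with h
  · simp
  · exact mul_le_mul_of_nonneg_right (W_mono (by linarith) k)
      (Finset.sum_nonneg fun i _ => sq_nonneg _)

end Pool.Agent.H306.HD.TFORM
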