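import Pool.Agent.H306.HD.Asm5
import Pool.Agent.H306.HD.TFORM

/-! Assembly, part 6: form bounds, energy, uniqueness. -/

noncomputable section

namespace Pool.Agent.H306.HD.Asm

open Set MeasureTheory

open scoped Real ContDiff ENNReal

open Pool.Agent.H306.CK Pool.Agent.H306.DS

theorem inner_neg_right (v w : V → V) : inner3 v (fun x i => -w x i) = -inner3 v w := by
  unfold inner3
  rw [← MeasureTheory.integral_neg]
  congr 1
  ext x
  rw [← Finset.sum_neg_distrib]
  exact Finset.sum_congr rfl fun i _ => by ring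

theorem hs_neg' (s : ℝ) (w : V → V) : hs s (fun x i => -w x i) = hs s w := by
  have h := hs_smul s (-1) w
  have e : (fun x i => -1 * w x i) = fun x i => -w x i := by
    ext x i
    ring
  rw [e] at h
  rw [h]
  simp

/-- The perturbation is small in the sense of forms. -/
theorem form2 (hDIS : S_DIS) (hSUM : S_SUMOP) (hL1 : S_LOP1) (hL2 : S_LOP2) (hPROF : S_PROF)
    (hFCP : S_FCP) (hMODES : S_MODES) {P : Prm} {σ C κ : ℝ} (hP : P.Ok)
    (hodd : ∀ m, Odd (P.K (m + 1))) (hσ : -(2 * P.α) ≤ σ) (hC : 0 ≤ C) (hκ : 0 < κ)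
    (h12 : 12 * C ≤ κ ^ 2)
    (hbd : ∀ s : ℝ, ∃ C' : ℝ, 0 ≤ C' ∧ ∀ m v, SP v →
      hs (s + σ) (PP P m v) ≤ ENNReal.ofReal (C' * (1 / 8) ^ m) * hs s v)
    (hbd2 : ∀ m v, SP v → hs (-P.α) (PP P m v) ≤
      ENNReal.ofReal (C * (1 / 8) ^ m) * hs (-P.α - σ) v) {v : V → V} (hv : SP v) :
    |inner3 v (KK P v)| ≤ inner3 v (MG (lam κ P.α) v) := by
  have hLOP1 := hL1 hPROF hFCP hMODES P hP
  have hLOP2 := hL2 hPROF hFCP hMODES hL1 P hP
  have hα := hP.α_pos
  have hα2 := hP.α_le
  obtain ⟨s1, -, s3, s4⟩ := hSUM σ (PP P) (fun m v hv => (hLOP1 m).1 v hv)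
    (fun m v w hv hw a b => (hLOP1 m).2 v w hv hw a b) hbd
  have hv0 : SP (fun x i => v x i - TFORM.mean v i) := TFORM.sp_v0 hv (TFORM.mean v)
  have hKK : KK P (fun x i => v x i - TFORM.mean v i) = KK P v := by
    funext x i
    unfold KK
    exact tsum_congr fun m => by rw [(hLOP2 m).1 v hv (TFORM.mean v)]
  have hw : SP (fun x i => KK P v x i) := (s1 v hv).sp
  have hw0 : ∀ i, fc (fun x => KK P v x i) 0 = 0 := by
    intro i
    have h1 := s3 v hv i 0
    have h2 : (fun m => fc (fun x => PP P m v x i) 0) = fun _ => 0 := by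
      funext m
      exact (hLOP2 m).2 (hodd m) v hv i
    rw [h2] at h1
    exact h1.unique hasSum_zero
  have h1 := s4 (-P.α - σ) C hC (fun m v hv => by
    have e : -P.α - σ + σ = -P.α := by ring
    rw [e]
    exact hbd2 m v hv) (fun x i => v x i - TFORM.mean v i) hv0
  have e : -P.α - σ + σ = -P.α := by ring
  rw [e] at h1
  have h2 : hs (-P.α) (fun x i => KK P v x i) ≤
      ENNReal.ofReal (3 * C) * hs (-P.α - σ) (fun x i => v x i - TFORM.mean v i) := by
    have h3 : (fun x i => KK P v x i) =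
        fun x i => ∑' m, PP P m (fun x i => v x i - TFORM.mean v i) x i := by
      funext x i
      have h4 := congrFun (congrFun hKK x) i
      rw [← h4]
      rfl
    rw [h3]
    exact h1
  have h3 : hs (-P.α) (fun x i => KK P v x i) ≤ ENNReal.ofReal (3 * C) *
      ∑' k : Fin 3 → ℤ, ENNReal.ofReal (if k = 0 then 0 else W P.α k *
        ∑ i, ‖fc (fun x => v x i) k‖ ^ 2) := by
    refine h2.trans ?_
    gcongr
    rw [hs_def]
    refine ENNReal.tsum_le_tsum fun k => ENNReal.ofReal_le_ofReal ?_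
    simp only [TFORM.fc_v0 hv]
    split_ifs with h
    · simp
    · exact mul_le_mul_of_nonneg_right (W_mono (by linarith) k)
        (Finset.sum_nonneg fun i _ => sq_nonneg _)
  have hm := MG_sp (TDIS.Mb_lam (α := P.α) hκ hα) hv
  have key : ∀ w : V → V, SP w → (∀ i, fc (fun x => w x i) 0 = 0) →
      hs (-P.α) w = hs (-P.α) (fun x i => KK P v x i) →
      inner3 v w ≤ inner3 v (MG (lam κ P.α) v) := by
    intro w hw hw0 hweq
    have h4 := hDIS κ P.α (3 * C) v w hκ hα (by linarith) (by linarith) (by linarith) hv hw hw0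
      (by rw [hweq]; exact h3)
    have h5 : (fun x i => -MG (lam κ P.α) v x i + w x i) =
        fun x i => (-1) * MG (lam κ P.α) v x i + 1 * w x i := by
      ext x i
      ring
    rw [h5, inner_comb' hm.cp hw.cp hv.cp] at h4
    linarith
  rw [abs_le]
  constructor
  · have h4 := key (fun x i => -KK P v x i) (by
      have := TCONT.smul_sp hw (-1)
      have e : (fun x i => -1 * KK P v x i) = fun x i => -KK P v x i := by
        ext x i; ring
      rwa [e] at this) (fun i => by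
        have h5 := fc_neg (fun x => KK P v x i) 0
        rw [hw0, neg_zero] at h5
        exact h5) (hs_neg' _ _)
    rw [inner_neg_right] at h4
    linarith
  · exact key (fun x i => KK P v x i) hw hw0 rfl

theorem lam_smul (ν α : ℝ) (v : V → V) (x : V) (i : Fin 3) :
    MG (lam ν α) v x i = ν * MG (lam 1 α) v x i := by
  unfold MG mg
  rw [← tsum_mul_left]
  refine tsum_congr fun k => ?_
  have e : lam ν α k = ν * lam 1 α k := by unfold lam; ring
  unfold tg
  rw [e]
  simp only [Complex.mul_re, Complex.mul_im, Complex.ofReal_re, Complex.ofReal_im, zero_mul,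
    sub_zero, add_zero]
  ring

section

variable {K : (V → V) → V → V} {T : ℝ} {u : ℝ → V → V} {p : ℝ → V → ℝ}

/-- The trivial solution. -/
theorem zero_isSolS (hK : LinS K) : IsSol K (Ico 0 T) (fun _ _ => 0) (fun _ _ => 0) := by
  have hz : SF (fun _ => 0 : V → V) := ⟨contDiff_const, fun _ _ => rfl, fun x => by simp [pd]⟩
  have h1 : K (fun _ => 0 : V → V) = 0 := by
    have h2 := hK.sub _ _ hz hz
    have h3 : ((fun _ => 0 : V → V) - fun _ => 0) = fun _ => 0 := by ext; simp
    rw [h3, sub_self] at h2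
    exact h2
  refine ⟨contDiffOn_const, contDiffOn_const, fun t _ i y => rfl, fun t _ i y => rfl,
    fun t _ x => ?_, fun t _ x i => ?_⟩
  · simp [pd]
  · rw [h1]
    simp [pd]

/-- The energy identity. -/
theorem energy_derivS (hK : LinS K) (hu : IsSol K (Ico 0 T) u p)
    (hus : ∀ t ∈ Ico 0 T, SF (u t)) {t : ℝ} (ht : t ∈ Ioo 0 T) :
    HasDerivAt (fun s => inner3 (u s) (u s)) (2 * inner3 (u t) (K (u t))) t := by
  have hz : SF (fun _ => 0 : V → V) := ⟨contDiff_const, fun _ _ => rfl, fun x => by simp [pd]⟩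
  have h := diff_energyS hK (zero_isSolS hK (T := T)) hu (fun _ _ => hz) hus ht
  have h1 : (fun s => ∫ x in torus, ∑ i, ((fun _ _ => 0 : ℝ → V → V) s x i - u s x i) ^ 2) =
      fun s => inner3 (u s) (u s) := by
    ext s
    unfold inner3
    congr 1
    ext x
    refine Finset.sum_congr rfl fun i _ => ?_
    simp
    ring
  rw [h1] at h
  have htI := Ioo_subset_Ico_self ht
  refine h.congr_deriv ?_
  have h2 : K ((fun _ _ => 0 : ℝ → V → V) t - u t) = -K (u t) := by
    have h3 := hK.sub _ _ hz (hus t htI)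
    have h4 : K (fun _ => 0 : V → V) = 0 := by
      have h5 := hK.sub _ _ hz hz
      have h6 : ((fun _ => 0 : V → V) - fun _ => 0) = fun _ => 0 := by ext; simp
      rw [h6, sub_self] at h5
      exact h5
    rw [h4, zero_sub] at h3
    exact h3
  rw [h2]
  unfold inner3
  have h7 : ∀ x : V, ∑ i, ((fun _ _ => 0 : ℝ → V → V) t - u t) x i * (-K (u t)) x i =
      ∑ i, u t x i * K (u t) x i := by
    intro x
    refine Finset.sum_congr rfl fun i _ => ?_
    simp
  simp only [h7]
  simp [pd]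

/-- The energy does not increase. -/
theorem energy_leS (hK : LinS K) (hu : IsSol K (Ico 0 T) u p)
    (hus : ∀ t ∈ Ico 0 T, SF (u t)) : ∀ s ∈ Ico 0 T, ∀ t ∈ Ico 0 T,
    s ≤ t → inner3 (u t) (u t) ≤ inner3 (u s) (u s) := by
  intro s hs t ht hst
  rcases hst.eq_or_lt with h | hlt
  · rw [h]
  have hc : ContinuousOn (fun s => inner3 (u s) (u s)) (Icc s t) :=
    (energy_continuousOn hu).mono fun r hr => ⟨hs.1.trans hr.1, hr.2.trans_lt ht.2⟩
  have hd : DifferentiableOn ℝ (fun s => inner3 (u s) (u s)) (Ioo s t) := fun r hr =>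
    (energy_derivS hK hu hus
      ⟨hs.1.trans_lt hr.1, hr.2.trans ht.2⟩).differentiableAt.differentiableWithinAt
  obtain ⟨r, hr, h1⟩ := exists_deriv_eq_slope _ hlt hc hd
  have hrT : r ∈ Ioo 0 T := ⟨hs.1.trans_lt hr.1, hr.2.trans ht.2⟩
  rw [(energy_derivS hK hu hus hrT).deriv] at h1
  have h2 := hK.dis _ (hus r (Ioo_subset_Ico_self hrT))
  have h3 : (inner3 (u t) (u t) - inner3 (u s) (u s)) / (t - s) ≤ 0 := by rw [← h1]; linarith
  have h4 : 0 < t - s := by linarith
  rw [div_le_iff₀ h4] at h3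
  linarith

theorem sol_restrict' {T' : ℝ} (hv : IsSol K (Ico 0 T') u p) (h : T ≤ T') :
    IsSol K (Ico 0 T) u p := by
  rcases h.eq_or_lt with h | hcon
  · rw [h]; exact hv
  have hs : Ico 0 T ⊆ Ico 0 T' := Ico_subset_Ico_right hcon.le
  refine ⟨hv.c1_u.mono (prod_mono hs Subset.rfl), hv.c1_p.mono (prod_mono hs Subset.rfl),
    fun t ht => hv.per_u t (hs ht), fun t ht => hv.per_p t (hs ht),
    fun t ht => hv.div_free t (hs ht), fun t ht y i => ?_⟩
  have h1 := hv.momentum t (hs ht) y i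
  rw [← h1]
  congr 2
  have hnb : Ico 0 T =ᶠ[nhds t] Ico 0 T' := by
    filter_upwards [Iio_mem_nhds ht.2] with s hs2
    have hs3 : s < T := hs2
    change (0 ≤ s ∧ s < T) = (0 ≤ s ∧ s < T')
    rw [eq_iff_iff]
    constructor
    · rintro ⟨a, b⟩; exact ⟨a, b.trans hcon⟩
    · rintro ⟨a, -⟩; exact ⟨a, hs3⟩
  exact derivWithin_congr_set hnb

/-- Maximality. -/
theorem maximal (hK : LinS K) (hu : IsSol K (Ico 0 T) u p) (hus : ∀ t ∈ Ico 0 T, SF (u t))
    (hunb : ∀ M : ℝ, ∃ t ∈ Ico 0 T, ∃ x, M < ‖curl (u t) x‖) {T' : ℝ} {v : ℝ → V → V}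
    {q : ℝ → V → ℝ} (hv : IsSol K (Ico 0 T') v q) (hvs : ∀ t ∈ Ico 0 T', SF (v t))
    (h0 : v 0 = u 0) : T' ≤ T ∧ ∀ t ∈ Ico 0 T', v t = u t := by
  have hle : T' ≤ T := by
    by_contra hcon
    push Not at hcon
    have hv' := sol_restrict' hv hcon.le
    have huv := uniqueS hK hv' hu (fun t ht => hvs t ⟨ht.1, ht.2.trans hcon⟩) hus h0
    obtain ⟨M, hM⟩ := curl_bounded hv hcon
    obtain ⟨t, ht, y, hy⟩ := hunb M
    have h1 := hM t ⟨ht.1, ht.2.le⟩ y
    rw [huv t ht] at h1
    have h2 : ‖curl (u t) y‖ ≤ M := by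
      rw [pi_norm_le_iff_of_nonneg ((abs_nonneg _).trans (h1 0))]
      intro i
      exact h1 i
    linarith
  exact ⟨hle, uniqueS hK hv (sol_restrict' hu hle) hvs
    (fun t ht => hus t ⟨ht.1, ht.2.trans_le hle⟩) h0⟩

end

end Pool.Agent.H306.HD.Asm
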