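import Pool.Agent.H306.HD.Stm4

set_option autoImplicit false

/-! The action of the perturbation on the modes. -/

noncomputable section

namespace Pool.Agent.H306.HD.TACT

open Set MeasureTheory

open scoped Real ContDiff ENNReal

open Pool.Agent.H306.CK Pool.Agent.H306.DS

theorem fc_zero' (k : Fin 3 → ℤ) : fc (fun _ : V => (0 : ℝ)) k = 0 := by
  unfold fc
  simp

theorem mg_zero' (m : (Fin 3 → ℤ) → ℝ) (x : V) : mg m (fun _ : V => (0 : ℝ)) x = 0 := by
  unfold mg
  have h : ∀ k : Fin 3 → ℤ, tg (((((2 * π) ^ 3)⁻¹ * m k : ℝ) : ℂ) * fc (fun _ : V => (0 : ℝ)) k) k x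
      = 0 := by
    intro k
    rw [fc_zero', mul_zero]
    unfold tg
    simp
  simp only [h]
  exact tsum_zero

theorem mg_zero_fun (m : (Fin 3 → ℤ) → ℝ) : mg m (fun _ : V => (0 : ℝ)) = fun _ => 0 := by
  ext x
  exact mg_zero' m x

theorem cm_zero (ν α : ℝ) (h : ℝ → ℝ) (x : V) : cm ν α h (fun _ : V => (0 : ℝ)) x = 0 := by
  unfold cm
  have e : (fun y : V => h (y 1) * (0 : ℝ)) = fun _ => 0 := by
    ext y
    rw [mul_zero]
  rw [e, mg_zero', mul_zero, sub_zero]

theorem act : S_ACT := by
  intro hPROF hFCP hMODES hPIM hFUN P hP
  obtain ⟨-, -, -, -, -, hmodes⟩ := hMODES hPROF hFCP P hP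
  have hfun := hFUN hPROF P hP
  have hpim := hPIM hPROF hFCP P hP
  constructor
  · intro m0 x i
    have hterm : ∀ m, PP P m (Fm P m0) x i = if m = m0 then
        MG (lam P.ν P.α) (Fm P m0) x i - mu P (m0 + 1) 0 * Fm P m0 x i else 0 := by
      intro m
      obtain ⟨h1, h2, h3, -, -, -⟩ := hfun m m0 0
      have e2 : (fun y : V => Fm P m0 y 2) = fun _ => 0 := by
        ext y
        rfl
      unfold PP
      rw [h1, h2, h3, e2, mg_zero_fun, cm_zero]
      by_cases hm : m = m0
      · subst hm
        simp
      · simp [hm]
    unfold KK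
    simp only [hterm]
    exact tsum_ite_eq m0 _
  · intro m0 j x i
    have hterm : ∀ m, PP P m (Em P m0 j) x i = if m = m0 then
        (MG (lam P.ν P.α) (Em P m0 j) x i - mu P m0 j * Em P m0 j x i +
          ((if j = 1 then P.c m0 else 0) + (if j = 0 then P.ε m0 else 0)) * pv P m0 x i) else 0 := by
      intro m
      obtain ⟨-, -, -, h4, h5, h6⟩ := hfun m m0 j
      have hp := hpim m m0 j
      by_cases hm : m = m0
      · subst hm
        rw [if_pos rfl] at hp
        rw [if_pos rfl]
        have hcm : (if i = 2 then cm P.ν P.α (X P m) (mg (pim P m) (fun y => Em P m j y 2)) x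
            else 0) = MG (lam P.ν P.α) (Em P m j) x i - mu P m j * Em P m j x i := by
          by_cases hi : i = 2
          · subst hi
            rw [if_pos rfl, hp]
            unfold cm
            rw [hmodes m j x]
            have e1 : (fun y : V => X P m (y 1) * cmode P m j y) = fun y => Em P m j y 2 := by
              ext y
              rfl
            have e2 : Em P m j x 2 = X P m (x 1) * cmode P m j x := rfl
            rw [e1, e2]
            unfold MG
            ring
          · rw [if_neg hi]
            have e3 : (fun y : V => Em P m j y i) = fun _ => 0 := by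
              ext y
              fin_cases i
              · rfl
              · rfl
              · exact absurd rfl hi
            have e4 : Em P m j x i = 0 := congrFun e3 x
            unfold MG
            rw [e3, e4, mg_zero']
            ring
        unfold PP
        rw [hcm, h4, h5, h6]
        by_cases hj1 : j = 1
        · subst hj1
          simp
        · by_cases hj0 : j = 0
          · subst hj0
            simp
          · simp [hj1, hj0]
      · rw [if_neg hm] at hp
        have hp' : mg (pim P m) (fun y => Em P m0 j y 2) = fun _ => 0 := hp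
        unfold PP
        rw [hp', cm_zero, h4, h5, h6]
        simp [hm]
    unfold KK
    simp only [hterm]
    exact tsum_ite_eq m0 _

end Pool.Agent.H306.HD.TACT
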