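import Pool.Agent.H306.HD.Stm

/-! The a priori bounds of one band of the chain (statement `S_BAND_BD`). -/

noncomputable section

namespace Pool.Agent.H306.HD.TBANDBD

open Set Pool.Agent.H306.HD

/-- The integrating factor. -/
theorem hasDeriv_exp_mul {m : ℝ} {y : ℝ → ℝ} {g s : ℝ} {S : Set ℝ}
    (hy : HasDerivWithinAt y (-m * y s + g) S s) :
    HasDerivWithinAt (fun r => Real.exp (m * r) * y r) (Real.exp (m * s) * g) S s := by
  have h1 : HasDerivWithinAt (fun r : ℝ => Real.exp (m * r)) (Real.exp (m * s) * m) S s := by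
    have h2 : HasDerivAt (fun r : ℝ => m * r) m s := by
      simpa using (hasDerivAt_id s).const_mul m
    exact h2.exp.hasDerivWithinAt
  have h3 := h1.mul hy
  refine h3.congr_deriv ?_
  ring

/-- Mean value inequality for `y' = -m y + g` with `y 0 = 0`. -/
theorem mv {m μ₀ M : ℝ} (hm : μ₀ ≤ m) {y g : ℝ → ℝ} (y0 : y 0 = 0)
    (hy : ∀ s ∈ Icc (0 : ℝ) 1, HasDerivWithinAt y (-m * y s + g s) (Icc 0 1) s)
    {t : ℝ} (ht : t ∈ Icc (0 : ℝ) 1) (hM : ∀ s ∈ Icc (0 : ℝ) t, Real.exp (μ₀ * s) * |g s| ≤ M) :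
    Real.exp (μ₀ * t) * |y t| ≤ M := by
  have hM0 : 0 ≤ M := by
    refine le_trans ?_ (hM 0 ⟨le_refl _, ht.1⟩)
    positivity
  have key := norm_image_sub_le_of_norm_deriv_le_segment' (f := fun r => Real.exp (m * r) * y r)
    (f' := fun s => Real.exp (m * s) * g s) (C := Real.exp ((m - μ₀) * t) * M) (a := 0) (b := t)
    (fun x hx => (hasDeriv_exp_mul (hy x ⟨hx.1, hx.2.trans ht.2⟩)).mono
      (Icc_subset_Icc_right ht.2))
    (fun x hx => by
      have h1 : Real.exp (m * x) = Real.exp ((m - μ₀) * x) * Real.exp (μ₀ * x) := by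
        rw [← Real.exp_add]; congr 1; ring
      rw [Real.norm_eq_abs, abs_mul, abs_of_pos (Real.exp_pos _), h1, mul_assoc]
      refine mul_le_mul ?_ (hM x ⟨hx.1, hx.2.le⟩) (by positivity) (Real.exp_pos _).le
      exact Real.exp_le_exp.2 (mul_le_mul_of_nonneg_left hx.2.le (by linarith)))
    t ⟨ht.1, le_refl _⟩
  simp only [y0, mul_zero, sub_zero] at key
  rw [Real.norm_eq_abs, abs_mul, abs_of_pos (Real.exp_pos _)] at key
  have h1 : Real.exp (m * t) = Real.exp ((m - μ₀) * t) * Real.exp (μ₀ * t) := by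
    rw [← Real.exp_add]; congr 1; ring
  rw [h1, mul_assoc, mul_assoc] at key
  have h2 := le_of_mul_le_mul_left key (Real.exp_pos _)
  refine h2.trans ?_
  nlinarith [ht.2, hM0]

/-- Positivity for `y' = -m y + g` with `y 0 = 0` and `g ≥ 0`. -/
theorem nonneg {m : ℝ} {y g : ℝ → ℝ} (y0 : y 0 = 0)
    (hy : ∀ s ∈ Icc (0 : ℝ) 1, HasDerivWithinAt y (-m * y s + g s) (Icc 0 1) s)
    (hg : ∀ s ∈ Icc (0 : ℝ) 1, 0 ≤ g s) {t : ℝ} (ht : t ∈ Icc (0 : ℝ) 1) : 0 ≤ y t := by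
  have hz : MonotoneOn (fun r => Real.exp (m * r) * y r) (Icc (0 : ℝ) 1) := by
    refine monotoneOn_of_deriv_nonneg (convex_Icc 0 1) ?_ ?_ ?_
    · exact fun s hs => (hasDeriv_exp_mul (hy s hs)).continuousWithinAt
    · intro s hs
      rw [interior_Icc] at hs
      exact ((hasDeriv_exp_mul (hy s (Ioo_subset_Icc_self hs))).hasDerivAt
        (Icc_mem_nhds hs.1 hs.2)).differentiableAt.differentiableWithinAt
    · intro s hs
      rw [interior_Icc] at hs
      rw [((hasDeriv_exp_mul (hy s (Ioo_subset_Icc_self hs))).hasDerivAt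
        (Icc_mem_nhds hs.1 hs.2)).deriv]
      exact mul_nonneg (Real.exp_pos _).le (hg s (Ioo_subset_Icc_self hs))
  have h := hz ⟨le_refl _, zero_le_one⟩ ht ht.1
  simp only [y0, mul_zero] at h
  exact nonneg_of_mul_nonneg_right h (Real.exp_pos _)

theorem cl_nonneg (β x : ℝ) : 0 ≤ cl β x := le_max_left _ _

theorem cl_le {β : ℝ} (hβ : 0 ≤ β) (x : ℝ) : cl β x ≤ β := max_le hβ (min_le_right _ _)

/-- One improvement step of the bounds. -/
theorem step {k β l c ε : ℝ} {μ : ℕ → ℝ} {B b : ℝ → ℝ} {α : ℕ → ℝ → ℝ}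
    (hk : 0 ≤ k) (hβ : 0 ≤ β) (hι : k * β ≤ 1 / 10) (hμ : ∀ i, μ 0 ≤ μ i)
    (hB : ∀ t ∈ Icc (0 : ℝ) 1, 0 ≤ B t)
    (hmono : MonotoneOn (fun t => Real.exp (μ 0 * t) * B t) (Icc 0 1))
    (S : BandSol k β l c ε μ B b α) {t : ℝ} (ht : t ∈ Icc (0 : ℝ) 1) {N : ℝ} 
    (hN : ∀ i, 1 ≤ i → ∀ s ∈ Icc (0 : ℝ) t, 4 ^ i * (Real.exp (μ 0 * s) * |α i s|) ≤ N) :
    (∀ s ∈ Icc (0 : ℝ) t, Real.exp (μ 0 * s) * |α 0 s| ≤ k * β * N / 8) ∧
    (∀ s ∈ Icc (0 : ℝ) t, 4 * (Real.exp (μ 0 * s) * |α 1 s|) ≤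
      4 * (k * β) * (Real.exp (μ 0 * t) * B t) + 7 / 400 * N) ∧
    (∀ i, 2 ≤ i → ∀ s ∈ Icc (0 : ℝ) t, 4 ^ i * (Real.exp (μ 0 * s) * |α i s|) ≤ N / 4) := by
  have hι0 : 0 ≤ k * β := mul_nonneg hk hβ
  have hN0 : 0 ≤ N := by
    refine le_trans ?_ (hN 1 (le_refl _) 0 ⟨le_refl _, ht.1⟩)
    positivity
  have hw0 : ∀ s, 0 ≤ k * cl β (b s) := fun s => mul_nonneg hk (cl_nonneg _ _)
  have hw1 : ∀ s, k * cl β (b s) ≤ k * β := fun s => mul_le_mul_of_nonneg_left (cl_le hβ _) hk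
  have h0 : ∀ s ∈ Icc (0 : ℝ) t, Real.exp (μ 0 * s) * |α 0 s| ≤ k * β * N / 8 := by
    intro s hs
    refine mv (m := μ 0) (g := fun r => -k * cl β (b r) / 2 * α 1 r) (le_refl _) (S.α0 0)
      (fun r hr => (S.dα0 r hr).congr_deriv (by ring)) ⟨hs.1, hs.2.trans ht.2⟩ ?_
    intro r hr
    have h1 := hN 1 (le_refl _) r ⟨hr.1, hr.2.trans hs.2⟩
    have h2 : |(-k * cl β (b r) / 2 * α 1 r)| = k * cl β (b r) / 2 * |α 1 r| := by
      rw [show (-k * cl β (b r) / 2 * α 1 r) = -(k * cl β (b r) / 2 * α 1 r) by ring, abs_neg,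
        abs_mul, abs_of_nonneg (by linarith [hw0 r])]
    rw [h2]
    have h3 : Real.exp (μ 0 * r) * (k * cl β (b r) / 2 * |α 1 r|) =
      (k * cl β (b r)) * (4 ^ 1 * (Real.exp (μ 0 * r) * |α 1 r|)) / 8 := by ring
    rw [h3]
    have h4 : (k * cl β (b r)) * (4 ^ 1 * (Real.exp (μ 0 * r) * |α 1 r|)) ≤ (k * β) * N :=
      mul_le_mul (hw1 r) h1 (by positivity) hι0
    linarith
  refine ⟨h0, ?_, ?_⟩
  · intro s hs
    have h5 : Real.exp (μ 0 * s) * |α 1 s| ≤
        (k * β) * (Real.exp (μ 0 * t) * B t + k * β * N / 8 + N / 32) := by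
      refine mv (m := μ 1) (g := fun r => k * cl β (b r) * (B r + α 0 r + α 2 r / 2)) (hμ 1)
        (S.α0 1) (fun r hr => S.dα1 r hr) ⟨hs.1, hs.2.trans ht.2⟩ ?_
      intro r hr
      have hrt : r ∈ Icc (0 : ℝ) t := ⟨hr.1, hr.2.trans hs.2⟩
      have hr1 : r ∈ Icc (0 : ℝ) 1 := ⟨hr.1, hrt.2.trans ht.2⟩
      have e0 := h0 r hrt
      have e2 := hN 2 (by norm_num) r hrt
      have eB : Real.exp (μ 0 * r) * B r ≤ Real.exp (μ 0 * t) * B t := hmono hr1 ht hrt.2
      rw [abs_mul, abs_of_nonneg (hw0 r)]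
      have h6 : |B r + α 0 r + α 2 r / 2| ≤ B r + |α 0 r| + |α 2 r| / 2 := by
        calc |B r + α 0 r + α 2 r / 2| ≤ |B r + α 0 r| + |α 2 r / 2| := abs_add_le _ _
          _ ≤ |B r| + |α 0 r| + |α 2 r / 2| := by gcongr; exact abs_add_le _ _
          _ = B r + |α 0 r| + |α 2 r| / 2 := by
            rw [abs_of_nonneg (hB r hr1), abs_div, abs_of_pos (by norm_num : (0 : ℝ) < 2)]
      have hE := Real.exp_pos (μ 0 * r)
      calc Real.exp (μ 0 * r) * (k * cl β (b r) * |B r + α 0 r + α 2 r / 2|)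
          = (k * cl β (b r)) * (Real.exp (μ 0 * r) * |B r + α 0 r + α 2 r / 2|) := by ring
        _ ≤ (k * β) * (Real.exp (μ 0 * r) * (B r + |α 0 r| + |α 2 r| / 2)) :=
            mul_le_mul (hw1 r) (mul_le_mul_of_nonneg_left h6 hE.le) (by positivity) hι0
        _ ≤ (k * β) * (Real.exp (μ 0 * t) * B t + k * β * N / 8 + N / 32) := by
            refine mul_le_mul_of_nonneg_left ?_ hι0
            have h7 : Real.exp (μ 0 * r) * (B r + |α 0 r| + |α 2 r| / 2) =
              Real.exp (μ 0 * r) * B r + Real.exp (μ 0 * r) * |α 0 r| +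
                (4 ^ 2 * (Real.exp (μ 0 * r) * |α 2 r|)) / 32 := by ring
            rw [h7]; linarith
    have h8 : k * β * N ≤ 1 / 10 * N := mul_le_mul_of_nonneg_right hι hN0
    have h9 : (k * β) * (k * β * N / 8 + N / 32) ≤ 1 / 10 * (1 / 10 * N / 8 + N / 32) :=
      mul_le_mul hι (by linarith) (by positivity) (by norm_num)
    nlinarith
  · intro i hi s hs
    obtain ⟨j, rfl⟩ : ∃ j, i = j + 2 := ⟨i - 2, by omega⟩
    have h5 : Real.exp (μ 0 * s) * |α (j + 2) s| ≤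
        (k * β) * (N / (4 ^ (j + 1)) + N / (4 ^ (j + 3))) / 2 := by
      refine mv (m := μ (j + 2)) (g := fun r => (-1) ^ (j + 2 + 1) * (k * cl β (b r) / 2) *
        (α (j + 2 - 1) r + α (j + 2 + 1) r)) (hμ _)
        (S.α0 _) (fun r hr => S.dα (j + 2) (by omega) r hr) ⟨hs.1, hs.2.trans ht.2⟩ ?_
      intro r hr
      have hrt : r ∈ Icc (0 : ℝ) t := ⟨hr.1, hr.2.trans hs.2⟩
      have e1 := hN (j + 1) (by omega) r hrt
      have e3 := hN (j + 3) (by omega) r hrt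
      have h41 : (0 : ℝ) < 4 ^ (j + 1) := by positivity
      have h43 : (0 : ℝ) < 4 ^ (j + 3) := by positivity
      have e1' : Real.exp (μ 0 * r) * |α (j + 1) r| ≤ N / 4 ^ (j + 1) := by
        rw [le_div_iff₀ h41]; linarith
      have e3' : Real.exp (μ 0 * r) * |α (j + 3) r| ≤ N / 4 ^ (j + 3) := by
        rw [le_div_iff₀ h43]; linarith
      have h6 : |(-1) ^ (j + 2 + 1) * (k * cl β (b r) / 2) *
          (α (j + 2 - 1) r + α (j + 2 + 1) r)| ≤
          (k * cl β (b r) / 2) * (|α (j + 1) r| + |α (j + 3) r|) := by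
        rw [abs_mul, abs_mul, abs_pow, abs_neg, abs_one, one_pow, one_mul,
          abs_of_nonneg (by linarith [hw0 r] : (0 : ℝ) ≤ k * cl β (b r) / 2)]
        exact mul_le_mul_of_nonneg_left (abs_add_le _ _) (by linarith [hw0 r])
      have hE := Real.exp_pos (μ 0 * r)
      calc Real.exp (μ 0 * r) * |(-1) ^ (j + 2 + 1) * (k * cl β (b r) / 2) *
          (α (j + 2 - 1) r + α (j + 2 + 1) r)|
          ≤ Real.exp (μ 0 * r) * ((k * cl β (b r) / 2) * (|α (j + 1) r| + |α (j + 3) r|)) :=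
            mul_le_mul_of_nonneg_left h6 hE.le
        _ = (k * cl β (b r)) * (Real.exp (μ 0 * r) * |α (j + 1) r| +
              Real.exp (μ 0 * r) * |α (j + 3) r|) / 2 := by ring
        _ ≤ (k * β) * (N / (4 ^ (j + 1)) + N / (4 ^ (j + 3))) / 2 := by
            have := mul_le_mul (hw1 r) (add_le_add e1' e3') (by positivity) hι0
            linarith
    have h4 : (0 : ℝ) < 4 ^ (j + 2) := by positivity
    have h6 : 4 ^ (j + 2) * ((k * β) * (N / (4 ^ (j + 1)) + N / (4 ^ (j + 3))) / 2) =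
        (k * β) * N * (17 / 8) := by
      have h1 : (4 : ℝ) ^ (j + 1) ≠ 0 := by positivity
      have h3 : (4 : ℝ) ^ (j + 3) ≠ 0 := by positivity
      field_simp
      ring
    have h7 : (k * β) * N ≤ 1 / 10 * N := mul_le_mul_of_nonneg_right hι hN0
    have h8 := mul_le_mul_of_nonneg_left h5 h4.le
    rw [h6] at h8
    linarith

theorem band_bd : S_BAND_BD := by
  intro k β l c ε μ B b α hk hβ hι hc hε hμ hB hmono S
  have hμ0 : ∀ i, μ 0 ≤ μ i := fun i => monotone_nat_of_le_succ hμ (Nat.zero_le i)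
  have hι0 : 0 ≤ k * β := mul_nonneg hk hβ
  have hw0 : ∀ s, 0 ≤ k * cl β (b s) := fun s => mul_nonneg hk (cl_nonneg _ _)
  obtain ⟨C, hC⟩ := S.fin
  -- the bounds
  have main : ∀ t ∈ Icc (0 : ℝ) 1, ∀ i, 1 ≤ i → ∀ s ∈ Icc (0 : ℝ) t,
      4 ^ i * (Real.exp (μ 0 * s) * |α i s|) ≤ 5 * (k * β) * (Real.exp (μ 0 * t) * B t) := by
    intro t ht
    set D : ℝ := 5 * (k * β) * (Real.exp (μ 0 * t) * B t) with hD
    have hD0 : 0 ≤ D := by
      have := hB t ht
      positivity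
    have hC0 : 0 ≤ C := by
      refine le_trans ?_ (hC 0 0 ⟨le_refl _, zero_le_one⟩)
      positivity
    set E : ℝ := Real.exp |μ 0| * C with hE
    have hE0 : 0 ≤ E := by positivity
    have ind : ∀ n : ℕ, ∀ i, 1 ≤ i → ∀ s ∈ Icc (0 : ℝ) t,
        4 ^ i * (Real.exp (μ 0 * s) * |α i s|) ≤ D + E / 4 ^ n := by
      intro n
      induction n with
      | zero =>
        intro i _ s hs
        have hs1 : s ∈ Icc (0 : ℝ) 1 := ⟨hs.1, hs.2.trans ht.2⟩
        have h1 := hC i s hs1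
        have h2 : Real.exp (μ 0 * s) ≤ Real.exp |μ 0| := by
          refine Real.exp_le_exp.2 ?_
          calc μ 0 * s ≤ |μ 0 * s| := le_abs_self _
            _ = |μ 0| * s := by rw [abs_mul, abs_of_nonneg hs1.1]
            _ ≤ |μ 0| * 1 := mul_le_mul_of_nonneg_left hs1.2 (abs_nonneg _)
            _ = |μ 0| := mul_one _
        have h3 : 4 ^ i * (Real.exp (μ 0 * s) * |α i s|) =
          Real.exp (μ 0 * s) * (4 ^ i * |α i s|) := by ring
        rw [h3, pow_zero, div_one]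
        have h4 : Real.exp (μ 0 * s) * (4 ^ i * |α i s|) ≤ Real.exp |μ 0| * C :=
          mul_le_mul h2 h1 (by positivity) (Real.exp_pos _).le
        linarith
      | succ n ih =>
        obtain ⟨-, p1, p2⟩ := step hk hβ hι hμ0 hB hmono S ht ih
        have hEn : 0 ≤ E / 4 ^ n := by positivity
        have hEn' : E / 4 ^ (n + 1) = E / 4 ^ n / 4 := by
          rw [pow_succ, div_div]
        intro i hi s hs
        rcases Nat.lt_or_ge i 2 with h | h
        · have hi1 : i = 1 := by omega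
          subst hi1
          have := p1 s hs
          have hD' : 4 * (k * β) * (Real.exp (μ 0 * t) * B t) = 4 / 5 * D := by
            rw [hD]; ring
          rw [hD'] at this
          rw [hEn', pow_one]
          linarith
        · have := p2 i h s hs
          rw [hEn']
          linarith
    intro i hi s hs
    have hlim : Filter.Tendsto (fun n : ℕ => D + E / 4 ^ n) Filter.atTop (nhds (D + 0)) := by
      refine tendsto_const_nhds.add ?_
      have := (tendsto_pow_atTop_nhds_zero_of_lt_one (r := (1 / 4 : ℝ)) (by norm_num)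
        (by norm_num)).const_mul E
      rw [mul_zero] at this
      refine this.congr (fun n => ?_)
      rw [one_div, inv_pow]; rfl
    rw [add_zero] at hlim
    exact ge_of_tendsto' hlim (fun n => ind n i hi s hs)
  have hb1 : ∀ t ∈ Icc (0 : ℝ) 1, ∀ i, 1 ≤ i → |α i t| ≤ 5 * (k * β) * (1 / 4) ^ i * B t := by
    intro t ht i hi
    have h1 := main t ht i hi t ⟨ht.1, le_refl _⟩
    have hE := Real.exp_pos (μ 0 * t)
    have h4 : (0 : ℝ) < 4 ^ i := by positivity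
    have h2 : Real.exp (μ 0 * t) * (4 ^ i * |α i t|) ≤
        Real.exp (μ 0 * t) * (5 * (k * β) * B t) := by linarith
    have h3 := le_of_mul_le_mul_left h2 hE
    have h5 : 5 * (k * β) * (1 / 4) ^ i * B t = (5 * (k * β) * B t) / 4 ^ i := by
      rw [one_div, inv_pow]; field_simp
    rw [h5, le_div_iff₀ h4]
    linarith
  have hb0 : ∀ t ∈ Icc (0 : ℝ) 1, |α 0 t| ≤ k * β * B t := by
    intro t ht
    have h1 := (step hk hβ hι hμ0 hB hmono S ht (main t ht)).1 t ⟨ht.1, le_refl _⟩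
    have hE := Real.exp_pos (μ 0 * t)
    have h2 : Real.exp (μ 0 * t) * |α 0 t| ≤
        Real.exp (μ 0 * t) * (5 / 8 * ((k * β) * ((k * β) * B t))) := by linarith
    have h3 := le_of_mul_le_mul_left h2 hE
    have h4 : 0 ≤ (k * β) * B t := mul_nonneg hι0 (hB t ht)
    have h5 : (k * β) * ((k * β) * B t) ≤ 1 / 10 * ((k * β) * B t) :=
      mul_le_mul_of_nonneg_right hι h4
    linarith
  have hforce : ∀ t ∈ Icc (0 : ℝ) 1, 0 ≤ B t + α 0 t + α 2 t / 2 := by
    intro t ht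
    have h0 := hb0 t ht
    have h2 := hb1 t ht 2 (by norm_num)
    have hBt := hB t ht
    have h3 : (k * β) * B t ≤ 1 / 10 * B t := mul_le_mul_of_nonneg_right hι hBt
    have h4 := neg_abs_le (α 0 t)
    have h5 := neg_abs_le (α 2 t)
    have h6 : 5 * (k * β) * (1 / 4) ^ 2 * B t = 5 / 16 * ((k * β) * B t) := by ring
    rw [h6] at h2
    linarith
  have hα1 : ∀ t ∈ Icc (0 : ℝ) 1, 0 ≤ α 1 t := fun t ht =>
    nonneg (S.α0 1) (fun r hr => S.dα1 r hr) (fun s hs => mul_nonneg (hw0 s) (hforce s hs)) ht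
  intro t ht
  refine ⟨?_, hα1 t ht, hb0 t ht, hb1 t ht⟩
  refine nonneg (m := l) (g := fun s => c * α 1 s + ε * (B s + α 0 s)) S.b0
    (fun r hr => (S.db r hr).congr_deriv (by ring)) (fun s hs => ?_) ht
  have h0 := hb0 s hs
  have hBs := hB s hs
  have h3 : (k * β) * B s ≤ 1 / 10 * B s := mul_le_mul_of_nonneg_right hι hBs
  have h4 := neg_abs_le (α 0 s)
  exact add_nonneg (mul_nonneg hc (hα1 s hs)) (mul_nonneg hε (by linarith))

end Pool.Agent.H306.HD.TBANDBD
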