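import Pool.Agent.H306.HD.Def

/-! Sobolev norms of the modes. -/

noncomputable section

namespace Pool.Agent.H306.HD.TBDM

open Set MeasureTheory

open scoped Real ContDiff ENNReal ComplexConjugate

open Pool.Agent.H306.CK Pool.Agent.H306.DS

/-! ### Weighted bounds -/

theorem Wc_cos_cos {S t E : ℝ} {k k₀ : ℕ} {h : ℝ → ℝ} (hk : 1 ≤ k) (hk₀ : k₀ ≤ k)
    (hd : ContDiff ℝ ∞ h)
    (hper : ∀ y, h (y + 2 * π) = h y) (hs : Summable fun l : ℤ => ‖c1 h l‖)
    (ht : |t| ≤ S)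
    (hdec : ∀ l : ℤ, (1 + (l : ℝ) ^ 2) ^ (S / 2) * ‖c1 h l‖ ≤ E * (1 / (1 + (l : ℝ) ^ 2))) :
    Wc t (cS S * E * (k : ℝ) ^ t)
      (fun x : V => ((h (x 1) * Real.cos (k * x 1) * Real.cos (k₀ * x 0) : ℝ) : ℂ)) := by
  have hk' : (k₀ : ℤ) ≤ k := by exact_mod_cast hk₀
  have h1 := (el_Wc (b := k₀) (a := k) hk (by simpa using hk') (by simp) (Or.inr (by simp)) hd
    hper hs ht hdec).smul (1 / 4)
  have h2 := (el_Wc (b := k₀) (a := -k) hk (by simpa using hk') (by simp) (Or.inr (by simp)) hd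
    hper hs ht hdec).smul (1 / 4)
  have h3 := (el_Wc (b := -k₀) (a := k) hk (by simpa using hk') (by simp) (Or.inr (by simp)) hd
    hper hs ht hdec).smul (1 / 4)
  have h4 := (el_Wc (b := -k₀) (a := -k) hk (by simpa using hk') (by simp) (Or.inr (by simp)) hd
    hper hs ht hdec).smul (1 / 4)
  refine (((h1.add h2).add (h3.add h4)).mono (le_of_eq ?_)).congr fun x => ?_
  · norm_num
    ring
  · unfold el
    rw [ex_three, ex_three, ex_three, ex_three, Complex.ofReal_mul, Complex.ofReal_mul, cos_exp,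
      cos_exp]
    push_cast
    have e : ∀ u w : ℂ, Complex.exp (Complex.I * (u + w)) = Complex.exp (Complex.I * u) *
        Complex.exp (Complex.I * w) := fun u w => by
      rw [← Complex.exp_add]; congr 1; ring
    rw [e, e, e, e]
    ring

theorem c1_one (l : ℤ) : c1 (fun _ => 1) l = if l = 0 then 2 * π else 0 := by
  have h := int_exp (-l)
  have h3 : c1 (fun _ => 1) l = ∫ y in (-π)..π, Complex.exp (Complex.I * ((-l : ℤ) * y)) := by
    unfold c1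
    refine intervalIntegral.integral_congr fun y _ => ?_
    simp
  rw [h3, h]
  simp

theorem one_dec {S : ℝ} (l : ℤ) : (1 + (l : ℝ) ^ 2) ^ (S / 2) * ‖c1 (fun _ => 1) l‖ ≤
    2 * π * (1 / (1 + (l : ℝ) ^ 2)) := by
  have hpi := Real.pi_pos
  rw [c1_one]
  split_ifs with h
  · subst h
    have h1 : ‖(2 * (π : ℂ))‖ = 2 * π := by
      rw [norm_mul, Complex.norm_real, Real.norm_eq_abs, abs_of_pos hpi]
      norm_num
    push_cast
    rw [h1]
    norm_num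
  · rw [Complex.ofReal_zero, norm_zero, mul_zero]
    positivity

theorem dec_summable {h : ℝ → ℝ} {S E : ℝ} (hS : 0 ≤ S)
    (hdec : ∀ l : ℤ, (1 + (l : ℝ) ^ 2) ^ (S / 2) * ‖c1 h l‖ ≤ E * (1 / (1 + (l : ℝ) ^ 2))) :
    Summable fun l : ℤ => ‖c1 h l‖ := by
  refine Summable.of_nonneg_of_le (fun l => norm_nonneg _) (fun l => ?_) (w_summable.mul_left E)
  refine le_trans ?_ (hdec l)
  have h1 : 1 ≤ (1 + (l : ℝ) ^ 2) ^ (S / 2) := Real.one_le_rpow (one_le_w l) (by linarith)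
  nlinarith [norm_nonneg (c1 h l)]

theorem hs_two {t M : ℝ} {f : V → ℝ} (h : Wc t M (fun x => (f x : ℂ))) :
    hs t (fun x => ![0, 0, f x]) ≤ ENNReal.ofReal (3 * M ^ 2) := by
  apply hs_le
  intro i
  fin_cases i
  · exact (Wc_zero t h.nonneg).congr fun x => by simp
  · exact (Wc_zero t h.nonneg).congr fun x => by simp
  · exact h

theorem hs_one {t M : ℝ} {f : V → ℝ} (h : Wc t M (fun x => (f x : ℂ))) :
    hs t (fun x => ![f x, 0, 0]) ≤ ENNReal.ofReal (3 * M ^ 2) := by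
  apply hs_le
  intro i
  fin_cases i
  · exact h
  · exact (Wc_zero t h.nonneg).congr fun x => by simp
  · exact (Wc_zero t h.nonneg).congr fun x => by simp

theorem fc_zero (k : Fin 3 → ℤ) : fc (fun _ => 0) k = 0 := by
  unfold fc
  simp

theorem hs_single {s : ℝ} {f : V → ℝ} {w : V → V} (h0 : ∀ x, w x 0 = f x) (h1 : ∀ x, w x 1 = 0)
    (h2 : ∀ x, w x 2 = 0) : hs s w = hsf s f := by
  unfold hsf
  rw [hs_def]
  refine tsum_congr fun k => ?_
  rw [Fin.sum_univ_three]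
  simp only [h0, h1, h2, fc_zero, norm_zero]
  congr 2
  ring

theorem hsf_le {t M : ℝ} {f : V → ℝ} (h : Wc t M (fun x => (f x : ℂ))) :
    hsf t f ≤ ENNReal.ofReal (M ^ 2) := by
  unfold hsf
  have h1 : ∀ k, ENNReal.ofReal (W t k * ‖fc f k‖ ^ 2) =
      ENNReal.ofReal (W (t / 2) k * ‖fc f k‖) ^ 2 := by
    intro k
    have hW := (W_pos (t / 2) k).le
    rw [← ENNReal.ofReal_pow (by positivity), ← W_half]
    congr 1
    ring
  simp only [h1]
  refine (sum_sq_le _).trans ?_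
  rw [ENNReal.ofReal_pow h.nonneg]
  gcongr
  simp only [fc_eq]
  exact h.sum

theorem sq_rpow {k : ℝ} (hk : 0 ≤ k) (s : ℝ) : (k ^ s) ^ 2 = k ^ (2 * s) := by
  rw [← Real.rpow_natCast, ← Real.rpow_mul hk]
  congr 1
  push_cast
  ring

/-! ### The eigenvalue -/

theorem Mb_lam {ν α : ℝ} (hν : 0 ≤ ν) (hα : 0 ≤ α) : Mb (lam ν α) := by
  refine ⟨fun k => by simp [lam], ν, α, hν, fun k => ?_⟩
  unfold lam W
  have h0 : 0 ≤ ∑ j, (k j : ℝ) ^ 2 := Finset.sum_nonneg fun j _ => sq_nonneg _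
  rw [abs_of_nonneg (mul_nonneg hν (Real.rpow_nonneg h0 _))]
  gcongr
  linarith

theorem cos_tg (l : ℕ) : (fun y : V => Real.cos (l * y 1)) = tg 1 ![0, (l : ℤ), 0] := by
  ext x
  unfold tg kx
  rw [Fin.sum_univ_three]
  simp

theorem cos_spf (l : ℕ) : SPf (fun y : V => Real.cos (l * y 1)) := by
  rw [cos_tg]
  exact ⟨tg_contDiff _ _, tg_per _ _⟩

theorem mg_cos {ν α : ℝ} (hν : 0 ≤ ν) (hα : 0 ≤ α) (l : ℕ) :
    mg (lam ν α) (fun y : V => Real.cos (l * y 1)) =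
      fun x => ν * ((l : ℝ) ^ 2) ^ α * Real.cos (l * x 1) := by
  have hm := Mb_lam hν hα
  have hf := cos_spf l
  refine fc_inj (mg_spf hm hf).cont (continuous_const.mul hf.cont) (mg_spf hm hf).2
    (fun i x => congrArg (fun c : ℝ => ν * ((l : ℝ) ^ 2) ^ α * c) (hf.2 i x)) fun k => ?_
  · rw [fc_mg hm hf, fc_smul, cos_tg, fc_tg]
    by_cases h1 : k = ![0, (l : ℤ), 0]
    · subst h1
      have e : lam ν α ![0, (l : ℤ), 0] = ν * ((l : ℝ) ^ 2) ^ α := by
        unfold lam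
        rw [Fin.sum_univ_three]
        simp
      rw [e]
    · by_cases h2 : k = -![0, (l : ℤ), 0]
      · subst h2
        have e : lam ν α (-![0, (l : ℤ), 0]) = ν * ((l : ℝ) ^ 2) ^ α := by
          rw [hm.even]
          unfold lam
          rw [Fin.sum_univ_three]
          simp
        rw [e]
      · rw [if_neg h1, if_neg h2]
        simp

theorem mg_zero (m : (Fin 3 → ℤ) → ℝ) (x : V) : mg m (fun _ => 0) x = 0 := by
  unfold mg
  have h : ∀ k : Fin 3 → ℤ, tg (((((2 * π) ^ 3)⁻¹ * m k : ℝ) : ℂ) * fc (fun _ => 0) k) k x = 0 := by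
    intro k
    rw [fc_zero, mul_zero]
    unfold tg
    simp
  simp only [h]
  exact tsum_zero

/-! ### The theorem -/

theorem fin_le {A C q : ℝ} {a b m : ℕ} (hA0 : 0 ≤ A) (hA : A ≤ C) (hab : a ≤ b) (hq : 0 ≤ q) :
    A * 2 ^ (a * m) * q ≤ C * 2 ^ (b * m) * q := by
  have h : (2 : ℝ) ^ (a * m) ≤ 2 ^ (b * m) :=
    pow_le_pow_right₀ (by norm_num) (Nat.mul_le_mul_right m hab)
  have hC0 : 0 ≤ C := hA0.trans hA
  gcongr

theorem three_sq {c D k s : ℝ} {a m : ℕ} (hk : 0 ≤ k) :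
    3 * (c * (D * 2 ^ (a * m)) * k ^ s) ^ 2 = 3 * c ^ 2 * D ^ 2 * 2 ^ (2 * a * m) * k ^ (2 * s) := by
  rw [← sq_rpow hk]
  have e : (2 : ℝ) ^ (2 * a * m) = (2 ^ (a * m)) ^ 2 := by
    rw [← pow_mul]
    congr 1
    ring
  rw [e]
  ring

theorem bdm : S_BDM := by
  intro hP hCm S
  have hpi := Real.pi_pos
  obtain ⟨D₁, n₁, hD₁, h₁⟩ := prof_decay χb (S + 1)
  obtain ⟨D₂, n₂, hD₂, h₂⟩ := hP.2 S
  obtain ⟨Cc, hCc, hcomm⟩ := hCm S
  have hcS := cS_nonneg S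
  have hcS1 := cS_nonneg (S + 1)
  set D : ℝ := D₁ + D₂ + 2 * π with hD
  set C : ℝ := 1 + 3 * cS S ^ 2 * D ^ 2 + Cc * D₁ ^ 2 * (cS (S + 1) * (2 * π)) ^ 2 with hC
  have hD0 : 0 ≤ D := by positivity
  have t1 : 0 ≤ 3 * cS S ^ 2 * D ^ 2 := by positivity
  have t2 : 0 ≤ Cc * D₁ ^ 2 * (cS (S + 1) * (2 * π)) ^ 2 := by positivity
  have k1 : 3 * cS S ^ 2 * D₁ ^ 2 ≤ C := by
    have : 3 * cS S ^ 2 * D₁ ^ 2 ≤ 3 * cS S ^ 2 * D ^ 2 := by
      gcongr
      linarith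
    linarith
  have k2 : 3 * cS S ^ 2 * D₂ ^ 2 ≤ C := by
    have : 3 * cS S ^ 2 * D₂ ^ 2 ≤ 3 * cS S ^ 2 * D ^ 2 := by
      gcongr
      linarith
    linarith
  have k3 : 3 * cS S ^ 2 * (2 * π) ^ 2 ≤ C := by
    have : 3 * cS S ^ 2 * (2 * π) ^ 2 ≤ 3 * cS S ^ 2 * D ^ 2 := by
      gcongr
      linarith
    linarith
  have k4 : Cc * D₁ ^ 2 * (cS (S + 1) * (2 * π)) ^ 2 ≤ C := by linarith
  refine ⟨C, 2 * (n₁ + n₂), by linarith, fun P hPok s hsS m => ?_⟩
  have hS : 0 ≤ S := (abs_nonneg s).trans hsS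
  have hl1 : 1 ≤ P.K (m + 1) := hPok.K_one _
  have hk1 : 1 ≤ P.K m := hPok.K_one _
  have hkl : P.K m ≤ P.K (m + 1) := (hPok.K_mono (Nat.lt_succ_self m)).le
  have hX := hP.1 m (P.K (m + 1)) hl1 (hPok.K_big m)
  have hXd : ContDiff ℝ ∞ (X P m) := hX.1
  have hXp : ∀ y, X P m (y + 2 * π) = X P m y := hX.2.1
  have hXdec : ∀ j : ℤ, (1 + (j : ℝ) ^ 2) ^ (S / 2) * ‖c1 (X P m) j‖ ≤
      (D₂ * 2 ^ (n₂ * m)) * (1 / (1 + (j : ℝ) ^ 2)) := fun j => h₂ m (P.K (m + 1)) hl1 j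
  have hXs : Summable fun l : ℤ => ‖c1 (X P m) l‖ := dec_summable hS hXdec
  have hχdec1 : ∀ j : ℤ, (1 + (j : ℝ) ^ 2) ^ ((S + 1) / 2) * ‖c1 (hχ m) j‖ ≤
      (D₁ * 2 ^ (n₁ * m)) * (1 / (1 + (j : ℝ) ^ 2)) := fun j => h₁ m j
  have hχdec : ∀ j : ℤ, (1 + (j : ℝ) ^ 2) ^ (S / 2) * ‖c1 (hχ m) j‖ ≤
      (D₁ * 2 ^ (n₁ * m)) * (1 / (1 + (j : ℝ) ^ 2)) := by
    intro j
    refine le_trans ?_ (hχdec1 j)
    gcongr
    · exact one_le_w j
    · linarith
  have hχs : Summable fun l : ℤ => ‖c1 (hχ m) l‖ := dec_summable hS hχdec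
  have h1s : Summable fun l : ℤ => ‖c1 (fun _ => (1 : ℝ)) l‖ := dec_summable hS one_dec
  have q0 : ∀ (k : ℕ) (t : ℝ), 0 ≤ (k : ℝ) ^ t := fun k t => Real.rpow_nonneg (Nat.cast_nonneg k) t
  have hle1 : 2 * n₁ ≤ 2 * (n₁ + n₂) := by omega
  have hle2 : 2 * n₂ ≤ 2 * (n₁ + n₂) := by omega
  -- the constant profile
  have one_fin : ∀ (k : ℕ), 3 * (cS S * (2 * π) * (k : ℝ) ^ s) ^ 2 ≤
      C * 2 ^ (2 * (n₁ + n₂) * m) * (k : ℝ) ^ (2 * s) := by
    intro k
    have e := three_sq (c := cS S) (D := 2 * π) (k := (k : ℝ)) (s := s) (a := 0) (m := m)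
      (Nat.cast_nonneg k)
    simp only [Nat.zero_mul, pow_zero, mul_one, Nat.mul_zero] at e
    rw [e]
    have := fin_le (a := 0) (b := 2 * (n₁ + n₂)) (m := m) (A := 3 * cS S ^ 2 * (2 * π) ^ 2)
      (C := C) (q := (k : ℝ) ^ (2 * s)) (by positivity) k3 (Nat.zero_le _) (q0 _ _)
    simpa using this
  have X_fin : ∀ (k : ℕ), 3 * (cS S * (D₂ * 2 ^ (n₂ * m)) * (k : ℝ) ^ s) ^ 2 ≤
      C * 2 ^ (2 * (n₁ + n₂) * m) * (k : ℝ) ^ (2 * s) := by
    intro k
    rw [three_sq (Nat.cast_nonneg k)]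
    exact fin_le (by positivity) k2 hle2 (q0 _ _)
  have χ_fin : ∀ (k : ℕ), 3 * (cS S * (D₁ * 2 ^ (n₁ * m)) * (k : ℝ) ^ s) ^ 2 ≤
      C * 2 ^ (2 * (n₁ + n₂) * m) * (k : ℝ) ^ (2 * s) := by
    intro k
    rw [three_sq (Nat.cast_nonneg k)]
    exact fin_le (by positivity) k1 hle1 (q0 _ _)
  refine ⟨?_, ?_, ?_, ?_, ?_, ?_, ?_⟩
  · -- the shear
    exact (hs_one (Wc_cos1 (h := hχ m) hl1 (hχ_contDiff m) (hχ_per m) hχs hsS hχdec)).trans
      (ENNReal.ofReal_le_ofReal (χ_fin _))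
  · -- the mode 0
    have h := Wc_cos0 (h := X P m) hk1 hXd hXp hXs hsS hXdec
    have e : Em P m 0 = fun x => ![0, 0, X P m (x 1) * Real.cos (P.K m * x 0)] := by
      ext x i
      simp [Em, cmode, trg]
    rw [e]
    exact (hs_two h).trans (ENNReal.ofReal_le_ofReal (X_fin _))
  · intro j hj
    have hkj : 1 ≤ j * P.K (m + 1) := Nat.one_le_iff_ne_zero.2
      (Nat.mul_ne_zero (by omega) (by omega))
    have hkj2 : P.K m ≤ j * P.K (m + 1) := hkl.trans (Nat.le_mul_of_pos_left _ hj)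
    have f := X_fin (j * P.K (m + 1))
    push_cast at f
    by_cases hje : Even j
    · have h := Wc_cos_cos (h := X P m) hkj hkj2 hXd hXp hXs hsS hXdec
      push_cast at h
      have e : Em P m j = fun x => ![0, 0, X P m (x 1) * Real.cos (j * P.K (m + 1) * x 1) *
          Real.cos (P.K m * x 0)] := by
        ext x i
        simp only [Em, cmode, trg, if_pos hje, mul_assoc]
      rw [e]
      refine (hs_two (f := fun x => X P m (x 1) * Real.cos (j * P.K (m + 1) * x 1) *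
          Real.cos (P.K m * x 0)) (M := cS S * (D₂ * 2 ^ (n₂ * m)) *
            ((j : ℝ) * P.K (m + 1)) ^ s) ?_).trans (ENNReal.ofReal_le_ofReal f)
      exact h.congr fun x => by push_cast; rfl
    · have h := Wc_cos_sin (h := X P m) hkj hkj2 hXd hXp hXs hsS hXdec
      push_cast at h
      have e : Em P m j = fun x => ![0, 0, X P m (x 1) * Real.cos (j * P.K (m + 1) * x 1) *
          Real.sin (P.K m * x 0)] := by
        ext x i
        simp only [Em, cmode, trg, if_neg hje, mul_assoc]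
      rw [e]
      refine (hs_two (f := fun x => X P m (x 1) * Real.cos (j * P.K (m + 1) * x 1) *
          Real.sin (P.K m * x 0)) (M := cS S * (D₂ * 2 ^ (n₂ * m)) *
            ((j : ℝ) * P.K (m + 1)) ^ s) ?_).trans (ENNReal.ofReal_le_ofReal f)
      exact h.congr fun x => by push_cast; rfl
  · exact (hs_one (Wc_cos1 (h := X P m) hl1 hXd hXp hXs hsS hXdec)).trans
      (ENNReal.ofReal_le_ofReal (X_fin _))
  · have h := Wc_cos_sin (h := fun _ => 1) hl1 hkl contDiff_const (fun _ => rfl) h1s hsS one_dec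
    refine (hs_two (f := fun x => Real.cos (P.K (m + 1) * x 1) * Real.sin (P.K m * x 0))
      (h.congr fun x => ?_)).trans (ENNReal.ofReal_le_ofReal (one_fin _))
    simp only [one_mul]
  · have h := Wc_cos0 (h := fun _ => 1) hk1 contDiff_const (fun _ => rfl) h1s hsS one_dec
    refine (hs_two (f := fun x => Real.cos (P.K m * x 0))
      (h.congr fun x => ?_)).trans (ENNReal.ofReal_le_ofReal (one_fin _))
    simp only [one_mul]
  · -- the commutator
    have hν := hPok.ν_pos.le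
    have hα := hPok.α_pos
    have hα2 := hPok.α_le
    set f : V → ℝ := fun y => Real.cos (P.K (m + 1) * y 1) with hf
    have hmu : mu P (m + 1) 0 = P.ν * ((P.K (m + 1) : ℝ) ^ 2) ^ P.α := by
      unfold mu
      simp
    have e0 : hs s (fun x i => MG (lam P.ν P.α) (Fm P m) x i - mu P (m + 1) 0 * Fm P m x i) =
        hsf s (cm P.ν P.α (hχ m) f) := by
      refine hs_single (fun x => ?_) (fun x => ?_) fun x => ?_
      · unfold cm
        rw [hf, mg_cos hν hα.le, hmu]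
        unfold MG Fm
        simp only [Matrix.cons_val_zero]
        ring
      · unfold MG Fm
        simp [mg_zero]
      · unfold MG Fm
        simp [mg_zero]
    rw [e0]
    have hc := hcomm P.ν P.α s (D₁ * 2 ^ (n₁ * m)) (hχ m) f hν hα hα2 hsS (hχ_contDiff m) (hχ_per m)
      hχdec1 (cos_spf _)
    refine hc.trans ?_
    have ht : |s + 2 * P.α - 1| ≤ S + 1 := by
      rw [abs_le] at hsS ⊢
      constructor <;> linarith
    have hW := Wc_cos1 (h := fun _ => 1) hl1 contDiff_const (fun _ => rfl)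
      (dec_summable (S := S) hS one_dec) ht one_dec
    have hf2 : hsf (s + 2 * P.α - 1) f ≤
        ENNReal.ofReal ((cS (S + 1) * (2 * π) * (P.K (m + 1) : ℝ) ^ (s + 2 * P.α - 1)) ^ 2) := by
      refine hsf_le (hW.congr fun x => ?_)
      simp only [hf, one_mul]
    calc ENNReal.ofReal (Cc * P.ν ^ 2 * (D₁ * 2 ^ (n₁ * m)) ^ 2) * hsf (s + 2 * P.α - 1) f ≤
          ENNReal.ofReal (Cc * P.ν ^ 2 * (D₁ * 2 ^ (n₁ * m)) ^ 2) *
          ENNReal.ofReal ((cS (S + 1) * (2 * π) *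
            (P.K (m + 1) : ℝ) ^ (s + 2 * P.α - 1)) ^ 2) := by gcongr
      _ = ENNReal.ofReal (Cc * P.ν ^ 2 * (D₁ * 2 ^ (n₁ * m)) ^ 2 * (cS (S + 1) * (2 * π) *
            (P.K (m + 1) : ℝ) ^ (s + 2 * P.α - 1)) ^ 2) :=
          (ENNReal.ofReal_mul (by positivity)).symm
      _ ≤ _ := by
          apply ENNReal.ofReal_le_ofReal
          have e1 : Cc * P.ν ^ 2 * (D₁ * 2 ^ (n₁ * m)) ^ 2 * (cS (S + 1) * (2 * π) *
              (P.K (m + 1) : ℝ) ^ (s + 2 * P.α - 1)) ^ 2 =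
              (Cc * D₁ ^ 2 * (cS (S + 1) * (2 * π)) ^ 2) * 2 ^ (2 * n₁ * m) *
              (P.ν ^ 2 * (P.K (m + 1) : ℝ) ^ (2 * (s + 2 * P.α - 1))) := by
            rw [← sq_rpow (Nat.cast_nonneg _)]
            have e : (2 : ℝ) ^ (2 * n₁ * m) = (2 ^ (n₁ * m)) ^ 2 := by
              rw [← pow_mul]
              congr 1
              ring
            rw [e]
            ring
          rw [e1]
          refine (fin_le t2 k4 hle1 (mul_nonneg (sq_nonneg _) (q0 _ _))).trans (le_of_eq ?_)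
          ring

end Pool.Agent.H306.HD.TBDM
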