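import Pool.Agent.H306.HD.Stm2

/-! Joint `C^1` regularity of a series with time dependent coefficients. -/

noncomputable section

namespace Pool.Agent.H306.HD.TC1

open Set MeasureTheory Filter Topology

open scoped Real ContDiff ENNReal

open Pool.Agent.H306.CK Pool.Agent.H306.DS Pool.Agent.H306.HD

/-- The affine extension of a function to negative times. -/
def ext (y y' : ℝ → ℝ) (t : ℝ) : ℝ := if t < 0 then y 0 + t * y' 0 else y t

theorem ext_of_nonneg (y y' : ℝ → ℝ) {t : ℝ} (ht : 0 ≤ t) : ext y y' t = y t :=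
  if_neg (not_lt.2 ht)

theorem ext_hasDeriv {y y' : ℝ → ℝ} {T : ℝ} (hT : 0 < T)
    (h : ∀ t ∈ Ico 0 T, HasDerivWithinAt y (y' t) (Ico 0 T) t) {t : ℝ} (ht : t < T) :
    HasDerivAt (ext y y') (y' (max t 0)) t := by
  rcases lt_trichotomy t 0 with h0 | h0 | h0
  · rw [max_eq_right h0.le]
    have h1 : HasDerivAt (fun s : ℝ => y 0 + s * y' 0) (y' 0) t := by
      simpa using ((hasDerivAt_id t).mul_const (y' 0)).const_add (y 0)
    refine h1.congr_of_eventuallyEq ?_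
    filter_upwards [Iio_mem_nhds h0] with s hs
    exact if_pos hs
  · subst h0
    rw [max_self]
    have h1 : HasDerivWithinAt (ext y y') (y' 0) (Iic 0) 0 := by
      have h2 : HasDerivAt (fun s : ℝ => y 0 + s * y' 0) (y' 0) 0 := by
        simpa using ((hasDerivAt_id (0 : ℝ)).mul_const (y' 0)).const_add (y 0)
      refine h2.hasDerivWithinAt.congr ?_ ?_
      · intro s hs
        rcases (mem_Iic.1 hs).lt_or_eq with h3 | h3
        · exact if_pos h3
        · subst h3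
          simp [ext]
      · simp [ext]
    have h2 : HasDerivWithinAt (ext y y') (y' 0) (Ici 0) 0 := by
      have h4 : HasDerivWithinAt y (y' 0) (Ici 0) 0 :=
        (h 0 ⟨le_rfl, hT⟩).mono_of_mem_nhdsWithin (Ico_mem_nhdsGE hT)
      refine h4.congr ?_ ?_
      · intro s hs
        exact if_neg (not_lt.2 hs)
      · exact if_neg (lt_irrefl 0)
    have h3 := h1.union h2
    rw [Iic_union_Ici] at h3
    exact hasDerivWithinAt_univ.1 h3
  · rw [max_eq_left h0.le]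
    have h1 := (h t ⟨h0.le, ht⟩).hasDerivAt (Ico_mem_nhds h0 ht)
    refine h1.congr_of_eventuallyEq ?_
    filter_upwards [Ioi_mem_nhds h0] with s hs
    exact if_neg (not_lt.2 (le_of_lt hs))

theorem ext_bound {y y' : ℝ → ℝ} {M u t₁ : ℝ} (hM : 0 ≤ M) (ht₁ : 0 ≤ t₁)
    (h : ∀ t ∈ Icc 0 t₁, (|y t| + |y' t|) * M ≤ u) {t : ℝ} (ht : t ∈ Ioo (-1) t₁) :
    (|ext y y' t| + |y' (max t 0)|) * M ≤ 2 * u := by
  have hu : 0 ≤ u := (mul_nonneg (by positivity) hM).trans (h 0 ⟨le_rfl, ht₁⟩)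
  rcases lt_or_ge t 0 with h0 | h0
  · rw [max_eq_right h0.le]
    have h1 : ext y y' t = y 0 + t * y' 0 := if_pos h0
    have h2 : |ext y y' t| ≤ |y 0| + |y' 0| := by
      rw [h1]
      refine (abs_add_le _ _).trans (add_le_add le_rfl ?_)
      rw [abs_mul]
      exact mul_le_of_le_one_left (abs_nonneg _) (abs_le.2 ⟨ht.1.le, by linarith⟩)
    have h3 := h 0 ⟨le_rfl, ht₁⟩
    have h4 : (|ext y y' t| + |y' 0|) * M ≤ (2 * (|y 0| + |y' 0|)) * M := by
      refine mul_le_mul_of_nonneg_right ?_ hM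
      linarith [abs_nonneg (y 0)]
    linarith
  · rw [max_eq_left h0, ext_of_nonneg y y' h0]
    linarith [h t ⟨h0, ht.2.le⟩]

/-- the norm of a linear form -/
theorem norm_form (L : V →L[ℝ] ℝ) {M : ℝ} (h : ∀ j, |L (Pi.single j 1)| ≤ M) : ‖L‖ ≤ 3 * M := by
  have hM : 0 ≤ M := (abs_nonneg _).trans (h 0)
  refine L.opNorm_le_bound (by positivity) fun x => ?_
  have h1 : L x = ∑ j, x j * L (Pi.single j 1) := by
    conv_lhs => rw [pi_eq_sum_univ' x]
    rw [map_sum]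
    refine Finset.sum_congr rfl fun j _ => ?_
    rw [map_smul, smul_eq_mul]
  rw [h1]
  refine (norm_sum_le _ _).trans ?_
  have h2 : ∀ j ∈ (Finset.univ : Finset (Fin 3)), ‖x j * L (Pi.single j 1)‖ ≤ ‖x‖ * M := by
    intro j _
    rw [norm_mul]
    exact mul_le_mul (norm_le_pi_norm x j) (h j) (norm_nonneg _) (norm_nonneg _)
  refine (Finset.sum_le_sum h2).trans ?_
  rw [Finset.sum_const, Finset.card_univ, Fintype.card_fin, nsmul_eq_mul]
  push_cast
  linarith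

/-- the derivative of a term -/
def dt (φ : V → V) (y y' : ℝ → ℝ) (i : Fin 3) (z : ℝ × V) : ℝ × V →L[ℝ] ℝ :=
  ext y y' z.1 • (fderiv ℝ (fun x => φ x i) z.2).comp (ContinuousLinearMap.snd ℝ ℝ V) +
    φ z.2 i • (y' (max z.1 0) • ContinuousLinearMap.fst ℝ ℝ V)

theorem comp_contDiff {φ : V → V} (h : ContDiff ℝ 1 φ) (i : Fin 3) :
    ContDiff ℝ 1 fun x => φ x i := contDiff_pi.1 h i

theorem hasFDeriv_term {φ : V → V} (hφ : ContDiff ℝ 1 φ) {y y' : ℝ → ℝ} {T : ℝ} (hT : 0 < T)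
    (h : ∀ t ∈ Ico 0 T, HasDerivWithinAt y (y' t) (Ico 0 T) t) (i : Fin 3) {z : ℝ × V}
    (hz : z.1 < T) :
    HasFDerivAt (fun z : ℝ × V => ext y y' z.1 * φ z.2 i) (dt φ y y' i z) z := by
  have h1 : HasFDerivAt (fun z : ℝ × V => ext y y' z.1)
      (y' (max z.1 0) • ContinuousLinearMap.fst ℝ ℝ V) z :=
    (ext_hasDeriv hT h hz).comp_hasFDerivAt z hasFDerivAt_fst
  have h2 : HasFDerivAt (fun z : ℝ × V => φ z.2 i)
      ((fderiv ℝ (fun x => φ x i) z.2).comp (ContinuousLinearMap.snd ℝ ℝ V)) z := by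
    have h3 : HasFDerivAt (fun x => φ x i) (fderiv ℝ (fun x => φ x i) z.2) z.2 :=
      (((comp_contDiff hφ i).differentiable (by norm_num)) z.2).hasFDerivAt
    exact h3.comp z hasFDerivAt_snd
  exact h1.mul h2

theorem norm_dt {φ : V → V} {M : ℝ}
    (hb : ∀ x i, |φ x i| ≤ M ∧ ∀ j, |pd j (fun z => φ z i) x| ≤ M) (y y' : ℝ → ℝ) (i : Fin 3)
    (z : ℝ × V) : ‖dt φ y y' i z‖ ≤ 3 * ((|ext y y' z.1| + |y' (max z.1 0)|) * M) := by
  have hM : 0 ≤ M := (abs_nonneg _).trans (hb 0 0).1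
  unfold dt
  refine (norm_add_le _ _).trans ?_
  have h1 : ‖ext y y' z.1 • (fderiv ℝ (fun x => φ x i) z.2).comp (ContinuousLinearMap.snd ℝ ℝ V)‖ ≤
      |ext y y' z.1| * (3 * M) := by
    rw [norm_smul]
    refine mul_le_mul_of_nonneg_left ?_ (norm_nonneg _)
    refine (ContinuousLinearMap.opNorm_comp_le _ _).trans ?_
    have h2 : ‖fderiv ℝ (fun x => φ x i) z.2‖ ≤ 3 * M := norm_form _ (hb z.2 i).2
    calc _ ≤ ‖fderiv ℝ (fun x => φ x i) z.2‖ * 1 :=
          mul_le_mul_of_nonneg_left (ContinuousLinearMap.norm_snd_le ℝ ℝ V) (norm_nonneg _)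
      _ ≤ _ := by rw [mul_one]; exact h2
  have h3 : ‖φ z.2 i • (y' (max z.1 0) • ContinuousLinearMap.fst ℝ ℝ V)‖ ≤
      M * |y' (max z.1 0)| := by
    rw [norm_smul, norm_smul]
    refine mul_le_mul (hb z.2 i).1 ?_ (by positivity) hM
    calc _ ≤ ‖y' (max z.1 0)‖ * 1 :=
          mul_le_mul_of_nonneg_left (ContinuousLinearMap.norm_fst_le ℝ ℝ V) (norm_nonneg _)
      _ = _ := by rw [mul_one]; rfl
  have h4 : 0 ≤ |y' (max z.1 0)| * M := mul_nonneg (abs_nonneg _) hM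
  nlinarith

theorem cont_dt {φ : V → V} (hφ : ContDiff ℝ 1 φ) {y y' : ℝ → ℝ} {T : ℝ} (hT : 0 < T)
    (h : ∀ t ∈ Ico 0 T, HasDerivWithinAt y (y' t) (Ico 0 T) t) (hc : ContinuousOn y' (Ico 0 T))
    (i : Fin 3) : ContinuousOn (dt φ y y' i) (Iio T ×ˢ univ) := by
  have h1 : ContinuousOn (fun z : ℝ × V => ext y y' z.1) (Iio T ×ˢ univ) := by
    intro z hz
    exact ((ext_hasDeriv hT h hz.1).continuousAt.comp
      (f := fun z : ℝ × V => z.1) (x := z) continuous_fst.continuousAt).continuousWithinAt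
  have h2 : ContinuousOn (fun z : ℝ × V => y' (max z.1 0)) (Iio T ×ˢ univ) := by
    refine hc.comp (f := fun z : ℝ × V => max z.1 0) ?_ ?_
    · exact (continuous_fst.max continuous_const).continuousOn
    · intro z hz
      exact ⟨le_max_right _ _, max_lt hz.1 hT⟩
  have h3 : Continuous fun z : ℝ × V => φ z.2 i :=
    (comp_contDiff hφ i).continuous.comp continuous_snd
  have h4 : Continuous fun z : ℝ × V => fderiv ℝ (fun x => φ x i) z.2 :=
    ((comp_contDiff hφ i).continuous_fderiv (by norm_num)).comp continuous_snd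
  have h5 : Continuous fun z : ℝ × V =>
      (fderiv ℝ (fun x => φ x i) z.2).comp (ContinuousLinearMap.snd ℝ ℝ V) :=
    h4.clm_comp continuous_const
  exact (h1.smul h5.continuousOn).add (h3.continuousOn.smul (h2.smul continuousOn_const))

section

variable {ι : Type} {φ : ι → V → V} {y y' : ι → ℝ → ℝ} {M : ι → ℝ} {T : ℝ}

/-- the sum of the extended series is continuously differentiable -/
theorem main (hT : 0 < T)
    (hφ : ∀ r, ContDiff ℝ 1 (φ r))
    (hb : ∀ r x i, |φ r x i| ≤ M r ∧ ∀ j, |pd j (fun z => φ r z i) x| ≤ M r)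
    (hy : ∀ r, ∀ t ∈ Ico 0 T, HasDerivWithinAt (y r) (y' r t) (Ico 0 T) t)
    (hc : ∀ r, ContinuousOn (y' r) (Ico 0 T))
    (hu : ∀ t₁ ∈ Ico 0 T, ∃ u : ι → ℝ, Summable u ∧ ∀ r, ∀ t ∈ Icc 0 t₁,
      (|y r t| + |y' r t|) * M r ≤ u r) (i : Fin 3) {z₀ : ℝ × V} (hz₀ : z₀.1 ∈ Ico 0 T) :
    ContDiffAt ℝ 1 (fun z : ℝ × V => ∑' r, ext (y r) (y' r) z.1 * φ r z.2 i) z₀ ∧
    HasFDerivAt (fun z : ℝ × V => ∑' r, ext (y r) (y' r) z.1 * φ r z.2 i)
      (∑' r, dt (φ r) (y r) (y' r) i z₀) z₀ ∧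
    Summable fun r => dt (φ r) (y r) (y' r) i z₀ := by
  have hM : ∀ r, 0 ≤ M r := fun r => (abs_nonneg _).trans (hb r 0 0).1
  obtain ⟨t₁, ht₁, ht₁T⟩ := exists_between hz₀.2
  have ht₁0 : 0 ≤ t₁ := hz₀.1.trans ht₁.le
  obtain ⟨u, hus, hur⟩ := hu t₁ ⟨ht₁0, ht₁T⟩
  let s : Set (ℝ × V) := Ioo (-1) t₁ ×ˢ univ
  have hso : IsOpen s := isOpen_Ioo.prod isOpen_univ
  have hsc : IsPreconnected s := isPreconnected_Ioo.prod isPreconnected_univ
  have hz : z₀ ∈ s := ⟨⟨by linarith [hz₀.1], ht₁⟩, mem_univ _⟩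
  have hbd : ∀ r, ∀ z ∈ s, ‖dt (φ r) (y r) (y' r) i z‖ ≤ 6 * u r := by
    intro r z hzs
    have h1 := norm_dt (hb r) (y r) (y' r) i z
    have h2 := ext_bound (hM r) ht₁0 (hur r) hzs.1
    linarith
  have hus' : Summable fun r => 6 * u r := hus.mul_left 6
  have hf0 : Summable fun r => ext (y r) (y' r) z₀.1 * φ r z₀.2 i := by
    refine Summable.of_norm_bounded hus fun r => ?_
    rw [ext_of_nonneg _ _ hz₀.1, norm_mul]
    refine le_trans ?_ (hur r z₀.1 ⟨hz₀.1, ht₁.le⟩)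
    exact mul_le_mul (le_add_of_nonneg_right (abs_nonneg _)) (hb r z₀.2 i).1 (abs_nonneg _)
      (by positivity)
  have hder : ∀ z ∈ s, HasFDerivAt (fun z : ℝ × V => ∑' r, ext (y r) (y' r) z.1 * φ r z.2 i)
      (∑' r, dt (φ r) (y r) (y' r) i z) z := by
    intro z hzs
    exact hasFDerivAt_tsum_of_isPreconnected (f := fun r (z : ℝ × V) =>
      ext (y r) (y' r) z.1 * φ r z.2 i) hus' hso hsc
      (fun r w hw => hasFDeriv_term (hφ r) hT (hy r) i (hw.1.2.trans ht₁T)) hbd hz hf0 hzs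
  refine ⟨?_, hder z₀ hz, Summable.of_norm_bounded hus' fun r => hbd r z₀ hz⟩
  rw [contDiffAt_one_iff]
  refine ⟨fun z => ∑' r, dt (φ r) (y r) (y' r) i z, s, hso.mem_nhds hz, ?_, hder⟩
  refine continuousOn_tsum (fun r => ?_) hus' hbd
  exact (cont_dt (hφ r) hT (hy r) (hc r) i).mono fun w hw => ⟨hw.1.2.trans ht₁T, mem_univ _⟩

end

theorem c1reg : S_C1 := by
  intro ι φ y y' M T hT hφ hb hy hc hu
  have hmain := fun i (z : ℝ × V) (hz : z.1 ∈ Ico 0 T) => main hT hφ hb hy hc hu i hz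
  refine ⟨?_, fun t ht x i => ⟨?_, fun j => ?_⟩⟩
  · rw [contDiffOn_pi]
    intro i z hz
    refine (hmain i z hz.1).1.contDiffWithinAt.congr ?_ ?_
    · intro w hw
      exact tsum_congr fun r => by rw [ext_of_nonneg _ _ hw.1.1]
    · exact tsum_congr fun r => by rw [ext_of_nonneg _ _ hz.1.1]
  · obtain ⟨-, h1, h2⟩ := hmain i (t, x) ht
    have h3 : HasDerivAt (fun s : ℝ => (s, x)) ((1 : ℝ), (0 : V)) t :=
      (hasDerivAt_id t).prodMk (hasDerivAt_const t x)
    have h4 := h1.comp_hasDerivAt t h3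
    have h5 : (∑' r, dt (φ r) (y r) (y' r) i (t, x)) ((1 : ℝ), (0 : V)) =
        ∑' r, y' r t * φ r x i := by
      have h6 := (h2.hasSum.mapL (ContinuousLinearMap.apply ℝ ℝ ((1 : ℝ), (0 : V)))).tsum_eq
      rw [ContinuousLinearMap.apply_apply] at h6
      rw [← h6]
      refine tsum_congr fun r => ?_
      simp [dt, max_eq_left ht.1, mul_comm]
    rw [h5] at h4
    refine h4.hasDerivWithinAt.congr ?_ ?_
    · intro s hs
      exact tsum_congr fun r => by simp only [ext_of_nonneg _ _ hs.1]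
    · exact tsum_congr fun r => by simp only [ext_of_nonneg _ _ ht.1]
  · obtain ⟨-, h1, h2⟩ := hmain i (t, x) ht
    have h3 : HasFDerivAt (fun z : V => (t, z)) (ContinuousLinearMap.inr ℝ ℝ V) x :=
      hasFDerivAt_prodMk_right t x
    have h4 := h1.comp x h3
    have h5 : HasFDerivAt (fun z : V => ∑' r, y r t * φ r z i)
        ((∑' r, dt (φ r) (y r) (y' r) i (t, x)).comp (ContinuousLinearMap.inr ℝ ℝ V)) x := by
      refine h4.congr_of_eventuallyEq (Eventually.of_forall fun z => ?_)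
      exact tsum_congr fun r => by simp only [ext_of_nonneg _ _ ht.1]
    have h6 := h2.hasSum.mapL (ContinuousLinearMap.apply ℝ ℝ ((0 : ℝ), (Pi.single j 1 : V)))
    have h7 : pd j (fun z => ∑' r, y r t * φ r z i) x =
        (∑' r, dt (φ r) (y r) (y' r) i (t, x)) ((0 : ℝ), (Pi.single j 1 : V)) := by
      unfold pd
      rw [h5.fderiv]
      rfl
    rw [h7]
    rw [ContinuousLinearMap.apply_apply] at h6
    have h8 : (fun r => y r t * pd j (fun z => φ r z i) x) =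
        fun r => ContinuousLinearMap.apply ℝ ℝ ((0 : ℝ), (Pi.single j 1 : V))
          (dt (φ r) (y r) (y' r) i (t, x)) := by
      funext r
      simp [dt, pd, ext_of_nonneg _ _ ht.1]
    rw [h8]
    exact h6

end Pool.Agent.H306.HD.TC1
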