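import Pool.Agent.H306.HD.Stm5
import Pool.Agent.H306.HD.TC1

/-! Joint smoothness of a series with time dependent coefficients. -/

noncomputable section

namespace Pool.Agent.H306.HD.TCINF

open Set MeasureTheory Filter Topology

open scoped Real ContDiff ENNReal

open Pool.Agent.H306.CK Pool.Agent.H306.DS Pool.Agent.H306.HD
open Pool.Agent.H306.HD.TC1 (ext ext_of_nonneg ext_hasDeriv ext_bound)

section aux

variable {ι : Type} {M : ℕ → ι → ℝ} {T : ℝ}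

theorem ry_sb : ∀ {n : ℕ} {y : ι → ℝ → ℝ}, RY M T n y → SB M T y
  | 0, _, h => h.2
  | _ + 1, _, h => h.1

theorem ry_cont : ∀ {n : ℕ} {y : ι → ℝ → ℝ}, RY M T n y → ∀ r, ContinuousOn (y r) (Ico 0 T)
  | 0, _, h => h.1
  | _ + 1, _, h => by
    obtain ⟨-, y', h2, -⟩ := h
    exact fun r t ht => (h2 r t ht).continuousWithinAt

theorem ry_succ : ∀ {n : ℕ} {y : ι → ℝ → ℝ}, RY M T (n + 1) y → RY M T n y
  | 0, _, h => ⟨ry_cont h, ry_sb h⟩
  | _ + 1, _, h => by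
    obtain ⟨h1, y', h2, h3⟩ := h
    exact ⟨h1, y', h2, ry_succ h3⟩

theorem ry_shift : ∀ {n : ℕ} {y : ι → ℝ → ℝ}, RY M T n y → RY (fun q => M (q + 1)) T n y
  | 0, _, h => ⟨h.1, fun q => h.2 (q + 1)⟩
  | _ + 1, _, h => by
    obtain ⟨h1, y', h2, h3⟩ := h
    exact ⟨fun q => h1 (q + 1), y', h2, ry_shift h3⟩

end aux

section term

variable {E : Type} [NormedAddCommGroup E] [NormedSpace ℝ E]

/-- `e ↦ (τ, ξ) ↦ τ e` -/
def L1 (E : Type) [NormedAddCommGroup E] [NormedSpace ℝ E] : E →L[ℝ] (ℝ × V →L[ℝ] E) :=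
  ContinuousLinearMap.smulRightL ℝ (ℝ × V) E (ContinuousLinearMap.fst ℝ ℝ V)

/-- `A ↦ (τ, ξ) ↦ A ξ` -/
def L2 (E : Type) [NormedAddCommGroup E] [NormedSpace ℝ E] : (V →L[ℝ] E) →L[ℝ] (ℝ × V →L[ℝ] E) :=
  (ContinuousLinearMap.compL ℝ (ℝ × V) V E).flip (ContinuousLinearMap.snd ℝ ℝ V)

theorem L1_apply (e : E) (v : ℝ × V) : L1 E e v = v.1 • e := rfl

theorem L2_apply (A : V →L[ℝ] E) (v : ℝ × V) : L2 E A v = A v.2 := rfl

theorem norm_L1 (e : E) : ‖L1 E e‖ ≤ ‖e‖ := by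
  refine ContinuousLinearMap.opNorm_le_bound _ (norm_nonneg _) fun v => ?_
  rw [L1_apply, norm_smul, mul_comm]
  exact mul_le_mul_of_nonneg_left (norm_fst_le v) (norm_nonneg _)

theorem norm_L2 (A : V →L[ℝ] E) : ‖L2 E A‖ ≤ ‖A‖ := by
  refine ContinuousLinearMap.opNorm_le_bound _ (norm_nonneg _) fun v => ?_
  rw [L2_apply]
  exact (A.le_opNorm _).trans (mul_le_mul_of_nonneg_left (norm_snd_le v) (norm_nonneg _))

/-- the derivative of a term -/
def dE (φ : V → E) (y y' : ℝ → ℝ) (z : ℝ × V) : ℝ × V →L[ℝ] E :=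
  ext y y' z.1 • L2 E (fderiv ℝ φ z.2) + y' (max z.1 0) • L1 E (φ z.2)

theorem hasFDeriv_term {φ : V → E} (hφ : ContDiff ℝ ∞ φ) {y y' : ℝ → ℝ} {T : ℝ} (hT : 0 < T)
    (h : ∀ t ∈ Ico 0 T, HasDerivWithinAt y (y' t) (Ico 0 T) t) {z : ℝ × V}
    (hz : z.1 < T) :
    HasFDerivAt (fun z : ℝ × V => ext y y' z.1 • φ z.2) (dE φ y y' z) z := by
  have h1 : HasFDerivAt (fun z : ℝ × V => ext y y' z.1)
      (y' (max z.1 0) • ContinuousLinearMap.fst ℝ ℝ V) z :=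
    (ext_hasDeriv hT h hz).comp_hasFDerivAt z hasFDerivAt_fst
  have h2 : HasFDerivAt (fun z : ℝ × V => φ z.2)
      ((fderiv ℝ φ z.2).comp (ContinuousLinearMap.snd ℝ ℝ V)) z := by
    have h3 : HasFDerivAt φ (fderiv ℝ φ z.2) z.2 :=
      ((hφ.differentiable (by simp)) z.2).hasFDerivAt
    exact h3.comp z hasFDerivAt_snd
  have h4 := h1.smul h2
  have h5 : dE φ y y' z = ext y y' z.1 • (fderiv ℝ φ z.2).comp (ContinuousLinearMap.snd ℝ ℝ V) +
      (y' (max z.1 0) • ContinuousLinearMap.fst ℝ ℝ V).smulRight (φ z.2) := by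
    refine ContinuousLinearMap.ext fun v => ?_
    change ext y y' z.1 • (fderiv ℝ φ z.2) v.2 + y' (max z.1 0) • (v.1 • φ z.2) =
      ext y y' z.1 • (fderiv ℝ φ z.2) v.2 + (y' (max z.1 0) * v.1) • φ z.2
    rw [smul_smul]
  rw [h5]
  exact h4

theorem norm_dE {φ : V → E} {M₀ M₁ : ℝ} (h0 : ∀ x, ‖φ x‖ ≤ M₀) (h1 : ∀ x, ‖fderiv ℝ φ x‖ ≤ M₁)
    (y y' : ℝ → ℝ) (z : ℝ × V) :
    ‖dE φ y y' z‖ ≤ (|ext y y' z.1| + |y' (max z.1 0)|) * (M₀ + M₁) := by
  have hM0 : 0 ≤ M₀ := (norm_nonneg _).trans (h0 0)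
  have hM1 : 0 ≤ M₁ := (norm_nonneg _).trans (h1 0)
  unfold dE
  refine (norm_add_le _ _).trans ?_
  rw [norm_smul, norm_smul, Real.norm_eq_abs, Real.norm_eq_abs, add_mul]
  refine add_le_add (mul_le_mul_of_nonneg_left ?_ (abs_nonneg _))
    (mul_le_mul_of_nonneg_left ?_ (abs_nonneg _))
  · exact ((norm_L2 _).trans (h1 _)).trans (by linarith)
  · exact ((norm_L1 _).trans (h0 _)).trans (by linarith)

end term

theorem gen (n : ℕ) : ∀ (E : Type) [NormedAddCommGroup E] [NormedSpace ℝ E] [CompleteSpace E]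
    (ι : Type) (φ : ι → V → E) (M : ℕ → ι → ℝ) (T : ℝ) (y : ι → ℝ → ℝ), 0 < T →
    (∀ r, ContDiff ℝ ∞ (φ r)) → (∀ q r x, ‖iteratedFDeriv ℝ q (φ r) x‖ ≤ M q r) →
    RY M T n y →
    ContDiffOn ℝ n (fun z : ℝ × V => ∑' r, y r z.1 • φ r z.2) (Ico 0 T ×ˢ univ) := by
  induction n with
  | zero =>
    intro E _ _ _ ι φ M T y hT hφ hM hy
    rw [Nat.cast_zero, contDiffOn_zero]
    intro z hz
    obtain ⟨t₁, ht₁, ht₁T⟩ := exists_between hz.1.2
    have ht₁0 : 0 ≤ t₁ := hz.1.1.trans ht₁.le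
    obtain ⟨u, hus, hur⟩ := hy.2 0 t₁ ⟨ht₁0, ht₁T⟩
    have h1 : ContinuousOn (fun z : ℝ × V => ∑' r, y r z.1 • φ r z.2) (Icc 0 t₁ ×ˢ univ) := by
      refine continuousOn_tsum (u := u) (fun r => ?_) hus fun r w hw => ?_
      · refine ContinuousOn.smul ?_ ((hφ r).continuous.comp continuous_snd).continuousOn
        refine (hy.1 r).comp continuous_fst.continuousOn ?_
        intro w hw
        exact ⟨hw.1.1, hw.1.2.trans_lt ht₁T⟩
      · rw [norm_smul, Real.norm_eq_abs]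
        refine le_trans ?_ (hur r w.1 hw.1)
        refine mul_le_mul_of_nonneg_left ?_ (abs_nonneg _)
        have h2 := hM 0 r w.2
        rwa [norm_iteratedFDeriv_zero] at h2
    refine (h1 z ⟨⟨hz.1.1, ht₁.le⟩, mem_univ _⟩).mono_of_mem_nhdsWithin ?_
    have h3 : (Iio t₁ ×ˢ univ : Set (ℝ × V)) ∈ 𝓝 z :=
      (isOpen_Iio.prod isOpen_univ).mem_nhds ⟨ht₁, mem_univ _⟩
    filter_upwards [mem_nhdsWithin_of_mem_nhds h3, self_mem_nhdsWithin] with w hw1 hw2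
    exact ⟨⟨hw2.1.1, le_of_lt hw1.1⟩, mem_univ _⟩
  | succ n ih =>
    intro E _ _ _ ι φ M T y hT hφ hM hy
    have hyn := ry_succ hy
    obtain ⟨hsb, y', hd, hy'⟩ := hy
    have h0 : ∀ r x, ‖φ r x‖ ≤ M 0 r := fun r x => by
      have h2 := hM 0 r x
      rwa [norm_iteratedFDeriv_zero] at h2
    have h1 : ∀ r x, ‖fderiv ℝ (φ r) x‖ ≤ M 1 r := fun r x => by
      have h2 := hM 1 r x
      rwa [norm_iteratedFDeriv_one] at h2
    -- the sum is differentiable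
    have hmain : ∀ z₀ : ℝ × V, z₀.1 ∈ Ico 0 T →
        HasFDerivAt (fun z : ℝ × V => ∑' r, ext (y r) (y' r) z.1 • φ r z.2)
          (∑' r, dE (φ r) (y r) (y' r) z₀) z₀ ∧
        Summable (fun r => y r z₀.1 • fderiv ℝ (φ r) z₀.2) ∧
        Summable (fun r => y' r z₀.1 • φ r z₀.2) := by
      intro z₀ hz₀
      obtain ⟨t₁, ht₁, ht₁T⟩ := exists_between hz₀.2
      have ht₁0 : 0 ≤ t₁ := hz₀.1.trans ht₁.le
      obtain ⟨u0, hu0, hr0⟩ := hsb 0 t₁ ⟨ht₁0, ht₁T⟩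
      obtain ⟨u1, hu1, hr1⟩ := hsb 1 t₁ ⟨ht₁0, ht₁T⟩
      obtain ⟨v0, hv0, hq0⟩ := ry_sb hy' 0 t₁ ⟨ht₁0, ht₁T⟩
      obtain ⟨v1, hv1, hq1⟩ := ry_sb hy' 1 t₁ ⟨ht₁0, ht₁T⟩
      let s : Set (ℝ × V) := Ioo (-1) t₁ ×ˢ univ
      have hso : IsOpen s := isOpen_Ioo.prod isOpen_univ
      have hsc : IsPreconnected s := isPreconnected_Ioo.prod isPreconnected_univ
      have hz : z₀ ∈ s := ⟨⟨by linarith [hz₀.1], ht₁⟩, mem_univ _⟩
      have hsum : Summable fun r => 2 * (u0 r + u1 r + v0 r + v1 r) :=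
        (((hu0.add hu1).add hv0).add hv1).mul_left 2
      have hM0 : ∀ r, 0 ≤ M 0 r := fun r => (norm_nonneg _).trans (h0 r 0)
      have hM1 : ∀ r, 0 ≤ M 1 r := fun r => (norm_nonneg _).trans (h1 r 0)
      have hbd : ∀ r, ∀ z ∈ s, ‖dE (φ r) (y r) (y' r) z‖ ≤ 2 * (u0 r + u1 r + v0 r + v1 r) := by
        intro r z hzs
        have h2 := norm_dE (h0 r) (h1 r) (y r) (y' r) z
        have h3 := ext_bound (y := y r) (y' := y' r) (M := M 0 r + M 1 r)
          (u := u0 r + u1 r + v0 r + v1 r) (add_nonneg (hM0 r) (hM1 r)) ht₁0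
          (fun t ht => by
            have e1 := hr0 r t ht
            have e2 := hr1 r t ht
            have e3 := hq0 r t ht
            have e4 := hq1 r t ht
            have e5 : (|y r t| + |y' r t|) * (M 0 r + M 1 r) = |y r t| * M 0 r + |y r t| * M 1 r +
              |y' r t| * M 0 r + |y' r t| * M 1 r := by ring
            rw [e5]
            linarith) hzs.1
        exact h2.trans h3
      have hf0 : Summable fun r => ext (y r) (y' r) z₀.1 • φ r z₀.2 := by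
        refine Summable.of_norm_bounded hu0 fun r => ?_
        rw [ext_of_nonneg _ _ hz₀.1, norm_smul, Real.norm_eq_abs]
        exact le_trans (mul_le_mul_of_nonneg_left (h0 r _) (abs_nonneg _))
          (hr0 r z₀.1 ⟨hz₀.1, ht₁.le⟩)
      refine ⟨?_, ?_, ?_⟩
      · exact hasFDerivAt_tsum_of_isPreconnected (f := fun r (z : ℝ × V) =>
          ext (y r) (y' r) z.1 • φ r z.2) hsum hso hsc
          (fun r w hw => hasFDeriv_term (hφ r) hT (hd r) (hw.1.2.trans ht₁T)) hbd hz hf0 hz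
      · refine Summable.of_norm_bounded hu1 fun r => ?_
        rw [norm_smul, Real.norm_eq_abs]
        exact le_trans (mul_le_mul_of_nonneg_left (h1 r _) (abs_nonneg _))
          (hr1 r z₀.1 ⟨hz₀.1, ht₁.le⟩)
      · refine Summable.of_norm_bounded hv0 fun r => ?_
        rw [norm_smul, Real.norm_eq_abs]
        exact le_trans (mul_le_mul_of_nonneg_left (h0 r _) (abs_nonneg _))
          (hq0 r z₀.1 ⟨hz₀.1, ht₁.le⟩)
    have hu : UniqueDiffOn ℝ (Ico 0 T ×ˢ univ : Set (ℝ × V)) :=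
      (uniqueDiffOn_Ico 0 T).prod uniqueDiffOn_univ
    have ih1 := ih (V →L[ℝ] E) ι (fun r => fderiv ℝ (φ r)) (fun q => M (q + 1)) T y hT
      (fun r => (contDiff_infty_iff_fderiv.1 (hφ r)).2)
      (fun q r x => by
        have h2 := hM (q + 1) r x
        rwa [← norm_iteratedFDeriv_fderiv] at h2) (ry_shift hyn)
    have ih2 := ih E ι φ M T y' hT hφ hM hy'
    rw [Nat.cast_succ, contDiffOn_succ_iff_hasFDerivWithinAt_of_uniqueDiffOn hu]
    refine ⟨fun h => absurd h (by simp), fun z => L2 E (∑' r, y r z.1 • fderiv ℝ (φ r) z.2) +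
      L1 E (∑' r, y' r z.1 • φ r z.2), ?_, ?_⟩
    · exact ((L2 E).contDiff.comp_contDiffOn ih1).add ((L1 E).contDiff.comp_contDiffOn ih2)
    · intro z hz
      obtain ⟨e1, e2, e3⟩ := hmain z hz.1
      have e4 : (∑' r, dE (φ r) (y r) (y' r) z) = L2 E (∑' r, y r z.1 • fderiv ℝ (φ r) z.2) +
          L1 E (∑' r, y' r z.1 • φ r z.2) := by
        rw [(L2 E).map_tsum e2, (L1 E).map_tsum e3,
          ← ((e2.mapL (L2 E)).tsum_add (e3.mapL (L1 E)))]
        refine tsum_congr fun r => ?_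
        unfold dE
        rw [ext_of_nonneg _ _ hz.1.1, max_eq_left hz.1.1, map_smul, map_smul]
      rw [e4] at e1
      refine e1.hasFDerivWithinAt.congr ?_ ?_
      · intro w hw
        exact tsum_congr fun r => by rw [ext_of_nonneg _ _ hw.1.1]
      · exact tsum_congr fun r => by rw [ext_of_nonneg _ _ hz.1.1]

theorem cinf : S_CINF := by
  intro _ n ι φ M T y hT hφ hM hy
  exact gen n ℝ ι φ M T y hT hφ hM hy

end Pool.Agent.H306.HD.TCINF
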