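import Pool.Agent.H306.HD.Stm2

/-! The commutator of `(-Δ)^α` and the multiplication by `h (x 1)` (`S_COMM`), by helper790. -/

set_option autoImplicit false

noncomputable section

namespace Pool.Agent.H306.HD.TCOMM

open Set MeasureTheory

open scoped Real ContDiff ENNReal

open Pool.Agent.H306.CK Pool.Agent.H306.DS

/-! ### Real inequalities -/

/-- `|a^θ - b^θ| ≤ |a - b| b^(θ-1)` -/
theorem pow_diff {a b θ : ℝ} (ha : 0 ≤ a) (hb : 0 < b) (h0 : 0 < θ) (h1 : θ ≤ 1) :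
    |a ^ θ - b ^ θ| ≤ |a - b| * b ^ (θ - 1) := by
  have hbb : b ^ θ = b * b ^ (θ - 1) := by
    rw [mul_comm, ← Real.rpow_add_one hb.ne']
    congr 1
    ring
  have hbp : 0 < b ^ (θ - 1) := Real.rpow_pos_of_pos hb _
  rcases le_total b a with hab | hab
  · have ha0 : 0 < a := hb.trans_le hab
    have haa : a ^ θ = a * a ^ (θ - 1) := by
      rw [mul_comm, ← Real.rpow_add_one ha0.ne']
      congr 1
      ring
    have e1 : a ^ (θ - 1) ≤ b ^ (θ - 1) := Real.rpow_le_rpow_of_nonpos hb hab (by linarith)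
    have e2 : b ^ θ ≤ a ^ θ := Real.rpow_le_rpow hb.le hab h0.le
    rw [abs_of_nonneg (by linarith), abs_of_nonneg (by linarith), haa, hbb, sub_mul]
    have := mul_le_mul_of_nonneg_left e1 ha0.le
    linarith
  · have e2 : a ^ θ ≤ b ^ θ := Real.rpow_le_rpow ha hab h0.le
    rw [abs_of_nonpos (by linarith), abs_of_nonpos (by linarith)]
    rcases ha.eq_or_lt with ha0 | ha0
    · rw [← ha0, Real.zero_rpow h0.ne', hbb]
      linarith
    · have haa : a ^ θ = a * a ^ (θ - 1) := by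
        rw [mul_comm, ← Real.rpow_add_one ha0.ne']
        congr 1
        ring
      have e1 : b ^ (θ - 1) ≤ a ^ (θ - 1) := Real.rpow_le_rpow_of_nonpos ha0 hab (by linarith)
      have := mul_le_mul_of_nonneg_left e1 ha0.le
      rw [haa, hbb]
      linarith

/-- the difference of the powers of two sums of squares -/
theorem sq_diff {A B α n y : ℝ} (hA : A = B + 2 * n * y + n ^ 2) (hy : y ^ 2 ≤ B) (hyn : (y + n) ^ 2 ≤ A)
    (hB : 1 ≤ B) (h0 : 0 < α) (h1 : α ≤ 1 / 2) :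
    |A ^ α - B ^ α| ≤ 2 * |n| * (1 + B) ^ ((2 * α - 1) / 2) := by
  have hA0 : 0 ≤ A := (sq_nonneg _).trans hyn
  have hB0 : 0 < B := by linarith
  have sA := Real.sqrt_nonneg A
  have sB : 1 ≤ Real.sqrt B := Real.one_le_sqrt.2 hB
  have sA2 := Real.sq_sqrt hA0
  have sB2 := Real.sq_sqrt hB0.le
  have eA : A ^ α = Real.sqrt A ^ (2 * α) := by
    rw [Real.sqrt_eq_rpow, ← Real.rpow_mul hA0]
    congr 1
    ring
  have eB : B ^ α = Real.sqrt B ^ (2 * α) := by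
    rw [Real.sqrt_eq_rpow, ← Real.rpow_mul hB0.le]
    congr 1
    ring
  have hd : |Real.sqrt A - Real.sqrt B| ≤ |n| := by
    have h2 : (Real.sqrt A - Real.sqrt B) * (Real.sqrt A + Real.sqrt B) = n * (y + (y + n)) := by
      have : (Real.sqrt A - Real.sqrt B) * (Real.sqrt A + Real.sqrt B) =
        Real.sqrt A ^ 2 - Real.sqrt B ^ 2 := by ring
      rw [this, sA2, sB2, hA]
      ring
    have h3 : |y| ≤ Real.sqrt B := Real.abs_le_sqrt hy
    have h4 : |y + n| ≤ Real.sqrt A := Real.abs_le_sqrt hyn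
    have h5 : |Real.sqrt A - Real.sqrt B| * (Real.sqrt A + Real.sqrt B) ≤
        |n| * (Real.sqrt A + Real.sqrt B) := by
      have h6 : |Real.sqrt A - Real.sqrt B| * (Real.sqrt A + Real.sqrt B) = |n * (y + (y + n))| := by
        rw [← h2, abs_mul, abs_of_nonneg (by linarith : 0 ≤ Real.sqrt A + Real.sqrt B)]
      rw [h6, abs_mul]
      refine mul_le_mul_of_nonneg_left ?_ (abs_nonneg n)
      exact (abs_add_le _ _).trans (by linarith)
    exact le_of_mul_le_mul_right h5 (by linarith)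
  have hp := pow_diff (a := Real.sqrt A) (b := Real.sqrt B) (θ := 2 * α) sA (by linarith) (by linarith)
    (by linarith)
  rw [← eA, ← eB] at hp
  have hpow : Real.sqrt B ^ (2 * α - 1) ≤ 2 * (1 + B) ^ ((2 * α - 1) / 2) := by
    have e1 : Real.sqrt B ^ (2 * α - 1) = B ^ ((2 * α - 1) / 2) := by
      rw [Real.sqrt_eq_rpow, ← Real.rpow_mul hB0.le]
      congr 1
      ring
    have e2 : (2 * B) ^ ((2 * α - 1) / 2) ≤ (1 + B) ^ ((2 * α - 1) / 2) :=
      Real.rpow_le_rpow_of_nonpos (by linarith) (by linarith) (by linarith)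
    have e3 : (1 : ℝ) / 2 ≤ 2 ^ ((2 * α - 1) / 2) := by
      have : (1 : ℝ) / 2 = 2 ^ (-1 : ℝ) := by rw [Real.rpow_neg_one]; norm_num
      rw [this]
      exact Real.rpow_le_rpow_of_exponent_le (by norm_num) (by linarith)
    rw [Real.mul_rpow (by norm_num) hB0.le] at e2
    have e4 : 0 < B ^ ((2 * α - 1) / 2) := Real.rpow_pos_of_pos hB0 _
    have e5 := mul_le_mul_of_nonneg_right e3 e4.le
    rw [e1]
    linarith
  calc |A ^ α - B ^ α| ≤ |Real.sqrt A - Real.sqrt B| * Real.sqrt B ^ (2 * α - 1) := hp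
    _ ≤ |n| * (2 * (1 + B) ^ ((2 * α - 1) / 2)) :=
        mul_le_mul hd hpow (Real.rpow_nonneg (by linarith) _) (abs_nonneg n)
    _ = _ := by ring

/-- Cauchy-Schwarz with weights -/
theorem cs {A G : ℤ → ℝ} (hA : ∀ n, 0 ≤ A n) (hAs : Summable A) {B : ℝ} (hG : ∀ n, |G n| ≤ B) :
    Summable (fun n => A n * G n) ∧ Summable (fun n => A n * G n ^ 2) ∧
      (∑' n, A n * G n) ^ 2 ≤ (∑' n, A n) * ∑' n, A n * G n ^ 2 := by
  have s1 : Summable fun n => A n * G n := by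
    refine Summable.of_norm_bounded (hAs.mul_right B) fun n => ?_
    rw [norm_mul, Real.norm_eq_abs, Real.norm_eq_abs, abs_of_nonneg (hA n)]
    exact mul_le_mul_of_nonneg_left (hG n) (hA n)
  have s2 : Summable fun n => A n * G n ^ 2 := by
    refine Summable.of_norm_bounded (hAs.mul_right (B ^ 2)) fun n => ?_
    rw [norm_mul, Real.norm_eq_abs, Real.norm_eq_abs, abs_of_nonneg (hA n), abs_pow]
    exact mul_le_mul_of_nonneg_left (pow_le_pow_left₀ (abs_nonneg _) (hG n) 2) (hA n)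
  refine ⟨s1, s2, ?_⟩
  refine sq_abs (∑' n, A n * G n) ▸ ?_
  refine sq_le_of_forall (tsum_nonneg hA) (tsum_nonneg fun n => mul_nonneg (hA n) (sq_nonneg _))
    (abs_nonneg _) fun l hl => ?_
  have s3 : Summable fun n => A n * |G n| := by
    refine Summable.of_norm_bounded (hAs.mul_right B) fun n => ?_
    rw [norm_mul, Real.norm_eq_abs, Real.norm_eq_abs, abs_of_nonneg (hA n), abs_abs]
    exact mul_le_mul_of_nonneg_left (hG n) (hA n)
  have h1 : |∑' n, A n * G n| ≤ ∑' n, A n * |G n| := by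
    have h2 : ∀ n, ‖A n * G n‖ = A n * |G n| := fun n => by
      rw [norm_mul, Real.norm_eq_abs, Real.norm_eq_abs, abs_of_nonneg (hA n)]
    have h3 := norm_tsum_le_tsum_norm (f := fun n => A n * G n) (by simpa only [h2] using s3)
    rw [Real.norm_eq_abs] at h3
    simpa only [h2] using h3
  have h4 : ∀ n, 2 * (A n * |G n|) ≤ l * A n + 1 / l * (A n * G n ^ 2) := by
    intro n
    have h5 : 0 ≤ A n / l * (l - |G n|) ^ 2 := mul_nonneg (div_nonneg (hA n) hl.le) (sq_nonneg _)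
    have h6 : A n / l * (l - |G n|) ^ 2 = l * A n - 2 * (A n * |G n|) + 1 / l * (A n * |G n| ^ 2) := by
      field_simp
      ring
    rw [sq_abs] at h6
    linarith
  have h7 := (s3.mul_left 2).tsum_le_tsum h4 ((hAs.mul_left l).add (s2.mul_left (1 / l)))
  rw [tsum_mul_left, (hAs.mul_left l).tsum_add (s2.mul_left (1 / l)), tsum_mul_left, tsum_mul_left] at h7
  have h8 : 1 / l * ∑' n, A n * G n ^ 2 = (∑' n, A n * G n ^ 2) / l := by ring
  linarith

/-! ### Multipliers -/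

theorem lam_diff {ν α : ℝ} (hν : 0 ≤ ν) (h0 : 0 < α) (h1 : α ≤ 1 / 2) (k : Fin 3 → ℤ) (n : ℤ) :
    |lam ν α k - lam ν α (k - ![0, n, 0])| ≤ 2 * ν * |(n : ℝ)| * W ((2 * α - 1) / 2) (k - ![0, n, 0]) := by
  have k0 : (k - ![0, n, 0]) 0 = k 0 := by simp
  have k1 : (k - ![0, n, 0]) 1 = k 1 - n := by simp
  have k2 : (k - ![0, n, 0]) 2 = k 2 := by simp
  unfold lam W
  rw [← mul_sub, abs_mul, abs_of_nonneg hν]
  have key : |(∑ j, (k j : ℝ) ^ 2) ^ α - (∑ j, ((k - ![0, n, 0]) j : ℝ) ^ 2) ^ α| ≤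
      2 * |(n : ℝ)| * (1 + ∑ j, ((k - ![0, n, 0]) j : ℝ) ^ 2) ^ ((2 * α - 1) / 2) := by
    obtain ⟨A, hA⟩ : ∃ A : ℝ, A = ∑ j, (k j : ℝ) ^ 2 := ⟨_, rfl⟩
    obtain ⟨B, hB⟩ : ∃ B : ℝ, B = ∑ j, ((k - ![0, n, 0]) j : ℝ) ^ 2 := ⟨_, rfl⟩
    have hA' : A = (k 0 : ℝ) ^ 2 + (k 1 : ℝ) ^ 2 + (k 2 : ℝ) ^ 2 := by
      rw [hA, Fin.sum_univ_three]
    have hB' : B = (k 0 : ℝ) ^ 2 + ((k 1 : ℝ) - n) ^ 2 + (k 2 : ℝ) ^ 2 := by
      rw [hB, Fin.sum_univ_three, k0, k1, k2]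
      push_cast
      rfl
    rw [← hA, ← hB]
    by_cases hz : k - ![0, n, 0] = 0
    · have hB0 : B = 0 := by
        rw [hB, hz]
        simp
      have z0 : k 0 = 0 := by rw [← k0, hz]; rfl
      have z1 : k 1 = n := by
        have : k 1 - n = 0 := by rw [← k1, hz]; rfl
        omega
      have z2 : k 2 = 0 := by rw [← k2, hz]; rfl
      have hA2 : A = (n : ℝ) ^ 2 := by
        rw [hA', z0, z1, z2]
        push_cast
        ring
      rw [hB0, hA2, Real.zero_rpow h0.ne', sub_zero, add_zero, Real.one_rpow, mul_one]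
      rcases eq_or_ne n 0 with hn | hn
      · subst hn
        simp [Real.zero_rpow h0.ne']
      · have hn1 : (1 : ℝ) ≤ |(n : ℝ)| := by
          have := Int.one_le_abs hn
          exact_mod_cast this
        have e1 : ((n : ℝ) ^ 2) ^ α = |(n : ℝ)| ^ (2 * α) := by
          rw [← sq_abs, ← Real.rpow_natCast, ← Real.rpow_mul (abs_nonneg _)]
          norm_num
        rw [e1, abs_of_nonneg (Real.rpow_nonneg (abs_nonneg _) _)]
        have e2 : |(n : ℝ)| ^ (2 * α) ≤ |(n : ℝ)| ^ (1 : ℝ) :=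
          Real.rpow_le_rpow_of_exponent_le hn1 (by linarith)
        rw [Real.rpow_one] at e2
        linarith
    · have hB1 : 1 ≤ B := by
        have hex : ∃ j, (k - ![0, n, 0]) j ≠ 0 := by
          by_contra hcon
          push Not at hcon
          exact hz (funext hcon)
        obtain ⟨j, hj⟩ := hex
        have h2 : (1 : ℝ) ≤ ((k - ![0, n, 0]) j : ℝ) ^ 2 := by
          have h3 : (1 : ℤ) ≤ ((k - ![0, n, 0]) j) ^ 2 := by
            have := Int.one_le_abs hj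
            nlinarith [sq_abs ((k - ![0, n, 0]) j)]
          exact_mod_cast h3
        rw [hB]
        exact h2.trans (Finset.single_le_sum (f := fun j => ((k - ![0, n, 0]) j : ℝ) ^ 2)
          (fun j _ => sq_nonneg _) (Finset.mem_univ j))
      refine sq_diff (y := (k 1 : ℝ) - n) ?_ ?_ ?_ hB1 h0 h1
      · rw [hA', hB']; ring
      · rw [hB']; nlinarith [sq_nonneg (k 0 : ℝ), sq_nonneg (k 2 : ℝ)]
      · rw [hA', sub_add_cancel]; nlinarith [sq_nonneg (k 0 : ℝ), sq_nonneg (k 2 : ℝ)]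
  calc ν * |(∑ j, (k j : ℝ) ^ 2) ^ α - (∑ j, ((k - ![0, n, 0]) j : ℝ) ^ 2) ^ α| ≤
        ν * (2 * |(n : ℝ)| * (1 + ∑ j, ((k - ![0, n, 0]) j : ℝ) ^ 2) ^ ((2 * α - 1) / 2)) :=
        mul_le_mul_of_nonneg_left key hν
    _ = _ := by ring

theorem W_peetre (t : ℝ) (k : Fin 3 → ℤ) (n : ℤ) :
    W t k ≤ 2 ^ |t| * (1 + (n : ℝ) ^ 2) ^ |t| * W t (k - ![0, n, 0]) := by
  have k0 : (k - ![0, n, 0]) 0 = k 0 := by simp
  have k1 : (k - ![0, n, 0]) 1 = k 1 - n := by simp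
  have k2 : (k - ![0, n, 0]) 2 = k 2 := by simp
  have hb : Real.sqrt ((k 0 : ℝ) ^ 2 + (k 2 : ℝ) ^ 2) ^ 2 = (k 0 : ℝ) ^ 2 + (k 2 : ℝ) ^ 2 :=
    Real.sq_sqrt (by positivity)
  have h := peetre ((k 1 : ℝ) - n) (Real.sqrt ((k 0 : ℝ) ^ 2 + (k 2 : ℝ) ^ 2)) n t
  rw [hb, sub_add_cancel] at h
  unfold W
  rw [Fin.sum_univ_three, Fin.sum_univ_three, k0, k1, k2]
  push_cast
  have e1 : 1 + ((k 0 : ℝ) ^ 2 + (k 1 : ℝ) ^ 2 + (k 2 : ℝ) ^ 2) =
      1 + ((k 0 : ℝ) ^ 2 + (k 2 : ℝ) ^ 2) + (k 1 : ℝ) ^ 2 := by ring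
  have e2 : 1 + ((k 0 : ℝ) ^ 2 + ((k 1 : ℝ) - n) ^ 2 + (k 2 : ℝ) ^ 2) =
      1 + ((k 0 : ℝ) ^ 2 + (k 2 : ℝ) ^ 2) + ((k 1 : ℝ) - n) ^ 2 := by ring
  rw [e1, e2]
  exact h

theorem Mb_lam {ν α : ℝ} (hν : 0 ≤ ν) (h0 : 0 < α) : Mb (lam ν α) := by
  refine ⟨fun k => by unfold lam; simp, ν, α, hν, fun k => ?_⟩
  have hs : 0 ≤ ∑ j, (k j : ℝ) ^ 2 := Finset.sum_nonneg fun j _ => sq_nonneg _
  unfold lam W
  rw [abs_mul, abs_of_nonneg hν, abs_of_nonneg (Real.rpow_nonneg hs _)]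
  exact mul_le_mul_of_nonneg_left (Real.rpow_le_rpow hs (by linarith) h0.le) hν

/-! ### Products with a function of one variable -/

theorem ex_sft (n : ℤ) (x : V) : ex ![0, n, 0] x = Complex.exp (Complex.I * (n * x 1)) := by
  rw [ex_three]
  simp

theorem fc_prod {h : ℝ → ℝ} (hd : ContDiff ℝ ∞ h) (hper : ∀ y, h (y + 2 * π) = h y)
    (hs : Summable fun l : ℤ => ‖c1 h l‖) {g : V → ℝ} (hg : Continuous g) (k : Fin 3 → ℤ) :
    HasSum (fun n : ℤ => (1 / (2 * π) : ℂ) * c1 h n * fc g (k - ![0, n, 0]))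
      (fc (fun x => h (x 1) * g x) k) := by
  have hgc : Continuous fun x => (g x : ℂ) := Complex.continuous_ofReal.comp hg
  obtain ⟨B, hB⟩ := isCompact_torus.exists_bound_of_continuousOn hgc.continuousOn
  have hα : Summable fun l : ℤ => ‖(1 / (2 * π) : ℂ) * c1 h l‖ := by
    simp only [norm_mul]
    exact hs.mul_left _
  have h2 := int_tsum hα (g := fun n x => ex ![0, n, 0] x * ((g x : ℂ) * ex (-k) x))
    (fun n => (ex_continuous _).mul (hgc.mul (ex_continuous _))) (B := B)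
    (fun n x hx => by rw [norm_mul, norm_mul, norm_ex, norm_ex, one_mul, mul_one]; exact hB x hx)
  have h3 : ∫ x in torus, ∑' n : ℤ, (1 / (2 * π) : ℂ) * c1 h n *
      (ex ![0, n, 0] x * ((g x : ℂ) * ex (-k) x)) = fc (fun x => h (x 1) * g x) k := by
    rw [fc_eq]
    unfold fcC
    congr 1
    ext x
    have h4 := (c1_hasSum hd hper hs (x 1)).tsum_eq
    change _ = ((h (x 1) * g x : ℝ) : ℂ) * ex (-k) x
    rw [Complex.ofReal_mul, ← h4, mul_assoc, ← tsum_mul_right]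
    refine tsum_congr fun n => ?_
    rw [ex_sft]
    ring
  rw [h3] at h2
  refine h2.congr_fun fun n => ?_
  congr 1
  rw [fc_eq]
  unfold fcC
  congr 1
  ext x
  have e1 : -(k - ![0, n, 0]) = ![0, n, 0] + -k := by rw [neg_sub, sub_eq_add_neg]
  rw [e1, ← ex_mul]
  ring

theorem prod_spf {h : ℝ → ℝ} (hd : ContDiff ℝ ∞ h) (hper : ∀ y, h (y + 2 * π) = h y) {g : V → ℝ}
    (hg : SPf g) : SPf (fun x => h (x 1) * g x) := by
  refine ⟨(hd.comp (contDiff_apply ℝ ℝ 1)).mul hg.1, fun i x => ?_⟩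
  have h1 : h ((x + Pi.single i (2 * π) : V) 1) = h (x 1) := by
    rw [Pi.add_apply]
    by_cases hi : i = 1
    · subst hi
      rw [Pi.single_eq_same]
      exact hper _
    · rw [Pi.single_eq_of_ne (fun h => hi h.symm), add_zero]
  simp only [h1, hg.2 i x]

/-- the Fourier integrals of the commutator -/
theorem fc_cm {ν α : ℝ} (hν : 0 ≤ ν) (h0 : 0 < α) {h : ℝ → ℝ} (hd : ContDiff ℝ ∞ h)
    (hper : ∀ y, h (y + 2 * π) = h y) (hs : Summable fun l : ℤ => ‖c1 h l‖) {f : V → ℝ}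
    (hf : SPf f) (k : Fin 3 → ℤ) :
    HasSum (fun n : ℤ => (1 / (2 * π) : ℂ) * c1 h n *
      (((lam ν α k - lam ν α (k - ![0, n, 0]) : ℝ) : ℂ) * fc f (k - ![0, n, 0])))
      (fc (cm ν α h f) k) := by
  have hm := Mb_lam (ν := ν) (α := α) hν h0
  have hpf := prod_spf hd hper hf
  have hpg := prod_spf hd hper (mg_spf hm hf)
  have e1 : cm ν α h f = fun x => mg (lam ν α) (fun y => h (y 1) * f y) x +
      (-1) * (h (x 1) * mg (lam ν α) f x) := by
    ext x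
    unfold cm
    ring
  have e2 : fc (cm ν α h f) k = (lam ν α k : ℂ) * fc (fun x => h (x 1) * f x) k +
      ((-1 : ℝ) : ℂ) * fc (fun x => h (x 1) * mg (lam ν α) f x) k := by
    rw [e1, fc_add (g := fun x => (-1) * (h (x 1) * mg (lam ν α) f x)) (mg_spf hm hpf).cont
      (continuous_const.mul hpg.cont), fc_smul, fc_mg hm hpf]
  rw [e2]
  refine (((fc_prod hd hper hs hf.cont k).mul_left (lam ν α k : ℂ)).add
    ((fc_prod hd hper hs (mg_spf hm hf).cont k).mul_left ((-1 : ℝ) : ℂ))).congr_fun fun n => ?_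
  rw [fc_mg hm hf]
  push_cast
  ring

/-- **COMM** -/
theorem comm : S_COMM := by
  intro S
  have hpi := Real.pi_pos
  refine ⟨((2 ^ (S / 2) / π) * wS) ^ 2, sq_nonneg _, ?_⟩
  intro ν α t E h f hν h0 h1 ht hd hper hdec hf
  have hS : 0 ≤ S := (abs_nonneg t).trans ht
  have hE : 0 ≤ E := by
    have h2 := hdec 0
    have h3 : 0 ≤ (1 + ((0 : ℤ) : ℝ) ^ 2) ^ ((S + 1) / 2) * ‖c1 h 0‖ := by positivity
    have h4 := h3.trans h2
    simpa using h4
  have hc1 : ∀ n : ℤ, ‖c1 h n‖ ≤ E * (1 / (1 + (n : ℝ) ^ 2)) := by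
    intro n
    refine le_trans ?_ (hdec n)
    have h2 : 1 ≤ (1 + (n : ℝ) ^ 2) ^ ((S + 1) / 2) := Real.one_le_rpow (one_le_w n) (by linarith)
    exact le_mul_of_one_le_left (norm_nonneg _) h2
  have hs : Summable fun n : ℤ => ‖c1 h n‖ :=
    Summable.of_nonneg_of_le (fun n => norm_nonneg _) hc1 (w_summable.mul_left E)
  -- the weights
  obtain ⟨c, hc⟩ : ∃ c : ℝ, c = ν / π * 2 ^ (S / 2) := ⟨_, rfl⟩
  have hc0 : 0 ≤ c := by rw [hc]; positivity
  obtain ⟨A, hA⟩ : ∃ A : ℤ → ℝ, A = fun n : ℤ => c * ((1 + (n : ℝ) ^ 2) ^ ((S + 1) / 2) * ‖c1 h n‖) :=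
    ⟨_, rfl⟩
  have hA0 : ∀ n, 0 ≤ A n := by
    intro n
    rw [hA]
    positivity
  have hAb : ∀ n : ℤ, A n ≤ c * E * (1 / (1 + (n : ℝ) ^ 2)) := by
    intro n
    rw [hA, mul_assoc]
    exact mul_le_mul_of_nonneg_left (hdec n) hc0
  have hAs : Summable A := Summable.of_nonneg_of_le hA0 hAb (w_summable.mul_left _)
  have hAT : ∑' n, A n ≤ c * E * wS := by
    refine (hAs.tsum_le_tsum hAb (w_summable.mul_left _)).trans (le_of_eq ?_)
    rw [tsum_mul_left]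
    rfl
  have hT0 : 0 ≤ ∑' n, A n := tsum_nonneg hA0
  -- the function
  obtain ⟨G, hG⟩ : ∃ G : (Fin 3 → ℤ) → ℝ, G = fun k => W ((t + 2 * α - 1) / 2) k * ‖fc f k‖ := ⟨_, rfl⟩
  have hG0 : ∀ k, 0 ≤ G k := by
    intro k
    rw [hG]
    exact mul_nonneg (W_pos _ _).le (norm_nonneg _)
  obtain ⟨B, hB0, hB⟩ := fc_decay hf (-((t + 2 * α - 1) / 2))
  have hGB : ∀ k, |G k| ≤ B := by
    intro k
    rw [abs_of_nonneg (hG0 k), hG]
    have hW := W_pos ((t + 2 * α - 1) / 2) k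
    have e1 : W ((t + 2 * α - 1) / 2) k * W (-((t + 2 * α - 1) / 2)) k = 1 := by
      rw [← W_add, add_neg_cancel, W_zero]
    calc W ((t + 2 * α - 1) / 2) k * ‖fc f k‖ ≤
          W ((t + 2 * α - 1) / 2) k * (B * W (-((t + 2 * α - 1) / 2)) k) :=
          mul_le_mul_of_nonneg_left (hB k) hW.le
      _ = B * (W ((t + 2 * α - 1) / 2) k * W (-((t + 2 * α - 1) / 2)) k) := by ring
      _ = B := by rw [e1, mul_one]
  have hCS := fun k : Fin 3 → ℤ => cs hA0 hAs (fun n => hGB (k - ![0, n, 0]))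
  -- the pointwise bound
  have key : ∀ k, W (t / 2) k * ‖fc (cm ν α h f) k‖ ≤ ∑' n : ℤ, A n * G (k - ![0, n, 0]) := by
    intro k
    have hsum := (fc_cm hν h0 hd hper hs hf k).mul_left ((W (t / 2) k : ℝ) : ℂ)
    have e0 : W (t / 2) k * ‖fc (cm ν α h f) k‖ = ‖((W (t / 2) k : ℝ) : ℂ) * fc (cm ν α h f) k‖ := by
      rw [norm_mul, Complex.norm_real, Real.norm_eq_abs, abs_of_pos (W_pos _ _)]
    rw [e0, ← hsum.tsum_eq]
    refine tsum_of_norm_bounded (hCS k).1.hasSum fun n => ?_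
    have hn : ‖(1 / (2 * π) : ℂ)‖ = 1 / (2 * π) := by
      rw [norm_div, norm_one, norm_mul, Complex.norm_real, Real.norm_eq_abs, abs_of_pos hpi]
      simp
    have p1 := W_peetre (t / 2) k n
    have p2 := lam_diff hν h0 h1 k n
    have hw := one_le_w n
    have hw0 : 0 < 1 + (n : ℝ) ^ 2 := by linarith
    have ht2 : |t / 2| ≤ S / 2 := by
      rw [abs_div, abs_two]
      linarith
    have p3 : (2 : ℝ) ^ |t / 2| ≤ 2 ^ (S / 2) := Real.rpow_le_rpow_of_exponent_le (by norm_num) ht2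
    have p4 : (1 + (n : ℝ) ^ 2) ^ |t / 2| ≤ (1 + (n : ℝ) ^ 2) ^ (S / 2) :=
      Real.rpow_le_rpow_of_exponent_le hw ht2
    have p5 : |(n : ℝ)| ≤ (1 + (n : ℝ) ^ 2) ^ (1 / 2 : ℝ) := by
      rw [← Real.sqrt_eq_rpow]
      exact Real.abs_le_sqrt (by linarith)
    have p6 : (1 + (n : ℝ) ^ 2) ^ ((S + 1) / 2) =
        (1 + (n : ℝ) ^ 2) ^ (S / 2) * (1 + (n : ℝ) ^ 2) ^ (1 / 2 : ℝ) := by
      rw [← Real.rpow_add hw0]
      congr 1
      ring
    have p7 : W ((t + 2 * α - 1) / 2) (k - ![0, n, 0]) =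
        W ((2 * α - 1) / 2) (k - ![0, n, 0]) * W (t / 2) (k - ![0, n, 0]) := by
      rw [← W_add]
      congr 1
      ring
    have q1 := (W_pos ((2 * α - 1) / 2) (k - ![0, n, 0])).le
    have q2 := (W_pos (t / 2) (k - ![0, n, 0])).le
    have q3 := (W_pos (t / 2) k).le
    rw [norm_mul, norm_mul, norm_mul, norm_mul, hn, Complex.norm_real, Complex.norm_real,
      Real.norm_eq_abs, Real.norm_eq_abs, abs_of_nonneg q3, hA, hG]
    simp only
    rw [p6, p7]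
    calc W (t / 2) k * (1 / (2 * π) * ‖c1 h n‖ *
          (|lam ν α k - lam ν α (k - ![0, n, 0])| * ‖fc f (k - ![0, n, 0])‖)) ≤
        (2 ^ (S / 2) * (1 + (n : ℝ) ^ 2) ^ (S / 2) * W (t / 2) (k - ![0, n, 0])) *
          (1 / (2 * π) * ‖c1 h n‖ *
          ((2 * ν * (1 + (n : ℝ) ^ 2) ^ (1 / 2 : ℝ) * W ((2 * α - 1) / 2) (k - ![0, n, 0])) *
            ‖fc f (k - ![0, n, 0])‖)) := by
          have r1 : W (t / 2) k ≤
              2 ^ (S / 2) * (1 + (n : ℝ) ^ 2) ^ (S / 2) * W (t / 2) (k - ![0, n, 0]) :=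
            p1.trans (by gcongr)
          have r2 : |lam ν α k - lam ν α (k - ![0, n, 0])| ≤
              2 * ν * (1 + (n : ℝ) ^ 2) ^ (1 / 2 : ℝ) * W ((2 * α - 1) / 2) (k - ![0, n, 0]) :=
            p2.trans (by gcongr)
          gcongr
      _ = c * ((1 + (n : ℝ) ^ 2) ^ (S / 2) * (1 + (n : ℝ) ^ 2) ^ (1 / 2 : ℝ) * ‖c1 h n‖) *
          (W ((2 * α - 1) / 2) (k - ![0, n, 0]) * W (t / 2) (k - ![0, n, 0]) *
            ‖fc f (k - ![0, n, 0])‖) := by
          rw [hc]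
          field_simp
  -- the sum of the squares
  have hpt : ∀ k, ENNReal.ofReal (W t k * ‖fc (cm ν α h f) k‖ ^ 2) ≤
      ENNReal.ofReal (∑' n, A n) * ∑' n : ℤ, ENNReal.ofReal (A n) *
        ENNReal.ofReal (G (k - ![0, n, 0]) ^ 2) := by
    intro k
    have e1 : W t k * ‖fc (cm ν α h f) k‖ ^ 2 = (W (t / 2) k * ‖fc (cm ν α h f) k‖) ^ 2 := by
      rw [mul_pow, W_half]
    have e2 : W t k * ‖fc (cm ν α h f) k‖ ^ 2 ≤
        (∑' n, A n) * ∑' n : ℤ, A n * G (k - ![0, n, 0]) ^ 2 := by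
      rw [e1]
      refine (pow_le_pow_left₀ (mul_nonneg (W_pos _ _).le (norm_nonneg _)) (key k) 2).trans ?_
      exact (hCS k).2.2
    refine (ENNReal.ofReal_le_ofReal e2).trans (le_of_eq ?_)
    rw [ENNReal.ofReal_mul hT0, ENNReal.ofReal_tsum_of_nonneg
      (fun n => mul_nonneg (hA0 n) (sq_nonneg _)) (hCS k).2.1]
    congr 1
    exact tsum_congr fun n => ENNReal.ofReal_mul (hA0 n)
  have hshift : ∀ n : ℤ, ∑' k, ENNReal.ofReal (G (k - ![0, n, 0]) ^ 2) =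
      ∑' k, ENNReal.ofReal (G k ^ 2) := by
    intro n
    exact (Equiv.subRight (![0, n, 0] : Fin 3 → ℤ)).tsum_eq (fun k => ENNReal.ofReal (G k ^ 2))
  have hGf : ∑' k, ENNReal.ofReal (G k ^ 2) = hsf (t + 2 * α - 1) f := by
    unfold hsf
    refine tsum_congr fun k => ?_
    rw [hG]
    simp only
    rw [mul_pow, W_half]
  unfold hsf
  refine (ENNReal.tsum_le_tsum hpt).trans ?_
  rw [ENNReal.tsum_mul_left, ENNReal.tsum_comm]
  simp only [ENNReal.tsum_mul_left, hshift]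
  rw [ENNReal.tsum_mul_right, ← ENNReal.ofReal_tsum_of_nonneg hA0 hAs, ← mul_assoc,
    ← ENNReal.ofReal_mul hT0, hGf]
  unfold hsf
  refine mul_le_mul' (ENNReal.ofReal_le_ofReal ?_) le_rfl
  calc (∑' n, A n) * ∑' n, A n ≤ (c * E * wS) * (c * E * wS) :=
        mul_le_mul hAT hAT hT0 (hT0.trans hAT)
    _ = (2 ^ (S / 2) / π * wS) ^ 2 * ν ^ 2 * E ^ 2 := by
        rw [hc]
        field_simp

end Pool.Agent.H306.HD.TCOMM
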