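import Pool.Agent.H306.HD.Def

/-! Fourier integrals of products `g (x 0) * h (x 1)`. -/

noncomputable section

namespace Pool.Agent.H306.HD.TFCP

open Set MeasureTheory intervalIntegral

open scoped Real ContDiff ENNReal

open Pool.Agent.H306.CK Pool.Agent.H306.DS

theorem int_exp' (l : ℤ) : ∫ y in (-π)..π, Complex.exp (-(Complex.I * (l * y))) =
    if l = 0 then 2 * π else 0 := by
  have h := int_exp (-l)
  have h1 : ∀ y : ℝ, Complex.exp (Complex.I * (((-l : ℤ) : ℂ) * y)) =
      Complex.exp (-(Complex.I * (l * y))) := by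
    intro y
    congr 1
    push_cast
    ring
  simp only [h1] at h
  rw [h]
  by_cases hl : l = 0
  · rw [if_pos hl, if_pos (by rw [hl, neg_zero])]
  · rw [if_neg hl, if_neg (by rwa [neg_eq_zero])]

theorem fcp : S_FCP := by
  intro g h _ _ k
  have hpi := Real.pi_pos
  have h1 : fc (fun x => g (x 0) * h (x 1)) k =
      ∫ x : Fin 3 → ℝ, ∏ i, (![fun y : ℝ => (g y : ℂ) * Complex.exp (-(Complex.I * (k 0 * y))),
        fun y : ℝ => (h y : ℂ) * Complex.exp (-(Complex.I * (k 1 * y))),
        fun y : ℝ => Complex.exp (-(Complex.I * (k 2 * y)))] i) (x i)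
        ∂(Measure.pi fun _ : Fin 3 => (volume : Measure ℝ).restrict (Icc (-π) π)) := by
    unfold fc torus
    rw [← Set.pi_univ_Icc, volume_pi, Measure.restrict_pi_pi]
    refine integral_congr_ae (Filter.Eventually.of_forall fun x => ?_)
    beta_reduce
    rw [Fin.prod_univ_three]
    simp only [Matrix.cons_val_zero, Matrix.cons_val_one, Matrix.cons_val]
    have e : -(Complex.I * ((∑ j, (k j : ℝ) * x j : ℝ) : ℂ)) =
        -(Complex.I * (k 0 * x 0)) + -(Complex.I * (k 1 * x 1)) + -(Complex.I * (k 2 * x 2)) := by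
      rw [Fin.sum_univ_three]
      push_cast
      ring
    rw [e, Complex.exp_add, Complex.exp_add]
    push_cast
    ring
  rw [h1, integral_fintype_prod_eq_prod, Fin.prod_univ_three]
  simp only [Matrix.cons_val_zero, Matrix.cons_val_one, Matrix.cons_val]
  rw [integral_Icc_eq_integral_Ioc, integral_Icc_eq_integral_Ioc, integral_Icc_eq_integral_Ioc,
    ← integral_of_le (by linarith), ← integral_of_le (by linarith),
    ← integral_of_le (by linarith), int_exp' (k 2)]
  rfl

end Pool.Agent.H306.HD.TFCP
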