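import Pool.Agent.H306.HD.Stm5

/-! The unperturbed flow. -/

noncomputable section

namespace Pool.Agent.H306.HD.TFREE

open Set MeasureTheory Filter

open scoped Real ContDiff ENNReal ComplexConjugate Topology

open Pool.Agent.H306.CK Pool.Agent.H306.DS Pool.Agent.H306.HD

/-! ### The multipliers -/

theorem lam_nonneg {ν α : ℝ} (hν : 0 < ν) (k : Fin 3 → ℤ) : 0 ≤ lam ν α k := by
  unfold lam
  exact mul_nonneg hν.le (Real.rpow_nonneg (by positivity) α)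

theorem lam_neg (ν α : ℝ) (k : Fin 3 → ℤ) : lam ν α (-k) = lam ν α k := by
  unfold lam
  congr 2
  refine Finset.sum_congr rfl fun i _ => ?_
  rw [Pi.neg_apply]
  push_cast
  ring

theorem lam_le {ν α : ℝ} (hν : 0 < ν) (hα : 0 < α) (k : Fin 3 → ℤ) :
    |lam ν α k| ≤ ν * W α k := by
  have h0 : 0 ≤ ∑ j, (k j : ℝ) ^ 2 := by positivity
  rw [abs_of_nonneg (lam_nonneg hν k)]
  unfold lam W
  apply mul_le_mul_of_nonneg_left _ hν.le
  exact Real.rpow_le_rpow h0 (by linarith) hα.le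

theorem lam_mb {ν α : ℝ} (hν : 0 < ν) (hα : 0 < α) : Mb (lam ν α) :=
  ⟨lam_neg ν α, ν, α, hν.le, lam_le hν hα⟩

/-- the multiplier of the flow -/
def ml (ν α t : ℝ) (k : Fin 3 → ℤ) : ℝ := Real.exp (-lam ν α k * t)

theorem ml_le {ν α : ℝ} (hν : 0 < ν) {t : ℝ} (ht : 0 ≤ t) (k : Fin 3 → ℤ) :
    |ml ν α t k| ≤ 1 := by
  unfold ml
  rw [abs_of_pos (Real.exp_pos _), Real.exp_le_one_iff]
  have := lam_nonneg (α := α) hν k
  nlinarith

theorem ml_mb {ν α : ℝ} (hν : 0 < ν) {t : ℝ} (ht : 0 ≤ t) : Mb (ml ν α t) := by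
  refine ⟨fun k => by unfold ml; rw [lam_neg], 1, 0, zero_le_one, fun k => ?_⟩
  rw [W_zero, mul_one]
  exact ml_le hν ht k

/-- polynomially bounded coefficients -/
def PB (a : (Fin 3 → ℤ) → ℝ) : Prop := ∃ C B : ℝ, 0 ≤ C ∧ ∀ k, |a k| ≤ C * W B k

theorem PB.lam {ν α : ℝ} (hν : 0 < ν) (hα : 0 < α) {a : (Fin 3 → ℤ) → ℝ} (ha : PB a) :
    PB fun k => -lam ν α k * a k := by
  obtain ⟨C, B, hC, h⟩ := ha
  refine ⟨ν * C, α + B, by positivity, fun k => ?_⟩
  rw [abs_mul, abs_neg, W_add]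
  have h1 := W_pos α k
  calc |HD.lam ν α k| * |a k| ≤ (ν * W α k) * (C * W B k) :=
        mul_le_mul (lam_le hν hα k) (h k) (abs_nonneg _) (by positivity)
    _ = _ := by ring

theorem PB.one : PB fun _ => 1 := ⟨1, 0, zero_le_one, fun k => by rw [W_zero]; norm_num⟩

/-! ### The series -/

/-- the terms of the Fourier series -/
def ph' (g : V → ℝ) (k : Fin 3 → ℤ) : V → ℝ := tg (((((2 * π) ^ 3)⁻¹ : ℝ) : ℂ) * fc g k) k

theorem tg_smul (r : ℝ) (c : ℂ) (k : Fin 3 → ℤ) (x : V) : tg ((r : ℂ) * c) k x = r * tg c k x := by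
  unfold tg
  rw [Complex.re_ofReal_mul, Complex.im_ofReal_mul]
  ring

theorem mg_ser (m : (Fin 3 → ℤ) → ℝ) (g : V → ℝ) (x : V) : mg m g x = ∑' k, m k * ph' g k x := by
  unfold mg ph'
  refine tsum_congr fun k => ?_
  rw [← tg_smul]
  congr 1
  push_cast
  ring

/-- bounds of the derivatives -/
def MM (g : V → ℝ) (q : ℕ) (k : Fin 3 → ℤ) : ℝ :=
  (3 * W 1 k) ^ q * ‖((((2 * π) ^ 3)⁻¹ : ℝ) : ℂ) * fc g k‖

theorem MM_nonneg (g : V → ℝ) (q : ℕ) (k : Fin 3 → ℤ) : 0 ≤ MM g q k := by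
  unfold MM
  have := W_pos 1 k
  positivity

theorem ph_iter (g : V → ℝ) (q : ℕ) (k : Fin 3 → ℤ) (x : V) :
    ‖iteratedFDeriv ℝ q (ph' g k) x‖ ≤ MM g q k := tg_iter k q _ x

theorem MM_sum {g : V → ℝ} (hg : SPf g) {a : (Fin 3 → ℤ) → ℝ} (ha : PB a) (q : ℕ) :
    Summable fun k => |a k| * MM g q k := by
  have hpi := Real.pi_pos
  obtain ⟨C, B, hC, h⟩ := ha
  obtain ⟨C', hC', h'⟩ := fc_decay hg (-3 - B - q)
  refine Summable.of_nonneg_of_le (fun k => mul_nonneg (abs_nonneg _) (MM_nonneg g q k))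
    (fun k => ?_) (W_summable.mul_left (C * 3 ^ q * ((2 * π) ^ 3)⁻¹ * C'))
  have hWB := W_pos B k
  have hWq := W_pos q k
  have e1 : W 1 k ^ q = W q k := by
    unfold W
    rw [Real.rpow_one, Real.rpow_natCast]
  have e2 : W (-3) k = W B k * W q k * W (-3 - B - q) k := by
    rw [← W_add, ← W_add]
    congr 1
    ring
  have e3 : |((2 * π) ^ 3)⁻¹| = ((2 * π) ^ 3)⁻¹ := abs_of_pos (by positivity)
  unfold MM
  rw [norm_mul, Complex.norm_real, Real.norm_eq_abs, e3, mul_pow, e1, e2]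
  have h2 := W_pos (-3 - B - q) k
  calc |a k| * (3 ^ q * W q k * (((2 * π) ^ 3)⁻¹ * ‖fc g k‖)) ≤
        (C * W B k) * (3 ^ q * W q k * (((2 * π) ^ 3)⁻¹ * (C' * W (-3 - B - q) k))) := by
        refine mul_le_mul (h k) ?_ (by positivity) (by positivity)
        refine mul_le_mul_of_nonneg_left ?_ (by positivity)
        exact mul_le_mul_of_nonneg_left (h' k) (by positivity)
    _ = _ := by ring

section

variable {ν α : ℝ} (hν : 0 < ν) (hα : 0 < α) {g : V → ℝ} (hg : SPf g)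

include hν hg in
theorem sb (T : ℝ) {a : (Fin 3 → ℤ) → ℝ} (ha : PB a) :
    SB (MM g) T (fun k t => a k * ml ν α t k) := by
  intro q t₁ _
  refine ⟨fun k => |a k| * MM g q k, MM_sum hg ha q, fun k t ht => ?_⟩
  refine mul_le_mul_of_nonneg_right ?_ (MM_nonneg g q k)
  rw [abs_mul]
  exact mul_le_of_le_one_right (abs_nonneg _) (ml_le hν ht.1 k)

theorem deriv_ml (ν α : ℝ) (a : (Fin 3 → ℤ) → ℝ) (k : Fin 3 → ℤ) (t : ℝ) :
    HasDerivAt (fun t => a k * ml ν α t k) ((-lam ν α k * a k) * ml ν α t k) t := by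
  unfold ml
  have h1 : HasDerivAt (fun t : ℝ => -lam ν α k * t) (-lam ν α k) t := by
    simpa using (hasDerivAt_id t).const_mul (-lam ν α k)
  refine (h1.exp.const_mul (a k)).congr_deriv ?_
  ring

include hν hα hg in
theorem ry (T : ℝ) (n : ℕ) : ∀ a : (Fin 3 → ℤ) → ℝ, PB a →
    RY (MM g) T n (fun k t => a k * ml ν α t k) := by
  induction n with
  | zero =>
    intro a ha
    exact ⟨fun k => (HasDerivAt.continuousOn fun t _ => deriv_ml ν α a k t), sb hν hg T ha⟩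
  | succ n ih =>
    intro a ha
    exact ⟨sb hν hg T ha, fun k t => (-lam ν α k * a k) * ml ν α t k,
      fun k t _ => (deriv_ml ν α a k t).hasDerivWithinAt, ih _ (ha.lam hν hα)⟩

theorem nhds_Ico {t : ℝ} : Ico 0 (t + 1) ∈ 𝓝[Ici 0] t := by
  have : Ico 0 (t + 1) = Ici 0 ∩ Iio (t + 1) := rfl
  rw [this]
  exact inter_mem self_mem_nhdsWithin (mem_nhdsWithin_of_mem_nhds (Iio_mem_nhds (by linarith)))

include hν hα hg in
theorem smooth (hC : S_CINF) (hC1 : S_C1) :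
    ContDiffOn ℝ ∞ (fun z : ℝ × V => mg (ml ν α z.1) g z.2) (Ici 0 ×ˢ univ) := by
  rw [contDiffOn_infty]
  intro n
  have h1 : ∀ T : ℝ, 0 < T → ContDiffOn ℝ n (fun z : ℝ × V => mg (ml ν α z.1) g z.2)
      (Ico 0 T ×ˢ univ) := by
    intro T hT
    have := hC hC1 n (Fin 3 → ℤ) (ph' g) (MM g) T (fun k t => 1 * ml ν α t k) hT
      (fun k => tg_contDiff _ k) (fun q k x => ph_iter g q k x) (ry hν hα hg T n _ PB.one)
    refine this.congr fun z _ => ?_
    simp only [mg_ser, one_mul]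
  intro z hz
  have hz1 : 0 ≤ z.1 := hz.1
  refine (h1 (z.1 + 1) (by linarith) z ⟨⟨hz1, by linarith⟩, mem_univ _⟩).mono_of_mem_nhdsWithin ?_
  have h2 : (Ico 0 (z.1 + 1)) ×ˢ (univ : Set V) ∈ 𝓝[Ici 0] z.1 ×ˢ 𝓝[univ] z.2 :=
    prod_mem_prod nhds_Ico self_mem_nhdsWithin
  rw [← nhdsWithin_prod_eq] at h2
  exact h2

theorem ph_le (g : V → ℝ) (k : Fin 3 → ℤ) (x : V) : |ph' g k x| ≤ MM g 0 k + MM g 1 k := by
  have h1 := tg_le (((((2 * π) ^ 3)⁻¹ : ℝ) : ℂ) * fc g k) k x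
  have h2 := MM_nonneg g 1 k
  have h3 : MM g 0 k = ‖((((2 * π) ^ 3)⁻¹ : ℝ) : ℂ) * fc g k‖ := by
    unfold MM
    rw [pow_zero, one_mul]
  rw [h3]
  unfold ph'
  linarith

theorem k_le_W (k : Fin 3 → ℤ) (i : Fin 3) : |(k i : ℝ)| ≤ W 1 k := by
  rw [W_one]
  have h3 : (k i : ℝ) ^ 2 ≤ ∑ j, (k j : ℝ) ^ 2 :=
    Finset.single_le_sum (f := fun j => (k j : ℝ) ^ 2) (fun j _ => sq_nonneg _)
      (Finset.mem_univ i)
  have h4 := sq_abs (k i : ℝ)
  nlinarith [sq_nonneg (|(k i : ℝ)| - 1), abs_nonneg (k i : ℝ)]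

theorem pd_ph_le (g : V → ℝ) (k : Fin 3 → ℤ) (j : Fin 3) (x : V) :
    |pd j (ph' g k) x| ≤ MM g 0 k + MM g 1 k := by
  have h2 := MM_nonneg g 0 k
  have h3 : MM g 1 k = 3 * W 1 k * ‖((((2 * π) ^ 3)⁻¹ : ℝ) : ℂ) * fc g k‖ := by
    unfold MM
    rw [pow_one]
  unfold ph'
  rw [tg_pd]
  refine (tg_le _ k x).trans ?_
  rw [norm_mul, norm_mul, Complex.norm_I, one_mul]
  have h4 : ‖((k j : ℤ) : ℂ)‖ = |(k j : ℝ)| := by
    rw [← Complex.ofReal_intCast, Complex.norm_real, Real.norm_eq_abs]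
  rw [h4]
  have h5 := mul_le_mul_of_nonneg_right (k_le_W k j)
    (norm_nonneg (((((2 * π) ^ 3)⁻¹ : ℝ) : ℂ) * fc g k))
  have h6 : 0 ≤ W 1 k * ‖((((2 * π) ^ 3)⁻¹ : ℝ) : ℂ) * fc g k‖ :=
    mul_nonneg (W_pos 1 k).le (norm_nonneg _)
  linarith

include hν hα hg in
/-- the time derivative -/
theorem time (hC1 : S_C1) {t : ℝ} (ht : 0 ≤ t) (x : V) :
    HasDerivWithinAt (fun s => mg (ml ν α s) g x) (-mg (fun k => lam ν α k * ml ν α t k) g x)
      (Ici 0) t := by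
  have h := (hC1 (Fin 3 → ℤ) (fun k x _ => ph' g k x) (fun k t => 1 * ml ν α t k)
    (fun k t => (-lam ν α k * 1) * ml ν α t k) (fun k => MM g 0 k + MM g 1 k) (t + 1)
    (by linarith) (fun k => contDiff_pi.2 fun _ => (tg_contDiff _ k).of_le (by exact_mod_cast le_top))
    (fun k x i => ⟨ph_le g k x, fun j => pd_ph_le g k j x⟩)
    (fun k t _ => (deriv_ml ν α (fun _ => 1) k t).hasDerivWithinAt)
    (fun k => (HasDerivAt.continuousOn fun t _ => deriv_ml ν α (fun k => -lam ν α k * 1) k t))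
    (fun t₁ _ => ?_)).2 t ⟨ht, by linarith⟩ x 0
  · have h1 := h.1
    have e1 : (fun s => ∑' r, 1 * ml ν α s r * ph' g r x) = fun s => mg (ml ν α s) g x := by
      ext s
      simp only [mg_ser, one_mul]
    have e2 : (∑' r, (-lam ν α r * 1) * ml ν α t r * ph' g r x) =
        -mg (fun k => lam ν α k * ml ν α t k) g x := by
      rw [mg_ser, ← tsum_neg]
      refine tsum_congr fun r => ?_
      ring
    rw [e1, e2] at h1
    exact h1.mono_of_mem_nhdsWithin nhds_Ico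
  · have p1 := (PB.one).lam hν hα
    refine ⟨fun k => (|(1 : ℝ)| * MM g 0 k + |(1 : ℝ)| * MM g 1 k) +
      (|-lam ν α k * 1| * MM g 0 k + |-lam ν α k * 1| * MM g 1 k),
      ((MM_sum hg PB.one 0).add (MM_sum hg PB.one 1)).add
        ((MM_sum hg p1 0).add (MM_sum hg p1 1)), fun k s hs => ?_⟩
    have m1 := ml_le (α := α) hν hs.1 k
    have m2 : |1 * ml ν α s k| ≤ |(1 : ℝ)| := by
      rw [one_mul, abs_one]
      exact m1
    have m3 : |(-lam ν α k * 1) * ml ν α s k| ≤ |-lam ν α k * 1| := by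
      rw [abs_mul (-lam ν α k * 1)]
      exact mul_le_of_le_one_right (abs_nonneg _) m1
    have q0 := MM_nonneg g 0 k
    have q1 := MM_nonneg g 1 k
    calc (|1 * ml ν α s k| + |(-lam ν α k * 1) * ml ν α s k|) * (MM g 0 k + MM g 1 k) ≤
          (|(1 : ℝ)| + |-lam ν α k * 1|) * (MM g 0 k + MM g 1 k) :=
          mul_le_mul_of_nonneg_right (add_le_add m2 m3) (by linarith)
      _ = _ := by ring

end

theorem fc_zero (k : Fin 3 → ℤ) : fc (fun _ => (0 : ℝ)) k = 0 := by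
  unfold fc; simp

theorem mg_zero (m : (Fin 3 → ℤ) → ℝ) (x : V) : mg m (fun _ => 0) x = 0 := by
  rw [mg_ser]
  have : ∀ k, m k * ph' (fun _ => 0) k x = 0 := fun k => by
    unfold ph' tg
    rw [fc_zero]
    simp
  simp only [this, tsum_zero]

/-- functions which do not depend on `x 2` -/
theorem pd_two_mg {m : (Fin 3 → ℤ) → ℝ} (hm : Mb m) {g : V → ℝ} (hg : SPf g)
    (h : ∀ x, pd 2 g x = 0) (x : V) : pd 2 (mg m g) x = 0 := by
  have h1 : pd 2 (mg m g) = fun _ => (0 : ℝ) := by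
    have hA := mg_spf hm hg
    refine fc_inj (hA.pd 2).cont continuous_const (hA.pd 2).2 (fun _ _ => rfl) fun k => ?_
    have h2 := fc_pd hg.c1 hg.2 2 k
    have h3 : pd 2 g = fun _ => (0 : ℝ) := by
      ext y; exact h y
    rw [h3, fc_zero] at h2
    rw [fc_pd hA.c1 hA.2, fc_mg hm hg, fc_zero]
    rw [mul_left_comm, ← h2, mul_zero]
  exact congrFun h1 x

theorem pd_const' (j : Fin 3) (x : V) : pd j (fun _ : V => (0 : ℝ)) x = 0 := by
  simp [CK.pd]

theorem free : S_FREE := by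
  intro hC hC1 ν α hν hα _ f hf hf2
  set v₀ : V → V := fun x => ![0, 0, f x] with hv₀
  have c0 : (fun x => v₀ x 0) = fun _ => (0 : ℝ) := rfl
  have c1 : (fun x => v₀ x 1) = fun _ => (0 : ℝ) := rfl
  have c2 : (fun x => v₀ x 2) = f := rfl
  have hsp : SP v₀ := by
    refine ⟨contDiff_pi.2 fun i => ?_, fun i x => ?_⟩
    · fin_cases i
      · exact contDiff_const
      · exact contDiff_const
      · exact hf.1
    · simp only [hv₀]
      rw [hf.2 i x]
  have hsf : SF v₀ := by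
    refine ⟨hsp.1, hsp.2, fun x => ?_⟩
    rw [Fin.sum_univ_three, c0, c1, c2, pd_const', pd_const', hf2]
    norm_num
  have hcomp2 : ∀ (i : Fin 3) (x : V), pd 2 (fun y => v₀ y i) x = 0 := by
    intro i x
    fin_cases i
    · exact pd_const' 2 x
    · exact pd_const' 2 x
    · exact hf2 x
  have hmb : ∀ t : ℝ, 0 ≤ t → Mb (ml ν α t) := fun t ht => ml_mb hν ht
  have hl := lam_mb hν hα
  have h00 : MG (ml ν α 0) v₀ = v₀ := by
    refine fc_ext (MG_sp (hmb 0 le_rfl) hsp) hsp fun i k => ?_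
    rw [fc_MG (hmb 0 le_rfl) hsp]
    unfold ml
    simp
  have hsm : ContDiffOn ℝ ∞ (fun z : ℝ × V => MG (ml ν α z.1) v₀ z.2) (Ici 0 ×ˢ univ) :=
    contDiffOn_pi.2 fun i => smooth hν hα (hsp.comp i) hC hC1
  have hSF : ∀ t ∈ Ici (0 : ℝ), SF (MG (ml ν α t) v₀) := fun t ht => MG_sf (hmb t ht) hsf
  refine ⟨fun t => MG (ml ν α t) v₀, h00, hsm, ?_, hSF, fun s t ht => ?_⟩
  · refine ⟨hsm.of_le (by exact_mod_cast le_top), contDiffOn_const, fun t ht => (hSF t ht).2.1,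
      fun _ _ _ _ => rfl, fun t ht => (hSF t ht).2.2, fun t ht x i => ?_⟩
    have ht0 : 0 ≤ t := ht
    have d1 : derivWithin (fun s => MG (ml ν α s) v₀ x i) (Ici 0) t =
        -mg (fun k => lam ν α k * ml ν α t k) (fun y => v₀ y i) x :=
      (time hν hα (hsp.comp i) hC1 ht0 x).derivWithin (uniqueDiffOn_Ici 0 t ht)
    have d2 : ∑ j, MG (ml ν α t) v₀ x j * pd j (fun y => MG (ml ν α t) v₀ y i) x = 0 := by
      rw [Fin.sum_univ_three]
      have z0 : MG (ml ν α t) v₀ x 0 = 0 := mg_zero _ x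
      have z1 : MG (ml ν α t) v₀ x 1 = 0 := mg_zero _ x
      have z2 : pd 2 (fun y => MG (ml ν α t) v₀ y i) x = 0 :=
        pd_two_mg (hmb t ht0) (hsp.comp i) (hcomp2 i) x
      rw [z0, z1, z2]
      ring
    have d3 : MG (lam ν α) (MG (ml ν α t) v₀) x i =
        mg (fun k => lam ν α k * ml ν α t k) (fun y => v₀ y i) x := by
      rw [MG_MG hl (hmb t ht0) hsp]
      rfl
    rw [d1, d2, pd_const', d3]
    ring
  · have h1 := hs_MG_le (hmb t ht) hsp (C := 1) (s := s) (t := s) (fun k => by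
      have m1 := ml_le (α := α) hν ht k
      have m2 : ml ν α t k ^ 2 ≤ 1 := by
        rw [← sq_abs]
        have := abs_nonneg (ml ν α t k)
        nlinarith
      exact mul_le_mul_of_nonneg_right m2 (W_pos s k).le) zero_le_one
    rw [ENNReal.ofReal_one, one_mul] at h1
    simp only
    rw [h00]
    exact h1

end Pool.Agent.H306.HD.TFREE

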