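import Pool.Agent.H306.HD.Def

/-! The functionals on the modes (`S_FUN`). -/

noncomputable section

namespace Pool.Agent.H306.HD.TFUN

open Set MeasureTheory

open scoped Real ContDiff ENNReal

open Pool.Agent.H306.CK Pool.Agent.H306.DS Pool.Agent.H306.HD

theorem int_cos_int {n : ℤ} (hn : n ≠ 0) : ∫ s in (-π)..π, Real.cos (n * s) = 0 := by
  have hn' : (n : ℝ) ≠ 0 := by exact_mod_cast hn
  rw [intervalIntegral.integral_comp_mul_left (fun s => Real.cos s) hn', integral_cos,
    mul_neg, Real.sin_neg, Real.sin_int_mul_pi]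
  simp

theorem int_sin_int (n : ℤ) : ∫ s in (-π)..π, Real.sin (n * s) = 0 := by
  by_cases hn : n = 0
  · subst hn
    simp
  have hn' : (n : ℝ) ≠ 0 := by exact_mod_cast hn
  rw [intervalIntegral.integral_comp_mul_left (fun s => Real.sin s) hn', integral_sin,
    mul_neg, Real.cos_neg]
  simp

theorem int_sin_cos' (a b : ℕ) :
    ∫ s in (-π)..π, Real.sin (a * s) * Real.cos (b * s) = 0 := by
  have h : ∀ s : ℝ, Real.sin (a * s) * Real.cos (b * s) =
      (1 / 2) * Real.sin (((a : ℤ) + (b : ℤ) : ℤ) * s) +
        (1 / 2) * Real.sin (((a : ℤ) - (b : ℤ) : ℤ) * s) := by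
    intro s
    push_cast
    rw [add_mul, sub_mul, Real.sin_add, Real.sin_sub]
    ring
  simp only [h]
  rw [intervalIntegral.integral_add (by apply Continuous.intervalIntegrable; fun_prop)
    (by apply Continuous.intervalIntegrable; fun_prop), intervalIntegral.integral_const_mul,
    intervalIntegral.integral_const_mul, int_sin_int, int_sin_int]
  simp

theorem int_sin_sin' {a b : ℕ} (ha : 0 < a) (hab : a ≠ b) :
    ∫ s in (-π)..π, Real.sin (a * s) * Real.sin (b * s) = 0 := by
  have h : ∀ s : ℝ, Real.sin (a * s) * Real.sin (b * s) =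
      (1 / 2) * Real.cos (((a : ℤ) - (b : ℤ) : ℤ) * s) -
        (1 / 2) * Real.cos (((a : ℤ) + (b : ℤ) : ℤ) * s) := by
    intro s
    push_cast
    rw [add_mul, sub_mul, Real.cos_add, Real.cos_sub]
    ring
  simp only [h]
  rw [intervalIntegral.integral_sub (by apply Continuous.intervalIntegrable; fun_prop)
    (by apply Continuous.intervalIntegrable; fun_prop), intervalIntegral.integral_const_mul,
    intervalIntegral.integral_const_mul, int_cos_int (by omega), int_cos_int (by omega)]
  simp

theorem int_cos_cos' {a b : ℕ} (ha : 0 < a) (hab : a ≠ b) :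
    ∫ s in (-π)..π, Real.cos (a * s) * Real.cos (b * s) = 0 := by
  have h : ∀ s : ℝ, Real.cos (a * s) * Real.cos (b * s) =
      (1 / 2) * Real.cos (((a : ℤ) - (b : ℤ) : ℤ) * s) +
        (1 / 2) * Real.cos (((a : ℤ) + (b : ℤ) : ℤ) * s) := by
    intro s
    push_cast
    rw [add_mul, sub_mul, Real.cos_add, Real.cos_sub]
    ring
  simp only [h]
  rw [intervalIntegral.integral_add (by apply Continuous.intervalIntegrable; fun_prop)
    (by apply Continuous.intervalIntegrable; fun_prop), intervalIntegral.integral_const_mul,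
    intervalIntegral.integral_const_mul, int_cos_int (by omega), int_cos_int (by omega)]
  simp

theorem int_sin_trg {a b : ℕ} (ha : 0 < a) (j : ℕ) :
    ∫ s in (-π)..π, Real.sin (a * s) * trg j (b * s) = if a = b ∧ ¬ Even j then π else 0 := by
  unfold trg
  by_cases hj : Even j
  · simp only [hj, if_true, not_true_eq_false, and_false, if_false]
    exact int_sin_cos' a b
  · simp only [hj, if_false, not_false_eq_true, and_true]
    by_cases hab : a = b
    · subst hab
      simp only [if_true, ← sq]
      exact int_sin_sin ha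
    · rw [if_neg hab]
      exact int_sin_sin' ha hab

theorem int_cos_trg {a b : ℕ} (ha : 0 < a) (j : ℕ) :
    ∫ s in (-π)..π, Real.cos (a * s) * trg j (b * s) = if a = b ∧ Even j then π else 0 := by
  unfold trg
  by_cases hj : Even j
  · simp only [hj, if_true, and_true]
    by_cases hab : a = b
    · subst hab
      simp only [if_true, ← sq]
      exact int_cos_cos ha
    · rw [if_neg hab]
      exact int_cos_cos' ha hab
  · simp only [hj, if_false, and_false]
    rw [← int_sin_cos' b a]
    exact intervalIntegral.integral_congr fun s _ => mul_comm _ _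

theorem c1_re {h : ℝ → ℝ} (hh : Continuous h) (n : ℤ) :
    (c1 h n).re = ∫ y in (-π)..π, h y * Real.cos (n * y) := by
  unfold c1
  have hc : Continuous fun y : ℝ => (h y : ℂ) * Complex.exp (-(Complex.I * (n * y))) := by
    fun_prop
  have h1 := Complex.reCLM.intervalIntegral_comp_comm (hc.intervalIntegrable (μ := volume) (-π) π)
  simp only [Complex.reCLM_apply] at h1
  rw [← h1]
  refine intervalIntegral.integral_congr fun y _ => ?_
  have h2 : -(Complex.I * ((n : ℂ) * (y : ℂ))) = ((-(n * y) : ℝ) : ℂ) * Complex.I := by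
    push_cast
    ring
  rw [h2, Complex.re_ofReal_mul, Complex.exp_ofReal_mul_I_re, Real.cos_neg]

section

variable {P : Prm}

theorem X_cont (hS : S_PROF) (hP : P.Ok) (m : ℕ) : Continuous (X P m) :=
  ((hS.1 m (P.K (m + 1)) (hP.K_one _) (hP.K_big m)).1).continuous

theorem Lm_pos (hS : S_PROF) (hP : P.Ok) (m : ℕ) : 0 < Lm P m :=
  lt_of_lt_of_le (by positivity) ((hS.1 m (P.K (m + 1)) (hP.K_one _) (hP.K_big m)).2.2.2.2.2)

theorem X_supp (hS : S_PROF) (hP : P.Ok) (m : ℕ) (y : ℝ) (h : X P m y ≠ 0) : hχ m y = 1 :=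
  (hS.1 m (P.K (m + 1)) (hP.K_one _) (hP.K_big m)).2.2.2.1 y h

theorem int_X_cos_int (hS : S_PROF) (hP : P.Ok) (m : ℕ) {i : ℤ} (hi : i ≠ 0) :
    ∫ y in (-π)..π, X P m y * Real.cos (((i * P.K (m + 1) : ℤ) : ℝ) * y) = 0 := by
  rw [← c1_re (X_cont hS hP m)]
  have h := (hS.1 m (P.K (m + 1)) (hP.K_one _) (hP.K_big m)).2.2.2.2.1 i hi
  unfold X
  rw [h]
  simp

theorem int_X_cos (hS : S_PROF) (hP : P.Ok) (m j : ℕ) :
    ∫ y in (-π)..π, X P m y * Real.cos (j * P.K (m + 1) * y) = if j = 0 then Lm P m else 0 := by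
  by_cases hj : j = 0
  · subst hj
    simp [Lm]
  · rw [if_neg hj]
    have h := int_X_cos_int hS hP m (i := (j : ℤ)) (by exact_mod_cast hj)
    rw [← h]
    refine intervalIntegral.integral_congr fun y _ => ?_
    simp

theorem int_X_cos_cos (hS : S_PROF) (hP : P.Ok) (m j : ℕ) :
    ∫ y in (-π)..π, Real.cos (P.K (m + 1) * y) * (X P m y * Real.cos (j * P.K (m + 1) * y)) =
      if j = 1 then Lm P m / 2 else 0 := by
  have hX := X_cont hS hP m
  have h : ∀ y : ℝ, Real.cos (P.K (m + 1) * y) * (X P m y * Real.cos (j * P.K (m + 1) * y)) =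
      (1 / 2) * (X P m y * Real.cos (((((j : ℤ) - 1) * P.K (m + 1) : ℤ) : ℝ) * y)) +
        (1 / 2) * (X P m y * Real.cos (((((j : ℤ) + 1) * P.K (m + 1) : ℤ) : ℝ) * y)) := by
    intro y
    push_cast
    have e1 : ((j : ℝ) - 1) * (P.K (m + 1) : ℝ) * y =
      j * P.K (m + 1) * y - P.K (m + 1) * y := by ring
    have e2 : ((j : ℝ) + 1) * (P.K (m + 1) : ℝ) * y =
      j * P.K (m + 1) * y + P.K (m + 1) * y := by ring
    rw [e1, e2, Real.cos_add, Real.cos_sub]
    ring
  simp only [h]
  rw [intervalIntegral.integral_add (by apply Continuous.intervalIntegrable; fun_prop)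
    (by apply Continuous.intervalIntegrable; fun_prop), intervalIntegral.integral_const_mul,
    intervalIntegral.integral_const_mul, int_X_cos_int hS hP m (i := (j : ℤ) + 1) (by omega)]
  by_cases hj : j = 1
  · subst hj
    simp [Lm]
    ring
  · rw [if_neg hj, int_X_cos_int hS hP m (i := (j : ℤ) - 1) (by omega)]
    simp

end

theorem fun_modes : S_FUN := by
  intro hS P hP m m' j
  have hpi := Real.pi_pos
  have hL := Lm_pos hS hP m
  have hK : ∀ n, 0 < P.K n := fun n => hP.K_one n
  refine ⟨?_, ?_, ?_, ?_, ?_, ?_⟩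
  · -- lf Fm
    unfold lf inner3 Fm
    have e : ∀ x : V, (∑ i, (![X P m (x 1) * Real.cos (P.K (m + 1) * x 1), 0, 0] : V) i *
        (![hχ m' (x 1) * Real.cos (P.K (m' + 1) * x 1), 0, 0] : V) i) =
        (fun _ => (1 : ℝ)) (x 0) * (fun y => X P m y * Real.cos (P.K (m + 1) * y) *
          (hχ m' y * Real.cos (P.K (m' + 1) * y))) (x 1) := by
      intro x
      simp [Fin.sum_univ_three]
    simp only [e]
    rw [torus_int_prod (fun _ => (1 : ℝ)) (fun y => X P m y * Real.cos (P.K (m + 1) * y) *
          (hχ m' y * Real.cos (P.K (m' + 1) * y)))]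
    by_cases hm : m = m'
    · subst hm
      rw [if_pos rfl]
      have e2 : ∫ y in (-π)..π, X P m y * Real.cos (P.K (m + 1) * y) *
          (hχ m y * Real.cos (P.K (m + 1) * y)) = Lm P m / 2 := by
        have := int_X_cos_cos hS hP m 1
        rw [if_pos rfl] at this
        rw [← this]
        refine intervalIntegral.integral_congr fun y _ => ?_
        simp only [Nat.cast_one, one_mul]
        by_cases hX : X P m y = 0
        · simp [hX]
        · rw [X_supp hS hP m y hX]
          ring
      rw [e2]
      simp only [intervalIntegral.integral_const, smul_eq_mul, mul_one]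
      field_simp
      ring
    · rw [if_neg hm]
      have e2 : ∫ y in (-π)..π, X P m y * Real.cos (P.K (m + 1) * y) *
          (hχ m' y * Real.cos (P.K (m' + 1) * y)) = 0 := by
        have : ∀ y : ℝ, X P m y * Real.cos (P.K (m + 1) * y) *
          (hχ m' y * Real.cos (P.K (m' + 1) * y)) = 0 := by
          intro y
          by_cases hX : X P m y = 0
          · simp [hX]
          · have h1 := X_supp hS hP m y hX
            have h2 : hχ m' y = 0 := hχ_disj hm (by rw [h1]; exact one_ne_zero)
            simp [h2]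
        simp [this]
      rw [e2]
      simp
  · unfold ls inner3 Fm
    simp [Fin.sum_univ_three]
  · unfold lc inner3 Fm
    simp [Fin.sum_univ_three]
  · unfold lf inner3 Em
    simp [Fin.sum_univ_three]
  · unfold ls inner3 Em cmode
    have e : ∀ x : V, (∑ i, (![0, 0, Real.cos (P.K (m + 1) * x 1) * Real.sin (P.K m * x 0)] : V) i *
        (![0, 0, X P m' (x 1) * (Real.cos (j * P.K (m' + 1) * x 1) * trg j (P.K m' * x 0))] : V) i) =
        (fun s => Real.sin (P.K m * s) * trg j (P.K m' * s)) (x 0) *
          (fun y => Real.cos (P.K (m + 1) * y) *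
            (X P m' y * Real.cos (j * P.K (m' + 1) * y))) (x 1) := by
      intro x
      simp [Fin.sum_univ_three]
      ring
    simp only [e]
    rw [torus_int_prod (fun s => Real.sin (P.K m * s) * trg j (P.K m' * s))
      (fun y => Real.cos (P.K (m + 1) * y) * (X P m' y * Real.cos (j * P.K (m' + 1) * y)))]
    rw [int_sin_trg (hK m)]
    by_cases hm : m = m'
    · subst hm
      rw [int_X_cos_cos hS hP m j]
      by_cases hj : j = 1
      · subst hj
        simp
        field_simp
      · simp [hj]
    · have : P.K m ≠ P.K m' := fun h => hm (hP.K_mono.injective h)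
      simp [hm, this]
  · unfold lc inner3 Em cmode
    have e : ∀ x : V, (∑ i, (![0, 0, Real.cos (P.K m * x 0)] : V) i *
        (![0, 0, X P m' (x 1) * (Real.cos (j * P.K (m' + 1) * x 1) * trg j (P.K m' * x 0))] : V) i) =
        (fun s => Real.cos (P.K m * s) * trg j (P.K m' * s)) (x 0) *
          (fun y => X P m' y * Real.cos (j * P.K (m' + 1) * y)) (x 1) := by
      intro x
      simp [Fin.sum_univ_three]
      ring
    simp only [e]
    rw [torus_int_prod (fun s => Real.cos (P.K m * s) * trg j (P.K m' * s))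
      (fun y => X P m' y * Real.cos (j * P.K (m' + 1) * y))]
    rw [int_cos_trg (hK m)]
    by_cases hm : m = m'
    · subst hm
      rw [int_X_cos hS hP m j]
      by_cases hj : j = 0
      · subst hj
        simp
        field_simp
      · simp [hj]
    · have : P.K m ≠ P.K m' := fun h => hm (hP.K_mono.injective h)
      simp [hm, this]

end Pool.Agent.H306.HD.TFUN
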