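import Pool.Agent.H306.HD.Stm3

set_option autoImplicit false

/-! Growth of one band. -/

namespace Pool.Agent.H306.HD.TGROW

open Set

theorem mono_le {f f' : ℝ → ℝ}
    (hf : ∀ t ∈ Icc (0 : ℝ) 1, HasDerivWithinAt f (f' t) (Icc 0 1) t) {p q : ℝ} (hp : 0 ≤ p)
    (hpq : p ≤ q) (hq : q ≤ 1) (h : ∀ t ∈ Icc p q, 0 ≤ f' t) : f p ≤ f q := by
  have hsub : Icc p q ⊆ Icc (0 : ℝ) 1 := Icc_subset_Icc hp hq
  have hm : MonotoneOn f (Icc p q) := by
    refine monotoneOn_of_hasDerivWithinAt_nonneg (convex_Icc p q) (f' := f') ?_ ?_ ?_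
    · intro t ht
      exact (hf t (hsub ht)).continuousWithinAt.mono hsub
    · intro t ht
      have h1 := interior_subset ht
      exact (hf t (hsub h1)).mono (interior_subset.trans hsub)
    · intro t ht
      exact h t (interior_subset ht)
  exact hm (left_mem_Icc.mpr hpq) (right_mem_Icc.mpr hpq) hpq

theorem hasDeriv_exp_mul (a t : ℝ) (S : Set ℝ) :
    HasDerivWithinAt (fun t => Real.exp (a * t)) (Real.exp (a * t) * a) S t := by
  have h1 : HasDerivAt (fun t : ℝ => a * t) a t := by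
    have := (hasDerivAt_id t).const_mul a
    rw [mul_one] at this
    exact this
  exact h1.exp.hasDerivWithinAt

theorem hasDeriv_lin (a t : ℝ) (S : Set ℝ) :
    HasDerivWithinAt (fun t => a * t) a S t := by
  have h1 : HasDerivAt (fun t : ℝ => a * t) a t := by
    have := (hasDerivAt_id t).const_mul a
    rw [mul_one] at this
    exact this
  exact h1.hasDerivWithinAt

theorem grow : S_GROW := by
  intro k β l c ε r Bm t₁ μ B b α hk hc hε hl hlμ hr hBm hcond S hbd ht₁ hup
  obtain ⟨hb0, hα0, hdb, hdα0, hdα1, hdα, -⟩ := S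
  have hμ1 : 0 ≤ μ 1 := hl.trans hlμ
  have hckB : 0 ≤ c * k * Bm := by positivity
  -- the truncation
  have hcl0 : ∀ t, 0 ≤ cl β (b t) := fun t => le_max_left _ _
  have hclb : ∀ t ∈ Icc (0 : ℝ) 1, cl β (b t) ≤ b t := by
    intro t ht
    exact max_le (hbd t ht).2.1 (min_le_left _ _)
  -- step 1
  have h1 : ∀ t ∈ Icc (0 : ℝ) t₁, c * α 1 t ≤ r * b t := by
    intro t ht
    have ht1 : t ≤ 1 := ht.2.trans ht₁.2
    have hm := mono_le (f := fun t => Real.exp ((r + μ 1) * t) * (r * b t - c * α 1 t))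
      (f' := fun t => Real.exp ((r + μ 1) * t) * (r + μ 1) * (r * b t - c * α 1 t) +
        Real.exp ((r + μ 1) * t) * (r * (-l * b t + c * α 1 t + ε * (B t + α 0 t)) -
          c * (-μ 1 * α 1 t + k * cl β (b t) * (B t + α 0 t + α 2 t / 2))))
      (fun u hu => (hasDeriv_exp_mul _ _ _).mul
        (((hdb u hu).const_mul r).sub ((hdα1 u hu).const_mul c))) le_rfl ht.1 ht1 ?_
    · simp only [mul_zero, Real.exp_zero, hb0, hα0, sub_zero] at hm
      have hE := Real.exp_pos ((r + μ 1) * t)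
      have := nonneg_of_mul_nonneg_right hm hE
      linarith
    · intro u hu
      have hu1 : u ∈ Icc (0 : ℝ) 1 := ⟨hu.1, hu.2.trans ht1⟩
      have huW : u ∈ Icc (0 : ℝ) t₁ := ⟨hu.1, hu.2.trans ht.2⟩
      obtain ⟨g1, g2, g3, g4⟩ := hbd u hu1
      have g5 := hup u huW
      have a1 := abs_le.mp (le_refl |α 0 u|)
      have a2 := abs_le.mp (le_refl |α 2 u|)
      have g6 : 0 ≤ B u + α 0 u := by linarith [a1.1, abs_nonneg (α 2 u)]
      have g7 : 0 ≤ B u + α 0 u + α 2 u / 2 := by linarith [a1.1, a2.1]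
      have g8 : B u + α 0 u + α 2 u / 2 ≤ 9 / 8 * Bm := by linarith [a1.2, a2.2]
      have g9 : cl β (b u) * (B u + α 0 u + α 2 u / 2) ≤ b u * (9 / 8 * Bm) :=
        mul_le_mul (hclb u hu1) g8 g7 g2
      have g10 : c * k * (cl β (b u) * (B u + α 0 u + α 2 u / 2)) ≤ c * k * (b u * (9 / 8 * Bm)) :=
        mul_le_mul_of_nonneg_left g9 (by positivity)
      have g11 : 0 ≤ r * ε * (B u + α 0 u) := by positivity
      have g12 : 0 ≤ r * (μ 1 - l) * b u :=
        mul_nonneg (mul_nonneg hr (by linarith)) g2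
      have g13 : 5 / 4 * (c * k * Bm) * b u ≤ r ^ 2 * b u := mul_le_mul_of_nonneg_right hcond g2
      have g14 : 0 ≤ c * k * Bm * b u := mul_nonneg hckB g2
      have hE := Real.exp_pos ((r + μ 1) * u)
      have key : 0 ≤ (r + μ 1) * (r * b u - c * α 1 u) +
          (r * (-l * b u + c * α 1 u + ε * (B u + α 0 u)) -
          c * (-μ 1 * α 1 u + k * cl β (b u) * (B u + α 0 u + α 2 u / 2))) := by
        have e : (r + μ 1) * (r * b u - c * α 1 u) +
          (r * (-l * b u + c * α 1 u + ε * (B u + α 0 u)) -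
          c * (-μ 1 * α 1 u + k * cl β (b u) * (B u + α 0 u + α 2 u / 2))) =
          r ^ 2 * b u + r * (μ 1 - l) * b u + r * ε * (B u + α 0 u) -
            c * k * (cl β (b u) * (B u + α 0 u + α 2 u / 2)) := by ring
        rw [e]
        linarith
      have := mul_nonneg hE.le key
      linarith
  -- derivative bounds
  have hbder : ∀ t ∈ Icc (0 : ℝ) t₁,
      -l * b t + c * α 1 t + ε * (B t + α 0 t) ≤ (r - l) * b t + 9 / 8 * (ε * Bm) := by
    intro t ht
    have ht1 : t ∈ Icc (0 : ℝ) 1 := ⟨ht.1, ht.2.trans ht₁.2⟩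
    obtain ⟨g1, g2, g3, g4⟩ := hbd t ht1
    have g5 := hup t ht
    have a1 := abs_le.mp (le_refl |α 0 t|)
    have g6 : B t + α 0 t ≤ 9 / 8 * Bm := by linarith [a1.2, abs_nonneg (α 2 t)]
    have g7 : ε * (B t + α 0 t) ≤ ε * (9 / 8 * Bm) := mul_le_mul_of_nonneg_left g6 hε
    have g9 := h1 t ht
    linarith
  have hεB : 0 ≤ 9 / 8 * (ε * Bm) := by positivity
  intro t ht
  have ht1 : t ≤ 1 := ht.2.trans ht₁.2
  constructor
  · have hm := mono_le (f := fun t => 9 / 8 * (ε * Bm) * t - Real.exp (-r * t) * b t)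
      (f' := fun t => 9 / 8 * (ε * Bm) - (Real.exp (-r * t) * (-r) * b t +
        Real.exp (-r * t) * (-l * b t + c * α 1 t + ε * (B t + α 0 t))))
      (fun u hu => (hasDeriv_lin _ _ _).sub ((hasDeriv_exp_mul _ _ _).mul (hdb u hu)))
      le_rfl ht.1 ht1 ?_
    · simp only [mul_zero, Real.exp_zero, hb0, sub_zero] at hm
      have h2 : Real.exp (-r * t) * b t ≤ 9 / 8 * (ε * Bm) := by
        have : 9 / 8 * (ε * Bm) * t ≤ 9 / 8 * (ε * Bm) * 1 := mul_le_mul_of_nonneg_left ht1 hεB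
        linarith
      have hb0' := (hbd t ⟨ht.1, ht1⟩).2.1
      have h3 : b t = Real.exp (r * t) * (Real.exp (-r * t) * b t) := by
        rw [← mul_assoc, ← Real.exp_add]
        have : r * t + -r * t = 0 := by ring
        rw [this, Real.exp_zero, one_mul]
      have h4 : Real.exp (r * t) ≤ Real.exp r := by
        apply Real.exp_le_exp.2
        have : r * t ≤ r * 1 := mul_le_mul_of_nonneg_left ht1 hr
        linarith
      calc b t = Real.exp (r * t) * (Real.exp (-r * t) * b t) := h3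
        _ ≤ Real.exp (r * t) * (9 / 8 * (ε * Bm)) :=
            mul_le_mul_of_nonneg_left h2 (Real.exp_pos _).le
        _ ≤ Real.exp r * (9 / 8 * (ε * Bm)) := mul_le_mul_of_nonneg_right h4 hεB
        _ = _ := by ring
    · intro u hu
      have huW : u ∈ Icc (0 : ℝ) t₁ := ⟨hu.1, hu.2.trans ht.2⟩
      have hu1 : u ∈ Icc (0 : ℝ) 1 := ⟨hu.1, hu.2.trans ht1⟩
      have g1 := hbder u huW
      have g2 := (hbd u hu1).2.1
      have hE0 := Real.exp_pos (-r * u)
      have hE1 : Real.exp (-r * u) ≤ 1 := by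
        rw [Real.exp_le_one_iff]
        have : 0 ≤ r * u := mul_nonneg hr hu.1
        linarith
      have g3 : Real.exp (-r * u) * (-l * b u + c * α 1 u + ε * (B u + α 0 u)) ≤
          Real.exp (-r * u) * ((r - l) * b u + 9 / 8 * (ε * Bm)) :=
        mul_le_mul_of_nonneg_left g1 hE0.le
      have g4 : Real.exp (-r * u) * (9 / 8 * (ε * Bm)) ≤ 1 * (9 / 8 * (ε * Bm)) :=
        mul_le_mul_of_nonneg_right hE1 hεB
      have g5 : 0 ≤ Real.exp (-r * u) * (l * b u) := mul_nonneg hE0.le (mul_nonneg hl g2)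
      have e : Real.exp (-r * u) * ((r - l) * b u + 9 / 8 * (ε * Bm)) =
          Real.exp (-r * u) * r * b u - Real.exp (-r * u) * (l * b u) +
            Real.exp (-r * u) * (9 / 8 * (ε * Bm)) := by ring
      have e2 : Real.exp (-r * u) * (-r) * b u = -(Real.exp (-r * u) * r * b u) := by ring
      show 0 ≤ 9 / 8 * (ε * Bm) - (Real.exp (-r * u) * (-r) * b u +
        Real.exp (-r * u) * (-l * b u + c * α 1 u + ε * (B u + α 0 u)))
      rw [e2]
      linarith
  · intro hrl
    have hm := mono_le (f := fun t => 9 / 8 * (ε * Bm) * t - b t)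
      (f' := fun t => 9 / 8 * (ε * Bm) - (-l * b t + c * α 1 t + ε * (B t + α 0 t)))
      (fun u hu => (hasDeriv_lin _ _ _).sub (hdb u hu))
      le_rfl ht.1 ht1 ?_
    · simp only [mul_zero, hb0, sub_zero] at hm
      have : 9 / 8 * (ε * Bm) * t ≤ 9 / 8 * (ε * Bm) * 1 := mul_le_mul_of_nonneg_left ht1 hεB
      linarith
    · intro u hu
      have huW : u ∈ Icc (0 : ℝ) t₁ := ⟨hu.1, hu.2.trans ht.2⟩
      have hu1 : u ∈ Icc (0 : ℝ) 1 := ⟨hu.1, hu.2.trans ht1⟩
      have g1 := hbder u huW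
      have g2 := (hbd u hu1).2.1
      have g3 : (r - l) * b u ≤ 0 := mul_nonpos_of_nonpos_of_nonneg (by linarith) g2
      show 0 ≤ 9 / 8 * (ε * Bm) - (-l * b u + c * α 1 u + ε * (B u + α 0 u))
      linarith

end Pool.Agent.H306.HD.TGROW
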