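import Pool.Agent.H306.HD.Stm4

/-! Smoothness, divergence and linearity of one piece of the operator (helper336). -/

set_option autoImplicit false

noncomputable section

namespace Pool.Agent.H306.HD.TLOP1

open Set MeasureTheory

open scoped Real ContDiff ENNReal

open Pool.Agent.H306.CK Pool.Agent.H306.DS Pool.Agent.H306.HD

theorem fc_zero (k : Fin 3 → ℤ) : fc (fun _ => (0 : ℝ)) k = 0 := by
  unfold fc; simp

/-- functions whose Fourier integrals vanish for `k 2 ≠ 0` do not depend on `x 2` -/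
theorem pd2_zero {g : V → ℝ} (hg : SPf g) (h : ∀ k : Fin 3 → ℤ, k 2 ≠ 0 → fc g k = 0) (x : V) :
    pd 2 g x = 0 := by
  have h1 : pd 2 g = fun _ => (0 : ℝ) := by
    refine fc_inj (hg.pd 2).cont continuous_const (hg.pd 2).2 (fun _ _ => rfl) fun k => ?_
    rw [fc_pd hg.c1 hg.2, fc_zero]
    by_cases hk : k 2 = 0
    · rw [hk]; simp
    · rw [h k hk, mul_zero]
  exact congrFun h1 x

theorem fc_of_pd2 {g : V → ℝ} (hg : SPf g) (h : ∀ x, pd 2 g x = 0) (k : Fin 3 → ℤ)
    (hk : k 2 ≠ 0) : fc g k = 0 := by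
  have h1 : pd 2 g = fun _ => (0 : ℝ) := funext h
  have h2 := fc_pd hg.c1 hg.2 2 k
  rw [h1, fc_zero] at h2
  have h3 : Complex.I * (k 2 : ℂ) ≠ 0 := mul_ne_zero Complex.I_ne_zero (by exact_mod_cast hk)
  exact (mul_eq_zero.1 h2.symm).resolve_left h3

/-- multiplication by a function of `x 1` -/
theorem hmul_spf {h : ℝ → ℝ} (hh : ContDiff ℝ ∞ h) (hp : ∀ y, h (y + 2 * π) = h y) {f : V → ℝ}
    (hf : SPf f) : SPf (fun y => h (y 1) * f y) := by
  refine ⟨(hh.comp (contDiff_apply ℝ ℝ (1 : Fin 3))).mul hf.1, fun i x => ?_⟩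
  simp only
  rw [hf.2 i x]
  rcases shift_cases i x with ⟨-, h0, h1⟩ | ⟨-, h0, h1⟩ | ⟨-, h0, h1⟩ <;>
    simp only [h1, hp]

theorem hmul_pd2 {h : ℝ → ℝ} (hh : ContDiff ℝ ∞ h) {f : V → ℝ} (hf : SPf f)
    (h0 : ∀ x, pd 2 f x = 0) (x : V) : pd 2 (fun y => h (y 1) * f y) x = 0 := by
  have h1 : ContDiff ℝ ∞ (fun y : V => h (y 1)) := hh.comp (contDiff_apply ℝ ℝ (1 : Fin 3))
  have h2 : ContDiff ℝ 1 (fun y : V => h (y 1)) := h1.of_le (by exact_mod_cast le_top)
  rw [pd_mul (f := fun y : V => h (y 1)) h2 hf.c1, h0 x, mul_zero, zero_add]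
  have h3 : pd 2 (fun y : V => h (y 1)) x = 0 := by
    refine pd_zero_of_line (h2.differentiable (by norm_num) x) fun s => ?_
    simp
  rw [h3, mul_zero]

theorem mg_pd2 {m : (Fin 3 → ℤ) → ℝ} (hm : Mb m) {f : V → ℝ} (hf : SPf f)
    (h0 : ∀ x, pd 2 f x = 0) (x : V) : pd 2 (mg m f) x = 0 :=
  pd2_zero (mg_spf hm hf) (fun k hk => by rw [fc_mg hm hf, fc_of_pd2 hf h0 k hk, mul_zero]) x

theorem cm_spf {ν α : ℝ} (hl : Mb (lam ν α)) {h : ℝ → ℝ} (hh : ContDiff ℝ ∞ h)
    (hp : ∀ y, h (y + 2 * π) = h y) {f : V → ℝ} (hf : SPf f) : SPf (cm ν α h f) := by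
  have h1 := mg_spf hl (hmul_spf hh hp hf)
  have h2 := hmul_spf hh hp (mg_spf hl hf)
  refine ⟨h1.1.sub h2.1, fun i x => ?_⟩
  unfold cm
  have e1 := h1.2 i x
  have e2 := h2.2 i x
  simp only at e2
  rw [e1, e2]

theorem cm_pd2 {ν α : ℝ} (hl : Mb (lam ν α)) {h : ℝ → ℝ} (hh : ContDiff ℝ ∞ h)
    (hp : ∀ y, h (y + 2 * π) = h y) {f : V → ℝ} (hf : SPf f) (h0 : ∀ x, pd 2 f x = 0) (x : V) :
    pd 2 (cm ν α h f) x = 0 := by
  have h1 := mg_spf hl (hmul_spf hh hp hf)
  have h2 := hmul_spf hh hp (mg_spf hl hf)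
  have h3 : pd 2 (cm ν α h f) x = pd 2 (mg (lam ν α) (fun y => h (y 1) * f y)) x -
      pd 2 (fun y => h (y 1) * mg (lam ν α) f y) x :=
    pd_sub (f := mg (lam ν α) (fun y => h (y 1) * f y)) (g := fun y => h (y 1) * mg (lam ν α) f y)
      h1.c1 h2.c1 2 x
  rw [h3, mg_pd2 hl (hmul_spf hh hp hf) (hmul_pd2 hh hf h0),
    hmul_pd2 hh (mg_spf hl hf) (mg_pd2 hl hf h0), sub_zero]

theorem mg_comb {m : (Fin 3 → ℤ) → ℝ} (hm : Mb m) {f g : V → ℝ} (hf : SPf f) (hg : SPf g)
    (a b : ℝ) (x : V) : mg m (fun y => a * f y + b * g y) x = a * mg m f x + b * mg m g x := by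
  have h1 : SP (fun x (_ : Fin 3) => f x) := ⟨contDiff_pi.2 fun _ => hf.1, fun i x => by
    ext; exact hf.2 i x⟩
  have h2 : SP (fun x (_ : Fin 3) => g x) := ⟨contDiff_pi.2 fun _ => hg.1, fun i x => by
    ext; exact hg.2 i x⟩
  exact congrFun (congrFun (MG_comb hm h1 h2 a b) x) 0

theorem cm_comb {ν α : ℝ} (hl : Mb (lam ν α)) {h : ℝ → ℝ} (hh : ContDiff ℝ ∞ h)
    (hp : ∀ y, h (y + 2 * π) = h y) {f g : V → ℝ} (hf : SPf f) (hg : SPf g) (a b : ℝ) (x : V) :
    cm ν α h (fun y => a * f y + b * g y) x = a * cm ν α h f x + b * cm ν α h g x := by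
  unfold cm
  have h1 : (fun y : V => h (y 1) * (a * f y + b * g y)) =
      fun y => a * (h (y 1) * f y) + b * (h (y 1) * g y) := by
    ext y; ring
  rw [h1, mg_comb hl (hmul_spf hh hp hf) (hmul_spf hh hp hg), mg_comb hl hf hg]
  ring

/-- fields along `x 2` -/
theorem e2_sf {g : V → ℝ} (hg : SPf g) (h0 : ∀ x, pd 2 g x = 0) :
    SF (fun x i => if i = 2 then g x else 0) := by
  refine ⟨contDiff_pi.2 fun i => ?_, fun i x => ?_, fun x => ?_⟩
  · by_cases hi : i = 2
    · simp only [hi, if_true]; exact hg.1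
    · simp only [hi, if_false]; exact contDiff_const
  · ext j
    simp only
    rw [hg.2 i x]
  · have h1 : ∀ i : Fin 3, pd i (fun y => if i = 2 then g y else 0) x = 0 := by
      intro i
      by_cases hi : i = 2
      · subst hi
        simp only [if_true]
        exact h0 x
      · simp only [hi, if_false]
        simp [CK.pd]
    exact Finset.sum_eq_zero fun i _ => h1 i

theorem lop1 : S_LOP1 := by
  intro hPROF hFCP hMODES P hP m
  obtain ⟨hF, hE, hlam, hpim, -, -⟩ := hMODES hPROF hFCP P hP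
  obtain ⟨hX, hXp, -, -, -, -⟩ := hPROF.1 m (P.K (m + 1)) (hP.K_one _) (hP.K_big m)
  have hX' : ContDiff ℝ ∞ (X P m) := hX
  have hXp' : ∀ y, X P m (y + 2 * π) = X P m y := hXp
  have hf : ∀ v, SP v → SPf (mg (pim P m) (fun y => v y 2)) := fun v hv =>
    mg_spf (hpim m) (hv.comp 2)
  have hf0 : ∀ v, SP v → ∀ x, pd 2 (mg (pim P m) (fun y => v y 2)) x = 0 := by
    intro v hv
    refine pd2_zero (hf v hv) fun k hk => ?_
    rw [fc_mg (hpim m) (hv.comp 2)]
    have h1 : pim P m k = 0 := by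
      unfold pim
      rw [if_neg (fun h => hk h.2.1)]
    rw [h1]
    simp
  have hpv : SF (pv P m) := by
    have h1 := comb_sf (hF m) (hE (m + 1) 0) 1 1
    have h2 : (fun x i => 1 * Fm P m x i + 1 * Em P (m + 1) 0 x i) = pv P m := by
      ext x i
      unfold pv
      ring
    rwa [h2] at h1
  have hG : SF (fun x i => 1 * MG (lam P.ν P.α) (Fm P m) x i +
      (-mu P (m + 1) 0) * Fm P m x i) := comb_sf (MG_sf hlam (hF m)) (hF m) 1 (-mu P (m + 1) 0)
  have hz1 : CP (fun x : V => (![X P m (x 1) * Real.cos (P.K (m + 1) * x 1), 0, 0] : V)) := by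
    refine ⟨continuous_pi fun i => ?_, fun i x => ?_⟩
    · fin_cases i
      · exact (hX'.continuous.comp (continuous_apply 1)).mul
          (Real.continuous_cos.comp (continuous_const.mul (continuous_apply 1)))
      · exact continuous_const
      · exact continuous_const
    · rcases shift_cases i x with ⟨-, h0, h1⟩ | ⟨-, h0, h1⟩ | ⟨-, h0, h1⟩ <;>
        simp only [h1, hXp', cos_nat_per]
  have hz2 : CP (fun x : V => (![0, 0, Real.cos (P.K (m + 1) * x 1) *
      Real.sin (P.K m * x 0)] : V)) := by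
    refine ⟨continuous_pi fun i => ?_, fun i x => ?_⟩
    · fin_cases i
      · exact continuous_const
      · exact continuous_const
      · exact (Real.continuous_cos.comp (continuous_const.mul (continuous_apply 1))).mul
          (Real.continuous_sin.comp (continuous_const.mul (continuous_apply 0)))
    · rcases shift_cases i x with ⟨-, h0, h1⟩ | ⟨-, h0, h1⟩ | ⟨-, h0, h1⟩ <;>
        simp only [h0, h1, cos_nat_per, sin_nat_per]
  have hz3 : CP (fun x : V => (![0, 0, Real.cos (P.K m * x 0)] : V)) := by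
    refine ⟨continuous_pi fun i => ?_, fun i x => ?_⟩
    · fin_cases i
      · exact continuous_const
      · exact continuous_const
      · exact Real.continuous_cos.comp (continuous_const.mul (continuous_apply 0))
    · rcases shift_cases i x with ⟨-, h0, h1⟩ | ⟨-, h0, h1⟩ | ⟨-, h0, h1⟩ <;>
        simp only [h0, cos_nat_per]
  constructor
  · intro v hv
    have h1 := e2_sf (cm_spf hlam hX' hXp' (hf v hv)) (cm_pd2 hlam hX' hXp' (hf v hv) (hf0 v hv))
    have h2 := comb_sf (comb_sf h1 hG 1 (lf P m v)) hpv 1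
      (P.c m * ls P m v + P.ε m * lc P m v)
    have h3 : (fun x i => 1 * (1 * (if i = 2 then
        cm P.ν P.α (X P m) (mg (pim P m) (fun y => v y 2)) x else 0) + lf P m v *
        (1 * MG (lam P.ν P.α) (Fm P m) x i + (-mu P (m + 1) 0) * Fm P m x i)) +
        (P.c m * ls P m v + P.ε m * lc P m v) * pv P m x i) = PP P m v := by
      ext x i
      unfold PP
      ring
    rwa [h3] at h2
  · intro v w hv hw a b
    have e1 : lf P m (fun x i => a * v x i + b * w x i) = a * lf P m v + b * lf P m w := by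
      unfold lf
      rw [inner_comb' hv.cp hw.cp hz1]
      ring
    have e2 : ls P m (fun x i => a * v x i + b * w x i) = a * ls P m v + b * ls P m w := by
      unfold ls
      rw [inner_comb' hv.cp hw.cp hz2]
      ring
    have e3 : lc P m (fun x i => a * v x i + b * w x i) = a * lc P m v + b * lc P m w := by
      unfold lc
      rw [inner_comb' hv.cp hw.cp hz3]
      ring
    have e4 : mg (pim P m) (fun y => a * v y 2 + b * w y 2) = fun y =>
        a * mg (pim P m) (fun y => v y 2) y + b * mg (pim P m) (fun y => w y 2) y := by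
      ext x
      exact mg_comb (hpim m) (hv.comp 2) (hw.comp 2) a b x
    ext x i
    unfold PP
    rw [e1, e2, e3]
    simp only
    rw [e4, cm_comb hlam hX' hXp' (hf v hv) (hf w hw)]
    split_ifs <;> ring

end Pool.Agent.H306.HD.TLOP1
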