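import Pool.Agent.H306.HD.Stm4
import Pool.Agent.H306.HD.TCOMM
import Pool.Agent.H306.HD.TFUN

/-! The operator piece kills constants and has zero mean output (`S_LOP2`), by helper870. -/

set_option autoImplicit false

noncomputable section

namespace Pool.Agent.H306.HD.TLOP2

open Set MeasureTheory

open scoped Real ContDiff ENNReal

open Pool.Agent.H306.CK Pool.Agent.H306.DS Pool.Agent.H306.HD

theorem tg_zero (k : Fin 3 → ℤ) (x : V) : tg 0 k x = 0 := by
  unfold tg
  simp

theorem mg_zero_of {m : (Fin 3 → ℤ) → ℝ} {f : V → ℝ} (h : ∀ k, (m k : ℂ) * fc f k = 0) :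
    mg m f = fun _ => 0 := by
  ext x
  unfold mg
  have h1 : ∀ k, tg (((((2 * π) ^ 3)⁻¹ * m k : ℝ) : ℂ) * fc f k) k x = 0 := by
    intro k
    have h2 : ((((2 * π) ^ 3)⁻¹ * m k : ℝ) : ℂ) * fc f k = 0 := by
      rw [Complex.ofReal_mul, mul_assoc, h k, mul_zero]
    rw [h2, tg_zero]
  simp only [h1, tsum_zero]

theorem fc_const {c : ℝ} {k : Fin 3 → ℤ} (hk : k ≠ 0) : fc (fun _ => c) k = 0 := by
  have h1 : (fun _ : V => c) = tg (c : ℂ) 0 := by
    ext x
    unfold tg kx
    simp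
  rw [h1, fc_tg, if_neg hk, if_neg (by simpa using hk)]
  simp

theorem fc_zero (k : Fin 3 → ℤ) : fc (fun _ => (0 : ℝ)) k = 0 := by
  unfold fc
  simp

theorem pim_zero_of {P : Prm} (hP : P.Ok) (m : ℕ) {k : Fin 3 → ℤ} (hk : k 0 = 0) :
    pim P m k = 0 := by
  unfold pim
  rw [if_neg]
  rintro ⟨h1, -⟩
  rw [hk, abs_zero] at h1
  have := hP.K_one m
  omega

theorem cm_zero (ν α : ℝ) (h : ℝ → ℝ) (x : V) : cm ν α h (fun _ => 0) x = 0 := by
  unfold cm
  have h2 : ∀ m : (Fin 3 → ℤ) → ℝ, mg m (fun _ => (0 : ℝ)) = fun _ => 0 := fun m =>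
    mg_zero_of (fun k => by rw [fc_zero, mul_zero])
  simp only [mul_zero]
  rw [h2]
  simp

theorem int_cos_K {K : ℕ} (hK : 1 ≤ K) : ∫ s in (-π)..π, Real.cos (K * s) = 0 := by
  have h := TFUN.int_cos_int (n := (K : ℤ)) (by omega)
  simpa using h

theorem int_sin_K (K : ℕ) : ∫ s in (-π)..π, Real.sin (K * s) = 0 := by
  have h := TFUN.int_sin_int (K : ℤ)
  simpa using h

section

variable {P : Prm}

theorem lf_const (hS : S_PROF) (hP : P.Ok) (m : ℕ) (c : V) : lf P m (fun _ => c) = 0 := by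
  unfold lf inner3
  have e : ∀ x : V, (∑ i, (![X P m (x 1) * Real.cos (P.K (m + 1) * x 1), 0, 0] : V) i * c i) =
      (fun _ => c 0) (x 0) * (fun y => X P m y * Real.cos (P.K (m + 1) * y)) (x 1) := by
    intro x
    simp [Fin.sum_univ_three]
    ring
  simp only [e]
  rw [torus_int_prod (fun _ => c 0) (fun y => X P m y * Real.cos (P.K (m + 1) * y))]
  have h := TFUN.int_X_cos hS hP m 1
  rw [if_neg one_ne_zero] at h
  have e2 : ∫ y in (-π)..π, X P m y * Real.cos (P.K (m + 1) * y) = 0 := by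
    rw [← h]
    refine intervalIntegral.integral_congr fun y _ => ?_
    simp
  rw [e2]
  ring

theorem ls_const (m : ℕ) (c : V) : ls P m (fun _ => c) = 0 := by
  unfold ls inner3
  have e : ∀ x : V, (∑ i, (![0, 0, Real.cos (P.K (m + 1) * x 1) *
      Real.sin (P.K m * x 0)] : V) i * c i) =
      (fun s => Real.sin (P.K m * s)) (x 0) * (fun y => c 2 * Real.cos (P.K (m + 1) * y)) (x 1) := by
    intro x
    simp [Fin.sum_univ_three]
    ring
  simp only [e]
  rw [torus_int_prod (fun s => Real.sin (P.K m * s)) (fun y => c 2 * Real.cos (P.K (m + 1) * y)),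
    int_sin_K]
  ring

theorem lc_const (hP : P.Ok) (m : ℕ) (c : V) : lc P m (fun _ => c) = 0 := by
  unfold lc inner3
  have e : ∀ x : V, (∑ i, (![0, 0, Real.cos (P.K m * x 0)] : V) i * c i) =
      (fun s => Real.cos (P.K m * s)) (x 0) * (fun _ => c 2) (x 1) := by
    intro x
    simp [Fin.sum_univ_three]
  simp only [e]
  rw [torus_int_prod (fun s => Real.cos (P.K m * s)) (fun _ => c 2), int_cos_K (hP.K_one m)]
  ring

theorem mg_pim_const (hP : P.Ok) (m : ℕ) (c : ℝ) : mg (pim P m) (fun _ => c) = fun _ => 0 := by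
  refine mg_zero_of fun k => ?_
  by_cases hk : k = 0
  · rw [pim_zero_of hP m (by rw [hk]; rfl)]
    simp
  · rw [fc_const hk, mul_zero]

theorem PP_const (hS : S_PROF) (hP : P.Ok) (m : ℕ) (c : V) (x : V) (i : Fin 3) :
    PP P m (fun _ => c) x i = 0 := by
  unfold PP
  rw [lf_const hS hP, ls_const, lc_const hP, mg_pim_const hP, cm_zero]
  simp

/-! ### zero mean -/

theorem int_chi_cos (m : ℕ) {K : ℕ} (hK : Odd K) :
    ∫ y in (-π)..π, hχ m y * Real.cos (K * y) = 0 := by
  obtain ⟨F, hF⟩ : ∃ F : ℝ → ℝ, F = fun y => hχ m y * Real.cos (K * y) := ⟨_, rfl⟩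
  have hper : Function.Periodic F (2 * π) := by
    intro y
    rw [hF]
    show hχ m (y + 2 * π) * Real.cos (K * (y + 2 * π)) = _
    rw [hχ_per, cos_nat_per]
  have hrefl : ∀ y, F (π - y) = -F y := by
    intro y
    rw [hF]
    show hχ m (π - y) * Real.cos (K * (π - y)) = -(hχ m y * Real.cos (K * y))
    have h1 : hχ m (π - y) = hχ m y := by
      unfold hχ
      rw [Real.sin_pi_sub]
    obtain ⟨r, hr⟩ := hK
    have h2 : Real.cos (K * (π - y)) = -Real.cos (K * y) := by
      have e1 : (K : ℝ) * (π - y) = (π - K * y) + (r : ℕ) * (2 * π) := by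
        rw [hr]
        push_cast
        ring
      rw [e1, Real.cos_add_nat_mul_two_pi, Real.cos_pi_sub]
    rw [h1, h2]
    ring
  have h3 : ∫ y in (-π)..π, F y = ∫ y in (-π)..π, F (π - y) := by
    have h4 := intervalIntegral.integral_comp_sub_left (a := -π) (b := π) F π
    rw [h4]
    have h5 := hper.intervalIntegral_add_eq (-π) (π - π)
    have e1 : -π + 2 * π = π := by ring
    have e2 : π - π + 2 * π = π - -π := by ring
    rw [e1, e2] at h5
    exact h5
  have h4 : ∫ y in (-π)..π, F (π - y) = -∫ y in (-π)..π, F y := by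
    rw [← intervalIntegral.integral_neg]
    exact intervalIntegral.integral_congr fun y _ => hrefl y
  have h5 : ∫ y in (-π)..π, F y = 0 := by linarith
  rw [hF] at h5
  exact h5

theorem c1_zero {h : ℝ → ℝ} (hh : ∫ y in (-π)..π, h y = 0) : c1 h 0 = 0 := by
  unfold c1
  have e : ∀ y : ℝ, (h y : ℂ) * Complex.exp (-(Complex.I * (((0 : ℤ) : ℂ) * y))) =
      ((h y : ℝ) : ℂ) := by
    intro y
    simp
  simp only [e]
  rw [intervalIntegral.integral_ofReal, hh, Complex.ofReal_zero]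

theorem fc_Fm (hF : S_FCP) (m : ℕ) (hK : Odd (P.K (m + 1))) (i : Fin 3) :
    fc (fun x => Fm P m x i) 0 = 0 := by
  have hc : Continuous fun y : ℝ => hχ m y * Real.cos (P.K (m + 1) * y) :=
    (hχ_contDiff m).continuous.mul (by fun_prop)
  fin_cases i
  · have h := hF (fun _ => 1) (fun y => hχ m y * Real.cos (P.K (m + 1) * y)) continuous_const hc 0
    have e : (fun x : V => Fm P m x 0) =
        fun x : V => (fun _ : ℝ => (1 : ℝ)) (x 0) *
          (fun y => hχ m y * Real.cos (P.K (m + 1) * y)) (x 1) := by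
      ext x
      simp [Fm]
    show fc (fun x => Fm P m x 0) 0 = 0
    rw [e, h]
    have h0 : c1 (fun y => hχ m y * Real.cos (P.K (m + 1) * y)) ((0 : Fin 3 → ℤ) 1) = 0 :=
      c1_zero (int_chi_cos m hK)
    rw [h0]
    simp
  · show fc (fun x => Fm P m x 1) 0 = 0
    have e : (fun x : V => Fm P m x 1) = fun _ => 0 := by
      ext x
      simp [Fm]
    rw [e, fc_zero]
  · show fc (fun x => Fm P m x 2) 0 = 0
    have e : (fun x : V => Fm P m x 2) = fun _ => 0 := by
      ext x
      simp [Fm]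
    rw [e, fc_zero]

theorem fc_Em (hS : S_PROF) (hF : S_FCP) (hP : P.Ok) (m : ℕ) (i : Fin 3) :
    fc (fun x => Em P m 0 x i) 0 = 0 := by
  have hX := TFUN.X_cont hS hP m
  fin_cases i
  · show fc (fun x => Em P m 0 x 0) 0 = 0
    have e : (fun x : V => Em P m 0 x 0) = fun _ => 0 := by
      ext x
      simp [Em]
    rw [e, fc_zero]
  · show fc (fun x => Em P m 0 x 1) 0 = 0
    have e : (fun x : V => Em P m 0 x 1) = fun _ => 0 := by
      ext x
      simp [Em]
    rw [e, fc_zero]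
  · have h := hF (fun s => Real.cos (P.K m * s)) (X P m) (by fun_prop) hX 0
    have e : (fun x : V => Em P m 0 x 2) =
        fun x : V => (fun s => Real.cos (P.K m * s)) (x 0) * X P m (x 1) := by
      ext x
      simp [Em, cmode, trg]
      ring
    show fc (fun x => Em P m 0 x 2) 0 = 0
    rw [e, h]
    have h0 : c1 (fun s => Real.cos (P.K m * s)) ((0 : Fin 3 → ℤ) 0) = 0 :=
      c1_zero (int_cos_K (hP.K_one m))
    rw [h0]
    simp

theorem c1_summable (hS : S_PROF) (hP : P.Ok) (m : ℕ) : Summable fun l : ℤ => ‖c1 (X P m) l‖ := by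
  obtain ⟨D, n, hD, h⟩ := hS.2 0
  refine Summable.of_nonneg_of_le (fun l => norm_nonneg _) (fun l => ?_)
    (w_summable.mul_left (D * 2 ^ (n * m)))
  have h1 := h m (P.K (m + 1)) (hP.K_one _) l
  rw [zero_div, Real.rpow_zero, one_mul] at h1
  exact h1

theorem fc_cm0 (hS : S_PROF) (hP : P.Ok) (m : ℕ) (hM : Mb (pim P m)) {f : V → ℝ} (hf : SPf f) :
    fc (cm P.ν P.α (X P m) (mg (pim P m) f)) 0 = 0 := by
  obtain ⟨xs, xp, -⟩ := hS.1 m (P.K (m + 1)) (hP.K_one _) (hP.K_big m)
  have h := TCOMM.fc_cm hP.ν_pos.le hP.α_pos (h := X P m) xs xp (c1_summable hS hP m)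
    (mg_spf hM hf) 0
  have h0 : ∀ n : ℤ, (1 / (2 * π) : ℂ) * c1 (X P m) n *
      (((lam P.ν P.α 0 - lam P.ν P.α (0 - ![0, n, 0]) : ℝ) : ℂ) *
        fc (mg (pim P m) f) (0 - ![0, n, 0])) = 0 := by
    intro n
    rw [fc_mg hM hf, pim_zero_of hP m (by simp)]
    simp
  simp only [h0] at h
  exact h.unique hasSum_zero

theorem cm_cont (hS : S_PROF) (hP : P.Ok) (m : ℕ) (hlam : Mb (lam P.ν P.α)) {f : V → ℝ}
    (hf : SPf f) : Continuous (cm P.ν P.α (X P m) f) := by
  obtain ⟨xs, xp, -⟩ := hS.1 m (P.K (m + 1)) (hP.K_one _) (hP.K_big m)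
  have h1 := (mg_spf hlam (TCOMM.prod_spf (h := X P m) xs xp hf)).cont
  have h2 := (TCOMM.prod_spf (h := X P m) xs xp (mg_spf hlam hf)).cont
  exact h1.sub h2

theorem lam_zero (hP : P.Ok) : lam P.ν P.α 0 = 0 := by
  unfold lam
  have h : ∑ j : Fin 3, (((0 : Fin 3 → ℤ) j : ℤ) : ℝ) ^ 2 = 0 := by simp
  rw [h, Real.zero_rpow hP.α_pos.ne', mul_zero]

end

/-- **LOP2** -/
theorem lop2 : S_LOP2 := by
  intro hS hF hMo hL P hP m
  obtain ⟨hFm, hEm, hlam, hpim, -, -⟩ := hMo hS hF P hP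
  obtain ⟨-, hlin⟩ := hL hS hF hMo P hP m
  refine ⟨fun v hv c => ?_, fun hK v hv i => ?_⟩
  · have hc : SP (fun _ : V => c) := ⟨contDiff_const, fun i x => rfl⟩
    have h := hlin v (fun _ => c) hv hc 1 (-1)
    have e : (fun (x : V) (i : Fin 3) => v x i - c i) =
        fun x i => 1 * v x i + (-1) * (fun _ : V => c) x i := by
      ext x i
      ring
    have h2 : PP P m (fun (x : V) (i : Fin 3) => v x i - c i) =
        fun x i => 1 * PP P m v x i + (-1) * PP P m (fun _ : V => c) x i := by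
      rw [e]
      exact h
    rw [h2]
    ext x i
    rw [PP_const hS hP]
    ring
  · have cM : Continuous (fun x => MG (lam P.ν P.α) (Fm P m) x i) :=
      ((MG_sp hlam (hFm m).sp).comp i).cont
    have cF : Continuous (fun x => Fm P m x i) := ((hFm m).sp.comp i).cont
    have cE : Continuous (fun x => Em P (m + 1) 0 x i) := ((hEm (m + 1) 0).sp.comp i).cont
    have zF := fc_Fm hF m hK i
    have zE := fc_Em hS hF hP (m + 1) i
    have zM : fc (fun x => MG (lam P.ν P.α) (Fm P m) x i) 0 = 0 := by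
      rw [fc_MG hlam (hFm m).sp, zF, mul_zero]
    obtain ⟨A, hA⟩ : ∃ A : V → ℝ, A = fun x => if i = 2 then
      cm P.ν P.α (X P m) (mg (pim P m) (fun y => v y 2)) x else 0 := ⟨_, rfl⟩
    have hAc : Continuous A ∧ fc A 0 = 0 := by
      rw [hA]
      by_cases hi : i = 2
      · simp only [if_pos hi]
        exact ⟨cm_cont hS hP m hlam (mg_spf (hpim m) (hv.comp 2)),
          fc_cm0 hS hP m (hpim m) (hv.comp 2)⟩
      · simp only [if_neg hi]
        exact ⟨continuous_const, fc_zero 0⟩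
    have e : (fun x => PP P m v x i) = fun x => (A x +
        lf P m v * (MG (lam P.ν P.α) (Fm P m) x i + (-mu P (m + 1) 0) * Fm P m x i)) +
        (P.c m * ls P m v + P.ε m * lc P m v) * (Fm P m x i + Em P (m + 1) 0 x i) := by
      ext x
      rw [hA]
      unfold PP pv
      ring
    have cmF : Continuous (fun x => (-mu P (m + 1) 0) * Fm P m x i) := continuous_const.mul cF
    have cB1 : Continuous (fun x => MG (lam P.ν P.α) (Fm P m) x i +
        (-mu P (m + 1) 0) * Fm P m x i) := cM.add cmF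
    have cB : Continuous (fun x => lf P m v * (MG (lam P.ν P.α) (Fm P m) x i +
        (-mu P (m + 1) 0) * Fm P m x i)) := continuous_const.mul cB1
    have cC1 : Continuous (fun x => Fm P m x i + Em P (m + 1) 0 x i) := cF.add cE
    have cC : Continuous (fun x => (P.c m * ls P m v + P.ε m * lc P m v) *
        (Fm P m x i + Em P (m + 1) 0 x i)) := continuous_const.mul cC1
    have zB : fc (fun x => lf P m v * (MG (lam P.ν P.α) (Fm P m) x i +
        (-mu P (m + 1) 0) * Fm P m x i)) 0 = 0 := by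
      rw [fc_smul, fc_add cM cmF, fc_smul, zM, zF]
      simp
    have zC : fc (fun x => (P.c m * ls P m v + P.ε m * lc P m v) *
        (Fm P m x i + Em P (m + 1) 0 x i)) 0 = 0 := by
      rw [fc_smul, fc_add cF cE, zE, zF]
      simp
    have cAB : Continuous (fun x => A x +
        lf P m v * (MG (lam P.ν P.α) (Fm P m) x i + (-mu P (m + 1) 0) * Fm P m x i)) :=
      hAc.1.add cB
    rw [e, fc_add cAB cC, fc_add hAc.1 cB, zB, zC, hAc.2]
    simp

end Pool.Agent.H306.HD.TLOP2
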