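import Pool.Agent.H306.HD.Def

/-! The basic fields and multipliers. -/

noncomputable section

namespace Pool.Agent.H306.HD.TMODES

open Set MeasureTheory

open scoped Real ContDiff ENNReal ComplexConjugate

open Pool.Agent.H306.CK Pool.Agent.H306.DS Pool.Agent.H306.HD

variable (P : Prm)

/-- the two frequencies -/
def k1 (m j : ℕ) : Fin 3 → ℤ := ![(P.K m : ℤ), ((j * P.K (m + 1) : ℕ) : ℤ), 0]

@[inherit_doc k1] def k2 (m j : ℕ) : Fin 3 → ℤ := ![-(P.K m : ℤ), ((j * P.K (m + 1) : ℕ) : ℤ), 0]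

theorem kx_k1 (m j : ℕ) (x : V) : kx (k1 P m j) x = j * P.K (m + 1) * x 1 + P.K m * x 0 := by
  unfold kx k1
  rw [Fin.sum_univ_three]
  simp only [Matrix.cons_val_zero, Matrix.cons_val_one, Matrix.cons_val]
  push_cast
  ring

theorem kx_k2 (m j : ℕ) (x : V) : kx (k2 P m j) x = j * P.K (m + 1) * x 1 - P.K m * x 0 := by
  unfold kx k2
  rw [Fin.sum_univ_three]
  simp only [Matrix.cons_val_zero, Matrix.cons_val_one, Matrix.cons_val]
  push_cast
  ring

/-- the coefficients -/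
def cA (j : ℕ) : ℂ := if Even j then 1 / 2 else -(Complex.I / 2)

@[inherit_doc cA] def cB (j : ℕ) : ℂ := if Even j then 1 / 2 else Complex.I / 2

theorem cmode_eq (m j : ℕ) : cmode P m j =
    fun x => tg (cA j) (k1 P m j) x + tg (cB j) (k2 P m j) x := by
  ext x
  unfold tg cmode trg cA cB
  rw [kx_k1, kx_k2]
  by_cases hj : Even j
  · rw [if_pos hj, if_pos hj, if_pos hj]
    have h1 : (1 / 2 : ℂ).re = 1 / 2 := by norm_num
    have h2 : (1 / 2 : ℂ).im = 0 := by norm_num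
    rw [h1, h2, Real.cos_add, Real.cos_sub]
    ring
  · rw [if_neg hj, if_neg hj, if_neg hj]
    have h1 : (-(Complex.I / 2) : ℂ).re = 0 := by simp
    have h2 : (-(Complex.I / 2) : ℂ).im = -(1 / 2) := by simp
    have h3 : (Complex.I / 2 : ℂ).re = 0 := by simp
    have h4 : (Complex.I / 2 : ℂ).im = 1 / 2 := by simp
    rw [h1, h2, h3, h4, Real.sin_add, Real.sin_sub]
    ring

theorem cmode_spf (m j : ℕ) : SPf (cmode P m j) := by
  rw [cmode_eq]
  refine ⟨(tg_contDiff _ _).add (tg_contDiff _ _), fun i x => ?_⟩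
  simp only
  rw [tg_per _ _ i x, tg_per _ _ i x]

theorem lam_k1 (m j : ℕ) : lam P.ν P.α (k1 P m j) = mu P m j := by
  unfold lam mu k1
  rw [Fin.sum_univ_three]
  simp only [Matrix.cons_val_zero, Matrix.cons_val_one, Matrix.cons_val]
  push_cast
  congr 2
  ring

theorem lam_k2 (m j : ℕ) : lam P.ν P.α (k2 P m j) = mu P m j := by
  unfold lam mu k2
  rw [Fin.sum_univ_three]
  simp only [Matrix.cons_val_zero, Matrix.cons_val_one, Matrix.cons_val]
  push_cast
  congr 2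
  ring

theorem lam_neg (ν α : ℝ) (k : Fin 3 → ℤ) : lam ν α (-k) = lam ν α k := by
  unfold lam
  congr 2
  refine Finset.sum_congr rfl fun i _ => ?_
  rw [Pi.neg_apply]
  push_cast
  ring

theorem lam_mb {ν α : ℝ} (hν : 0 < ν) (hα : 0 < α) : Mb (lam ν α) := by
  refine ⟨lam_neg ν α, ν, α, hν.le, fun k => ?_⟩
  have h0 : 0 ≤ ∑ j, (k j : ℝ) ^ 2 := by positivity
  have h1 : 0 ≤ (∑ j, (k j : ℝ) ^ 2) ^ α := Real.rpow_nonneg h0 α
  unfold lam W
  rw [abs_of_nonneg (mul_nonneg hν.le h1)]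
  apply mul_le_mul_of_nonneg_left _ hν.le
  exact Real.rpow_le_rpow h0 (by linarith) hα.le

theorem pim_mb (m : ℕ) : Mb (pim P m) := by
  classical
  refine ⟨fun k => ?_, |2 * π / Lm P m|, 0, abs_nonneg _, fun k => ?_⟩
  · unfold pim
    have h : (|(-k) 0| = (P.K m : ℤ) ∧ (-k) 2 = 0 ∧ ((P.K (m + 1) : ℕ) : ℤ) ∣ (-k) 1) ↔
        (|k 0| = (P.K m : ℤ) ∧ k 2 = 0 ∧ ((P.K (m + 1) : ℕ) : ℤ) ∣ k 1) := by
      rw [Pi.neg_apply, Pi.neg_apply, Pi.neg_apply, abs_neg, neg_eq_zero, dvd_neg]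
    by_cases hk : |k 0| = (P.K m : ℤ) ∧ k 2 = 0 ∧ ((P.K (m + 1) : ℕ) : ℤ) ∣ k 1
    · rw [if_pos hk, if_pos (h.2 hk)]
    · rw [if_neg hk, if_neg fun h' => hk (h.1 h')]
  · rw [W_zero, mul_one]
    unfold pim
    split_ifs
    · exact le_rfl
    · rw [abs_zero]
      exact abs_nonneg _

theorem fc_cmode {m j : ℕ} {k : Fin 3 → ℤ} (h1 : k ≠ k1 P m j) (h1' : k ≠ -k1 P m j)
    (h2 : k ≠ k2 P m j) (h2' : k ≠ -k2 P m j) : fc (cmode P m j) k = 0 := by
  rw [cmode_eq, DS.fc_add (tg_contDiff _ _).continuous (tg_contDiff _ _).continuous, fc_tg, fc_tg,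
    if_neg h1, if_neg h1', if_neg h2, if_neg h2']
  ring

theorem mode_eig (hP : P.Ok) (m j : ℕ) :
    mg (lam P.ν P.α) (cmode P m j) = fun x => mu P m j * cmode P m j x := by
  have hl := lam_mb hP.ν_pos hP.α_pos
  have hc := cmode_spf P m j
  have hs := mg_spf hl hc
  refine fc_inj hs.1.continuous (continuous_const.mul hc.1.continuous) hs.2
    (fun i x => by rw [hc.2 i x]) fun k => ?_
  rw [fc_mg hl hc, DS.fc_smul]
  by_cases h1 : k = k1 P m j
  · rw [h1, lam_k1]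
  by_cases h1' : k = -k1 P m j
  · rw [h1', lam_neg, lam_k1]
  by_cases h2 : k = k2 P m j
  · rw [h2, lam_k2]
  by_cases h2' : k = -k2 P m j
  · rw [h2', lam_neg, lam_k2]
  rw [fc_cmode P h1 h1' h2 h2', mul_zero, mul_zero]

theorem Fm_sf (m : ℕ) : SF (Fm P m) := by
  have hs : ContDiff ℝ ∞ (Fm P m) := by
    refine contDiff_pi.2 fun i => ?_
    fin_cases i
    · change ContDiff ℝ ∞ fun x : V => hχ m (x 1) * Real.cos (P.K (m + 1) * x 1)
      exact ((hχ_contDiff m).comp (contDiff_apply ℝ ℝ (1 : Fin 3))).mul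
        (Real.contDiff_cos.comp (contDiff_const.mul (contDiff_apply ℝ ℝ (1 : Fin 3))))
    · exact contDiff_const
    · exact contDiff_const
  refine ⟨hs, fun i x => ?_, fun x => ?_⟩
  · ext j
    rcases shift_cases i x with ⟨-, h0, h1⟩ | ⟨-, h0, h1⟩ | ⟨-, h0, h1⟩ <;>
      · simp only [Fm, h1, hχ_per, cos_nat_per]
  · have hd : ∀ i, DifferentiableAt ℝ (fun y => Fm P m y i) x := fun i =>
      (contDiff_pi.1 hs i).differentiable (by simp) x
    rw [Fin.sum_univ_three, pd_zero_of_line (hd 0), pd_zero_of_line (hd 1), pd_zero_of_line (hd 2)]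
    · ring
    · intro s; simp [Fm]
    · intro s; simp [Fm]
    · intro s; simp [Fm]

theorem Em_sf (hprof : S_PROF) (hP : P.Ok) (m j : ℕ) : SF (Em P m j) := by
  obtain ⟨hX, hXp, _⟩ := hprof.1 m (P.K (m + 1)) (hP.K_one _) (hP.K_big m)
  have hc := cmode_spf P m j
  have hs : ContDiff ℝ ∞ (Em P m j) := by
    refine contDiff_pi.2 fun i => ?_
    fin_cases i
    · exact contDiff_const
    · exact contDiff_const
    · change ContDiff ℝ ∞ fun x : V => ch m (P.K (m + 1)) (x 1) * cmode P m j x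
      exact (hX.comp (contDiff_apply ℝ ℝ (1 : Fin 3))).mul hc.1
  have hXp' : ∀ y, X P m (y + 2 * π) = X P m y := hXp
  refine ⟨hs, fun i x => ?_, fun x => ?_⟩
  · ext l
    have h2 := hc.2 i x
    rcases shift_cases i x with ⟨-, h0, h1⟩ | ⟨-, h0, h1⟩ | ⟨-, h0, h1⟩ <;>
      · simp only [Em, h1, h2, hXp']
  · have hd : ∀ i, DifferentiableAt ℝ (fun y => Em P m j y i) x := fun i =>
      (contDiff_pi.1 hs i).differentiable (by simp) x
    rw [Fin.sum_univ_three, pd_zero_of_line (hd 0), pd_zero_of_line (hd 1), pd_zero_of_line (hd 2)]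
    · ring
    · intro s; simp [Em, cmode]
    · intro s; simp [Em]
    · intro s; simp [Em]

theorem modes : S_MODES := by
  intro hprof _ P hP
  exact ⟨fun m => Fm_sf P m, fun m j => Em_sf P hprof hP m j, lam_mb hP.ν_pos hP.α_pos,
    fun m => pim_mb P m, fun m j => cmode_spf P m j, fun m j x => congrFun (mode_eig P hP m j) x⟩

end Pool.Agent.H306.HD.TMODES
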