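import Pool.Agent.H306.HD.Stm4

/-! The nonlinear term (S_NL). -/

noncomputable section

namespace Pool.Agent.H306.HD.TNL

open Set MeasureTheory

open scoped Real ContDiff ENNReal

open Pool.Agent.H306.CK Pool.Agent.H306.DS Pool.Agent.H306.HD

/-- Rearrangement of the sums. -/
theorem rearr (h C : ℕ → ℝ) (h0 : C 0 = 1) (hmul : ∀ j, C (j + 1) * C 1 = (C (j + 2) + C j) / 2)
    (hA : Summable fun j => h j * C (j + 1) / 2) (hB : Summable fun j => h (j + 1) * C j / 2) :
    (Summable fun j => h j * C j * C 1) ∧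
    (∑' j, h j * C j * C 1 = h 1 / 2 * C 0 + (h 0 + h 2 / 2) * C 1 +
      ∑' i, (h (i + 1) + h (i + 3)) / 2 * C (i + 2)) := by
  have hA1 : Summable fun j => h (j + 1) * C (j + 2) / 2 := (summable_nat_add_iff 1).2 hA
  have hB1 : Summable fun j => h (j + 2) * C (j + 1) / 2 := (summable_nat_add_iff 1).2 hB
  have hB2 : Summable fun j => h (j + 3) * C (j + 2) / 2 := (summable_nat_add_iff 2).2 hB
  have e1 : (fun j => h (j + 1) * C (j + 1) * C 1) =
      fun j => h (j + 1) * C (j + 2) / 2 + h (j + 1) * C j / 2 := by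
    funext j
    rw [mul_assoc, hmul]
    ring
  have hs : Summable fun j => h j * C j * C 1 := by
    rw [← summable_nat_add_iff 1, e1]
    exact hA1.add hB
  refine ⟨hs, ?_⟩
  rw [hs.tsum_eq_zero_add, e1, hA1.tsum_add hB, hB.tsum_eq_zero_add, hB1.tsum_eq_zero_add]
  have e2 : (fun i => (h (i + 1) + h (i + 3)) / 2 * C (i + 2)) =
      fun i => h (i + 1) * C (i + 2) / 2 + h (i + 3) * C (i + 2) / 2 := by
    funext i
    ring
  rw [e2, hA1.tsum_add hB2, h0]
  simp only [zero_add]
  ring

theorem trg_le (j : ℕ) (a : ℝ) : |trg j a| ≤ 1 := by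
  unfold trg
  split_ifs
  · exact Real.abs_cos_le_one a
  · exact Real.abs_sin_le_one a

theorem trg_two (j : ℕ) (a : ℝ) : trg (j + 2) a = trg j a := by
  unfold trg
  have : Even (j + 2) ↔ Even j := by
    rw [Nat.even_add]
    simp
  simp only [this]

theorem trg_deriv (j : ℕ) (k a : ℝ) :
    HasDerivAt (fun t : ℝ => trg j (k * (a + t))) ((-1) ^ (j + 1) * k * trg (j + 1) (k * a)) 0 := by
  have h1 : HasDerivAt (fun t : ℝ => k * (a + t)) k 0 := by
    simpa using ((hasDerivAt_id (0 : ℝ)).const_add a).const_mul k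
  unfold trg
  by_cases hj : Even j
  · have hj1 : ¬ Even (j + 1) := by
      rw [Nat.even_add_one]
      exact not_not.2 hj
    simp only [hj, hj1, if_true, if_false]
    have h2 := h1.cos
    rw [add_zero] at h2
    rw [(Even.add_one hj).neg_one_pow]
    convert h2 using 1
    ring
  · have hj1 : Even (j + 1) := Nat.even_add_one.2 hj
    simp only [hj, hj1, if_true, if_false]
    have h2 := h1.sin
    rw [add_zero] at h2
    rw [hj1.neg_one_pow]
    convert h2 using 1
    ring

theorem trg_contDiff (j : ℕ) : ContDiff ℝ ∞ (trg j) := by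
  unfold trg
  by_cases hj : Even j
  · simp only [hj, if_true]
    exact Real.contDiff_cos
  · simp only [hj, if_false]
    exact Real.contDiff_sin

theorem pd_E (hP : S_PROF) (P : Prm) (hok : P.Ok) (m j : ℕ) (x : V) :
    pd 0 (fun z => Em P m j z 2) x = X P m (x 1) * (Real.cos (j * P.K (m + 1) * x 1) *
      ((-1) ^ (j + 1) * P.K m * trg (j + 1) (P.K m * x 0))) := by
  have hX : ContDiff ℝ ∞ (X P m) := (hP.1 m (P.K (m + 1)) (hok.K_one _) (hok.K_big m)).1
  have hE : (fun z : V => Em P m j z 2) = fun z : V => X P m (z 1) *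
      (Real.cos (j * P.K (m + 1) * z 1) * trg j (P.K m * z 0)) := by
    funext z
    simp [Em, cmode]
  have hd : ContDiff ℝ ∞ (fun z : V => X P m (z 1) *
      (Real.cos (j * P.K (m + 1) * z 1) * trg j (P.K m * z 0))) := by
    refine (hX.comp (contDiff_apply ℝ ℝ 1)).mul (ContDiff.mul ?_ ?_)
    · exact Real.contDiff_cos.comp (contDiff_const.mul (contDiff_apply ℝ ℝ 1))
    · exact (trg_contDiff j).comp (contDiff_const.mul (contDiff_apply ℝ ℝ 0))
  have hda : DifferentiableAt ℝ (fun z : V => X P m (z 1) *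
      (Real.cos (j * P.K (m + 1) * z 1) * trg j (P.K m * z 0))) x :=
    (hd.differentiable (by simp)) x
  rw [hE]
  unfold pd
  rw [← hda.lineDeriv_eq_fderiv]
  unfold lineDeriv
  have h1 := ((trg_deriv j (P.K m) (x 0)).const_mul
    (Real.cos (j * P.K (m + 1) * x 1))).const_mul (X P m (x 1))
  rw [← h1.deriv]
  congr 1
  funext t
  simp

theorem nl_sum : S_NL := by
  intro hP P hok b g x hg
  have hX1 : ∀ m, X P m (x 1) ≠ 0 → hχ m (x 1) = 1 := fun m =>
    (hP.1 m (P.K (m + 1)) (hok.K_one _) (hok.K_big m)).2.2.2.1 (x 1)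
  have hE2 : ∀ m j, Em P m j x 2 = X P m (x 1) * (Real.cos (j * P.K (m + 1) * x 1) *
      trg j (P.K m * x 0)) := by
    intro m j
    simp [Em, cmode]
  simp only [pd_E hP P hok, hE2]
  by_cases hz : ∀ m, X P m (x 1) = 0
  · simp [hz]
  · push Not at hz
    obtain ⟨m₀, hm₀⟩ := hz
    have hχ1 := hX1 m₀ hm₀
    have hχ0 : ∀ m, m ≠ m₀ → hχ m (x 1) = 0 := fun m hm =>
      hχ_disj hm.symm (by rw [hχ1]; exact one_ne_zero)
    have hX0 : ∀ m, m ≠ m₀ → X P m (x 1) = 0 := by
      intro m hm
      by_contra hcon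
      have := hX1 m hcon
      rw [hχ0 m hm] at this
      exact zero_ne_one this
    -- the first factor
    have hF : ∑' m, b m * Fm P m x 0 = b m₀ * Real.cos (P.K (m₀ + 1) * x 1) := by
      rw [tsum_eq_single m₀]
      · simp [Fm, hχ1]
      · intro m hm
        simp [Fm, hχ0 m hm]
    -- reduction to one band
    have hred : ∀ f : ℕ × ℕ → ℝ, (∀ r : ℕ × ℕ, r.1 ≠ m₀ → f r = 0) →
        ∑' r, f r = ∑' j, f (m₀, j) := by
      intro f hf
      have hinj : Function.Injective (fun j : ℕ => ((m₀, j) : ℕ × ℕ)) := fun a b h => by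
        simpa using h
      rw [← hinj.tsum_eq]
      intro r hr
      by_contra hcon
      apply hr
      apply hf
      intro h
      exact hcon ⟨r.2, by ext <;> simp [h]⟩
    rw [hF, hred _ fun r hr => by rw [hX0 r.1 hr]; ring,
      hred _ fun r hr => by rw [hX0 r.1 hr]; ring]
    set l : ℝ := ((P.K (m₀ + 1) : ℕ) : ℝ) with hl
    set y : ℝ := x 1 with hy
    set C : ℕ → ℝ := fun j => Real.cos (j * l * y) with hC
    set T : ℕ → ℝ := fun j => trg j (P.K m₀ * x 0) with hT
    set h : ℕ → ℝ := fun j => g m₀ j * ((-1) ^ (j + 1) * T (j + 1)) with hh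
    have hCle : ∀ j, |C j| ≤ 1 := fun j => Real.abs_cos_le_one _
    have hhle : ∀ j, |h j| ≤ |g m₀ j| := by
      intro j
      rw [hh]
      simp only [abs_mul, abs_pow, abs_neg, abs_one, one_pow, one_mul]
      exact mul_le_of_le_one_right (abs_nonneg _) (trg_le _ _)
    have hsum : Summable fun j => |h j| := (hg m₀).of_nonneg_of_le (fun j => abs_nonneg _) hhle
    have hA : Summable fun j => h j * C (j + 1) / 2 := by
      refine Summable.of_norm_bounded hsum ?_
      intro j
      rw [Real.norm_eq_abs, abs_div, abs_mul, abs_two]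
      have h1 : |h j| * |C (j + 1)| ≤ |h j| := mul_le_of_le_one_right (abs_nonneg _) (hCle _)
      have h2 := abs_nonneg (h j)
      linarith
    have hB : Summable fun j => h (j + 1) * C j / 2 := by
      refine Summable.of_norm_bounded ((summable_nat_add_iff 1).2 hsum) ?_
      intro j
      rw [Real.norm_eq_abs, abs_div, abs_mul, abs_two]
      have h1 : |h (j + 1)| * |C j| ≤ |h (j + 1)| := mul_le_of_le_one_right (abs_nonneg _) (hCle _)
      have h2 := abs_nonneg (h (j + 1))
      linarith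
    have hC0 : C 0 = 1 := by simp [hC]
    have hC1 : Real.cos (l * y) = C 1 := by simp [hC]
    have hmul : ∀ j, C (j + 1) * C 1 = (C (j + 2) + C j) / 2 := by
      intro j
      simp only [hC]
      have e1 : ((j + 2 : ℕ) : ℝ) * l * y = ((j + 1 : ℕ) : ℝ) * l * y + ((1 : ℕ) : ℝ) * l * y := by
        push_cast
        ring
      have e2 : ((j : ℕ) : ℝ) * l * y = ((j + 1 : ℕ) : ℝ) * l * y - ((1 : ℕ) : ℝ) * l * y := by
        push_cast
        ring
      rw [e1, e2, Real.cos_add, Real.cos_sub]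
      ring
    obtain ⟨hs1, hs2⟩ := rearr h C hC0 hmul hA hB
    -- left side
    have eL : ∀ j, g m₀ j * (X P m₀ y * (Real.cos (j * l * y) *
        ((-1) ^ (j + 1) * P.K m₀ * trg (j + 1) (P.K m₀ * x 0)))) =
        (X P m₀ y * P.K m₀) * (h j * C j) := by
      intro j
      simp only [hh, hC, hT]
      ring
    change b m₀ * Real.cos (l * y) * (∑' j : ℕ, g m₀ j * (X P m₀ y * (Real.cos (j * l * y) *
        ((-1) ^ (j + 1) * P.K m₀ * trg (j + 1) (P.K m₀ * x 0))))) =
      ∑' i : ℕ, nl P b g m₀ i * (X P m₀ y * (Real.cos ((i : ℕ) * l * y) *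
        trg i (P.K m₀ * x 0)))
    rw [tsum_congr eL, tsum_mul_left, hC1]
    have eL2 : b m₀ * C 1 * (X P m₀ y * P.K m₀ * ∑' j, h j * C j) =
        b m₀ * X P m₀ y * P.K m₀ * ∑' j, h j * C j * C 1 := by
      rw [tsum_mul_right]
      ring
    rw [eL2, hs2]
    -- right side
    have hsR0 : Summable fun i => (h (i + 1) + h (i + 3)) / 2 * C (i + 2) := by
      have hA1 : Summable fun j => h (j + 1) * C (j + 2) / 2 := (summable_nat_add_iff 1).2 hA
      have hB2 : Summable fun j => h (j + 3) * C (j + 2) / 2 := (summable_nat_add_iff 2).2 hB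
      refine (hA1.add hB2).congr fun i => ?_
      ring
    have hTT : ∀ j, T (j + 2) = T j := fun j => trg_two j _
    have eR2 : ∀ i, nl P b g m₀ (i + 2) * (X P m₀ y * (Real.cos ((i + 2 : ℕ) * l * y) *
        trg (i + 2) (P.K m₀ * x 0))) =
        b m₀ * X P m₀ y * P.K m₀ * ((h (i + 1) + h (i + 3)) / 2 * C (i + 2)) := by
      intro i
      have e1 : h (i + 1) = g m₀ (i + 1) * ((-1) ^ i * T i) := by
        simp only [hh]
        rw [show i + 1 + 1 = i + 2 from rfl, hTT]
        ring
      have e2 : h (i + 3) = g m₀ (i + 3) * ((-1) ^ i * T i) := by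
        simp only [hh]
        rw [show i + 3 + 1 = i + 2 + 2 from rfl, hTT, hTT]
        ring
      rw [e1, e2]
      have e3 : trg (i + 2) (P.K m₀ * x 0) = T i := hTT i
      rw [e3]
      simp only [nl, hC]
      ring
    have eR0 : nl P b g m₀ 0 * (X P m₀ y * (Real.cos ((0 : ℕ) * l * y) *
        trg 0 (P.K m₀ * x 0))) = b m₀ * X P m₀ y * P.K m₀ * (h 1 / 2 * C 0) := by
      have e1 : h 1 = g m₀ 1 * T 0 := by
        simp only [hh]
        rw [show 1 + 1 = 0 + 2 from rfl, hTT]
        ring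
      rw [e1]
      simp only [nl, hC, hT]
      ring
    have eR1 : nl P b g m₀ 1 * (X P m₀ y * (Real.cos ((1 : ℕ) * l * y) *
        trg 1 (P.K m₀ * x 0))) = b m₀ * X P m₀ y * P.K m₀ * ((h 0 + h 2 / 2) * C 1) := by
      have e1 : h 0 = -(g m₀ 0 * T 1) := by
        simp only [hh]
        ring
      have e2 : h 2 = -(g m₀ 2 * T 1) := by
        simp only [hh]
        rw [show 2 + 1 = 1 + 2 from rfl, hTT]
        ring
      rw [e1, e2]
      simp only [nl, hC, hT]
      ring
    have hsR : Summable fun i => nl P b g m₀ i * (X P m₀ y * (Real.cos ((i : ℕ) * l * y) *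
        trg i (P.K m₀ * x 0))) := by
      rw [← summable_nat_add_iff 2]
      refine (hsR0.mul_left (b m₀ * X P m₀ y * P.K m₀)).congr fun i => ?_
      exact (eR2 i).symm
    have hsR' := (summable_nat_add_iff 1).2 hsR
    rw [hsR.tsum_eq_zero_add, hsR'.tsum_eq_zero_add]
    have e3 : ∀ i : ℕ, nl P b g m₀ (i + 1 + 1) * (X P m₀ y * (Real.cos ((i + 1 + 1 : ℕ) * l * y) *
        trg (i + 1 + 1) (P.K m₀ * x 0))) =
        b m₀ * X P m₀ y * P.K m₀ * ((h (i + 1) + h (i + 3)) / 2 * C (i + 2)) := eR2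
    rw [tsum_congr e3, tsum_mul_left, zero_add, eR0, eR1]
    ring

end Pool.Agent.H306.HD.TNL
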