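import Mathlib

/-! Statements about one stage of the chain (ordinary differential equations). -/

noncomputable section

namespace Pool.Agent.H306.HD

open Set

/-- Truncation to `[0, β]`. -/
def cl (β x : ℝ) : ℝ := max 0 (min x β)

/-- Global solutions on `[0, 1]` of `x' = F(t, x)` in a Banach space, when `F` is Lipschitz in `(t, x)` on
bounded sets and of linear growth.

Proof. Module `Pool.Agent.H306.CK.Ode` has `LocLip.maximal`: the maximal solution of an autonomous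
equation `x' = G x` in a Banach space with `LocLip G` starting from any point, on `(-ε, T)`, `T ≤ T₀`, and if `T < T₀`
it is unbounded. Apply it in `ℝ × E` to `G (τ, x) = (1, F (proj τ) x)`, with `proj τ = max 0 (min τ 1)`
(`LocLip` from the first hypothesis) and `T₀ = 2`. The first component is `t`. By the second
hypothesis and Gronwall (for `‖x‖`, e.g. `norm_le_gronwallBound_of_norm_deriv_right_le`) the solution is bounded, so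
`T = T₀ = 2`, and the second component is the solution (on `[0, 1]` `proj t = t`). -/
def S_ODE : Prop := ∀ (E : Type) [NormedAddCommGroup E] [NormedSpace ℝ E] [CompleteSpace E]
  (F : ℝ → E → E),
  (∀ R : ℝ, ∃ L : ℝ, ∀ s ∈ Icc (0 : ℝ) 1, ∀ t ∈ Icc (0 : ℝ) 1, ∀ x y : E, ‖x‖ ≤ R → ‖y‖ ≤ R →
    ‖F s x - F t y‖ ≤ L * (|s - t| + ‖x - y‖)) →
  (∃ C : ℝ, ∀ t ∈ Icc (0 : ℝ) 1, ∀ x : E, ‖F t x‖ ≤ C * (1 + ‖x‖)) →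
  ∀ x₀ : E, ∃ x : ℝ → E, x 0 = x₀ ∧
    ∀ t ∈ Icc (0 : ℝ) 1, HasDerivWithinAt x (F t (x t)) (Icc 0 1) t

/-- The equations of one band: the shear amplitude `b` and the harmonics `α i` (`α 0` is the
deviation from the driving amplitude `B`). -/
structure BandSol (k β l c ε : ℝ) (μ : ℕ → ℝ) (B b : ℝ → ℝ) (α : ℕ → ℝ → ℝ) : Prop where
  b0 : b 0 = 0
  α0 : ∀ i, α i 0 = 0
  db : ∀ t ∈ Icc (0 : ℝ) 1, HasDerivWithinAt b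
    (-l * b t + c * α 1 t + ε * (B t + α 0 t)) (Icc 0 1) t
  dα0 : ∀ t ∈ Icc (0 : ℝ) 1, HasDerivWithinAt (α 0)
    (-μ 0 * α 0 t - k * cl β (b t) / 2 * α 1 t) (Icc 0 1) t
  dα1 : ∀ t ∈ Icc (0 : ℝ) 1, HasDerivWithinAt (α 1)
    (-μ 1 * α 1 t + k * cl β (b t) * (B t + α 0 t + α 2 t / 2)) (Icc 0 1) t
  dα : ∀ i, 2 ≤ i → ∀ t ∈ Icc (0 : ℝ) 1, HasDerivWithinAt (α i)
    (-μ i * α i t + (-1) ^ (i + 1) * (k * cl β (b t) / 2) * (α (i - 1) t + α (i + 1) t))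
    (Icc 0 1) t
  fin : ∃ C : ℝ, ∀ i, ∀ t ∈ Icc (0 : ℝ) 1, 4 ^ i * |α i t| ≤ C

/-- Existence of the solution of one band.

Proof. Banach space `E = ℝ × (ℕ →ᵇ ℝ)` (`BoundedContinuousFunction ℕ ℝ`), unknown `(b, γ)` with
`α i t = exp (-μ i * t) * (1/4)^i * γ i t`. The equations become
`γ₀' = -(k cl β b / 2) * exp ((μ 0 - μ 1) t) * γ₁ / 4`,
`γ₁' = 4 k cl β b * (exp (μ 1 t) B + exp ((μ 1 - μ 0) t) γ₀ + exp ((μ 1 - μ 2) t) γ₂ / 32)`,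
`γᵢ' = ± (k cl β b / 2) * (4 exp ((μ i - μ (i-1)) t) γᵢ₋₁ + exp ((μ i - μ (i+1)) t) γᵢ₊₁ / 4)`,
`b' = -l b + c exp (-μ 1 t) γ₁ / 4 + ε (B + exp (-μ 0 t) γ₀)`.
All coefficients are bounded and Lipschitz in `t ∈ [0, 1]` uniformly in `i` because
`0 ≤ μ (i+1) - μ i ≤ M`; `0 ≤ cl β b ≤ |β|` is Lipschitz in `b`; `B` is Lipschitz. So the right side
satisfies the two hypotheses of `S_ODE` (the growth is linear since `cl` is bounded). The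
components of a solution in `E` are differentiable (evaluation is a continuous linear map). -/
def S_BAND_EX : Prop := ∀ (k β l c ε M LB : ℝ) (μ : ℕ → ℝ) (B : ℝ → ℝ), 0 ≤ k → 0 ≤ β →
  (∀ i, μ i ≤ μ (i + 1)) → (∀ i, μ (i + 1) - μ i ≤ M) →
  (∀ s ∈ Icc (0 : ℝ) 1, ∀ t ∈ Icc (0 : ℝ) 1, |B s - B t| ≤ LB * |s - t|) →
  ∃ (b : ℝ → ℝ) (α : ℕ → ℝ → ℝ), BandSol k β l c ε μ B b α

/-- A priori bounds for one band.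

Proof. Put `w t = k * cl β (b t) ∈ [0, kβ]`, `ι = kβ ≤ 1/10`, `α̃ i t = exp (μ 0 t) α i t`,
`B̃ t = exp (μ 0 t) B t` (nonnegative and nondecreasing). Then for `i ≥ 1`,
`(exp ((μ i - μ 0) t) α̃ i)' = exp ((μ i - μ 0) t) * (forcing)` with forcing
`w (B̃ + α̃ 0 + α̃ 2 / 2)` for `i = 1` and `± (w / 2) (α̃ (i-1) + α̃ (i+1))` for `i ≥ 2`; since
`exp ((μ i - μ 0) s) ≤ exp ((μ i - μ 0) t)` for `s ≤ t`, and `α i 0 = 0`: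
`|α̃ i t| ≤ ι * sup_{s ≤ t} |forcing / w|` (mean value inequality). Also
`|α̃ 0 t| ≤ (ι/2) sup_{s≤t} |α̃ 1|`.
Fix `t`, let `N = sup { 4^i |α̃ i s| : i ≥ 1, 0 ≤ s ≤ t } < ∞` (field `fin`). Then
`4^i |α̃ i| ≤ (ι/2) (4 + 1/4) N` for `i ≥ 2` and
`4 |α̃ 1| ≤ 4 ι (B̃ t + ι N / 8 + N / 32)`, so `N ≤ max (0.22 N) (4 ι B̃ t + 0.02 N)`, hence
`N ≤ 5 ι B̃ t`. Divide by `exp (μ 0 t)`. In particular `|α 0| + |α 2| / 2 ≤ B / 8`, so `α 1 ≥ 0` by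
its equation (`(exp (μ 1 t) α 1)' ≥ 0`) and then `b ≥ 0` (`(exp (l t) b)' ≥ 0`). -/
def S_BAND_BD : Prop := ∀ (k β l c ε : ℝ) (μ : ℕ → ℝ) (B b : ℝ → ℝ) (α : ℕ → ℝ → ℝ),
  0 ≤ k → 0 ≤ β → k * β ≤ 1 / 10 → 0 ≤ c → 0 ≤ ε →
  (∀ i, μ i ≤ μ (i + 1)) → (∀ t ∈ Icc (0 : ℝ) 1, 0 ≤ B t) →
  MonotoneOn (fun t => Real.exp (μ 0 * t) * B t) (Icc 0 1) → BandSol k β l c ε μ B b α →
  ∀ t ∈ Icc (0 : ℝ) 1, 0 ≤ b t ∧ 0 ≤ α 1 t ∧ |α 0 t| ≤ k * β * B t ∧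
    ∀ i, 1 ≤ i → |α i t| ≤ 5 * (k * β) * (1 / 4) ^ i * B t

/-- A window: `B ≤ 2θ` up to the time `s + W`, and `θ/2 ≤ B` on `[s, s + W]`. -/
structure Win (B : ℝ → ℝ) (θ s W : ℝ) : Prop where
  s0 : 0 ≤ s
  W0 : 0 ≤ W
  s1 : s + W ≤ 1
  up : ∀ t ∈ Icc 0 (s + W), B t ≤ 2 * θ
  low : ∀ t ∈ Icc s (s + W), θ / 2 ≤ B t

/-- One stage of the cascade.

Proof. Write `a = α 0`, `x = α 1`, `y = α 2`, `w t = k cl β (b t)`, and `|a| + |y|/2 ≤ B/8` (from the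
bounds), `x ≥ 0`, `b ≥ 0`, `B ≥ 0`, so `w ≤ k b`, and `w = k b` when `b ≤ β`.
(1) Let `r = sqrt ((5/2) c k θ)`. On `[0, s + τ + w']` (`w'` = the parameter `w` of the statement)
`c x ≤ r b`: for `z = r b - c x`,
`z' = r (-l b + c x + ε (B + a)) + c μ₁ x - c w (B + a + y/2) ≥ -(r + μ₁) z + (r² - (9/8) c k (2θ)) b
 + r (μ₁ - l) b ≥ -(r + μ₁) z`, `z 0 = 0`, so `z ≥ 0` (`(exp ((r+μ₁) t) z)' ≥ 0`).
Consequently `b' ≤ r b + (9/4) ε θ` there, and `b' ≥ -l b` always.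
(2) Let `ρ = sqrt ((3/8) c k θ) > 0`. Suppose `b < θ'` on the whole of `[0, s + τ]`. On `[s, s + τ]`, with
`B ≥ θ/2`: `Y = b + (c/ρ) x` satisfies
`Y' ≥ -μ₁ Y + c x + (c/ρ) k b (3/4) (θ/2) + ε (3/4)(θ/2) = (ρ - μ₁) Y + (3/8) ε θ`, and
`ρ - μ₁ ∈ [ρ/2, ρ]`, so `Y (s + τ) ≥ (3/8) ε θ (exp (ρ τ / 2) - 1) / ρ`. By (1),
`Y ≤ (1 + r/ρ) b ≤ 4 b` (`r/ρ = sqrt (20/3) < 3`). So `b (s+τ) ≥ (3/32) ε θ (exp (ρ τ/2) - 1)/ρ > θ'`,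
contradiction. (While `b < θ' ≤ β` the truncation is inactive.)
(3) So by continuity there is a first time `s' ≤ s + τ` with `b s' = θ'`, and `b ≤ θ'` on `[0, s']`.
On `[s', s' + w]`, by Gronwall: `b ≤ (θ' + (9/4) ε θ w) exp (r w) ≤ 2 θ'` (as `r w ≤ 1/4`,
`(9/4) ε θ w ≤ θ'/2`, `exp (1/4) ≤ 4/3`), and `b ≥ θ' exp (-l w) ≥ θ'/2` (as `l w ≤ 1/2`). -/
def S_STAGE : Prop := ∀ (k β l c ε θ θ' s τ w : ℝ) (μ : ℕ → ℝ) (B b : ℝ → ℝ) (α : ℕ → ℝ → ℝ),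
  0 < k → 0 < c → 0 < ε → 0 < θ → 0 < θ' → 0 ≤ l → l ≤ μ 1 → 0 ≤ τ → 0 ≤ w → θ' ≤ β →
  BandSol k β l c ε μ B b α →
  (∀ t ∈ Icc (0 : ℝ) 1, 0 ≤ B t ∧ 0 ≤ b t ∧ 0 ≤ α 1 t ∧ |α 0 t| + |α 2 t| / 2 ≤ B t / 8) →
  2 * μ 1 ≤ Real.sqrt (3 / 8 * (c * k * θ)) →
  θ' * Real.sqrt (3 / 8 * (c * k * θ)) <
    3 / 32 * (ε * θ) * (Real.exp (Real.sqrt (3 / 8 * (c * k * θ)) * τ / 2) - 1) →
  Real.sqrt (5 / 2 * (c * k * θ)) * w ≤ 1 / 4 → l * w ≤ 1 / 2 → 9 / 4 * (ε * θ) * w ≤ θ' / 2 →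
  Win B θ s (τ + w) →
  ∃ s', s' ≤ s + τ ∧ b s' = θ' ∧ Win b θ' s' w

end Pool.Agent.H306.HD
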