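import Mathlib
import Pool.Agent.H306.HD.Stm
import Pool.Agent.H306.CK.Ode

/-! Global solutions on `[0, 1]` of `x' = F (t, x)` in a Banach space. -/

namespace Pool.Agent.H306.HD.TODE

open Set Metric Pool.Agent.H306.CK Pool.Agent.H306.HD
open scoped NNReal

variable {E : Type} [NormedAddCommGroup E] [NormedSpace ℝ E]

/-- projection on `[0, 1]` -/
noncomputable def pr (τ : ℝ) : ℝ := max 0 (min τ 1)

theorem pr_mem (τ : ℝ) : pr τ ∈ Icc (0 : ℝ) 1 :=
  ⟨le_max_left _ _, max_le zero_le_one (min_le_right _ _)⟩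

theorem pr_of_mem {τ : ℝ} (h : τ ∈ Icc (0 : ℝ) 1) : pr τ = τ := by
  unfold pr
  rw [min_eq_left h.2, max_eq_right h.1]

theorem pr_lip (a b : ℝ) : |pr a - pr b| ≤ |a - b| := by
  unfold pr
  have h1 := abs_max_sub_max_le_max (0 : ℝ) (min a 1) 0 (min b 1)
  have h2 := abs_min_sub_min_le_max a (1 : ℝ) b 1
  rw [sub_self, abs_zero, max_eq_right (abs_nonneg (min a 1 - min b 1))] at h1
  rw [sub_self, abs_zero, max_eq_left (abs_nonneg (a - b))] at h2
  exact h1.trans h2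

/-- the autonomous field -/
noncomputable def G (F : ℝ → E → E) (p : ℝ × E) : ℝ × E := (1, F (pr p.1) p.2)

omit [NormedSpace ℝ E] in
theorem G_locLip (F : ℝ → E → E)
    (h1 : ∀ R : ℝ, ∃ L : ℝ, ∀ s ∈ Icc (0 : ℝ) 1, ∀ t ∈ Icc (0 : ℝ) 1, ∀ x y : E, ‖x‖ ≤ R → ‖y‖ ≤ R →
      ‖F s x - F t y‖ ≤ L * (|s - t| + ‖x - y‖))
    {C : ℝ} (h2 : ∀ t ∈ Icc (0 : ℝ) 1, ∀ x : E, ‖F t x‖ ≤ C * (1 + ‖x‖)) (hC : 0 ≤ C) :
    LocLip (G F) := by
  intro R
  obtain ⟨L, hL⟩ := h1 R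
  refine ⟨(2 * |L|).toNNReal, (1 + C * (1 + R)).toNNReal, ?_, ?_⟩
  · rw [lipschitzOnWith_iff_norm_sub_le]
    intro p hp q hq
    rw [mem_closedBall, dist_zero_right] at hp hq
    have hp2 : ‖p.2‖ ≤ R := (norm_snd_le p).trans hp
    have hq2 : ‖q.2‖ ≤ R := (norm_snd_le q).trans hq
    have key := hL (pr p.1) (pr_mem _) (pr q.1) (pr_mem _) p.2 q.2 hp2 hq2
    have e1 : |pr p.1 - pr q.1| ≤ ‖p - q‖ :=
      (pr_lip p.1 q.1).trans (by rw [← Real.norm_eq_abs]; exact norm_fst_le (p - q))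
    have e2 : ‖p.2 - q.2‖ ≤ ‖p - q‖ := norm_snd_le (p - q)
    have e3 : ‖F (pr p.1) p.2 - F (pr q.1) q.2‖ ≤ 2 * |L| * ‖p - q‖ := by
      refine key.trans ?_
      have : L * (|pr p.1 - pr q.1| + ‖p.2 - q.2‖) ≤ |L| * (|pr p.1 - pr q.1| + ‖p.2 - q.2‖) :=
        mul_le_mul_of_nonneg_right (le_abs_self L) (by positivity)
      refine this.trans ?_
      have : |L| * (|pr p.1 - pr q.1| + ‖p.2 - q.2‖) ≤ |L| * (‖p - q‖ + ‖p - q‖) :=
        mul_le_mul_of_nonneg_left (add_le_add e1 e2) (abs_nonneg L)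
      refine this.trans (le_of_eq (by ring))
    rw [Real.coe_toNNReal _ (by positivity)]
    have e4 : G F p - G F q = (0, F (pr p.1) p.2 - F (pr q.1) q.2) := by
      simp [G]
    rw [e4, Prod.norm_def]
    simp only [norm_zero]
    exact max_le (by positivity) e3
  · intro p hp
    rw [mem_closedBall, dist_zero_right] at hp
    have hp2 : ‖p.2‖ ≤ R := (norm_snd_le p).trans hp
    have e1 := h2 (pr p.1) (pr_mem _) p.2
    have hR : (0 : ℝ) ≤ R := R.2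
    rw [Real.coe_toNNReal _ (by positivity)]
    rw [Prod.norm_def]
    simp only [G, norm_one]
    refine max_le ?_ ?_
    · have : 0 ≤ C * (1 + (R : ℝ)) := by positivity
      linarith
    · have : C * (1 + ‖p.2‖) ≤ C * (1 + R) := mul_le_mul_of_nonneg_left (by linarith) hC
      linarith

omit [NormedSpace ℝ E] in
theorem G_growth (F : ℝ → E → E) {C : ℝ}
    (h2 : ∀ t ∈ Icc (0 : ℝ) 1, ∀ x : E, ‖F t x‖ ≤ C * (1 + ‖x‖)) (hC : 0 ≤ C) (p : ℝ × E) :
    ‖G F p‖ ≤ (1 + C) * ‖p‖ + (1 + C) := by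
  have e1 := h2 (pr p.1) (pr_mem _) p.2
  have e2 : ‖p.2‖ ≤ ‖p‖ := norm_snd_le p
  have e3 : 0 ≤ ‖p‖ := norm_nonneg p
  rw [Prod.norm_def (G F p)]
  simp only [G, norm_one]
  refine max_le ?_ ?_
  · nlinarith [mul_nonneg hC e3]
  · have : C * (1 + ‖p.2‖) ≤ C * (1 + ‖p‖) := mul_le_mul_of_nonneg_left (by linarith) hC
    nlinarith

theorem ode : S_ODE := by
  intro E _ _ _ F h1 h2 x₀
  obtain ⟨C₀, hC₀⟩ := h2
  have hC : ∀ t ∈ Icc (0 : ℝ) 1, ∀ x : E, ‖F t x‖ ≤ |C₀| * (1 + ‖x‖) := fun t ht x =>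
    (hC₀ t ht x).trans (mul_le_mul_of_nonneg_right (le_abs_self _) (by positivity))
  have hloc := G_locLip F h1 hC (abs_nonneg _)
  obtain ⟨ε, T, hε, hT, hT2, z, hz0, hz, hmax⟩ := hloc.maximal ((0 : ℝ), x₀) (T₀ := 2) two_pos
  have hbound : ∀ t ∈ Ico (0 : ℝ) T, ‖z t‖ ≤
      gronwallBound ‖((0 : ℝ), x₀)‖ (1 + |C₀|) (1 + |C₀|) 2 := by
    intro t ht
    have hsub : Icc (0 : ℝ) t ⊆ Ioo (-ε) T := fun s hs => ⟨by linarith [hs.1], hs.2.trans_lt ht.2⟩
    have hg := norm_le_gronwallBound_of_norm_deriv_right_le (f := z) (f' := fun s => G F (z s))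
      (δ := ‖((0 : ℝ), x₀)‖) (K := 1 + |C₀|) (ε := 1 + |C₀|) (a := 0) (b := t)
      (hz.continuousOn.mono hsub)
      (fun s hs => (hz s (hsub (Ico_subset_Icc_self hs))).hasDerivWithinAt)
      (by rw [hz0]) (fun s _ => G_growth F hC (abs_nonneg _) (z s)) t ⟨ht.1, le_rfl⟩
    refine hg.trans ?_
    refine gronwallBound_mono (norm_nonneg _) (by positivity) (by positivity) ?_
    linarith [ht.2]
  have hTeq : T = 2 := by
    by_contra hne
    obtain ⟨t, ht, hlt⟩ := hmax (lt_of_le_of_ne hT2 hne)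
      (gronwallBound ‖((0 : ℝ), x₀)‖ (1 + |C₀|) (1 + |C₀|) 2)
    exact absurd (hbound t ht) (not_le.mpr hlt)
  subst hTeq
  have hsub1 : Icc (0 : ℝ) 1 ⊆ Ioo (-ε) 2 := fun s hs => ⟨by linarith [hs.1], by linarith [hs.2]⟩
  have hfst : ∀ t ∈ Ioo (-ε) 2, HasDerivAt (fun s => (z s).1) 1 t := fun t ht => by
    have := (hasFDerivAt_fst (𝕜 := ℝ) (p := z t)).comp_hasDerivAt t (hz t ht)
    simpa [G, Function.comp_def] using this
  have hsnd : ∀ t ∈ Ioo (-ε) 2, HasDerivAt (fun s => (z s).2) (F (pr (z t).1) (z t).2) t :=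
    fun t ht => by
      have := (hasFDerivAt_snd (𝕜 := ℝ) (p := z t)).comp_hasDerivAt t (hz t ht)
      simpa [G, Function.comp_def] using this
  have htime : ∀ t ∈ Icc (0 : ℝ) 1, (z t).1 = t := by
    intro t ht
    have := constant_of_has_deriv_right_zero (f := fun s => (z s).1 - s) (a := 0) (b := 1)
      (fun s hs => ((hfst s (hsub1 hs)).sub (hasDerivAt_id s)).continuousAt.continuousWithinAt)
      (fun s hs => by
        have := ((hfst s (hsub1 (Ico_subset_Icc_self hs))).fun_sub (hasDerivAt_id' s)).hasDerivWithinAt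
          (s := Ici s)
        rwa [sub_self] at this) t ht
    simp only [hz0, sub_zero] at this
    linarith
  refine ⟨fun s => (z s).2, by simp [hz0], fun t ht => ?_⟩
  have := (hsnd t (hsub1 ht)).hasDerivWithinAt (s := Icc (0 : ℝ) 1)
  rwa [htime t ht, pr_of_mem ht] at this

end Pool.Agent.H306.HD.TODE
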