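import Pool.Agent.H306.HD.Stm3

/-! Choice of the parameters. -/

noncomputable section

namespace Pool.Agent.H306.HD.TPARA

open Set MeasureTheory

open scoped Real

open Pool.Agent.H306.CK Pool.Agent.H306.DS Pool.Agent.H306.HD

/-- the exponent of the growth rate -/
def ee (σ : ℝ) (a : ℕ) : ℝ := a * (1 / 4 - σ) - 3 / 2

/-- the hypotheses on the parameters -/
structure Hy (ν α σ δ : ℝ) (a A N : ℕ) : Prop where
  ν0 : 0 < ν
  α0 : 0 < α
  s1 : 4 * α + σ < 1 / 4
  s2 : -(2 * α) ≤ σ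
  a1 : 1 ≤ a
  a2 : 5 / 2 ≤ a * (1 / 4 - σ - 4 * α)
  A1 : a + 3 ≤ A
  δ0 : 0 < δ
  N1 : (16 * (ee σ a + A + 3)) ^ 8 ≤ N
  N2 : 20 * (ν + 1) ≤ N
  N3 : (28 * (ν + 1) + 14 / δ) ^ 2 ≤ N
  N4 : (4096 : ℝ) ≤ N

theorem zz_four {N : ℕ} (hN : (4 : ℝ) ≤ N) (m i : ℕ) : 4 ^ i * zz N m ≤ zz N (m + i) := by
  have hN' : 1 ≤ N := by
    have : (1 : ℝ) ≤ N := by linarith
    exact_mod_cast this
  induction i with
  | zero => simp
  | succ i ih =>
    rw [← add_assoc, zz_succ]
    have h1 := zz_ge hN' (m + i)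
    calc 4 ^ (i + 1) * zz N m = 4 * (4 ^ i * zz N m) := by ring
      _ ≤ 4 * zz N (m + i) := by linarith
      _ ≤ zz N (m + i) ^ 2 := by nlinarith

section

variable {ν α σ δ : ℝ} {a A N : ℕ} (H : Hy ν α σ δ a A N)

include H

theorem N_one : 1 ≤ N := by
  have h := H.N4
  have : (1 : ℝ) ≤ N := by linarith
  exact_mod_cast this

theorem z_N (m : ℕ) : (N : ℝ) ≤ zz N m := zz_ge (N_one H) m

theorem z_big (m : ℕ) : 4096 ≤ zz N m := H.N4.trans (z_N H m)

theorem z_pos (m : ℕ) : 0 < zz N m := by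
  have := z_big H m
  linarith

theorem z_one (m : ℕ) : 1 ≤ zz N m := by
  have := z_big H m
  linarith

theorem z_succ_rpow (m : ℕ) (x : ℝ) : zz N (m + 1) ^ x = zz N m ^ (2 * x) := by
  rw [zz_succ, ← Real.rpow_natCast, ← Real.rpow_mul (z_pos H m).le]
  norm_num

omit H in
theorem K_eq (m : ℕ) : ((prm ν α σ a A N).K m : ℝ) = zz N m ^ (a : ℝ) := by
  simp only [prm]
  push_cast
  unfold zz
  rw [Real.rpow_natCast, ← pow_mul, mul_comm]

theorem K_succ (m : ℕ) : ((prm ν α σ a A N).K (m + 1) : ℝ) = zz N m ^ (2 * (a : ℝ)) := by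
  rw [K_eq, z_succ_rpow H]

theorem aα_nonneg : 0 ≤ (a : ℝ) * α := mul_nonneg (Nat.cast_nonneg _) H.α0.le

theorem ee_ge : 4 * (a : ℝ) * α + 1 ≤ ee σ a := by
  have := H.a2
  unfold ee
  linarith

theorem ee_one : 1 ≤ ee σ a := by
  have := ee_ge H
  have := aα_nonneg H
  linarith

theorem mu_zero (m : ℕ) : mu (prm ν α σ a A N) m 0 = ν * zz N m ^ (2 * (a : ℝ) * α) := by
  have h0 := z_pos H m
  have e1 : (((prm ν α σ a A N).K m : ℝ)) ^ 2 = zz N m ^ (2 * (a : ℝ)) := by
    rw [K_eq, ← Real.rpow_natCast, ← Real.rpow_mul h0.le]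
    congr 1
    push_cast
    ring
  unfold mu
  rw [e1]
  simp only [prm]
  norm_num
  rw [← Real.rpow_mul h0.le]
  left
  trivial

theorem mu_zero_succ (m : ℕ) :
    mu (prm ν α σ a A N) (m + 1) 0 = ν * zz N m ^ (4 * (a : ℝ) * α) := by
  rw [mu_zero H, z_succ_rpow H]
  congr 2
  ring

theorem mu_one_le (m : ℕ) : mu (prm ν α σ a A N) m 1 ≤ 2 * ν * zz N m ^ (4 * (a : ℝ) * α) := by
  have h0 := z_pos H m
  have h1 := z_one H m
  have hν := H.ν0
  have e1 : (((prm ν α σ a A N).K m : ℝ)) ^ 2 ≤ zz N m ^ (4 * (a : ℝ)) := by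
    rw [K_eq, ← Real.rpow_natCast, ← Real.rpow_mul h0.le]
    refine Real.rpow_le_rpow_of_exponent_le h1 ?_
    have : (0 : ℝ) ≤ a := Nat.cast_nonneg _
    push_cast
    linarith
  have e2 : (((1 : ℕ) : ℝ) * ((prm ν α σ a A N).K (m + 1) : ℝ)) ^ 2 = zz N m ^ (4 * (a : ℝ)) := by
    rw [K_succ H, Nat.cast_one, one_mul, ← Real.rpow_natCast, ← Real.rpow_mul h0.le]
    congr 1
    push_cast
    ring
  have e3 : mu (prm ν α σ a A N) m 1 ≤ ν * (2 * zz N m ^ (4 * (a : ℝ))) ^ α := by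
    unfold mu
    rw [e2]
    refine mul_le_mul_of_nonneg_left ?_ hν.le
    refine Real.rpow_le_rpow (by positivity) (by linarith) H.α0.le
  have e4 : (2 * zz N m ^ (4 * (a : ℝ))) ^ α ≤ 2 * zz N m ^ (4 * (a : ℝ) * α) := by
    rw [Real.mul_rpow (by norm_num) (by positivity), ← Real.rpow_mul h0.le]
    refine mul_le_mul_of_nonneg_right ?_ (by positivity)
    have h5 : α ≤ 1 := by
      have := H.s1
      have := H.s2
      linarith
    calc (2 : ℝ) ^ α ≤ 2 ^ (1 : ℝ) := Real.rpow_le_rpow_of_exponent_le (by norm_num) h5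
      _ = 2 := Real.rpow_one 2
  calc _ ≤ ν * (2 * zz N m ^ (4 * (a : ℝ))) ^ α := e3
    _ ≤ ν * (2 * zz N m ^ (4 * (a : ℝ) * α)) := mul_le_mul_of_nonneg_left e4 hν.le
    _ = _ := by ring

theorem ckt (m : ℕ) : (prm ν α σ a A N).c m * (prm ν α σ a A N).K m * thP a N m =
    (zz N m ^ ee σ a) ^ 2 := by
  have h0 := z_pos H m
  rw [K_eq]
  simp only [prm, thP]
  rw [← Real.rpow_add h0, ← Real.rpow_add h0, ← Real.rpow_natCast, ← Real.rpow_mul h0.le]
  congr 1
  unfold ee
  push_cast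
  ring

theorem rh_pos (m : ℕ) : 0 < rhP ν α σ a A N m := by
  have h0 := z_pos H m
  unfold rhP
  rw [ckt H]
  positivity

theorem rh_le (m : ℕ) : rhP ν α σ a A N m ≤ zz N m ^ ee σ a := by
  have h0 := z_pos H m
  unfold rhP
  rw [ckt H]
  refine Real.sqrt_le_iff.2 ⟨by positivity, ?_⟩
  nlinarith [sq_nonneg (zz N m ^ ee σ a)]

theorem rh_ge (m : ℕ) : zz N m ^ ee σ a / 2 ≤ rhP ν α σ a A N m := by
  have h0 := z_pos H m
  unfold rhP
  rw [ckt H]
  refine Real.le_sqrt_of_sq_le ?_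
  nlinarith [sq_nonneg (zz N m ^ ee σ a)]

theorem C_one : 1 ≤ ee σ a + A + 3 := by
  have := ee_one H
  have : (0 : ℝ) ≤ A := Nat.cast_nonneg _
  linarith

theorem z8 (m : ℕ) : 8 * (m + (ee σ a + A + 3)) ≤ zz N m ^ (1 / 8 : ℝ) := by
  have hC := C_one H
  set C := ee σ a + A + 3 with hCd
  have h1 : ((16 * C) ^ (m + 1)) ^ 8 ≤ zz N m := by
    calc ((16 * C) ^ (m + 1)) ^ 8 = ((16 * C) ^ 8) ^ (m + 1) := by
          rw [← pow_mul, ← pow_mul, mul_comm (m + 1) 8]
      _ ≤ (N : ℝ) ^ (m + 1) := pow_le_pow_left₀ (by positivity) H.N1 _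
      _ ≤ (N : ℝ) ^ (2 ^ m) := by
          refine pow_le_pow_right₀ (by exact_mod_cast N_one H) ?_
          exact Nat.lt_two_pow_self
      _ = zz N m := rfl
  have h2 : (16 * C) ^ (m + 1) ≤ zz N m ^ (1 / 8 : ℝ) := by
    calc (16 * C) ^ (m + 1) = (((16 * C) ^ (m + 1)) ^ 8) ^ (1 / 8 : ℝ) := by
          rw [← Real.rpow_natCast ((16 * C) ^ (m + 1)) 8, ← Real.rpow_mul (by positivity)]
          norm_num
      _ ≤ _ := Real.rpow_le_rpow (by positivity) h1 (by norm_num)
  refine le_trans ?_ h2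
  have h3 : (m + 1 : ℝ) ≤ 2 ^ m := by
    have := Nat.lt_two_pow_self (n := m)
    exact_mod_cast this
  have h4 : (2 : ℝ) ^ m ≤ (16 * C) ^ m := pow_le_pow_left₀ (by norm_num) (by linarith) _
  have h5 : (0 : ℝ) ≤ m := Nat.cast_nonneg _
  calc 8 * (m + C) ≤ (m + 1) * (16 * C) := by nlinarith
    _ ≤ (16 * C) ^ m * (16 * C) := mul_le_mul_of_nonneg_right (h3.trans h4) (by positivity)
    _ = _ := (pow_succ _ _).symm

theorem log_le (m : ℕ) : (m + (ee σ a + A + 3)) * Real.log (zz N m) ≤ zz N m ^ (1 / 4 : ℝ) := by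
  have h0 := z_pos H m
  have hC := C_one H
  have h1 := Real.log_le_rpow_div h0.le (by norm_num : (0 : ℝ) < 1 / 8)
  have h2 := z8 H m
  have h3 : zz N m ^ (1 / 4 : ℝ) = zz N m ^ (1 / 8 : ℝ) * zz N m ^ (1 / 8 : ℝ) := by
    rw [← Real.rpow_add h0]
    norm_num
  have h4 : (0 : ℝ) ≤ m := Nat.cast_nonneg _
  rw [h3]
  calc (m + (ee σ a + A + 3)) * Real.log (zz N m)
      ≤ (m + (ee σ a + A + 3)) * (zz N m ^ (1 / 8 : ℝ) / (1 / 8)) :=
        mul_le_mul_of_nonneg_left h1 (by linarith)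
    _ = (8 * (m + (ee σ a + A + 3))) * zz N m ^ (1 / 8 : ℝ) := by ring
    _ ≤ _ := mul_le_mul_of_nonneg_right h2 (by positivity)

theorem arg_nonneg (m : ℕ) : 0 ≤ 11 * rhP ν α σ a A N m * thP a N (m + 1) /
    ((prm ν α σ a A N).ε m * thP a N m) := by
  have h0 := z_pos H m
  have h1 := z_pos H (m + 1)
  have h2 := rh_pos H m
  simp only [prm, thP]
  positivity

theorem tau_nonneg (m : ℕ) : 0 ≤ tauP ν α σ a A N m := by
  unfold tauP
  refine mul_nonneg (by have := rh_pos H m; positivity) (Real.log_nonneg ?_)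
  linarith [arg_nonneg H m]

theorem tau_le (m : ℕ) : tauP ν α σ a A N m ≤ 4 * zz N m ^ (-ee σ a + 1 / 4) := by
  have h0 := z_pos H m
  have h1 := z_one H m
  have hr := rh_pos H m
  have hzb := z_big H m
  have hee := ee_one H
  have ha : (0 : ℝ) ≤ a := Nat.cast_nonneg _
  -- the argument of the logarithm
  have b1 : 1 + 11 * rhP ν α σ a A N m * thP a N (m + 1) / ((prm ν α σ a A N).ε m * thP a N m) ≤
      12 * zz N m ^ (ee σ a + (m + A : ℕ)) := by
    have c1 : thP a N (m + 1) ≤ thP a N m := by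
      unfold thP
      rw [z_succ_rpow H]
      refine Real.rpow_le_rpow_of_exponent_le h1 ?_
      linarith
    have c2 : 0 < thP a N m := by unfold thP; positivity
    have c3 : 11 * rhP ν α σ a A N m * thP a N (m + 1) / ((prm ν α σ a A N).ε m * thP a N m) ≤
        11 * zz N m ^ (ee σ a + (m + A : ℕ)) := by
      rw [div_le_iff₀ (by simp only [prm]; positivity)]
      have c4 : 11 * zz N m ^ (ee σ a + (m + A : ℕ)) * ((prm ν α σ a A N).ε m * thP a N m) =
          11 * zz N m ^ ee σ a * thP a N m := by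
        simp only [prm]
        rw [Real.rpow_add h0, Real.rpow_natCast]
        field_simp
      rw [c4]
      exact mul_le_mul (mul_le_mul_of_nonneg_left (rh_le H m) (by norm_num)) c1
        (by unfold thP; have := z_pos H (m + 1); positivity) (by positivity)
    have c5 : 1 ≤ zz N m ^ (ee σ a + (m + A : ℕ)) := by
      refine Real.one_le_rpow h1 ?_
      have : (0 : ℝ) ≤ (m + A : ℕ) := Nat.cast_nonneg _
      linarith
    linarith
  have b2 : Real.log (1 + 11 * rhP ν α σ a A N m * thP a N (m + 1) /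
      ((prm ν α σ a A N).ε m * thP a N m)) ≤ zz N m ^ (1 / 4 : ℝ) := by
    refine le_trans (Real.log_le_log (by linarith [arg_nonneg H m]) b1) ?_
    rw [Real.log_mul (by norm_num) (by positivity), Real.log_rpow h0]
    refine le_trans ?_ (log_le H m)
    have c6 : Real.log 12 ≤ Real.log (zz N m) * 3 := by
      have : Real.log 12 ≤ Real.log (zz N m) := Real.log_le_log (by norm_num) (by linarith)
      have : 0 ≤ Real.log (zz N m) := Real.log_nonneg h1
      linarith
    push_cast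
    linarith
  unfold tauP
  have b3 : 2 / rhP ν α σ a A N m ≤ 4 * zz N m ^ (-ee σ a) := by
    rw [div_le_iff₀ hr]
    calc (2 : ℝ) = 4 * zz N m ^ (-ee σ a) * (zz N m ^ ee σ a / 2) := by
          rw [Real.rpow_neg h0.le]
          have : zz N m ^ ee σ a ≠ 0 := by positivity
          field_simp
          norm_num
      _ ≤ _ := mul_le_mul_of_nonneg_left (rh_ge H m) (by positivity)
  calc 2 / rhP ν α σ a A N m * Real.log (1 + 11 * rhP ν α σ a A N m * thP a N (m + 1) /
        ((prm ν α σ a A N).ε m * thP a N m))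
      ≤ 4 * zz N m ^ (-ee σ a) * zz N m ^ (1 / 4 : ℝ) :=
        mul_le_mul b3 b2 (Real.log_nonneg (by linarith [arg_nonneg H m])) (by positivity)
    _ = _ := by rw [mul_assoc, ← Real.rpow_add h0]

theorem tau_le_i (m i : ℕ) : tauP ν α σ a A N (m + 1 + i) ≤
    4 * zz N m ^ (-2 * ee σ a + 1 / 2) * (1 / 2) ^ i := by
  have h0 := z_pos H (m + 1)
  have hee := ee_one H
  refine (tau_le H (m + 1 + i)).trans ?_
  have h1 : (4 : ℝ) ^ i * zz N (m + 1) ≤ zz N (m + 1 + i) :=
    zz_four (by linarith [H.N4]) (m + 1) i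
  have h2 : zz N (m + 1 + i) ^ (-ee σ a + 1 / 4) ≤
      ((4 : ℝ) ^ i * zz N (m + 1)) ^ (-ee σ a + 1 / 4) :=
    Real.rpow_le_rpow_of_nonpos (by positivity) h1 (by linarith)
  have h3 : ((4 : ℝ) ^ i) ^ (-ee σ a + 1 / 4) ≤ (1 / 2) ^ i := by
    calc ((4 : ℝ) ^ i) ^ (-ee σ a + 1 / 4) ≤ ((4 : ℝ) ^ i) ^ (-(1 / 2) : ℝ) :=
          Real.rpow_le_rpow_of_exponent_le (one_le_pow₀ (by norm_num)) (by linarith)
      _ = (1 / 2) ^ i := by
          have : (4 : ℝ) ^ i = ((2 : ℝ) ^ i) ^ (2 : ℝ) := by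
            rw [Real.rpow_two, ← pow_mul, mul_comm, pow_mul]
            norm_num
          rw [this, ← Real.rpow_mul (by positivity)]
          norm_num
          rw [Real.rpow_neg_one, one_div, inv_pow]
  have h4 : zz N (m + 1) ^ (-ee σ a + 1 / 4) = zz N m ^ (-2 * ee σ a + 1 / 2) := by
    rw [z_succ_rpow H]
    congr 1
    ring
  calc 4 * zz N (m + 1 + i) ^ (-ee σ a + 1 / 4)
      ≤ 4 * (((4 : ℝ) ^ i * zz N (m + 1)) ^ (-ee σ a + 1 / 4)) := by linarith
    _ = 4 * zz N (m + 1) ^ (-ee σ a + 1 / 4) * ((4 : ℝ) ^ i) ^ (-ee σ a + 1 / 4) := by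
        rw [Real.mul_rpow (by positivity) h0.le]
        ring
    _ ≤ 4 * zz N (m + 1) ^ (-ee σ a + 1 / 4) * (1 / 2) ^ i :=
        mul_le_mul_of_nonneg_left h3 (by positivity)
    _ = _ := by rw [h4]

theorem tau_summable (m : ℕ) : Summable fun i => tauP ν α σ a A N (m + 1 + i) :=
  Summable.of_nonneg_of_le (fun i => tau_nonneg H _) (fun i => tau_le_i H m i)
    (summable_geometric_two.mul_left _)

theorem W_nonneg (m : ℕ) : 0 ≤ WP ν α σ a A N m := tsum_nonneg fun i => tau_nonneg H _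

theorem W_le (m : ℕ) : WP ν α σ a A N m ≤ 8 * zz N m ^ (-2 * ee σ a + 1 / 2) := by
  unfold WP
  refine (Summable.tsum_le_tsum (fun i => tau_le_i H m i) (tau_summable H m)
    (summable_geometric_two.mul_left _)).trans (le_of_eq ?_)
  rw [tsum_mul_left, tsum_geometric_two]
  ring

theorem W_eq (m : ℕ) : WP ν α σ a A N m = tauP ν α σ a A N (m + 1) + WP ν α σ a A N (m + 1) := by
  unfold WP
  rw [(tau_summable H m).tsum_eq_zero_add]
  congr 1
  refine tsum_congr fun i => ?_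
  congr 1
  ring

theorem sq_N : 28 * (ν + 1) + 14 / δ ≤ (N : ℝ) ^ (1 / 2 : ℝ) := by
  have hν := H.ν0
  have hδ := H.δ0
  have h1 := H.N3
  rw [← Real.sqrt_eq_rpow]
  exact Real.le_sqrt_of_sq_le h1

omit H in
theorem z0 : zz N 0 = N := by simp [zz]

/-- `τ 0 + W 0 ≤ 12 N ^ (-e + 1/4)` -/
theorem tot_le : tauP ν α σ a A N 0 + WP ν α σ a A N 0 ≤ 12 * (N : ℝ) ^ (-ee σ a + 1 / 4) := by
  have h1 := tau_le H 0
  have h2 := W_le H 0
  rw [z0] at h1 h2
  have hN : (1 : ℝ) ≤ N := by linarith [H.N4]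
  have hee := ee_one H
  have h3 : (N : ℝ) ^ (-2 * ee σ a + 1 / 2) ≤ (N : ℝ) ^ (-ee σ a + 1 / 4) :=
    Real.rpow_le_rpow_of_exponent_le hN (by linarith)
  linarith

theorem N_inv : (N : ℝ) ^ (-(1 / 2) : ℝ) * (28 * (ν + 1) + 14 / δ) ≤ 1 := by
  have hN : (0 : ℝ) < N := by linarith [H.N4]
  calc (N : ℝ) ^ (-(1 / 2) : ℝ) * (28 * (ν + 1) + 14 / δ)
      ≤ (N : ℝ) ^ (-(1 / 2) : ℝ) * (N : ℝ) ^ (1 / 2 : ℝ) :=
        mul_le_mul_of_nonneg_left (sq_N H) (by positivity)
    _ = 1 := by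
        rw [← Real.rpow_add hN]
        norm_num

theorem tot_half : tauP ν α σ a A N 0 + WP ν α σ a A N 0 ≤ 12 * (N : ℝ) ^ (-(1 / 2) : ℝ) := by
  refine (tot_le H).trans ?_
  have hN : (1 : ℝ) ≤ N := by linarith [H.N4]
  have hee := ee_one H
  refine mul_le_mul_of_nonneg_left ?_ (by norm_num)
  exact Real.rpow_le_rpow_of_exponent_le hN (by linarith)

theorem tot_half' : tauP ν α σ a A N 0 + WP ν α σ a A N 0 ≤ 1 / 2 := by
  have h1 := tot_half H
  have h2 := N_inv H
  have hN : (0 : ℝ) < N := by linarith [H.N4]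
  have h3 : 0 < (N : ℝ) ^ (-(1 / 2) : ℝ) := by positivity
  have hν := H.ν0
  have h4 : 0 < 14 / δ := by have := H.δ0; positivity
  nlinarith

theorem tot_δ : tauP ν α σ a A N 0 + WP ν α σ a A N 0 ≤ δ := by
  have h1 := tot_half H
  have h2 := N_inv H
  have hN : (0 : ℝ) < N := by linarith [H.N4]
  have h3 : 0 < (N : ℝ) ^ (-(1 / 2) : ℝ) := by positivity
  have hν := H.ν0
  have hδ := H.δ0
  have h4 : (N : ℝ) ^ (-(1 / 2) : ℝ) * (14 / δ) ≤ 1 := by nlinarith
  have h5 : (N : ℝ) ^ (-(1 / 2) : ℝ) * 14 ≤ δ := by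
    rw [← mul_div_assoc, div_le_one hδ] at h4
    exact h4
  linarith

theorem ok : (prm ν α σ a A N).Ok := by
  have hN := H.N4
  have hN1 := N_one H
  have hN2 : 1 < N := by
    have : (1 : ℝ) < N := by linarith
    exact_mod_cast this
  refine ⟨H.ν0, H.α0, ?_, fun m => ?_, ?_, fun m => ?_⟩
  · simp only [prm]
    have := H.s1
    have := H.s2
    linarith
  · simp only [prm]
    exact Nat.one_le_pow _ _ hN1
  · intro m n hmn
    simp only [prm]
    refine Nat.pow_lt_pow_right hN2 ?_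
    refine Nat.mul_lt_mul_of_pos_left ?_ H.a1
    exact Nat.pow_lt_pow_right (by norm_num) hmn
  · rw [K_succ H]
    have h1 := zz_two (by omega : 2 ≤ N) 0 m
    rw [z0, zero_add] at h1
    have h2 := z_pos H m
    have h3 := z_one H m
    have h4 : zz N m ^ (2 : ℝ) ≤ zz N m ^ (2 * (a : ℝ)) := by
      refine Real.rpow_le_rpow_of_exponent_le h3 ?_
      have : (1 : ℝ) ≤ a := by exact_mod_cast H.a1
      linarith
    rw [Real.rpow_two] at h4
    have h5 : (2 : ℝ) ^ m * 4096 ≤ zz N m := by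
      refine le_trans ?_ h1
      exact mul_le_mul_of_nonneg_left hN (by positivity)
    have h6 : (2 : ℝ) ^ m * 4096 ≤ zz N m ^ 2 := by nlinarith
    have h7 := Real.pi_lt_four
    rw [← mul_div_assoc, div_le_iff₀ (by positivity)]
    have h8 : (0 : ℝ) < 2 ^ m := by positivity
    nlinarith

theorem ch : ChPar (prm ν α σ a A N) (thP a N) (tauP ν α σ a A N) (WP ν α σ a A N) := by
  have hν := H.ν0
  have hα := H.α0
  have hee := ee_one H
  have heg := ee_ge H
  have haα := aα_nonneg H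
  have hN := H.N4
  have ha : (0 : ℝ) ≤ a := Nat.cast_nonneg _
  have ha1 : (1 : ℝ) ≤ a := by exact_mod_cast H.a1
  have hA : (a : ℝ) + 3 ≤ A := by exact_mod_cast H.A1
  have hs1 := H.s1
  have hs2 := H.s2
  have hrh : ∀ m, Real.sqrt (3 / 8 * ((prm ν α σ a A N).c m * (prm ν α σ a A N).K m *
      thP a N m)) = rhP ν α σ a A N m := fun m => rfl
  refine ⟨fun m => ?_, fun m => ?_, fun m => ?_, tau_nonneg H, W_nonneg H, W_eq H, tot_half' H,
    fun m => ?_, fun m => ?_, fun m => ?_, fun m => ?_, fun m => ?_, fun m => ?_, ?_,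
    fun N' => ?_, ⟨1, fun m => ?_⟩, fun R => ?_, fun M => ?_⟩
  · have := z_pos H m
    simp only [prm]
    positivity
  · have := z_pos H m
    simp only [prm]
    positivity
  · have := z_pos H m
    unfold thP
    positivity
  · -- angle
    have h0 := z_pos H m
    have h1 := z_big H m
    rw [K_eq]
    unfold thP
    rw [z_succ_rpow H]
    have e1 : zz N m ^ (a : ℝ) * (2 * zz N m ^ (2 * (-((a : ℝ) / 2 + 1)))) =
        2 * zz N m ^ (-2 : ℝ) := by
      rw [mul_left_comm, ← Real.rpow_add h0]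
      congr 2
      ring
    rw [e1, Real.rpow_neg h0.le, Real.rpow_two]
    rw [← div_eq_mul_inv, div_le_div_iff₀ (by positivity) (by norm_num)]
    nlinarith
  · -- h1
    rw [hrh]
    refine le_trans ?_ (rh_ge H m)
    have h0 := z_pos H m
    have h1 := z_one H m
    have h2 := mu_one_le H m
    have h3 : zz N m ^ ee σ a = zz N m ^ (4 * (a : ℝ) * α) *
        zz N m ^ (ee σ a - 4 * (a : ℝ) * α) := by
      rw [← Real.rpow_add h0]
      congr 1
      ring
    have h4 : zz N m ^ (1 : ℝ) ≤ zz N m ^ (ee σ a - 4 * (a : ℝ) * α) :=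
      Real.rpow_le_rpow_of_exponent_le h1 (by linarith)
    rw [Real.rpow_one] at h4
    have h5 : 8 * ν ≤ zz N m ^ (ee σ a - 4 * (a : ℝ) * α) := by
      have := z_N H m
      have := H.N2
      linarith
    have h6 : 0 < zz N m ^ (4 * (a : ℝ) * α) := by positivity
    rw [h3]
    nlinarith
  · -- h2
    rw [hrh]
    have h0 := z_pos H m
    have h0' := z_pos H (m + 1)
    have hr := rh_pos H m
    have harg := arg_nonneg H m
    have e1 : rhP ν α σ a A N m * tauP ν α σ a A N m / 2 =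
        Real.log (1 + 11 * rhP ν α σ a A N m * thP a N (m + 1) /
          ((prm ν α σ a A N).ε m * thP a N m)) := by
      unfold tauP
      field_simp
    rw [e1, Real.exp_log (by linarith)]
    have hε : 0 < (prm ν α σ a A N).ε m := by simp only [prm]; positivity
    have hθ : 0 < thP a N m := by unfold thP; positivity
    have hθ' : 0 < thP a N (m + 1) := by unfold thP; positivity
    have e2 : 3 / 32 * ((prm ν α σ a A N).ε m * thP a N m) *
        (1 + 11 * rhP ν α σ a A N m * thP a N (m + 1) /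
          ((prm ν α σ a A N).ε m * thP a N m) - 1) =
        33 / 32 * (thP a N (m + 1) * rhP ν α σ a A N m) := by
      field_simp
      ring
    rw [e2]
    have : 0 < thP a N (m + 1) * rhP ν α σ a A N m := by positivity
    linarith
  · -- h3
    have h0 := z_pos H m
    have h1 := z_one H m
    have hb := z_big H m
    rw [ckt H]
    have h2 : Real.sqrt (5 / 2 * (zz N m ^ ee σ a) ^ 2) ≤ 2 * zz N m ^ ee σ a := by
      refine Real.sqrt_le_iff.2 ⟨by positivity, ?_⟩
      nlinarith [sq_nonneg (zz N m ^ ee σ a)]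
    have h3 : zz N m ^ ee σ a * zz N m ^ (-2 * ee σ a + 1 / 2) ≤ 1 / 64 := by
      rw [← Real.rpow_add h0]
      calc zz N m ^ (ee σ a + (-2 * ee σ a + 1 / 2)) ≤ zz N m ^ (-(1 / 2) : ℝ) :=
            Real.rpow_le_rpow_of_exponent_le h1 (by linarith)
        _ = 1 / √(zz N m) := by
            rw [Real.rpow_neg h0.le, ← Real.sqrt_eq_rpow, one_div]
        _ ≤ 1 / 64 := by
            refine one_div_le_one_div_of_le (by norm_num) ?_
            refine Real.le_sqrt_of_sq_le ?_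
            linarith
    calc Real.sqrt (5 / 2 * (zz N m ^ ee σ a) ^ 2) * WP ν α σ a A N m
        ≤ (2 * zz N m ^ ee σ a) * (8 * zz N m ^ (-2 * ee σ a + 1 / 2)) :=
          mul_le_mul h2 (W_le H m) (W_nonneg H m) (by positivity)
      _ = 16 * (zz N m ^ ee σ a * zz N m ^ (-2 * ee σ a + 1 / 2)) := by ring
      _ ≤ 16 * (1 / 64) := by linarith
      _ = 1 / 4 := by norm_num
  · -- h4
    have h0 := z_pos H m
    have h1 := z_one H m
    rw [mu_zero_succ H]
    have h3 : zz N m ^ (4 * (a : ℝ) * α) * zz N m ^ (-2 * ee σ a + 1 / 2) ≤ 1 / zz N m := by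
      rw [← Real.rpow_add h0]
      calc _ ≤ zz N m ^ (-1 : ℝ) :=
            Real.rpow_le_rpow_of_exponent_le h1 (by linarith)
        _ = 1 / zz N m := by rw [Real.rpow_neg_one, one_div]
    have h4 : 1 / zz N m ≤ 1 / (20 * (ν + 1)) :=
      one_div_le_one_div_of_le (by positivity) (H.N2.trans (z_N H m))
    have h5 : ν * (1 / (20 * (ν + 1))) ≤ 1 / 20 := by
      rw [mul_one_div, div_le_div_iff₀ (by positivity) (by norm_num)]
      linarith
    calc ν * zz N m ^ (4 * (a : ℝ) * α) * WP ν α σ a A N m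
        ≤ ν * zz N m ^ (4 * (a : ℝ) * α) * (8 * zz N m ^ (-2 * ee σ a + 1 / 2)) :=
          mul_le_mul_of_nonneg_left (W_le H m) (by positivity)
      _ = 8 * (ν * (zz N m ^ (4 * (a : ℝ) * α) * zz N m ^ (-2 * ee σ a + 1 / 2))) := by ring
      _ ≤ 8 * (ν * (1 / (20 * (ν + 1)))) := by
          refine mul_le_mul_of_nonneg_left ?_ (by norm_num)
          exact mul_le_mul_of_nonneg_left (h3.trans h4) hν.le
      _ ≤ 1 / 2 := by linarith
  · -- h5
    have h0 := z_pos H m
    have h1 := z_one H m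
    have hb := z_big H m
    have hW : WP ν α σ a A N m ≤ 1 := by
      refine (W_le H m).trans ?_
      have : zz N m ^ (-2 * ee σ a + 1 / 2) ≤ 1 / zz N m := by
        calc _ ≤ zz N m ^ (-1 : ℝ) :=
              Real.rpow_le_rpow_of_exponent_le h1 (by linarith)
          _ = 1 / zz N m := by rw [Real.rpow_neg_one, one_div]
      have h2 : 1 / zz N m ≤ 1 / 4096 := one_div_le_one_div_of_le (by norm_num) hb
      linarith
    have e1 : (prm ν α σ a A N).ε m * thP a N m ≤ zz N m ^ (-1 : ℝ) * thP a N (m + 1) := by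
      unfold thP
      rw [z_succ_rpow H]
      simp only [prm]
      rw [one_div, ← Real.rpow_natCast, ← Real.rpow_neg h0.le, ← Real.rpow_add h0,
        ← Real.rpow_add h0]
      refine Real.rpow_le_rpow_of_exponent_le h1 ?_
      push_cast
      have : (0 : ℝ) ≤ m := Nat.cast_nonneg _
      linarith
    have hθ' : 0 < thP a N (m + 1) := by
      have := z_pos H (m + 1)
      unfold thP
      positivity
    have hεθ : 0 ≤ (prm ν α σ a A N).ε m * thP a N m := by
      simp only [prm, thP]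
      positivity
    have e2 : zz N m ^ (-1 : ℝ) ≤ 1 / 9 := by
      rw [Real.rpow_neg_one, ← one_div]
      exact one_div_le_one_div_of_le (by norm_num) (by linarith)
    have e3 : (prm ν α σ a A N).ε m * thP a N m ≤ 1 / 9 * thP a N (m + 1) :=
      e1.trans (mul_le_mul_of_nonneg_right e2 hθ'.le)
    calc 9 / 4 * ((prm ν α σ a A N).ε m * thP a N m) * WP ν α σ a A N m
        ≤ 9 / 4 * ((prm ν α σ a A N).ε m * thP a N m) * 1 :=
          mul_le_mul_of_nonneg_left hW (by positivity)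
      _ ≤ thP a N (m + 1) / 2 := by linarith
  · -- h0
    rw [mu_zero H, z0]
    have hN0 : (0 : ℝ) < N := by linarith
    have hN1 : (1 : ℝ) ≤ N := by linarith
    have h1 := tot_le H
    have h2 := N_inv H
    have h3 : (N : ℝ) ^ (2 * (a : ℝ) * α) * (N : ℝ) ^ (-ee σ a + 1 / 4) ≤
        (N : ℝ) ^ (-(1 / 2) : ℝ) := by
      rw [← Real.rpow_add hN0]
      exact Real.rpow_le_rpow_of_exponent_le hN1 (by linarith)
    have h4 : 0 < 14 / δ := by have := H.δ0; positivity
    have h5 : 0 < (N : ℝ) ^ (-(1 / 2) : ℝ) := by positivity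
    calc ν * (N : ℝ) ^ (2 * (a : ℝ) * α) * (tauP ν α σ a A N 0 + WP ν α σ a A N 0)
        ≤ ν * (N : ℝ) ^ (2 * (a : ℝ) * α) * (12 * (N : ℝ) ^ (-ee σ a + 1 / 4)) :=
          mul_le_mul_of_nonneg_left h1 (by positivity)
      _ = 12 * ν * ((N : ℝ) ^ (2 * (a : ℝ) * α) * (N : ℝ) ^ (-ee σ a + 1 / 4)) := by ring
      _ ≤ 12 * ν * (N : ℝ) ^ (-(1 / 2) : ℝ) :=
          mul_le_mul_of_nonneg_left h3 (by positivity)
      _ ≤ 1 / 2 := by nlinarith
  · -- rapid
    refine ⟨(zz N (4 * a * N')) ^ (4 * a * N'), fun m => ?_⟩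
    have h0 := z_pos H m
    have h1 := z_one H m
    have e1 : ((prm ν α σ a A N).K (m + 2) : ℝ) ^ N' = zz N m ^ (4 * a * N') := by
      rw [K_succ H (m + 1), z_succ_rpow H, ← Real.rpow_natCast, ← Real.rpow_mul h0.le,
        ← Real.rpow_natCast]
      congr 1
      push_cast
      ring
    rw [e1]
    simp only [prm]
    rw [one_div_mul_eq_div]
    rcases le_total m (4 * a * N') with h | h
    · have h2 : zz N m ≤ zz N (4 * a * N') := by
        unfold zz
        exact pow_le_pow_right₀ (by linarith) (Nat.pow_le_pow_right (by norm_num) h)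
      calc zz N m ^ (4 * a * N') / zz N m ^ (m + A) ≤ zz N m ^ (4 * a * N') :=
            div_le_self (by positivity) (one_le_pow₀ h1)
        _ ≤ _ := pow_le_pow_left₀ h0.le h2 _
    · calc zz N m ^ (4 * a * N') / zz N m ^ (m + A) ≤ 1 := by
            rw [div_le_one (by positivity)]
            exact pow_le_pow_right₀ h1 (by omega)
        _ ≤ _ := one_le_pow₀ (z_one H _)
  · -- c_le
    have h0 := z_pos H m
    have h1 := z_one H m
    rw [K_succ H, one_mul]
    simp only [prm]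
    refine Real.rpow_le_rpow_of_exponent_le h1 ?_
    have h5 : -1 ≤ σ := by linarith
    nlinarith
  · -- seed
    obtain ⟨m₀, hm₀⟩ := pow_unbounded_of_one_lt R (by norm_num : (1 : ℝ) < 2)
    refine ⟨m₀, fun m hm => ?_⟩
    have h0 := z_pos H m
    have h1 := z_one H m
    have hb := z_big H m
    simp only [prm, thP]
    rw [z_succ_rpow H, mul_one_div, div_lt_iff₀ (by positivity), ← Real.rpow_natCast,
      ← Real.rpow_add h0]
    have h2 : R < zz N m ^ m := by
      calc R < 2 ^ m₀ := hm₀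
        _ ≤ 2 ^ m := pow_le_pow_right₀ (by norm_num) hm
        _ ≤ _ := pow_le_pow_left₀ (by norm_num) (by linarith) _
    refine h2.trans_le ?_
    rw [← Real.rpow_natCast]
    refine Real.rpow_le_rpow_of_exponent_le h1 ?_
    push_cast
    linarith
  · -- small
    obtain ⟨m₀, hm₀⟩ := pow_unbounded_of_one_lt (|M| / ν ^ 2) (by norm_num : (1 : ℝ) < 2)
    refine ⟨m₀, fun m hm => ?_⟩
    have h0 := z_pos H m
    have h1 := z_one H m
    rw [mu_zero_succ H]
    simp only [prm]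
    have h2 : |M| / ν ^ 2 ≤ zz N m := by
      have h3 := zz_two (by have := H.N4; have : (2 : ℝ) ≤ N := by linarith
                            exact_mod_cast this : 2 ≤ N) 0 m
      rw [z0, zero_add] at h3
      calc |M| / ν ^ 2 ≤ 2 ^ m₀ := hm₀.le
        _ ≤ 2 ^ m := pow_le_pow_right₀ (by norm_num) hm
        _ = 2 ^ m * 1 := (mul_one _).symm
        _ ≤ 2 ^ m * N := mul_le_mul_of_nonneg_left (by linarith) (by positivity)
        _ ≤ _ := h3
    rw [div_le_iff₀ (by positivity)] at h2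
    have h4 : zz N m * zz N m ^ (-(2 * a * σ + 2)) ≤ (zz N m ^ (4 * (a : ℝ) * α)) ^ 2 := by
      calc zz N m * zz N m ^ (-(2 * a * σ + 2)) = zz N m ^ (1 + -(2 * a * σ + 2)) := by
            rw [Real.rpow_add h0, Real.rpow_one]
        _ ≤ zz N m ^ (4 * (a : ℝ) * α * (2 : ℕ)) := by
            refine Real.rpow_le_rpow_of_exponent_le h1 ?_
            have : 0 ≤ (a : ℝ) * (σ + 4 * α) := mul_nonneg ha (by linarith)
            push_cast
            linarith
        _ = _ := by rw [Real.rpow_mul h0.le, Real.rpow_natCast]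
    have h5 : 0 < zz N m ^ (-(2 * a * σ + 2)) := by positivity
    calc M * zz N m ^ (-(2 * a * σ + 2)) ≤ |M| * zz N m ^ (-(2 * a * σ + 2)) :=
          mul_le_mul_of_nonneg_right (le_abs_self M) h5.le
      _ ≤ zz N m * ν ^ 2 * zz N m ^ (-(2 * a * σ + 2)) := mul_le_mul_of_nonneg_right h2 h5.le
      _ = ν ^ 2 * (zz N m * zz N m ^ (-(2 * a * σ + 2))) := by ring
      _ ≤ ν ^ 2 * (zz N m ^ (4 * (a : ℝ) * α)) ^ 2 :=
          mul_le_mul_of_nonneg_left h4 (by positivity)
      _ = _ := by ring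

end

theorem para : S_PARA := by
  intro ν α σ hν hα h1 h2
  have hg : 0 < 1 / 4 - σ - 4 * α := by linarith
  obtain ⟨a₀, ha₀⟩ := exists_nat_ge (5 / 2 / (1 / 4 - σ - 4 * α))
  refine ⟨a₀ + 1, fun a ha A hA δ hδ => ?_⟩
  obtain ⟨N₀, hN₀⟩ := exists_nat_ge ((16 * (ee σ a + A + 3)) ^ 8 + 20 * (ν + 1) +
    (28 * (ν + 1) + 14 / δ) ^ 2 + 4096)
  refine ⟨N₀, fun N hN => ?_⟩
  have hN' : (N₀ : ℝ) ≤ N := by exact_mod_cast hN
  have a2 : 5 / 2 ≤ (a : ℝ) * (1 / 4 - σ - 4 * α) := by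
    rw [div_le_iff₀ hg] at ha₀
    have : (a₀ : ℝ) ≤ a := by exact_mod_cast (by omega : a₀ ≤ a)
    nlinarith
  have p1 : 0 ≤ (16 * (ee σ a + A + 3)) ^ 8 := by positivity
  have p2 : 0 ≤ (28 * (ν + 1) + 14 / δ) ^ 2 := by positivity
  have H : Hy ν α σ δ a A N :=
    ⟨hν, hα, h1, h2, by omega, a2, hA, hδ, by linarith, by linarith, by linarith, by linarith⟩
  exact ⟨ok H, ch H, tot_δ H⟩

end Pool.Agent.H306.HD.TPARA

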