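import Pool.Agent.H306.HD.Stm3

/-! Choice of the parameters, second part: decay of the operator bound. -/

set_option autoImplicit false

noncomputable section

namespace Pool.Agent.H306.HD.TPARB

open Set MeasureTheory Filter

open scoped Real ContDiff ENNReal

open Pool.Agent.H306.CK Pool.Agent.H306.DS Pool.Agent.H306.HD

theorem z_one {N : ℕ} (hN : 1 ≤ N) (m : ℕ) : 1 ≤ zz N m := by
  unfold zz
  exact one_le_pow₀ (by exact_mod_cast hN)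

theorem K_eq (ν α σ : ℝ) (a A N m : ℕ) : ((prm ν α σ a A N).K m : ℝ) = zz N m ^ (a : ℝ) := by
  have h : (prm ν α σ a A N).K m = N ^ (a * 2 ^ m) := rfl
  rw [h, Real.rpow_natCast]
  unfold zz
  push_cast
  rw [← pow_mul]
  congr 1
  ring

theorem K_succ (ν α σ : ℝ) (a A N m : ℕ) (hN : 1 ≤ N) :
    ((prm ν α σ a A N).K (m + 1) : ℝ) = zz N m ^ (2 * (a : ℝ)) := by
  have hz : 0 ≤ zz N m := le_trans zero_le_one (z_one hN m)
  rw [K_eq, zz_succ, ← Real.rpow_natCast, ← Real.rpow_mul hz]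
  norm_num

/-- The bracket. -/
theorem br_eq (ν α σ S : ℝ) (a A N m : ℕ) (hN : 1 ≤ N) :
    ν ^ 2 * ((prm ν α σ a A N).K m : ℝ) ^ (2 * (σ + 2 * α - 1)) +
      (prm ν α σ a A N).c m ^ 2 * ((prm ν α σ a A N).K (m + 1) : ℝ) ^ (2 * σ) +
      (prm ν α σ a A N).ε m ^ 2 * ((prm ν α σ a A N).K (m + 1) : ℝ) ^ (4 * (S + 1)) =
    ν ^ 2 * zz N m ^ ((a : ℝ) * (2 * (σ + 2 * α - 1))) + zz N m ^ (-4 : ℝ) +
      zz N m ^ (-2 * ((m : ℝ) + A) + 8 * a * (S + 1)) := by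
  have hz1 := z_one hN m
  have hz : 0 < zz N m := by linarith
  have hc : (prm ν α σ a A N).c m = zz N m ^ (-(2 * a * σ + 2) : ℝ) := rfl
  have he : (prm ν α σ a A N).ε m = 1 / zz N m ^ (m + A) := rfl
  rw [K_succ ν α σ a A N m hN, K_eq, hc, he, ← Real.rpow_mul hz.le, ← Real.rpow_mul hz.le, ← Real.rpow_mul hz.le]
  congr 1
  · congr 1
    rw [← Real.rpow_natCast, ← Real.rpow_mul hz.le, ← Real.rpow_add hz]
    congr 1
    push_cast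
    ring
  · have h1 : (1 / zz N m ^ (m + A)) ^ 2 = zz N m ^ (-2 * ((m : ℝ) + A)) := by
      rw [one_div, ← Real.rpow_natCast (zz N m), ← Real.rpow_neg hz.le, ← Real.rpow_natCast, ← Real.rpow_mul hz.le]
      congr 1
      push_cast
      ring
    rw [h1, ← Real.rpow_add hz]
    congr 1
    ring

theorem t1 (α σ : ℝ) (a N m : ℕ) (hN : 1 ≤ N) (hα : 0 < α) (h : 4 * α + σ < 1 / 4) (ha : 2 ≤ a) :
    zz N m ^ ((a : ℝ) * (2 * (σ + 2 * α - 1))) ≤ zz N m ^ (-2 : ℝ) := by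
  refine Real.rpow_le_rpow_of_exponent_le (z_one hN m) ?_
  have ha' : (2 : ℝ) ≤ a := by exact_mod_cast ha
  nlinarith

theorem main1 (ν α σ S C δ : ℝ) (n a A : ℕ) (hα : 0 < α) (h : 4 * α + σ < 1 / 4)
    (hC : 0 ≤ C) (hδ : 0 < δ) (ha : 2 ≤ a) (hA : 4 * (a : ℝ) * (S + 1) + 1 ≤ A) (N : ℕ) (hN2 : 2 ^ (n + 3) ≤ N)
    (hN3 : C * (ν ^ 2 + 2) / δ ≤ N) (m : ℕ) :
    C * 2 ^ (n * m) * (ν ^ 2 * ((prm ν α σ a A N).K m : ℝ) ^ (2 * (σ + 2 * α - 1)) +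
      (prm ν α σ a A N).c m ^ 2 * ((prm ν α σ a A N).K (m + 1) : ℝ) ^ (2 * σ) +
      (prm ν α σ a A N).ε m ^ 2 * ((prm ν α σ a A N).K (m + 1) : ℝ) ^ (4 * (S + 1))) ≤ δ * (1 / 8) ^ m := by
  have hN : 1 ≤ N := le_trans (Nat.one_le_two_pow) hN2
  have hNr : (1 : ℝ) ≤ N := by exact_mod_cast hN
  have hN0 : (0 : ℝ) < N := by linarith
  have hz1 := z_one hN m
  have hz : 0 < zz N m := by linarith
  rw [br_eq ν α σ S a A N m hN]
  have e1 := t1 α σ a N m hN hα h ha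
  have e2 : zz N m ^ (-4 : ℝ) ≤ zz N m ^ (-2 : ℝ) := Real.rpow_le_rpow_of_exponent_le hz1 (by norm_num)
  have e3 : zz N m ^ (-2 * ((m : ℝ) + A) + 8 * a * (S + 1)) ≤ zz N m ^ (-2 : ℝ) := by
    refine Real.rpow_le_rpow_of_exponent_le hz1 ?_
    have : (0 : ℝ) ≤ m := Nat.cast_nonneg m
    nlinarith
  have hz2 : 0 < zz N m ^ (-2 : ℝ) := Real.rpow_pos_of_pos hz _
  have e4 : ν ^ 2 * zz N m ^ ((a : ℝ) * (2 * (σ + 2 * α - 1))) + zz N m ^ (-4 : ℝ) +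
      zz N m ^ (-2 * ((m : ℝ) + A) + 8 * a * (S + 1)) ≤ (ν ^ 2 + 2) * zz N m ^ (-2 : ℝ) := by
    have := mul_le_mul_of_nonneg_left e1 (sq_nonneg ν)
    linarith
  have e5 : (N : ℝ) ^ (m + 1) ≤ zz N m := by
    unfold zz
    exact pow_le_pow_right₀ hNr (Nat.lt_two_pow_self)
  have e6 : zz N m ^ (-2 : ℝ) ≤ 1 / ((N : ℝ) ^ (m + 1)) ^ 2 := by
    rw [Real.rpow_neg hz.le, one_div, show (2 : ℝ) = ((2 : ℕ) : ℝ) by norm_num, Real.rpow_natCast]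
    exact inv_anti₀ (by positivity) (pow_le_pow_left₀ (by positivity) e5 2)
  have e7 : (2 : ℝ) ^ (n * m) * 8 ^ m ≤ (N : ℝ) ^ m := by
    have h1 : (2 : ℝ) ^ (n * m) * 8 ^ m = (2 ^ (n + 3)) ^ m := by
      rw [show (8 : ℝ) = 2 ^ 3 by norm_num, ← pow_mul, ← pow_mul, ← pow_add]
      congr 1
      ring
    rw [h1]
    exact pow_le_pow_left₀ (by positivity) (by exact_mod_cast hN2) m
  have hν : 0 ≤ ν ^ 2 + 2 := by positivity
  have e8 : C * (ν ^ 2 + 2) ≤ δ * N := by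
    rw [div_le_iff₀ hδ] at hN3
    linarith
  have h8 : (0 : ℝ) < 8 ^ m := by positivity
  have e9 : (1 / 8 : ℝ) ^ m = 1 / 8 ^ m := by rw [one_div_pow]
  rw [e9, mul_one_div, le_div_iff₀ h8]
  calc C * 2 ^ (n * m) * (ν ^ 2 * zz N m ^ ((a : ℝ) * (2 * (σ + 2 * α - 1))) + zz N m ^ (-4 : ℝ) +
      zz N m ^ (-2 * ((m : ℝ) + A) + 8 * a * (S + 1))) * 8 ^ m ≤
      C * 2 ^ (n * m) * ((ν ^ 2 + 2) * (1 / ((N : ℝ) ^ (m + 1)) ^ 2)) * 8 ^ m := by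
        refine mul_le_mul_of_nonneg_right (mul_le_mul_of_nonneg_left (e4.trans ?_) (by positivity)) h8.le
        exact mul_le_mul_of_nonneg_left e6 hν
    _ = C * (ν ^ 2 + 2) * (1 / ((N : ℝ) ^ (m + 1)) ^ 2) * (2 ^ (n * m) * 8 ^ m) := by ring
    _ ≤ C * (ν ^ 2 + 2) * (1 / ((N : ℝ) ^ (m + 1)) ^ 2) * (N : ℝ) ^ m :=
        mul_le_mul_of_nonneg_left e7 (by positivity)
    _ ≤ (δ * N) * (1 / ((N : ℝ) ^ (m + 1)) ^ 2) * (N : ℝ) ^ m := by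
        refine mul_le_mul_of_nonneg_right (mul_le_mul_of_nonneg_right e8 (by positivity)) (by positivity)
    _ = δ * (1 / (N : ℝ) ^ (m + 1)) := by
        rw [pow_succ (N : ℝ) m]
        field_simp
    _ ≤ δ * 1 := by
        refine mul_le_mul_of_nonneg_left ?_ hδ.le
        rw [div_le_one (by positivity)]
        exact one_le_pow₀ hNr
    _ = δ := mul_one δ

theorem sq_le_two_pow (m : ℕ) (hm : 4 ≤ m) : m * m ≤ 2 ^ m := by
  induction m, hm using Nat.le_induction with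
  | base => norm_num
  | succ m hm ih =>
    rw [pow_succ]
    nlinarith

theorem main2 (ν α σ : ℝ) (a A : ℕ) (hα : 0 < α) (h : 4 * α + σ < 1 / 4) (ha : 2 ≤ a) (N : ℕ) (hN2 : 2 ≤ N)
    (S' C' : ℝ) (n' : ℕ) (hC : 0 ≤ C') : ∃ C'' : ℝ, 0 ≤ C'' ∧ ∀ m,
      C' * 2 ^ (n' * m) * (ν ^ 2 * ((prm ν α σ a A N).K m : ℝ) ^ (2 * (σ + 2 * α - 1)) +
      (prm ν α σ a A N).c m ^ 2 * ((prm ν α σ a A N).K (m + 1) : ℝ) ^ (2 * σ) +
      (prm ν α σ a A N).ε m ^ 2 * ((prm ν α σ a A N).K (m + 1) : ℝ) ^ (4 * (S' + 1))) ≤ C'' * (1 / 8) ^ m := by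
  have hN : 1 ≤ N := by omega
  have hNr : (1 : ℝ) ≤ N := by exact_mod_cast hN
  obtain ⟨f, hf⟩ : ∃ f : ℕ → ℝ, ∀ m, f m = C' * 2 ^ (n' * m) *
    (ν ^ 2 * ((prm ν α σ a A N).K m : ℝ) ^ (2 * (σ + 2 * α - 1)) +
      (prm ν α σ a A N).c m ^ 2 * ((prm ν α σ a A N).K (m + 1) : ℝ) ^ (2 * σ) +
      (prm ν α σ a A N).ε m ^ 2 * ((prm ν α σ a A N).K (m + 1) : ℝ) ^ (4 * (S' + 1))) * 8 ^ m := ⟨_, fun _ => rfl⟩
  have hb : IsBoundedUnder (· ≤ ·) atTop f := by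
    refine ⟨C' * (ν ^ 2 + 2), ?_⟩
    rw [eventually_map]
    obtain ⟨m₁, hm₁⟩ := exists_nat_ge (8 * (a : ℝ) * (S' + 1) + 1)
    filter_upwards [eventually_ge_atTop (m₁ + n' + 3 + 4)] with m hm
    have hz1 := z_one hN m
    have hz : 0 < zz N m := by linarith
    rw [hf, br_eq ν α σ S' a A N m hN]
    have e1 := t1 α σ a N m hN hα h ha
    have e0 : zz N m ^ (-2 : ℝ) ≤ zz N m ^ (-1 : ℝ) := Real.rpow_le_rpow_of_exponent_le hz1 (by norm_num)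
    have e2 : zz N m ^ (-4 : ℝ) ≤ zz N m ^ (-1 : ℝ) := Real.rpow_le_rpow_of_exponent_le hz1 (by norm_num)
    have e3 : zz N m ^ (-2 * ((m : ℝ) + A) + 8 * a * (S' + 1)) ≤ zz N m ^ (-1 : ℝ) := by
      refine Real.rpow_le_rpow_of_exponent_le hz1 ?_
      have h1 : (m₁ : ℝ) ≤ m := by exact_mod_cast (show m₁ ≤ m by omega)
      have h2 : (0 : ℝ) ≤ A := Nat.cast_nonneg A
      have h3 : (0 : ℝ) ≤ m := Nat.cast_nonneg m
      linarith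
    have hz2 : 0 < zz N m ^ (-1 : ℝ) := Real.rpow_pos_of_pos hz _
    have e4 : ν ^ 2 * zz N m ^ ((a : ℝ) * (2 * (σ + 2 * α - 1))) + zz N m ^ (-4 : ℝ) +
        zz N m ^ (-2 * ((m : ℝ) + A) + 8 * a * (S' + 1)) ≤ (ν ^ 2 + 2) * zz N m ^ (-1 : ℝ) := by
      have := mul_le_mul_of_nonneg_left (e1.trans e0) (sq_nonneg ν)
      linarith
    have e5 : (2 : ℝ) ^ (n' * m) * 8 ^ m ≤ zz N m := by
      have h1 : (2 : ℝ) ^ (n' * m) * 8 ^ m = 2 ^ ((n' + 3) * m) := by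
        rw [show (8 : ℝ) = 2 ^ 3 by norm_num, ← pow_mul, ← pow_add]
        congr 1
        ring
      rw [h1]
      have h2 : (n' + 3) * m ≤ 2 ^ m :=
        le_trans (Nat.mul_le_mul_right m (by omega)) (sq_le_two_pow m (by omega))
      calc (2 : ℝ) ^ ((n' + 3) * m) ≤ 2 ^ (2 ^ m) := pow_le_pow_right₀ (by norm_num) h2
        _ ≤ (N : ℝ) ^ (2 ^ m) := pow_le_pow_left₀ (by norm_num) (by exact_mod_cast hN2) _
        _ = zz N m := rfl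
    have hν : 0 ≤ ν ^ 2 + 2 := by positivity
    calc C' * 2 ^ (n' * m) * (ν ^ 2 * zz N m ^ ((a : ℝ) * (2 * (σ + 2 * α - 1))) + zz N m ^ (-4 : ℝ) +
        zz N m ^ (-2 * ((m : ℝ) + A) + 8 * a * (S' + 1))) * 8 ^ m ≤
        C' * 2 ^ (n' * m) * ((ν ^ 2 + 2) * zz N m ^ (-1 : ℝ)) * 8 ^ m :=
          mul_le_mul_of_nonneg_right (mul_le_mul_of_nonneg_left e4 (by positivity)) (by positivity)
      _ = C' * (ν ^ 2 + 2) * zz N m ^ (-1 : ℝ) * (2 ^ (n' * m) * 8 ^ m) := by ring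
      _ ≤ C' * (ν ^ 2 + 2) * zz N m ^ (-1 : ℝ) * zz N m := mul_le_mul_of_nonneg_left e5 (by positivity)
      _ = C' * (ν ^ 2 + 2) := by
          rw [Real.rpow_neg hz.le, Real.rpow_one, mul_assoc, inv_mul_cancel₀ hz.ne', mul_one]
  obtain ⟨M, hM⟩ := hb.bddAbove_range
  refine ⟨max M 0, le_max_right _ _, fun m => ?_⟩
  have h1 : f m ≤ max M 0 := (hM ⟨m, rfl⟩).trans (le_max_left _ _)
  have h8 : (0 : ℝ) < 8 ^ m := by positivity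
  rw [one_div_pow, mul_one_div, le_div_iff₀ h8]
  rw [hf] at h1
  exact h1

theorem parb : S_PARB := by
  intro ν α σ S C δ n a A hν hα h hσ hS hC hδ ha hA
  obtain ⟨N₁, hN₁⟩ := exists_nat_ge (C * (ν ^ 2 + 2) / δ)
  obtain ⟨t, ht⟩ : ∃ t : ℕ, t = 2 ^ (n + 3) := ⟨_, rfl⟩
  refine ⟨N₁ + t + 2, fun N hN => ⟨fun m => ?_, fun S' C' n' hS' hC' => ?_⟩⟩
  · exact main1 ν α σ S C δ n a A hα h hC hδ ha hA N (by rw [← ht]; omega)
      (hN₁.trans (by exact_mod_cast (show N₁ ≤ N by omega))) m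
  · exact main2 ν α σ a A hα h ha N (by omega) S' C' n' hC'

end Pool.Agent.H306.HD.TPARB
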