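import Pool.Agent.H306.HD.Def

/-! The reading multiplier on the modes. -/

noncomputable section

namespace Pool.Agent.H306.HD.TPIM

open Set MeasureTheory

open scoped Real ContDiff ENNReal

open Pool.Agent.H306.CK Pool.Agent.H306.DS Pool.Agent.H306.HD

theorem ii {h : ℝ → ℝ} (hh : Continuous h) (n : ℤ) :
    IntervalIntegrable (fun y : ℝ => (h y : ℂ) * Complex.exp (-(Complex.I * (n * y)))) volume (-π) π :=
  Continuous.intervalIntegrable (by fun_prop) _ _

theorem c1_mul_cos {h : ℝ → ℝ} (hh : Continuous h) (a : ℕ) (n : ℤ) :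
    c1 (fun y => h y * Real.cos (a * y)) n = (1 / 2) * c1 h (n - a) + (1 / 2) * c1 h (n + a) := by
  unfold c1
  rw [← intervalIntegral.integral_const_mul, ← intervalIntegral.integral_const_mul,
    ← intervalIntegral.integral_add ((ii hh _).const_mul _) ((ii hh _).const_mul _)]
  congr 1
  ext y
  rw [Complex.ofReal_mul, cos_exp]
  have e1 : Complex.exp (-(Complex.I * (((n - a : ℤ) : ℂ) * y))) =
      Complex.exp (Complex.I * (a * y)) * Complex.exp (-(Complex.I * (n * y))) := by
    rw [← Complex.exp_add]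
    congr 1
    push_cast
    ring
  have e2 : Complex.exp (-(Complex.I * (((n + a : ℤ) : ℂ) * y))) =
      Complex.exp (Complex.I * (-a * y)) * Complex.exp (-(Complex.I * (n * y))) := by
    rw [← Complex.exp_add]
    congr 1
    push_cast
    ring
  rw [e1, e2]
  ring

theorem c1_mul_sin {h : ℝ → ℝ} (hh : Continuous h) (a : ℕ) (n : ℤ) :
    c1 (fun y => h y * Real.sin (a * y)) n =
      (-Complex.I / 2) * c1 h (n - a) + (Complex.I / 2) * c1 h (n + a) := by
  unfold c1
  rw [← intervalIntegral.integral_const_mul, ← intervalIntegral.integral_const_mul,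
    ← intervalIntegral.integral_add ((ii hh _).const_mul _) ((ii hh _).const_mul _)]
  congr 1
  ext y
  rw [Complex.ofReal_mul, sin_exp]
  have e1 : Complex.exp (-(Complex.I * (((n - a : ℤ) : ℂ) * y))) =
      Complex.exp (Complex.I * (a * y)) * Complex.exp (-(Complex.I * (n * y))) := by
    rw [← Complex.exp_add]
    congr 1
    push_cast
    ring
  have e2 : Complex.exp (-(Complex.I * (((n + a : ℤ) : ℂ) * y))) =
      Complex.exp (Complex.I * (-a * y)) * Complex.exp (-(Complex.I * (n * y))) := by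
    rw [← Complex.exp_add]
    congr 1
    push_cast
    ring
  rw [e1, e2]
  ring

theorem c1_one (n : ℤ) : c1 (fun _ => 1) n = if n = 0 then 2 * π else 0 := by
  have h := int_exp (-n)
  have h2 : c1 (fun _ => 1) n =
      ∫ y in (-π)..π, Complex.exp (Complex.I * (((-n : ℤ) : ℂ) * y)) := by
    unfold c1
    congr 1
    ext y
    push_cast
    rw [one_mul]
    congr 1
    ring
  rw [h2, h]
  by_cases hn : n = 0
  · rw [hn]; simp
  · rw [if_neg hn, if_neg (neg_ne_zero.2 hn)]

theorem c1_cos0 (a : ℕ) (n : ℤ) : c1 (fun y => Real.cos (a * y)) n =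
    (1 / 2) * c1 (fun _ => 1) (n - a) + (1 / 2) * c1 (fun _ => 1) (n + a) := by
  rw [← c1_mul_cos continuous_const]
  simp only [one_mul]

theorem c1_sin0 (a : ℕ) (n : ℤ) : c1 (fun y => Real.sin (a * y)) n =
    (-Complex.I / 2) * c1 (fun _ => 1) (n - a) + (Complex.I / 2) * c1 (fun _ => 1) (n + a) := by
  rw [← c1_mul_sin continuous_const]
  simp only [one_mul]

theorem c1_trg (j K : ℕ) (n : ℤ) (h : |n| ≠ K) : c1 (fun a => trg j (K * a)) n = 0 := by
  have h1 : n - K ≠ 0 := by
    intro h2
    apply h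
    have h3 : n = K := by omega
    rw [h3]
    exact abs_of_nonneg (by positivity)
  have h2 : n + K ≠ 0 := by
    intro h2
    apply h
    have h3 : n = -(K : ℤ) := by omega
    rw [h3, abs_neg]
    exact abs_of_nonneg (by positivity)
  unfold trg
  by_cases hj : Even j
  · simp only [if_pos hj]
    rw [c1_cos0, c1_one, c1_one, if_neg h1, if_neg h2]
    simp
  · simp only [if_neg hj]
    rw [c1_sin0, c1_one, c1_one, if_neg h1, if_neg h2]
    simp

theorem trg_smooth (j K : ℕ) : ContDiff ℝ ∞ (fun a : ℝ => trg j (K * a)) := by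
  unfold trg
  by_cases hj : Even j
  · simp only [if_pos hj]
    exact Real.contDiff_cos.comp (contDiff_const.mul contDiff_id)
  · simp only [if_neg hj]
    exact Real.contDiff_sin.comp (contDiff_const.mul contDiff_id)

theorem trg_per (j K : ℕ) (a : ℝ) : trg j (K * (a + 2 * π)) = trg j (K * a) := by
  unfold trg
  rw [cos_nat_per, sin_nat_per]

theorem spf_prod {g h : ℝ → ℝ} (hg : ContDiff ℝ ∞ g) (hh : ContDiff ℝ ∞ h)
    (pg : ∀ y, g (y + 2 * π) = g y) (ph : ∀ y, h (y + 2 * π) = h y) :
    SPf (fun x : V => g (x 0) * h (x 1)) := by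
  constructor
  · exact (hg.comp (contDiff_apply ℝ ℝ 0)).mul (hh.comp (contDiff_apply ℝ ℝ 1))
  · intro i x
    have e : ∀ k : Fin 3, (x + Pi.single i (2 * Real.pi) : V) k = x k + if k = i then 2 * π else 0 :=
      fun k => by
        rw [Pi.add_apply, Pi.single_apply]
    simp only [e]
    fin_cases i
    · simp [pg]
    · simp [ph]
    · simp

theorem pim_mb (P : Prm) (m : ℕ) : Mb (pim P m) := by
  constructor
  · intro k
    unfold pim
    simp only [Pi.neg_apply, abs_neg, neg_eq_zero, dvd_neg]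
  · refine ⟨|2 * π / Lm P m|, 0, abs_nonneg _, fun k => ?_⟩
    rw [W_zero, mul_one]
    unfold pim
    split_ifs
    · exact le_rfl
    · rw [abs_zero]
      exact abs_nonneg _

theorem pim_modes : S_PIM := by
  intro hprof hfcp P hP m m' j
  have hpi := Real.pi_pos
  obtain ⟨xs, xp, xb, xn, xz, xl⟩ := hprof.1 m' (P.K (m' + 1)) (hP.K_one _) (hP.K_big m')
  have hX : X P m' = ch m' (P.K (m' + 1)) := rfl
  rw [← hX] at xs xp xb xn xz xl
  set l : ℕ := P.K (m' + 1) with hl
  have hl1 : 1 ≤ l := hP.K_one _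
  have hLm : 0 < Lm P m' := by
    unfold Lm
    refine lt_of_lt_of_le ?_ xl
    positivity
  -- the one-dimensional factors
  obtain ⟨gf, hgf⟩ : ∃ gf : ℝ → ℝ, gf = fun a => trg j (P.K m' * a) := ⟨_, rfl⟩
  obtain ⟨cf, hcf⟩ : ∃ cf : ℝ → ℝ, cf = fun b => Real.cos (((j * l : ℕ) : ℝ) * b) := ⟨_, rfl⟩
  obtain ⟨hf, hhf⟩ : ∃ hf : ℝ → ℝ, hf = fun b => X P m' b * Real.cos (((j * l : ℕ) : ℝ) * b) :=
    ⟨_, rfl⟩
  have sg : ContDiff ℝ ∞ gf := by rw [hgf]; exact trg_smooth _ _
  have sc : ContDiff ℝ ∞ cf := by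
    rw [hcf]
    exact Real.contDiff_cos.comp (contDiff_const.mul contDiff_id)
  have sh : ContDiff ℝ ∞ hf := by
    rw [hhf]
    exact xs.mul (Real.contDiff_cos.comp (contDiff_const.mul contDiff_id))
  have pg : ∀ y, gf (y + 2 * π) = gf y := fun y => by rw [hgf]; exact trg_per _ _ _
  have pc : ∀ y, cf (y + 2 * π) = cf y := fun y => by rw [hcf]; exact cos_nat_per _ _
  have ph : ∀ y, hf (y + 2 * π) = hf y := fun y => by
    rw [hhf]
    show X P m' (y + 2 * π) * Real.cos (((j * l : ℕ) : ℝ) * (y + 2 * π)) = _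
    rw [xp, cos_nat_per]
  have ef : (fun y : V => Em P m' j y 2) = fun y => gf (y 0) * hf (y 1) := by
    ext y
    rw [hgf, hhf]
    show X P m' (y 1) * cmode P m' j y = _
    unfold cmode
    push_cast
    ring
  have ec : cmode P m' j = fun y => gf (y 0) * cf (y 1) := by
    ext y
    rw [hgf, hcf]
    unfold cmode
    push_cast
    ring
  have spf := spf_prod sg sh pg ph
  have spc := spf_prod sg sc pg pc
  have hmb := pim_mb P m
  have hmg := mg_spf hmb spf
  have c1g : ∀ n : ℤ, |n| ≠ P.K m' → c1 gf n = 0 := fun n hn => by rw [hgf]; exact c1_trg _ _ _ hn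
  rw [ef]
  by_cases hm : m = m'
  · subst hm
    rw [if_pos rfl, ec]
    refine fc_inj hmg.1.continuous spc.1.continuous hmg.2 spc.2 fun k => ?_
    rw [fc_mg hmb spf, hfcp gf hf sg.continuous sh.continuous, hfcp gf cf sg.continuous sc.continuous]
    by_cases hk2 : k 2 = 0
    swap
    · rw [if_neg hk2]; simp
    by_cases hk0 : |k 0| = P.K m
    swap
    · rw [c1g _ hk0]; simp
    have e1 : c1 hf (k 1) = (1 / 2) * c1 (X P m) (k 1 - (j * l : ℕ)) +
        (1 / 2) * c1 (X P m) (k 1 + (j * l : ℕ)) := by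
      rw [hhf]; exact c1_mul_cos xs.continuous _ _
    have e2 : c1 cf (k 1) = (1 / 2) * c1 (fun _ => 1) (k 1 - (j * l : ℕ)) +
        (1 / 2) * c1 (fun _ => 1) (k 1 + (j * l : ℕ)) := by
      rw [hcf]; exact c1_cos0 _ _
    by_cases hd : ((l : ℕ) : ℤ) ∣ k 1
    · have hp : pim P m k = 2 * π / Lm P m := by
        unfold pim
        rw [if_pos ⟨hk0, hk2, hd⟩]
      have hl0 : (l : ℤ) ≠ 0 := by exact_mod_cast (by omega : l ≠ 0)
      have key : ∀ q : ℤ, ((2 * π / Lm P m : ℝ) : ℂ) * c1 (X P m) (q * l) =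
          c1 (fun _ => 1) (q * l) := by
        intro q
        rw [c1_one]
        by_cases hq : q = 0
        · rw [hq, zero_mul, if_pos rfl]
          have h0 : c1 (X P m) 0 = ((Lm P m : ℝ) : ℂ) := by
            unfold c1 Lm
            rw [← intervalIntegral.integral_ofReal]
            congr 1
            ext y
            simp
          rw [h0, ← Complex.ofReal_mul, div_mul_cancel₀ _ hLm.ne']
        · rw [if_neg (mul_ne_zero hq hl0), xz q hq, mul_zero, Complex.ofReal_zero]
      obtain ⟨i, hi⟩ := hd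
      have i1 : k 1 - (j * l : ℕ) = (i - j) * l := by rw [hi]; push_cast; ring
      have i2 : k 1 + (j * l : ℕ) = (i + j) * l := by rw [hi]; push_cast; ring
      rw [e1, e2, i1, i2, ← key, ← key, hp]
      ring
    · have hp : pim P m k = 0 := by
        unfold pim
        rw [if_neg fun h => hd h.2.2]
      have n1 : k 1 - (j * l : ℕ) ≠ 0 := by
        intro h
        apply hd
        refine ⟨j, ?_⟩
        have : k 1 = (j * l : ℕ) := by omega
        rw [this]
        push_cast
        ring
      have n2 : k 1 + (j * l : ℕ) ≠ 0 := by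
        intro h
        apply hd
        refine ⟨-j, ?_⟩
        have : k 1 = -((j * l : ℕ) : ℤ) := by omega
        rw [this]
        push_cast
        ring
      rw [hp, e2, c1_one, c1_one, if_neg n1, if_neg n2]
      simp
  · rw [if_neg hm]
    refine fc_inj hmg.1.continuous continuous_const hmg.2 (fun _ _ => rfl) fun k => ?_
    rw [fc_mg hmb spf, hfcp gf hf sg.continuous sh.continuous]
    have h0 : fc (0 : V → ℝ) k = 0 := by
      unfold fc; simp
    rw [h0]
    by_cases hk0 : |k 0| = P.K m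
    · have h1 : |k 0| ≠ P.K m' := by
        intro h2
        apply hm
        apply hP.K_mono.injective
        have : ((P.K m : ℕ) : ℤ) = P.K m' := by rw [← hk0, h2]
        exact_mod_cast this
      rw [c1g _ h1]
      simp
    · have hp : pim P m k = 0 := by
        unfold pim
        rw [if_neg fun h => hk0 h.1]
      rw [hp]
      simp

end Pool.Agent.H306.HD.TPIM
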