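import Pool.Agent.H306.HD.Stm2

noncomputable section

namespace Pool.Agent.H306.HD.TPROF

open Set MeasureTheory intervalIntegral

open scoped Real ContDiff ENNReal

open Pool.Agent.H306.CK Pool.Agent.H306.DS Pool.Agent.H306.HD

/-- the bump on the circle -/
def gf (m : ℕ) (y : ℝ) : ℝ := ρb (2 ^ m * Real.sin y)

theorem gf_cd (m : ℕ) : ContDiff ℝ ∞ (gf m) := by
  unfold gf
  exact ρb.contDiff.comp (contDiff_const.mul Real.contDiff_sin)

theorem gf_per (m : ℕ) (y : ℝ) : gf m (y + 2 * π) = gf m y := by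
  unfold gf; rw [Real.sin_add_two_pi]

theorem gf_nn (m : ℕ) (y : ℝ) : 0 ≤ gf m y := ρb.nonneg

theorem gf_le (m : ℕ) (y : ℝ) : gf m y ≤ 1 := ρb.le_one

theorem gf_ne {m : ℕ} {y : ℝ} (h : gf m y ≠ 0) : |2 ^ m * Real.sin y - 3 / 4| < 1 / 16 := by
  by_contra hcon
  push Not at hcon
  exact h (ρb.zero_of_le_dist (by rw [Real.dist_eq]; exact hcon))

theorem gf_one {m : ℕ} {y : ℝ} (h : |2 ^ m * Real.sin y - 3 / 4| ≤ 1 / 32) : gf m y = 1 :=
  ρb.one_of_mem_closedBall (by rw [Metric.mem_closedBall, Real.dist_eq]; exact h)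

/-- a primitive -/
def Rf (m : ℕ) (y : ℝ) : ℝ := ∫ u in (0 : ℝ)..y, gf m u

theorem Rf_deriv (m : ℕ) (y : ℝ) : HasDerivAt (Rf m) (gf m y) y :=
  (gf_cd m).continuous.integral_hasStrictDerivAt 0 y |>.hasDerivAt

theorem Rf_cd (m : ℕ) : ContDiff ℝ ∞ (Rf m) := by
  rw [contDiff_infty_iff_deriv]
  refine ⟨fun y => (Rf_deriv m y).differentiableAt, ?_⟩
  have : deriv (Rf m) = gf m := by
    ext y; exact (Rf_deriv m y).deriv
  rw [this]
  exact gf_cd m

theorem ch_eq (m l : ℕ) (y : ℝ) :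
    ch m l y = (l / (2 * π)) * (Rf m y - Rf m (y - 2 * π / l)) := by
  have hi : ∀ a b, IntervalIntegrable (gf m) volume a b := fun a b =>
    (gf_cd m).continuous.intervalIntegrable a b
  have h1 : ∫ s in (0 : ℝ)..(2 * π / l), gf m (y - s) = ∫ u in (y - 2 * π / l)..(y - 0), gf m u :=
    integral_comp_sub_left (gf m) y
  unfold ch Rf
  rw [integral_interval_sub_left (hi _ _) (hi _ _)]
  rw [sub_zero] at h1
  rw [← h1]
  rfl

theorem ch_hasDeriv (m l : ℕ) (y : ℝ) :
    HasDerivAt (ch m l) ((l / (2 * π)) * (gf m y - gf m (y - 2 * π / l))) y := by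
  have h1 : ch m l = fun y => (l / (2 * π)) * (Rf m y - Rf m (y - 2 * π / l)) := by
    ext y; exact ch_eq m l y
  rw [h1]
  have h2 := Rf_deriv m y
  have h3 : HasDerivAt (fun y => Rf m (y - 2 * π / l)) (gf m (y - 2 * π / l)) y :=
    (Rf_deriv m (y - 2 * π / l)).comp_sub_const y (2 * π / l)
  exact (h2.sub h3).const_mul _

theorem ch_cd (m l : ℕ) : ContDiff ℝ ∞ (ch m l) := by
  have h1 : ch m l = fun y => (l / (2 * π)) * (Rf m y - Rf m (y - 2 * π / l)) := by
    ext y; exact ch_eq m l y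
  rw [h1]
  exact contDiff_const.mul ((Rf_cd m).sub ((Rf_cd m).comp (contDiff_id.sub contDiff_const)))

theorem ch_per (m l : ℕ) (y : ℝ) : ch m l (y + 2 * π) = ch m l y := by
  unfold ch
  congr 1
  apply integral_congr
  intro s _
  show ρb (2 ^ m * Real.sin (y + 2 * π - s)) = ρb (2 ^ m * Real.sin (y - s))
  have : y + 2 * π - s = (y - s) + 2 * π := by ring
  rw [this, Real.sin_add_two_pi]

theorem ch_int (m l : ℕ) (y : ℝ) : ch m l y =
    (l / (2 * π)) * ∫ s in (0 : ℝ)..(2 * π / l), gf m (y - s) := rfl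

theorem ch_nn (m l : ℕ) (y : ℝ) : 0 ≤ ch m l y := by
  have hpi := Real.pi_pos
  rw [ch_int]
  exact mul_nonneg (by positivity) (integral_nonneg (by positivity) fun s _ => gf_nn m _)

theorem ch_le (m l : ℕ) (hl : 1 ≤ l) (y : ℝ) : ch m l y ≤ 1 := by
  have hpi := Real.pi_pos
  have hl0 : (0 : ℝ) < l := by exact_mod_cast hl
  rw [ch_int]
  have h1 : ∫ s in (0 : ℝ)..(2 * π / l), gf m (y - s) ≤ ∫ s in (0 : ℝ)..(2 * π / l), (1 : ℝ) := by
    apply integral_mono_on (by positivity)
    · apply Continuous.intervalIntegrable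
      exact (gf_cd m).continuous.comp (continuous_const.sub continuous_id)
    · exact intervalIntegrable_const
    · intro s _
      exact gf_le m _
  rw [intervalIntegral.integral_const, smul_eq_mul, mul_one, sub_zero] at h1
  calc (l / (2 * π)) * ∫ s in (0 : ℝ)..(2 * π / l), gf m (y - s)
      ≤ (l / (2 * π)) * (2 * π / l) := mul_le_mul_of_nonneg_left h1 (by positivity)
    _ = 1 := by field_simp

theorem ch_supp (m l : ℕ) (hl : 1 ≤ l) (hm : 2 ^ m * (2 * π / l) ≤ 1 / 16) (y : ℝ)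
    (h : ch m l y ≠ 0) : hχ m y = 1 := by
  have hpi := Real.pi_pos
  have hl0 : (0 : ℝ) < l := by exact_mod_cast hl
  have hex : ∃ s ∈ Icc (0 : ℝ) (2 * π / l), gf m (y - s) ≠ 0 := by
    by_contra hcon
    push Not at hcon
    apply h
    rw [ch_int]
    have : ∫ s in (0 : ℝ)..(2 * π / l), gf m (y - s) = ∫ s in (0 : ℝ)..(2 * π / l), (0 : ℝ) := by
      apply integral_congr
      intro s hs
      rw [uIcc_of_le (by positivity)] at hs
      exact hcon s hs
    rw [this]
    simp
  obtain ⟨s, hs, hne⟩ := hex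
  have h1 := gf_ne hne
  apply hχ_one
  have h2 := Real.abs_sin_sub_sin_le y (y - s)
  have h3 : |y - (y - s)| = s := by
    rw [show y - (y - s) = s by ring, abs_of_nonneg hs.1]
  rw [h3] at h2
  have h4 : |2 ^ m * Real.sin y - 2 ^ m * Real.sin (y - s)| ≤ 1 / 16 := by
    rw [← mul_sub, abs_mul, abs_of_nonneg (by positivity : (0 : ℝ) ≤ 2 ^ m)]
    calc (2 : ℝ) ^ m * |Real.sin y - Real.sin (y - s)| ≤ 2 ^ m * (2 * π / l) :=
          mul_le_mul_of_nonneg_left (h2.trans hs.2) (by positivity)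
      _ ≤ 1 / 16 := hm
  rw [abs_le] at h4 ⊢
  rw [abs_lt] at h1
  constructor <;> linarith [h4.1, h4.2, h1.1, h1.2]

/-- Fourier integral of a translate -/
theorem c1_shift {h : ℝ → ℝ} (_hc : Continuous h) (hper : ∀ y, h (y + 2 * π) = h y) (a : ℝ)
    (n : ℤ) : c1 (fun y => h (y - a)) n = Complex.exp (-(Complex.I * (n * a))) * c1 h n := by
  unfold c1
  have h1 : ∫ y in (-π)..π, ((h (y - a) : ℝ) : ℂ) * Complex.exp (-(Complex.I * (n * y))) =
      ∫ y in (-π)..π, (fun u : ℝ => ((h u : ℝ) : ℂ) *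
        Complex.exp (-(Complex.I * (n * ((u + a : ℝ) : ℂ))))) (y - a) := by
    apply integral_congr
    intro y _
    simp only
    congr 3
    push_cast
    ring
  have h1' := integral_comp_sub_right (a := -π) (b := π) (fun u : ℝ => ((h u : ℝ) : ℂ) *
        Complex.exp (-(Complex.I * (n * ((u + a : ℝ) : ℂ))))) a
  rw [h1, h1']
  have hp : Function.Periodic (fun u : ℝ => ((h u : ℝ) : ℂ) *
        Complex.exp (-(Complex.I * (n * ((u + a : ℝ) : ℂ))))) (2 * π) := by
    intro u
    simp only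
    rw [hper]
    congr 1
    rw [Complex.exp_eq_exp_iff_exists_int]
    refine ⟨-n, ?_⟩
    push_cast
    ring
  have h2 := hp.intervalIntegral_add_eq (-π - a) (-π)
  rw [show -π - a + 2 * π = π - a by ring, show -π + 2 * π = π by ring] at h2
  rw [h2, ← intervalIntegral.integral_const_mul]
  apply integral_congr
  intro u _
  have e : Complex.exp (-(Complex.I * (n * ((u + a : ℝ) : ℂ)))) =
      Complex.exp (-(Complex.I * (n * a))) * Complex.exp (-(Complex.I * (n * u))) := by
    rw [← Complex.exp_add]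
    congr 1
    push_cast
    ring
  simp only
  rw [e]
  ring

theorem shift_cd (m : ℕ) (a : ℝ) : ContDiff ℝ ∞ (fun y => gf m (y - a)) :=
  (gf_cd m).comp (contDiff_id.sub contDiff_const)

/-- Fourier integral of the envelope -/
theorem c1_ch (m l : ℕ) (n : ℤ) : Complex.I * n * c1 (ch m l) n =
    (l / (2 * π) : ℝ) * ((1 - Complex.exp (-(Complex.I * (n * (2 * π / l : ℝ))))) *
      c1 (gf m) n) := by
  rw [← c1_deriv (ch_cd m l) (ch_per m l)]
  have h1 : deriv (ch m l) = fun y => (l / (2 * π)) * (gf m y - gf m (y - 2 * π / l)) := by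
    ext y; exact (ch_hasDeriv m l y).deriv
  rw [h1, sub_mul, one_mul, ← c1_shift (gf_cd m).continuous (gf_per m)]
  unfold c1
  rw [← intervalIntegral.integral_sub, ← intervalIntegral.integral_const_mul]
  · apply integral_congr
    intro y _
    simp only
    push_cast
    ring
  · apply Continuous.intervalIntegrable
    have := (gf_cd m).continuous
    fun_prop
  · apply Continuous.intervalIntegrable
    have := (shift_cd m (2 * π / l)).continuous
    fun_prop

theorem c1_zero (m l : ℕ) (hl : 1 ≤ l) (j : ℤ) (hj : j ≠ 0) : c1 (ch m l) (j * l) = 0 := by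
  have hpi := Real.pi_pos
  have hl0 : (l : ℝ) ≠ 0 := by
    have : (0 : ℝ) < l := by exact_mod_cast hl
    exact this.ne'
  have hlc : (l : ℂ) ≠ 0 := by exact_mod_cast hl0
  have h := c1_ch m l (j * l)
  have he : Complex.exp (-(Complex.I * (((j * l : ℤ) : ℂ) * (2 * π / l : ℝ)))) = 1 := by
    rw [Complex.exp_eq_one_iff]
    refine ⟨-j, ?_⟩
    push_cast
    field_simp
  rw [he, sub_self, zero_mul, mul_zero] at h
  have hne : Complex.I * ((j * l : ℤ) : ℂ) ≠ 0 := by
    apply mul_ne_zero Complex.I_ne_zero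
    push_cast
    exact mul_ne_zero (by exact_mod_cast hj) hlc
  exact (mul_eq_zero.mp h).resolve_left hne

theorem c1_le (m l : ℕ) (hl : 1 ≤ l) (n : ℤ) (hn : n ≠ 0) : ‖c1 (ch m l) n‖ ≤ ‖c1 (gf m) n‖ := by
  have hpi := Real.pi_pos
  have hl0 : (0 : ℝ) < l := by exact_mod_cast hl
  have h := congrArg norm (c1_ch m l n)
  rw [norm_mul, norm_mul, norm_mul, norm_mul, Complex.norm_I, one_mul, Complex.norm_intCast,
    Complex.norm_real, Real.norm_eq_abs, abs_of_pos (by positivity : 0 < l / (2 * π))] at h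
  have h2 : ‖1 - Complex.exp (-(Complex.I * (n * (2 * π / l : ℝ))))‖ ≤ |(n : ℝ)| * (2 * π / l) := by
    have h3 := Real.norm_exp_I_mul_ofReal_sub_one_le (x := -(n * (2 * π / l)))
    have h4 : Complex.I * ((-(n * (2 * π / l)) : ℝ) : ℂ) =
        -(Complex.I * (n * (2 * π / l : ℝ))) := by
      push_cast; ring
    rw [h4, Real.norm_eq_abs, abs_neg, abs_mul, abs_of_pos (by positivity : 0 < 2 * π / l)] at h3
    rw [norm_sub_rev]
    exact h3
  have hn0 : 0 < |(n : ℝ)| := abs_pos.mpr (by exact_mod_cast hn)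
  have h5 : |(n : ℝ)| * ‖c1 (ch m l) n‖ ≤ |(n : ℝ)| * ‖c1 (gf m) n‖ := by
    rw [h]
    calc l / (2 * π) * (‖1 - Complex.exp (-(Complex.I * (n * (2 * π / l : ℝ))))‖ *
          ‖c1 (gf m) n‖) ≤ l / (2 * π) * ((|(n : ℝ)| * (2 * π / l)) * ‖c1 (gf m) n‖) := by
          gcongr
      _ = _ := by field_simp
  exact le_of_mul_le_mul_left h5 hn0

theorem int_ch (m l : ℕ) (hl : 1 ≤ l) : ∫ y in (-π)..π, ch m l y = ∫ y in (-π)..π, gf m y := by
  have hpi := Real.pi_pos
  have hl0 : (0 : ℝ) < l := by exact_mod_cast hl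
  have h1 : ∫ y in (-π)..π, ch m l y = (l / (2 * π)) *
      ∫ y in (-π)..π, ∫ s in (0 : ℝ)..(2 * π / l), gf m (y - s) := by
    rw [← intervalIntegral.integral_const_mul]
    rfl
  rw [h1, intervalIntegral_intervalIntegral_swap]
  · have h2 : ∫ s in (0 : ℝ)..(2 * π / l), ∫ y in (-π)..π, gf m (y - s) =
        ∫ s in (0 : ℝ)..(2 * π / l), ∫ y in (-π)..π, gf m y := by
      apply integral_congr
      intro s _
      simp only
      have h3 := integral_comp_sub_right (a := -π) (b := π) (gf m) s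
      rw [h3]
      have hp : Function.Periodic (gf m) (2 * π) := gf_per m
      have h4 := hp.intervalIntegral_add_eq (-π - s) (-π)
      rw [show -π - s + 2 * π = π - s by ring, show -π + 2 * π = π by ring] at h4
      exact h4
    rw [h2, intervalIntegral.integral_const, smul_eq_mul, sub_zero]
    field_simp
  · have hc : Continuous (Function.uncurry fun y s : ℝ => gf m (y - s)) := by
      have := (gf_cd m).continuous
      unfold Function.uncurry
      fun_prop
    have hK : IsCompact ((Set.uIcc (-π) π) ×ˢ (Set.uIcc (0 : ℝ) (2 * π / l))) :=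
      isCompact_uIcc.prod isCompact_uIcc
    exact (hc.continuousOn.integrableOn_compact hK).mono_set
      (Set.prod_mono Set.uIoc_subset_uIcc Set.uIoc_subset_uIcc)

theorem int_gf (m : ℕ) : 1 / (16 * 2 ^ m) ≤ ∫ y in (-π)..π, gf m y := by
  have h2m : (1 : ℝ) ≤ 2 ^ m := one_le_pow₀ (by norm_num)
  have h2m0 : (0 : ℝ) < 2 ^ m := by positivity
  set a := Real.arcsin (23 / 32 / 2 ^ m) with ha
  set b := Real.arcsin (25 / 32 / 2 ^ m) with hb
  have hle1 : (23 / 32 / 2 ^ m : ℝ) ≤ 1 := by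
    rw [div_le_one h2m0]; linarith
  have hle2 : (25 / 32 / 2 ^ m : ℝ) ≤ 1 := by
    rw [div_le_one h2m0]; linarith
  have hp1 : (0 : ℝ) < 23 / 32 / 2 ^ m := by positivity
  have hp2 : (0 : ℝ) < 25 / 32 / 2 ^ m := by positivity
  have hsa : Real.sin a = 23 / 32 / 2 ^ m := Real.sin_arcsin (by linarith) hle1
  have hsb : Real.sin b = 25 / 32 / 2 ^ m := Real.sin_arcsin (by linarith) hle2
  have ha1 := Real.neg_pi_div_two_le_arcsin (23 / 32 / 2 ^ m)
  have hb1 := Real.arcsin_le_pi_div_two (25 / 32 / 2 ^ m)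
  have hpi := Real.pi_pos
  have hab : a ≤ b := Real.arcsin_le_arcsin (by gcongr; norm_num)
  have hba : 1 / (16 * 2 ^ m) ≤ b - a := by
    have h1 : |Real.sin b - Real.sin a| ≤ |b - a| := Real.abs_sin_sub_sin_le b a
    rw [hsa, hsb, abs_of_nonneg (by linarith : 0 ≤ b - a)] at h1
    refine le_trans (le_of_eq ?_) ((le_abs_self _).trans h1)
    field_simp
    norm_num
  have h1 : ∫ y in a..b, gf m y ≤ ∫ y in (-π)..π, gf m y := by
    apply integral_mono_interval (by linarith) hab (by linarith)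
    · exact Filter.Eventually.of_forall fun y => gf_nn m y
    · exact (gf_cd m).continuous.intervalIntegrable _ _
  have h2 : ∫ y in a..b, gf m y = ∫ y in a..b, (1 : ℝ) := by
    apply integral_congr
    intro y hy
    rw [uIcc_of_le hab] at hy
    have hya : Real.sin a ≤ Real.sin y := by
      apply Real.sin_le_sin_of_le_of_le_pi_div_two ha1 (hy.2.trans hb1) hy.1
    have hyb : Real.sin y ≤ Real.sin b := by
      apply Real.sin_le_sin_of_le_of_le_pi_div_two (ha1.trans hy.1) hb1 hy.2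
    rw [hsa] at hya
    rw [hsb] at hyb
    rw [div_le_iff₀ h2m0] at hya
    rw [le_div_iff₀ h2m0] at hyb
    exact gf_one (by
      rw [abs_le]
      constructor <;> nlinarith)
  rw [h2, intervalIntegral.integral_const, smul_eq_mul, mul_one] at h1
  linarith

theorem prof : S_PROF := by
  constructor
  · intro m l hl hm
    refine ⟨ch_cd m l, ch_per m l, fun y => ⟨ch_nn m l y, ch_le m l hl y⟩,
      fun y hy => ch_supp m l hl hm y hy, fun j hj => c1_zero m l hl j hj, ?_⟩
    rw [int_ch m l hl]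
    exact int_gf m
  · intro S
    obtain ⟨D, n, hD, h⟩ := prof_decay ρb S
    have hpi := Real.pi_pos
    refine ⟨D + 2 * π, n, by linarith, ?_⟩
    intro m l hl j
    have hw := one_le_w j
    have h2 : (1 : ℝ) ≤ 2 ^ (n * m) := one_le_pow₀ (by norm_num)
    rcases eq_or_ne j 0 with hj | hj
    · subst hj
      have hb : ∀ y, |ch m l y| ≤ 1 := fun y => by
        rw [abs_of_nonneg (ch_nn m l y)]; exact ch_le m l hl y
      have h3 := c1_bound hb 0
      simp only [Int.cast_zero]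
      norm_num
      norm_num at h3
      nlinarith
    · have h3 := h m j
      have h4 := c1_le m l hl j hj
      have h5 : (0 : ℝ) ≤ (1 + (j : ℝ) ^ 2) ^ (S / 2) := by positivity
      calc (1 + (j : ℝ) ^ 2) ^ (S / 2) * ‖c1 (ch m l) j‖
          ≤ (1 + (j : ℝ) ^ 2) ^ (S / 2) * ‖c1 (gf m) j‖ := mul_le_mul_of_nonneg_left h4 h5
        _ ≤ D * 2 ^ (n * m) * (1 / (1 + (j : ℝ) ^ 2)) := h3
        _ ≤ (D + 2 * π) * 2 ^ (n * m) * (1 / (1 + (j : ℝ) ^ 2)) := by
          gcongr
          linarith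

end Pool.Agent.H306.HD.TPROF
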