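import Pool.Agent.H306.HD.Stm4

/-! Test points for the vorticity (`S_PT`). -/

noncomputable section

namespace Pool.Agent.H306.HD.TPT

open Set MeasureTheory Filter

open scoped Real ContDiff ENNReal Topology

open Pool.Agent.H306.CK Pool.Agent.H306.DS Pool.Agent.H306.HD

theorem fm_eq (P : Prm) (m : ℕ) :
    (fun z : V => Fm P m z 0) = fun z : V => hχ m (z 1) * Real.cos (P.K (m + 1) * z 1) := by
  funext z
  simp [Fm]

theorem fm_diff (P : Prm) (m : ℕ) (x : V) :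
    DifferentiableAt ℝ (fun z : V => Fm P m z 0) x := by
  rw [fm_eq]
  have h1 : ContDiff ℝ ∞ (fun z : V => z 1) := contDiff_apply ℝ ℝ 1
  have h2 : ContDiff ℝ ∞ (fun z : V => hχ m (z 1) * Real.cos (P.K (m + 1) * z 1)) :=
    ((hχ_contDiff m).comp h1).mul (Real.contDiff_cos.comp (contDiff_const.mul h1))
  exact h2.differentiable (by simp) x

theorem exists_y (P : Prm) (hP : P.Ok) (m : ℕ) :
    ∃ y : ℝ, Real.sin (P.K (m + 1) * y) = -1 ∧ |2 ^ m * Real.sin y - 3 / 4| < 1 / 8 := by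
  have hl : (0 : ℝ) < P.K (m + 1) := by exact_mod_cast hP.K_one (m + 1)
  have hbig := hP.K_big m
  set l : ℝ := (P.K (m + 1) : ℝ) with hldef
  have h2m : (0 : ℝ) < 2 ^ m := by positivity
  have h2m1 : (1 : ℝ) ≤ 2 ^ m := one_le_pow₀ (by norm_num)
  have hle : (3 / 4 / 2 ^ m : ℝ) ≤ 1 := by
    rw [div_le_one h2m]
    linarith
  have hp : (0 : ℝ) < 3 / 4 / 2 ^ m := by positivity
  set y₀ : ℝ := Real.arcsin (3 / 4 / 2 ^ m) with hy₀
  have hs : Real.sin y₀ = 3 / 4 / 2 ^ m := Real.sin_arcsin (by linarith) hle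
  have hs2 : 2 ^ m * Real.sin y₀ = 3 / 4 := by
    rw [hs]
    field_simp
  set n : ℤ := ⌈(l * y₀ + π / 2) / (2 * π)⌉ with hn
  have hpi : (0 : ℝ) < 2 * π := by positivity
  have hn1 : l * y₀ + π / 2 ≤ n * (2 * π) := by
    have h1 := Int.le_ceil ((l * y₀ + π / 2) / (2 * π))
    rwa [← hn, div_le_iff₀ hpi] at h1
  have hn2 : n * (2 * π) < l * y₀ + π / 2 + 2 * π := by
    have h1 := Int.ceil_lt_add_one ((l * y₀ + π / 2) / (2 * π))
    rw [← hn] at h1
    have h2 : (n : ℝ) * (2 * π) < ((l * y₀ + π / 2) / (2 * π) + 1) * (2 * π) :=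
      mul_lt_mul_of_pos_right h1 hpi
    rw [add_mul, div_mul_cancel₀ _ hpi.ne', one_mul] at h2
    exact h2
  refine ⟨(n * (2 * π) - π / 2) / l, ?_, ?_⟩
  · rw [mul_div_cancel₀ _ hl.ne']
    have h1 : (n : ℝ) * (2 * π) - π / 2 = -(π / 2) + n * (2 * π) := by ring
    rw [h1, Real.sin_add_int_mul_two_pi, Real.sin_neg, Real.sin_pi_div_two]
  · set y : ℝ := (n * (2 * π) - π / 2) / l with hy
    have h1 : y₀ ≤ y := by
      rw [hy, le_div_iff₀ hl]
      linarith
    have h2 : y - y₀ ≤ 2 * π / l := by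
      rw [hy, sub_le_iff_le_add, div_le_iff₀ hl, add_mul, div_mul_cancel₀ _ hl.ne']
      linarith
    have h3 := Real.abs_sin_sub_sin_le y y₀
    rw [abs_of_nonneg (by linarith : 0 ≤ y - y₀)] at h3
    have h4 : 2 ^ m * Real.sin y - 3 / 4 = 2 ^ m * (Real.sin y - Real.sin y₀) := by
      rw [← hs2]
      ring
    rw [h4, abs_mul, abs_of_pos h2m]
    have h5 : 2 ^ m * |Real.sin y - Real.sin y₀| ≤ 2 ^ m * (2 * π / l) :=
      mul_le_mul_of_nonneg_left (h3.trans h2) h2m.le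
    linarith

/-- **S_PT.** -/
theorem pt : S_PT := by
  intro P hP m
  obtain ⟨y, hy1, hy2⟩ := exists_y P hP m
  refine ⟨![0, y, 0], fun m' => ?_⟩
  -- near `y` the cutoff of the band `m` is one
  have hev : ∀ᶠ s : ℝ in 𝓝 0, |2 ^ m * Real.sin (y + s) - 3 / 4| < 1 / 8 := by
    have hc : Continuous fun s : ℝ => |2 ^ m * Real.sin (y + s) - 3 / 4| := by fun_prop
    have h1 : |2 ^ m * Real.sin (y + 0) - 3 / 4| < 1 / 8 := by rwa [add_zero]
    exact hc.continuousAt.eventually_lt continuousAt_const h1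
  have hline : ∀ s : ℝ, ((![0, y, 0] : V) + s • (Pi.single 1 (1 : ℝ) : V)) 1 = y + s := by
    intro s
    simp
  have hval : ∀ s : ℝ, Fm P m' ((![0, y, 0] : V) + s • (Pi.single 1 (1 : ℝ) : V)) 0 =
      hχ m' (y + s) * Real.cos (P.K (m' + 1) * (y + s)) := by
    intro s
    have h1 := congrFun (fm_eq P m') ((![0, y, 0] : V) + s • (Pi.single 1 (1 : ℝ) : V))
    rw [hline] at h1
    exact h1
  refine pd_of_line (fm_diff P m' _) ?_
  have hfun : (fun s : ℝ => Fm P m' ((![0, y, 0] : V) + s • (Pi.single 1 (1 : ℝ) : V)) 0) =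
      fun s : ℝ => hχ m' (y + s) * Real.cos (P.K (m' + 1) * (y + s)) := funext hval
  rw [hfun]
  by_cases hm : m' = m
  · subst hm
    rw [if_pos rfl]
    have h1 : HasDerivAt (fun s : ℝ => Real.cos (P.K (m' + 1) * (y + s)))
        (-Real.sin (P.K (m' + 1) * (y + 0)) * (P.K (m' + 1) * 1)) 0 := by
      have h2 : HasDerivAt (fun s : ℝ => (P.K (m' + 1) : ℝ) * (y + s)) (P.K (m' + 1) * 1) 0 :=
        ((hasDerivAt_id (0 : ℝ)).const_add y).const_mul _
      exact h2.cos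
    rw [add_zero, hy1] at h1
    have h3 : -(-1 : ℝ) * ((P.K (m' + 1) : ℝ) * 1) = P.K (m' + 1) := by ring
    rw [h3] at h1
    refine h1.congr_of_eventuallyEq ?_
    filter_upwards [hev] with s hs
    rw [hχ_one hs.le, one_mul]
  · rw [if_neg hm]
    refine (hasDerivAt_const (0 : ℝ) (0 : ℝ)).congr_of_eventuallyEq ?_
    filter_upwards [hev] with s hs
    have h1 : hχ m (y + s) ≠ 0 := by
      rw [hχ_one hs.le]
      norm_num
    rw [hχ_disj (fun h => hm h.symm) h1, zero_mul]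

end Pool.Agent.H306.HD.TPT
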