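import Pool.Agent.H306.HD.Stm5

/-! From the chain to the series. -/

noncomputable section

namespace Pool.Agent.H306.HD.TRBY

open Set MeasureTheory

open scoped Real ContDiff ENNReal

open Pool.Agent.H306.CK Pool.Agent.H306.DS Pool.Agent.H306.HD

theorem eb_nonneg (P : Prm) (h : ∀ m, 0 < P.ε m) (m : ℕ) : 0 ≤ eb P m := by
  cases m with
  | zero => exact zero_le_one
  | succ m => exact (h m).le

theorem e2_nonneg (P : Prm) (h : ∀ m, 0 < P.ε m) (m : ℕ) : 0 ≤ e2 P m := by
  cases m with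
  | zero => exact le_refl _
  | succ m => exact add_nonneg (eb_nonneg P h m) (h m).le

/-- the summability of the seed terms -/
theorem seed_sum (P : Prm) (hP : P.Ok) (heps : ∀ m, 0 < P.ε m) (s : ℝ) (N : ℕ)
    (h2 : Summable fun r : ℕ × ℕ => ((1 / 4) ^ r.2 * (1 + r.2 : ℝ) ^ N * (eb P r.1 + P.ε r.1) *
      (P.K (r.1 + 1) : ℝ) ^ N) * Real.sqrt (hr s (Em P r.1 r.2)))
    (h3 : Summable fun m => eb P m * (P.K (m + 1) : ℝ) ^ N * Real.sqrt (hr s (Em P (m + 1) 0))) :
    Summable fun r : ℕ × ℕ => (if r.2 = 0 then e2 P r.1 * (P.K r.1 : ℝ) ^ N else 0) *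
      Real.sqrt (hr s (Em P r.1 r.2)) := by
  have hinj : Function.Injective (fun m : ℕ => (m, 0) : ℕ → ℕ × ℕ) := fun a b h => (Prod.mk.inj h).1
  rw [← hinj.summable_iff]
  · have h4 : Summable fun m : ℕ => e2 P (m + 1) * (P.K (m + 1) : ℝ) ^ N *
        Real.sqrt (hr s (Em P (m + 1) 0)) := by
      have hinj2 : Function.Injective (fun m : ℕ => (m + 1, 0) : ℕ → ℕ × ℕ) := fun a b h => by
        have := (Prod.mk.inj h).1
        omega
      have h5 := h2.comp_injective hinj2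
      refine Summable.of_nonneg_of_le (fun m => ?_) (fun m => ?_) (h3.add h5)
      · have := e2_nonneg P heps (m + 1)
        positivity
      · simp only [Function.comp_def]
        have h6 : e2 P (m + 1) = eb P m + P.ε m := rfl
        have h7 : eb P (m + 1) = P.ε m := rfl
        rw [h6, h7, pow_zero, one_mul, Nat.cast_zero, add_zero, one_pow, one_mul, add_mul, add_mul]
        refine add_le_add le_rfl ?_
        refine mul_le_mul_of_nonneg_right ?_ (Real.sqrt_nonneg _)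
        have h8 : (P.K (m + 1) : ℝ) ≤ P.K (m + 1 + 1) := by
          exact_mod_cast (hP.K_mono (Nat.lt_succ_self (m + 1))).le
        have h9 := pow_le_pow_left₀ (Nat.cast_nonneg _) h8 N
        have h10 := (heps m).le
        have h11 := (heps (m + 1)).le
        have h12 : (0 : ℝ) ≤ (P.K (m + 1) : ℝ) ^ N := by positivity
        calc P.ε m * (P.K (m + 1) : ℝ) ^ N ≤ P.ε m * (P.K (m + 1 + 1) : ℝ) ^ N :=
              mul_le_mul_of_nonneg_left h9 h10
          _ ≤ (P.ε m + P.ε (m + 1)) * (P.K (m + 1 + 1) : ℝ) ^ N :=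
              mul_le_mul_of_nonneg_right (by linarith) (by positivity)
    rw [← summable_nat_add_iff 1]
    refine h4.congr fun m => ?_
    simp
  · rintro ⟨m, i⟩ hmi
    have hi : i ≠ 0 := by
      rintro rfl
      exact hmi ⟨m, rfl⟩
    simp [hi]

theorem sb_of_bdd (hSer : S_SER) (hProf : S_PROF) (hComm : S_COMM) (hBdm : S_BDM) (P : Prm) (T : ℝ)
    (M : ℕ → ℕ ⊕ ℕ × ℕ → ℝ) (hP : P.Ok)
    (hrap : ∀ N : ℕ, ∃ C : ℝ, ∀ m, P.ε m * (P.K (m + 2) : ℝ) ^ N ≤ C) (heps : ∀ m, 0 < P.ε m)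
    (hM : ∀ q, ∃ C s : ℝ, 0 ≤ C ∧ ∀ r, 0 ≤ M q r ∧ M q r ≤ C * Real.sqrt (hr s (ph P r)))
    (b : ℕ → ℝ → ℝ) (g : ℕ → ℕ → ℝ → ℝ) (hb : Bdd P T b g) : SB M T (yy b g) := by
  obtain ⟨N, hN⟩ := hb
  intro q t₁ ht₁
  obtain ⟨R, hR0, hR⟩ := hN t₁ ht₁
  obtain ⟨C, s, hC0, hC⟩ := hM q
  obtain ⟨h1, h2, h3⟩ := hSer hProf hComm hBdm P hP hrap heps s N
  have h4 := seed_sum P hP heps s N h2 h3
  refine ⟨Sum.elim (fun m => (R * C) * ((eb P m + P.ε m) * (P.K (m + 1) : ℝ) ^ N *
      Real.sqrt (hr s (Fm P m))))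
    (fun r => (R * C) * (((1 / 4) ^ r.2 * (1 + r.2 : ℝ) ^ N * (eb P r.1 + P.ε r.1) *
      (P.K (r.1 + 1) : ℝ) ^ N) * Real.sqrt (hr s (Em P r.1 r.2)) +
      (if r.2 = 0 then e2 P r.1 * (P.K r.1 : ℝ) ^ N else 0) *
      Real.sqrt (hr s (Em P r.1 r.2)))), ?_, ?_⟩
  · refine Summable.sum _ ?_ ?_
    · exact h1.mul_left (R * C)
    · exact (h2.add h4).mul_left (R * C)
  · rintro (m | ⟨m, i⟩) t ht
    · have hh := (hR t ht m).1
      have hc := hC (Sum.inl m)
      have e1 : yy b g (Sum.inl m) t = b m t := rfl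
      have e2 : ph P (Sum.inl m) = Fm P m := rfl
      rw [e2] at hc
      rw [e1, Sum.elim_inl]
      have hw : 0 ≤ wB P N m := by
        have := eb_nonneg P heps m
        have := (heps m).le
        unfold wB; positivity
      calc |b m t| * M q (Sum.inl m) ≤ (R * wB P N m) * (C * Real.sqrt (hr s (Fm P m))) :=
            mul_le_mul hh hc.2 hc.1 (mul_nonneg hR0 hw)
        _ = _ := by unfold wB; ring
    · have hh := (hR t ht m).2 i
      have hc := hC (Sum.inr (m, i))
      have e1 : yy b g (Sum.inr (m, i)) t = g m i t := rfl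
      have e2' : ph P (Sum.inr (m, i)) = Em P m i := rfl
      rw [e2'] at hc
      rw [e1, Sum.elim_inr]
      have hw : 0 ≤ wG P N m i := by
        have h5 := eb_nonneg P heps m
        have h6 := (heps m).le
        have h7 := e2_nonneg P heps m
        unfold wG
        refine add_nonneg (by positivity) ?_
        split_ifs
        · positivity
        · exact le_refl _
      calc |g m i t| * M q (Sum.inr (m, i)) ≤ (R * wG P N m i) * (C * Real.sqrt (hr s (Em P m i))) :=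
            mul_le_mul hh hc.2 hc.1 (mul_nonneg hR0 hw)
        _ = _ := by unfold wG; ring

theorem rby : S_RBY := by
  intro hSer hProf hComm hBdm P T M hP hrap heps hM n
  induction n with
  | zero =>
    intro b g h
    obtain ⟨h1, h2, h3⟩ := h
    refine ⟨?_, sb_of_bdd hSer hProf hComm hBdm P T M hP hrap heps hM b g h3⟩
    rintro (m | ⟨m, i⟩)
    · exact h1 m
    · exact h2 m i
  | succ n ih =>
    intro b g h
    obtain ⟨h1, b', g', h2, h3, h4⟩ := h
    refine ⟨sb_of_bdd hSer hProf hComm hBdm P T M hP hrap heps hM b g h1, yy b' g', ?_, ih b' g' h4⟩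
    rintro (m | ⟨m, i⟩)
    · exact h2 m
    · exact h3 m i

end Pool.Agent.H306.HD.TRBY
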