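import Pool.Agent.H306.HD.Stm3

/-! Existence of the sequence of bands (`S_REC`). -/

noncomputable section

namespace Pool.Agent.H306.HD.TREC

open Set

open Pool.Agent.H306.CK Pool.Agent.H306.DS

lemma rpow_diff {a b p : ℝ} (hb : 1 ≤ b) (hab : b ≤ a) (hp1 : p ≤ 1) :
    a ^ p - b ^ p ≤ a - b := by
  have hb0 : 0 < b := by linarith
  have ha0 : 0 < a := by linarith
  have h1 : 1 ≤ a / b := by rw [le_div_iff₀ hb0]; linarith
  have h2 : (a / b) ^ p ≤ a / b := by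
    calc (a / b) ^ p ≤ (a / b) ^ (1 : ℝ) := Real.rpow_le_rpow_of_exponent_le h1 hp1
      _ = a / b := Real.rpow_one _
  have h3 : a ^ p = (a / b) ^ p * b ^ p := by
    rw [← Real.mul_rpow (by positivity) hb0.le, div_mul_cancel₀ _ hb0.ne']
  have h4 : b ^ p ≤ b := by
    calc b ^ p ≤ b ^ (1 : ℝ) := Real.rpow_le_rpow_of_exponent_le hb hp1
      _ = b := Real.rpow_one _
  have h5 : 0 ≤ b ^ p := Real.rpow_nonneg hb0.le p
  calc a ^ p - b ^ p = b ^ p * ((a / b) ^ p - 1) := by rw [h3]; ring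
    _ ≤ b ^ p * (a / b - 1) := mul_le_mul_of_nonneg_left (by linarith) h5
    _ ≤ b * (a / b - 1) := mul_le_mul_of_nonneg_right h4 (by linarith)
    _ = a - b := by field_simp

lemma rpow_half {x p : ℝ} (hx : 0 ≤ x) : x ^ p = (Real.sqrt x) ^ (2 * p) := by
  rw [Real.sqrt_eq_rpow, ← Real.rpow_mul hx]
  congr 1
  ring

lemma mu_mono (P : Prm) (hP : P.Ok) (m j : ℕ) : mu P m j ≤ mu P m (j + 1) := by
  unfold mu
  apply mul_le_mul_of_nonneg_left _ hP.ν_pos.le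
  apply Real.rpow_le_rpow (by positivity) _ hP.α_pos.le
  have h1 : ((j : ℝ) * P.K (m + 1)) ≤ ((j + 1 : ℕ) : ℝ) * P.K (m + 1) := by
    push_cast
    nlinarith [Nat.cast_nonneg (α := ℝ) (P.K (m + 1))]
  have h2 : 0 ≤ ((j : ℝ) * P.K (m + 1)) := by positivity
  have h3 := pow_le_pow_left₀ h2 h1 2
  linarith

lemma mu_diff (P : Prm) (hP : P.Ok) (m j : ℕ) :
    mu P m (j + 1) - mu P m j ≤ P.ν * P.K (m + 1) := by
  unfold mu
  have hK : (1 : ℝ) ≤ P.K m := by exact_mod_cast hP.K_one m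
  have hl : (0 : ℝ) ≤ P.K (m + 1) := Nat.cast_nonneg _
  set l : ℝ := ((P.K (m + 1) : ℕ) : ℝ) with hldef
  set k : ℝ := ((P.K m : ℕ) : ℝ) with hkdef
  have hj : (0 : ℝ) ≤ j := Nat.cast_nonneg _
  have hx0 : 0 ≤ k ^ 2 + ((j : ℝ) * l) ^ 2 := by positivity
  have hy0 : 0 ≤ k ^ 2 + (((j + 1 : ℕ) : ℝ) * l) ^ 2 := by positivity
  rw [← mul_sub]
  apply mul_le_mul_of_nonneg_left _ hP.ν_pos.le
  rw [rpow_half hx0, rpow_half hy0]
  have hb1 : 1 ≤ Real.sqrt (k ^ 2 + ((j : ℝ) * l) ^ 2) := by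
    rw [Real.one_le_sqrt]
    nlinarith [sq_nonneg ((j : ℝ) * l)]
  have hle : ((j : ℝ) * l) ≤ ((j + 1 : ℕ) : ℝ) * l := by
    push_cast; nlinarith
  have hba : Real.sqrt (k ^ 2 + ((j : ℝ) * l) ^ 2) ≤
      Real.sqrt (k ^ 2 + (((j + 1 : ℕ) : ℝ) * l) ^ 2) := by
    apply Real.sqrt_le_sqrt
    have := pow_le_pow_left₀ (by positivity : 0 ≤ (j : ℝ) * l) hle 2
    linarith
  have h1 := rpow_diff hb1 hba (by linarith [hP.α_le] : 2 * P.α ≤ 1)
  have h2 : Real.sqrt (k ^ 2 + (((j + 1 : ℕ) : ℝ) * l) ^ 2) ≤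
      Real.sqrt (k ^ 2 + ((j : ℝ) * l) ^ 2) + l := by
    apply Real.sqrt_le_iff.2
    constructor
    · positivity
    · have hs := Real.sq_sqrt hx0
      have hjl : (j : ℝ) * l ≤ Real.sqrt (k ^ 2 + ((j : ℝ) * l) ^ 2) := by
        apply Real.le_sqrt_of_sq_le
        nlinarith [sq_nonneg k]
      push_cast
      nlinarith [mul_le_mul_of_nonneg_right hjl hl]
  linarith

/-- The invariant of the recursion. -/
structure Inv (P : Prm) (m : ℕ) (B : ℝ → ℝ) : Prop where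
  lip : ∃ LB : ℝ, ∀ s ∈ Icc (0 : ℝ) 1, ∀ t ∈ Icc (0 : ℝ) 1, |B s - B t| ≤ LB * |s - t|
  nonneg : ∀ t ∈ Icc (0 : ℝ) 1, 0 ≤ B t
  mono : MonotoneOn (fun t => Real.exp (mu P m 0 * t) * B t) (Icc 0 1)

lemma lip_of_deriv {b g : ℝ → ℝ} (hb : ∀ t ∈ Icc (0 : ℝ) 1, HasDerivWithinAt b (g t) (Icc 0 1) t)
    (hg : ContinuousOn g (Icc 0 1)) :
    ∃ LB : ℝ, ∀ s ∈ Icc (0 : ℝ) 1, ∀ t ∈ Icc (0 : ℝ) 1, |b s - b t| ≤ LB * |s - t| := by
  obtain ⟨C, hC⟩ := isCompact_Icc.exists_bound_of_continuousOn hg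
  refine ⟨C, fun s hs t ht => ?_⟩
  have h := (convex_Icc (0 : ℝ) 1).norm_image_sub_le_of_norm_hasDerivWithin_le hb hC ht hs
  simpa only [Real.norm_eq_abs] using h

lemma cont_of_lip {B : ℝ → ℝ} (h : ∃ LB : ℝ, ∀ s ∈ Icc (0 : ℝ) 1, ∀ t ∈ Icc (0 : ℝ) 1,
    |B s - B t| ≤ LB * |s - t|) : ContinuousOn B (Icc 0 1) := by
  obtain ⟨L, hL⟩ := h
  have hlip : LipschitzOnWith (Real.toNNReal L) B (Icc 0 1) := by
    apply LipschitzOnWith.of_dist_le_mul
    intro s hs t ht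
    rw [Real.dist_eq, Real.dist_eq]
    refine (hL s hs t ht).trans ?_
    exact mul_le_mul_of_nonneg_right (Real.le_coe_toNNReal L) (abs_nonneg _)
  exact hlip.continuousOn

lemma mono_of_deriv {l : ℝ} {b g : ℝ → ℝ}
    (hb : ∀ t ∈ Icc (0 : ℝ) 1, HasDerivWithinAt b (-l * b t + g t) (Icc 0 1) t)
    (hg : ∀ t ∈ Icc (0 : ℝ) 1, 0 ≤ g t) :
    MonotoneOn (fun t => Real.exp (l * t) * b t) (Icc 0 1) := by
  have hd : ∀ t ∈ Icc (0 : ℝ) 1, HasDerivWithinAt (fun t => Real.exp (l * t) * b t)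
      (Real.exp (l * t) * g t) (Icc 0 1) t := by
    intro t ht
    have h1 : HasDerivWithinAt (fun t : ℝ => Real.exp (l * t)) (Real.exp (l * t) * (l * 1))
        (Icc 0 1) t := (((hasDerivAt_id t).const_mul l).exp).hasDerivWithinAt
    have h2 := h1.mul (hb t ht)
    refine h2.congr_deriv ?_
    ring
  apply monotoneOn_of_deriv_nonneg (convex_Icc 0 1)
  · intro t ht
    exact (hd t ht).continuousWithinAt
  · rw [interior_Icc]
    intro t ht
    exact ((hd t (Ioo_subset_Icc_self ht)).hasDerivAt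
      (Icc_mem_nhds ht.1 ht.2)).differentiableAt.differentiableWithinAt
  · rw [interior_Icc]
    intro t ht
    rw [((hd t (Ioo_subset_Icc_self ht)).hasDerivAt (Icc_mem_nhds ht.1 ht.2)).deriv]
    exact mul_nonneg (Real.exp_pos _).le (hg t (Ioo_subset_Icc_self ht))

/-- The bounds for one band. -/
def Bd (B b : ℝ → ℝ) (a : ℕ → ℝ → ℝ) : Prop :=
  ∀ t ∈ Icc (0 : ℝ) 1, 0 ≤ B t ∧ 0 ≤ b t ∧ 0 ≤ a 1 t ∧
    |a 0 t| + |a 2 t| / 2 ≤ B t / 8 ∧ |a 0 t| ≤ B t ∧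
    ∀ i, 1 ≤ i → |a i t| ≤ (1 / 4) ^ i * B t

lemma step (hEX : S_BAND_EX) (hBD : S_BAND_BD) (P : Prm) (θ τ W : ℕ → ℝ) (hP : P.Ok)
    (hC : ChPar P θ τ W) (m : ℕ) (B : ℝ → ℝ) (hB : Inv P m B) :
    ∃ (b : ℝ → ℝ), Inv P (m + 1) b ∧ ∃ a : ℕ → ℝ → ℝ,
      BandSol (P.K m) (2 * θ (m + 1)) (mu P (m + 1) 0) (P.c m) (P.ε m) (mu P m) B b a ∧
      Bd B b a := by
  obtain ⟨LB, hLB⟩ := hB.lip
  have hk : (0 : ℝ) ≤ P.K m := Nat.cast_nonneg _
  have hβ : 0 ≤ 2 * θ (m + 1) := by linarith [hC.θ_pos (m + 1)]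
  obtain ⟨b, a, hsol⟩ := hEX (P.K m) (2 * θ (m + 1)) (mu P (m + 1) 0) (P.c m) (P.ε m)
    (P.ν * P.K (m + 1)) LB (mu P m) B hk hβ (mu_mono P hP m) (mu_diff P hP m) hLB
  have hbd := hBD (P.K m) (2 * θ (m + 1)) (mu P (m + 1) 0) (P.c m) (P.ε m) (mu P m) B b a hk hβ
    (hC.angle m) (hC.c_pos m).le (hC.ε_pos m).le (mu_mono P hP m) hB.nonneg hB.mono hsol
  have hkβ0 : 0 ≤ (P.K m : ℝ) * (2 * θ (m + 1)) := mul_nonneg hk hβ
  have hkβ := hC.angle m
  have hBd : Bd B b a := by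
    intro t ht
    obtain ⟨h1, h2, h3, h4⟩ := hbd t ht
    have hB0 := hB.nonneg t ht
    have h3' : |a 0 t| ≤ 1 / 10 * B t := h3.trans (mul_le_mul_of_nonneg_right hkβ hB0)
    have h4' : ∀ i, 1 ≤ i → |a i t| ≤ 5 * (1 / 10) * (1 / 4) ^ i * B t := by
      intro i hi
      refine (h4 i hi).trans ?_
      apply mul_le_mul_of_nonneg_right _ hB0
      apply mul_le_mul_of_nonneg_right _ (by positivity)
      linarith
    have h42 := h4' 2 (by norm_num)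
    refine ⟨hB0, h1, h2, ?_, ?_, ?_⟩
    · norm_num at h42
      linarith
    · linarith
    · intro i hi
      refine (h4' i hi).trans ?_
      apply mul_le_mul_of_nonneg_right _ hB0
      have : (0 : ℝ) ≤ (1 / 4) ^ i := by positivity
      linarith
  refine ⟨b, ⟨?_, ?_, ?_⟩, a, hsol, hBd⟩
  · apply lip_of_deriv hsol.db
    have hbc : ContinuousOn b (Icc 0 1) := fun t ht => (hsol.db t ht).continuousWithinAt
    have ha1 : ContinuousOn (a 1) (Icc 0 1) := fun t ht => (hsol.dα1 t ht).continuousWithinAt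
    have ha0 : ContinuousOn (a 0) (Icc 0 1) := fun t ht => (hsol.dα0 t ht).continuousWithinAt
    have hBc : ContinuousOn B (Icc 0 1) := cont_of_lip hB.lip
    exact ((continuousOn_const.mul hbc).add (continuousOn_const.mul ha1)).add
      (continuousOn_const.mul (hBc.add ha0))
  · intro t ht
    exact (hBd t ht).2.1
  · apply mono_of_deriv (g := fun t => P.c m * a 1 t + P.ε m * (B t + a 0 t))
    · intro t ht
      refine (hsol.db t ht).congr_deriv ?_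
      ring
    · intro t ht
      obtain ⟨h0, h1, h2, h3, h4, h5⟩ := hBd t ht
      have h6 : 0 ≤ B t + a 0 t := by
        have := neg_abs_le (a 0 t)
        linarith
      have h7 := mul_nonneg (hC.c_pos m).le h2
      have h8 := mul_nonneg (hC.ε_pos m).le h6
      show 0 ≤ P.c m * a 1 t + P.ε m * (B t + a 0 t)
      linarith

lemma inv0 (P : Prm) (θ₀ : ℝ) (hθ : 0 < θ₀) :
    Inv P 0 (fun t => θ₀ * Real.exp (-mu P 0 0 * t)) := by
  refine ⟨?_, ?_, ?_⟩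
  · apply lip_of_deriv (g := fun t => θ₀ * (Real.exp (-mu P 0 0 * t) * (-mu P 0 0 * 1)))
    · intro t _
      exact ((((hasDerivAt_id t).const_mul (-mu P 0 0)).exp).const_mul θ₀).hasDerivWithinAt
    · apply Continuous.continuousOn
      fun_prop
  · intro t _
    positivity
  · intro s _ t _ _
    have h : ∀ u : ℝ, Real.exp (mu P 0 0 * u) * (θ₀ * Real.exp (-mu P 0 0 * u)) = θ₀ := by
      intro u
      have : Real.exp (mu P 0 0 * u) * Real.exp (-mu P 0 0 * u) = 1 := by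
        rw [← Real.exp_add]
        rw [show mu P 0 0 * u + -mu P 0 0 * u = 0 by ring, Real.exp_zero]
      calc Real.exp (mu P 0 0 * u) * (θ₀ * Real.exp (-mu P 0 0 * u))
          = θ₀ * (Real.exp (mu P 0 0 * u) * Real.exp (-mu P 0 0 * u)) := by ring
        _ = θ₀ := by rw [this, mul_one]
    show Real.exp (mu P 0 0 * s) * (θ₀ * Real.exp (-mu P 0 0 * s)) ≤
      Real.exp (mu P 0 0 * t) * (θ₀ * Real.exp (-mu P 0 0 * t))
    rw [h, h]

theorem recb : S_REC := by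
  intro hEX hBD P θ τ W hP hC
  have hstep := step hEX hBD P θ τ W hP hC
  choose nb hnb na hna using hstep
  let f : (m : ℕ) → {B : ℝ → ℝ // Inv P m B} := fun m =>
    Nat.rec (motive := fun m => {B : ℝ → ℝ // Inv P m B})
      ⟨fun t => θ 0 * Real.exp (-mu P 0 0 * t), inv0 P (θ 0) (hC.θ_pos 0)⟩
      (fun m B => ⟨nb m B.1 B.2, hnb m B.1 B.2⟩) m
  let b : ℕ → ℝ → ℝ := fun m => (f (m + 1)).1
  let a : ℕ → ℕ → ℝ → ℝ := fun m => na m (f m).1 (f m).2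
  have hBB : ∀ m, BB P (θ 0) b m = (f m).1 := by
    intro m
    cases m with
    | zero => rfl
    | succ m => rfl
  refine ⟨b, a, ⟨?_, ?_⟩⟩
  · intro m
    rw [hBB m]
    exact (hna m (f m).1 (f m).2).1
  · intro m
    rw [hBB m]
    exact (hna m (f m).1 (f m).2).2

end Pool.Agent.H306.HD.TREC
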