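import Pool.Agent.H306.HD.Stm4

/-! Summability of the series of modes (by helper719). -/

noncomputable section

namespace Pool.Agent.H306.HD.TSER

open Set MeasureTheory

open scoped Real ContDiff ENNReal

open Pool.Agent.H306.CK Pool.Agent.H306.DS Pool.Agent.H306.HD

theorem k_one {P : Prm} (hP : P.Ok) (m : ℕ) : (1 : ℝ) ≤ P.K m := by
  exact_mod_cast hP.K_one m

theorem k_two {P : Prm} (hP : P.Ok) (m : ℕ) : (2 : ℝ) ^ m ≤ P.K (m + 1) := by
  have h1 := hP.K_big m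
  have h2 : (0 : ℝ) < P.K (m + 1) := lt_of_lt_of_le one_pos (k_one hP _)
  have h3 : (2 : ℝ) ^ m * (2 * π / P.K (m + 1)) = 2 ^ m * (2 * π) / P.K (m + 1) := by ring
  rw [h3, div_le_iff₀ h2] at h1
  have h4 : (0 : ℝ) < 2 ^ m := by positivity
  nlinarith [Real.pi_gt_three]

theorem k_nat {P : Prm} (hP : P.Ok) (m : ℕ) : (m : ℝ) + 1 ≤ P.K (m + 1) := by
  have h1 := hP.K_mono.le_apply (x := m + 1)
  exact_mod_cast h1

theorem k_mono {P : Prm} (hP : P.Ok) {m m' : ℕ} (h : m ≤ m') : (P.K m : ℝ) ≤ P.K m' := by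
  exact_mod_cast hP.K_mono.monotone h

/-- `x ^ (2 s) ≤ y ^ (2 q)` -/
theorem rp {x y s : ℝ} {q : ℕ} (hx : 1 ≤ x) (hxy : x ≤ y) (hq : |s| ≤ q) :
    x ^ (2 * s) ≤ y ^ (2 * q) := by
  have h1 : x ^ (2 * s) ≤ x ^ (((2 * q : ℕ)) : ℝ) := by
    apply Real.rpow_le_rpow_of_exponent_le hx
    push_cast
    have := le_abs_self s
    linarith
  rw [Real.rpow_natCast] at h1
  exact h1.trans (pow_le_pow_left₀ (by linarith) hxy _)

theorem sq_le {x B : ℝ} (hB : 1 ≤ B) (h : x ≤ B) : Real.sqrt x ≤ B := by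
  apply Real.sqrt_le_iff.2
  constructor
  · linarith
  · nlinarith

theorem hr_le {s B : ℝ} {v : V → V} (hB : 0 ≤ B) (h : hs s v ≤ ENNReal.ofReal B) : hr s v ≤ B :=
  ENNReal.toReal_le_of_le_ofReal hB h

theorem geo (k : ℕ) : Summable fun j : ℕ => (1 / 4 : ℝ) ^ j * (1 + j : ℝ) ^ k := by
  have h1 : Summable fun n : ℕ => ((n : ℝ)) ^ k * (1 / 4 : ℝ) ^ n :=
    summable_pow_mul_geometric_of_norm_lt_one k (by norm_num)
  have h2 := ((summable_nat_add_iff 1).2 h1).mul_left 4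
  refine h2.congr fun j => ?_
  push_cast
  rw [pow_succ (1 / 4 : ℝ) j]
  ring

theorem sq_summ : Summable fun m : ℕ => 1 / ((m : ℝ) + 1) ^ 2 := by
  have h1 : Summable fun n : ℕ => 1 / (n : ℝ) ^ 2 := Real.summable_one_div_nat_pow.2 one_lt_two
  have h2 := (summable_nat_add_iff 1).2 h1
  refine h2.congr fun j => ?_
  push_cast
  ring

theorem ser_sum : S_SER := by
  intro hPROF hCOMM hBDM P hP hrap hε s N
  obtain ⟨C, n, hC, hb⟩ := hBDM hPROF hCOMM |s|
  have hb := fun m => hb P hP s le_rfl m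
  obtain ⟨q, hq⟩ : ∃ q : ℕ, |s| ≤ q := ⟨⌈|s|⌉₊, Nat.le_ceil _⟩
  set M := n + 2 * q with hM
  have hk1 : ∀ m, (1 : ℝ) ≤ P.K m := k_one hP
  have hk0 : ∀ m, (0 : ℝ) < P.K m := fun m => lt_of_lt_of_le one_pos (hk1 m)
  have h2n : ∀ m, (2 : ℝ) ^ (n * m) ≤ (P.K (m + 1) : ℝ) ^ n := by
    intro m
    rw [mul_comm n m, pow_mul]
    exact pow_le_pow_left₀ (by positivity) (k_two hP m) n
  have heb0 : ∀ m, 0 ≤ eb P m := by
    intro m
    rcases m with _ | m
    · exact zero_le_one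
    · exact (hε m).le
  -- bounds of the modes
  have hF : ∀ m, Real.sqrt (hr s (Fm P m)) ≤ C * (P.K (m + 1) : ℝ) ^ M := by
    intro m
    have h1 := hr_le (by have := hk0 (m + 1); positivity) (hb m).1
    have h2 := rp (s := s) (q := q) (hk1 (m + 1)) le_rfl hq
    apply sq_le (one_le_mul_of_one_le_of_one_le hC (one_le_pow₀ (hk1 _)))
    refine h1.trans ?_
    rw [hM, pow_add, mul_assoc]
    apply mul_le_mul_of_nonneg_left _ (by linarith)
    exact mul_le_mul (h2n m) h2 (Real.rpow_nonneg (hk0 _).le _) (by positivity)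
  have hE : ∀ m j : ℕ, Real.sqrt (hr s (Em P m j)) ≤
      C * (P.K (m + 1) : ℝ) ^ M * (1 + j : ℝ) ^ (2 * q) := by
    intro m j
    have hj : (1 : ℝ) ≤ 1 + j := by
      have : (0 : ℝ) ≤ j := Nat.cast_nonneg j
      linarith
    apply sq_le (one_le_mul_of_one_le_of_one_le (one_le_mul_of_one_le_of_one_le hC
      (one_le_pow₀ (hk1 _))) (one_le_pow₀ hj))
    rcases Nat.eq_zero_or_pos j with h0 | h0
    · subst h0
      have h1 := hr_le (by have := hk0 m; positivity) (hb m).2.1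
      have h2 := rp (s := s) (q := q) (hk1 m) (k_mono hP (Nat.le_succ m)) hq
      refine h1.trans ?_
      rw [hM, pow_add]
      simp only [Nat.cast_zero, add_zero, one_pow, mul_one]
      rw [mul_assoc]
      apply mul_le_mul_of_nonneg_left _ (by linarith)
      exact mul_le_mul (h2n m) h2 (Real.rpow_nonneg (hk0 _).le _)
        (by have := hk0 (m + 1); positivity)
    · have hj1 : (1 : ℝ) ≤ j := by exact_mod_cast h0
      have h1 := hr_le (by have := hk0 (m + 1); positivity) ((hb m).2.2.1 j h0)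
      have h2 : ((j : ℝ) * P.K (m + 1)) ^ (2 * s) ≤ ((1 + j : ℝ) * P.K (m + 1)) ^ (2 * q) := by
        apply rp (s := s) (q := q) (one_le_mul_of_one_le_of_one_le hj1 (hk1 _)) _ hq
        exact mul_le_mul_of_nonneg_right (by linarith) (hk0 _).le
      refine h1.trans ?_
      rw [mul_pow] at h2
      have h3 : C * (P.K (m + 1) : ℝ) ^ M * (1 + j : ℝ) ^ (2 * q) =
          C * ((P.K (m + 1) : ℝ) ^ n * ((1 + j : ℝ) ^ (2 * q) * (P.K (m + 1) : ℝ) ^ (2 * q))) := by
        rw [hM, pow_add]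
        ring
      rw [h3, mul_assoc]
      apply mul_le_mul_of_nonneg_left _ (by linarith)
      exact mul_le_mul (h2n m) h2 (Real.rpow_nonneg (by have := hk0 (m + 1); positivity) _)
        (by have := hk0 (m + 1); positivity)
  have hE' : ∀ m : ℕ, Real.sqrt (hr s (Em P (m + 1) 0)) ≤ C * 2 ^ n * (P.K (m + 1) : ℝ) ^ M := by
    intro m
    have h1 := hr_le (by have := hk0 (m + 1); positivity) (hb (m + 1)).2.1
    have h2 := rp (s := s) (q := q) (hk1 (m + 1)) le_rfl hq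
    apply sq_le (one_le_mul_of_one_le_of_one_le (one_le_mul_of_one_le_of_one_le hC
      (one_le_pow₀ one_le_two)) (one_le_pow₀ (hk1 _)))
    refine h1.trans ?_
    have h3 : (2 : ℝ) ^ (n * (m + 1)) = 2 ^ n * 2 ^ (n * m) := by
      rw [← pow_add]
      congr 1
      ring
    rw [h3, hM, pow_add]
    have h4 : C * (2 ^ n * 2 ^ (n * m)) * (P.K (m + 1) : ℝ) ^ (2 * s) =
        C * 2 ^ n * (2 ^ (n * m) * (P.K (m + 1) : ℝ) ^ (2 * s)) := by ring
    rw [h4]
    apply mul_le_mul_of_nonneg_left _ (by positivity)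
    exact mul_le_mul (h2n m) h2 (Real.rpow_nonneg (hk0 _).le _)
      (by have := hk0 (m + 1); positivity)
  -- decay of the parameters
  obtain ⟨A, hA⟩ := hrap (N + M + 2)
  obtain ⟨D, hD0, hD⟩ : ∃ D : ℝ, 0 ≤ D ∧ ∀ m, (eb P m + P.ε m) * (P.K (m + 1) : ℝ) ^ (N + M) ≤
      D * (1 / ((m : ℝ) + 1) ^ 2) := by
    have hε2 : ∀ m, P.ε m * (P.K (m + 1) : ℝ) ^ (N + M + 2) ≤ A := fun m =>
      (mul_le_mul_of_nonneg_left (pow_le_pow_left₀ (hk0 _).le
        (k_mono hP (Nat.le_succ (m + 1))) _) (hε m).le).trans (hA m)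
    have hA0 : 0 ≤ A := (mul_nonneg (hε 0).le (pow_nonneg (hk0 _).le _)).trans (hA 0)
    have heb : ∀ m, eb P m * (P.K (m + 1) : ℝ) ^ (N + M + 2) ≤ (P.K 1 : ℝ) ^ (N + M + 2) + A := by
      intro m
      rcases m with _ | m
      · show 1 * (P.K 1 : ℝ) ^ (N + M + 2) ≤ _
        linarith
      · have h1 : eb P (m + 1) * (P.K (m + 1 + 1) : ℝ) ^ (N + M + 2) ≤ A := hA m
        have h2 : 0 ≤ (P.K 1 : ℝ) ^ (N + M + 2) := pow_nonneg (hk0 _).le _
        linarith
    refine ⟨(P.K 1 : ℝ) ^ (N + M + 2) + A + A, ?_, fun m => ?_⟩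
    · have h2 : 0 ≤ (P.K 1 : ℝ) ^ (N + M + 2) := pow_nonneg (hk0 _).le _
      linarith
    · have h3 : (eb P m + P.ε m) * (P.K (m + 1) : ℝ) ^ (N + M + 2) ≤
          (P.K 1 : ℝ) ^ (N + M + 2) + A + A := by
        rw [add_mul]
        have := heb m
        have := hε2 m
        linarith
      have h4 : ((m : ℝ) + 1) ^ 2 ≤ (P.K (m + 1) : ℝ) ^ 2 :=
        pow_le_pow_left₀ (by positivity) (k_nat hP m) 2
      have h5 : (0 : ℝ) < ((m : ℝ) + 1) ^ 2 := by positivity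
      rw [mul_one_div, le_div_iff₀ h5]
      refine le_trans ?_ h3
      rw [pow_add _ (N + M) 2, ← mul_assoc]
      exact mul_le_mul_of_nonneg_left h4 (mul_nonneg (add_nonneg (heb0 m) (hε m).le)
        (pow_nonneg (hk0 _).le _))
  have hsum := sq_summ
  refine ⟨?_, ?_, ?_⟩
  · refine Summable.of_nonneg_of_le (fun m => ?_) (fun m => ?_) (hsum.mul_left (C * D))
    · exact mul_nonneg (mul_nonneg (add_nonneg (heb0 m) (hε m).le) (pow_nonneg (hk0 _).le _))
        (Real.sqrt_nonneg _)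
    · have h1 := mul_le_mul_of_nonneg_left (hF m) (mul_nonneg (add_nonneg (heb0 m) (hε m).le)
        (pow_nonneg (hk0 (m + 1)).le N))
      refine h1.trans ?_
      have h2 : (eb P m + P.ε m) * (P.K (m + 1) : ℝ) ^ N * (C * (P.K (m + 1) : ℝ) ^ M) =
          C * ((eb P m + P.ε m) * (P.K (m + 1) : ℝ) ^ (N + M)) := by
        rw [pow_add]
        ring
      rw [h2, mul_assoc]
      exact mul_le_mul_of_nonneg_left (hD m) (by linarith)
  · have hs2 : Summable fun r : ℕ × ℕ => (C * D * (1 / ((r.1 : ℝ) + 1) ^ 2)) *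
        ((1 / 4 : ℝ) ^ r.2 * (1 + r.2 : ℝ) ^ (N + 2 * q)) :=
      (hsum.mul_left (C * D)).mul_of_nonneg (geo (N + 2 * q)) (fun m => by
        show 0 ≤ C * D * (1 / ((m : ℝ) + 1) ^ 2)
        positivity) (fun j => by
        show 0 ≤ (1 / 4 : ℝ) ^ j * (1 + j : ℝ) ^ (N + 2 * q)
        positivity)
    refine Summable.of_nonneg_of_le (fun r => ?_) (fun r => ?_) hs2
    · have := heb0 r.1
      have := (hε r.1).le
      have := (hk0 (r.1 + 1)).le
      positivity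
    · have h0 : 0 ≤ (1 / 4 : ℝ) ^ r.2 * (1 + r.2 : ℝ) ^ N * (eb P r.1 + P.ε r.1) *
          (P.K (r.1 + 1) : ℝ) ^ N := by
        have := heb0 r.1
        have := (hε r.1).le
        have := (hk0 (r.1 + 1)).le
        positivity
      refine (mul_le_mul_of_nonneg_left (hE r.1 r.2) h0).trans ?_
      have h2 : (1 / 4 : ℝ) ^ r.2 * (1 + r.2 : ℝ) ^ N * (eb P r.1 + P.ε r.1) *
          (P.K (r.1 + 1) : ℝ) ^ N * (C * (P.K (r.1 + 1) : ℝ) ^ M * (1 + r.2 : ℝ) ^ (2 * q)) =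
          (C * ((eb P r.1 + P.ε r.1) * (P.K (r.1 + 1) : ℝ) ^ (N + M))) *
            ((1 / 4 : ℝ) ^ r.2 * (1 + r.2 : ℝ) ^ (N + 2 * q)) := by
        rw [pow_add (P.K (r.1 + 1) : ℝ) N M, pow_add (1 + r.2 : ℝ) N (2 * q)]
        ring
      rw [h2, mul_assoc C D]
      apply mul_le_mul_of_nonneg_right _ (by positivity)
      exact mul_le_mul_of_nonneg_left (hD r.1) (by linarith)
  · refine Summable.of_nonneg_of_le (fun m => ?_) (fun m => ?_) (hsum.mul_left (C * 2 ^ n * D))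
    · exact mul_nonneg (mul_nonneg (heb0 m) (pow_nonneg (hk0 _).le _)) (Real.sqrt_nonneg _)
    · have h1 := mul_le_mul_of_nonneg_left (hE' m) (mul_nonneg (heb0 m)
        (pow_nonneg (hk0 (m + 1)).le N))
      refine h1.trans ?_
      have h2 : eb P m * (P.K (m + 1) : ℝ) ^ N * (C * 2 ^ n * (P.K (m + 1) : ℝ) ^ M) =
          C * 2 ^ n * (eb P m * (P.K (m + 1) : ℝ) ^ (N + M)) := by
        rw [pow_add]
        ring
      rw [h2, mul_assoc (C * 2 ^ n)]
      apply mul_le_mul_of_nonneg_left _ (by positivity)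
      refine le_trans ?_ (hD m)
      apply mul_le_mul_of_nonneg_right _ (pow_nonneg (hk0 _).le _)
      have := (hε m).le
      linarith

end Pool.Agent.H306.HD.TSER
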