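import Pool.Agent.H306.HD.Stm

set_option autoImplicit false

/-! One stage of the cascade. -/

namespace Pool.Agent.H306.HD.TSTAGE

open Set

theorem mono_le {f f' : ℝ → ℝ}
    (hf : ∀ t ∈ Icc (0 : ℝ) 1, HasDerivWithinAt f (f' t) (Icc 0 1) t) {p q : ℝ} (hp : 0 ≤ p)
    (hpq : p ≤ q) (hq : q ≤ 1) (h : ∀ t ∈ Icc p q, 0 ≤ f' t) : f p ≤ f q := by
  have hsub : Icc p q ⊆ Icc (0 : ℝ) 1 := Icc_subset_Icc hp hq
  have hm : MonotoneOn f (Icc p q) := by
    refine monotoneOn_of_hasDerivWithinAt_nonneg (convex_Icc p q) (f' := f') ?_ ?_ ?_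
    · intro t ht
      exact (hf t (hsub ht)).continuousWithinAt.mono hsub
    · intro t ht
      have h1 := interior_subset ht
      exact (hf t (hsub h1)).mono (interior_subset.trans hsub)
    · intro t ht
      exact h t (interior_subset ht)
  exact hm (left_mem_Icc.mpr hpq) (right_mem_Icc.mpr hpq) hpq

theorem exp_quarter : Real.exp (1 / 4) ≤ 4 / 3 := by
  have h1 : Real.exp (1 / 4) ^ 4 = Real.exp 1 := by
    rw [← Real.exp_nat_mul]
    norm_num
  have h2 : Real.exp 1 < 2.7182818286 := Real.exp_one_lt_d9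
  by_contra h
  push Not at h
  have h3 : (4 / 3 : ℝ) ^ 4 < Real.exp (1 / 4) ^ 4 :=
    pow_lt_pow_left₀ h (by norm_num) (by norm_num)
  rw [h1] at h3
  norm_num at h3 h2
  linarith

theorem hasDeriv_exp_mul (a t : ℝ) (S : Set ℝ) :
    HasDerivWithinAt (fun t => Real.exp (a * t)) (Real.exp (a * t) * a) S t := by
  have h1 : HasDerivAt (fun t : ℝ => a * t) a t := by
    have := (hasDerivAt_id t).const_mul a
    rw [mul_one] at this
    exact this
  exact h1.exp.hasDerivWithinAt

set_option maxHeartbeats 4000000 in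
theorem stage : S_STAGE := by
  intro k β l c ε θ θ' s τ w μ B b α hk hc hε hθ hθ' hl hlμ hτ hw hθβ S hbd hρμ hgrow hrw hlw hεw hW
  obtain ⟨hb0, hα0, hdb, hdα0, hdα1, hdα, -⟩ := S
  obtain ⟨hs0, hW0, hs1, hup, hlow⟩ := hW
  set r := Real.sqrt (5 / 2 * (c * k * θ)) with hr
  set ρ := Real.sqrt (3 / 8 * (c * k * θ)) with hρ
  have hckθ : 0 < c * k * θ := by positivity
  have hr0 : 0 < r := Real.sqrt_pos.mpr (by positivity)
  have hρ0 : 0 < ρ := Real.sqrt_pos.mpr (by positivity)
  have hr2 : r ^ 2 = 5 / 2 * (c * k * θ) := Real.sq_sqrt (by positivity)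
  have hρ2 : ρ ^ 2 = 3 / 8 * (c * k * θ) := Real.sq_sqrt (by positivity)
  have hμ1 : 0 ≤ μ 1 := hl.trans hlμ
  have hεθ : 0 < ε * θ := by positivity
  -- the truncation
  have hcl0 : ∀ t, 0 ≤ cl β (b t) := fun t => le_max_left _ _
  have hclb : ∀ t ∈ Icc (0 : ℝ) 1, cl β (b t) ≤ b t := by
    intro t ht
    exact max_le (hbd t ht).2.1 (min_le_left _ _)
  have hcle : ∀ t ∈ Icc (0 : ℝ) 1, b t ≤ β → cl β (b t) = b t := by
    intro t ht h
    unfold cl
    rw [min_eq_left h, max_eq_right (hbd t ht).2.1]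
  -- step 1
  have h1 : ∀ t ∈ Icc (0 : ℝ) (s + (τ + w)), c * α 1 t ≤ r * b t := by
    intro t ht
    have ht1 : t ≤ 1 := ht.2.trans hs1
    have hm := mono_le (f := fun t => Real.exp ((r + μ 1) * t) * (r * b t - c * α 1 t))
      (f' := fun t => Real.exp ((r + μ 1) * t) * (r + μ 1) * (r * b t - c * α 1 t) +
        Real.exp ((r + μ 1) * t) * (r * (-l * b t + c * α 1 t + ε * (B t + α 0 t)) -
          c * (-μ 1 * α 1 t + k * cl β (b t) * (B t + α 0 t + α 2 t / 2))))
      (fun u hu => (hasDeriv_exp_mul _ _ _).mul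
        (((hdb u hu).const_mul r).sub ((hdα1 u hu).const_mul c))) le_rfl ht.1 ht1 ?_
    · simp only [mul_zero, Real.exp_zero, hb0, hα0, sub_zero] at hm
      have hE := Real.exp_pos ((r + μ 1) * t)
      have := nonneg_of_mul_nonneg_right hm hE
      linarith
    · intro u hu
      have hu1 : u ∈ Icc (0 : ℝ) 1 := ⟨hu.1, hu.2.trans ht1⟩
      have huW : u ∈ Icc (0 : ℝ) (s + (τ + w)) := ⟨hu.1, hu.2.trans ht.2⟩
      obtain ⟨g1, g2, g3, g4⟩ := hbd u hu1
      have g5 := hup u huW
      have a1 := abs_le.mp (le_refl |α 0 u|)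
      have a2 := abs_le.mp (le_refl |α 2 u|)
      have g6 : 0 ≤ B u + α 0 u := by linarith [a1.1, abs_nonneg (α 2 u)]
      have g7 : 0 ≤ B u + α 0 u + α 2 u / 2 := by linarith [a1.1, a2.1]
      have g8 : B u + α 0 u + α 2 u / 2 ≤ 9 / 4 * θ := by linarith [a1.2, a2.2]
      have g9 : cl β (b u) * (B u + α 0 u + α 2 u / 2) ≤ b u * (9 / 4 * θ) :=
        mul_le_mul (hclb u hu1) g8 g7 g2
      have g10 : c * k * (cl β (b u) * (B u + α 0 u + α 2 u / 2)) ≤ c * k * (b u * (9 / 4 * θ)) :=
        mul_le_mul_of_nonneg_left g9 (by positivity)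
      have g11 : 0 ≤ r * ε * (B u + α 0 u) := by positivity
      have g12 : 0 ≤ r * (μ 1 - l) * b u :=
        mul_nonneg (mul_nonneg hr0.le (by linarith)) g2
      have g13 : r ^ 2 * b u = 5 / 2 * (c * k * θ) * b u := by rw [hr2]
      have g14 : 0 ≤ c * k * θ * b u := mul_nonneg hckθ.le g2
      have hE := Real.exp_pos ((r + μ 1) * u)
      have key : 0 ≤ (r + μ 1) * (r * b u - c * α 1 u) +
          (r * (-l * b u + c * α 1 u + ε * (B u + α 0 u)) -
          c * (-μ 1 * α 1 u + k * cl β (b u) * (B u + α 0 u + α 2 u / 2))) := by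
        have e : (r + μ 1) * (r * b u - c * α 1 u) +
          (r * (-l * b u + c * α 1 u + ε * (B u + α 0 u)) -
          c * (-μ 1 * α 1 u + k * cl β (b u) * (B u + α 0 u + α 2 u / 2))) =
          r ^ 2 * b u + r * (μ 1 - l) * b u + r * ε * (B u + α 0 u) -
            c * k * (cl β (b u) * (B u + α 0 u + α 2 u / 2)) := by ring
        rw [e, g13]
        linarith
      have := mul_nonneg hE.le key
      linarith
  -- derivative bounds
  have hbder : ∀ t ∈ Icc (0 : ℝ) (s + (τ + w)),
      -l * b t + c * α 1 t + ε * (B t + α 0 t) ≤ r * b t + 9 / 4 * (ε * θ) := by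
    intro t ht
    have ht1 : t ∈ Icc (0 : ℝ) 1 := ⟨ht.1, ht.2.trans hs1⟩
    obtain ⟨g1, g2, g3, g4⟩ := hbd t ht1
    have g5 := hup t ht
    have a1 := abs_le.mp (le_refl |α 0 t|)
    have g6 : B t + α 0 t ≤ 9 / 4 * θ := by linarith [a1.2, abs_nonneg (α 2 t)]
    have g7 : ε * (B t + α 0 t) ≤ ε * (9 / 4 * θ) := mul_le_mul_of_nonneg_left g6 hε.le
    have g8 := mul_nonneg hl g2
    have g9 := h1 t ht
    linarith
  have hblow : ∀ t ∈ Icc (0 : ℝ) 1,
      0 ≤ l * b t + (-l * b t + c * α 1 t + ε * (B t + α 0 t)) := by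
    intro t ht
    obtain ⟨g1, g2, g3, g4⟩ := hbd t ht
    have a1 := abs_le.mp (le_refl |α 0 t|)
    have g6 : 0 ≤ B t + α 0 t := by linarith [a1.1, abs_nonneg (α 2 t)]
    have g7 : 0 ≤ ε * (B t + α 0 t) := by positivity
    have g8 : 0 ≤ c * α 1 t := by positivity
    linarith
  -- step 2
  have h2 : ∃ t ∈ Icc (0 : ℝ) (s + τ), θ' ≤ b t := by
    by_contra hno
    push Not at hno
    set D := 3 / 4 * (ε * θ) / ρ with hD
    have hDρ : D * ρ = 3 / 4 * (ε * θ) := by rw [hD]; field_simp
    have hm := mono_le (f := fun t => Real.exp (-(ρ / 2) * t) * (b t + c / ρ * α 1 t + D))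
      (f' := fun t => Real.exp (-(ρ / 2) * t) * (-(ρ / 2)) * (b t + c / ρ * α 1 t + D) +
        Real.exp (-(ρ / 2) * t) * ((-l * b t + c * α 1 t + ε * (B t + α 0 t)) +
          c / ρ * (-μ 1 * α 1 t + k * cl β (b t) * (B t + α 0 t + α 2 t / 2))))
      (fun u hu => (hasDeriv_exp_mul _ _ _).mul
        (((hdb u hu).add ((hdα1 u hu).const_mul (c / ρ))).add_const D))
      (p := s) (q := s + τ) hs0 (by linarith) (by linarith) ?_
    · have hsτ : s + τ ∈ Icc (0 : ℝ) (s + (τ + w)) := ⟨by linarith, by linarith⟩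
      have hsτ1 : s + τ ∈ Icc (0 : ℝ) 1 := ⟨by linarith, by linarith⟩
      have hs1' : s ∈ Icc (0 : ℝ) 1 := ⟨hs0, by linarith⟩
      obtain ⟨g1, g2, g3, g4⟩ := hbd s hs1'
      have hD0 : 0 < D := by rw [hD]; positivity
      have hYs : 0 ≤ b s + c / ρ * α 1 s := by positivity
      have e1 : Real.exp (-(ρ / 2) * s) = Real.exp (ρ * τ / 2) * Real.exp (-(ρ / 2) * (s + τ)) := by
        rw [← Real.exp_add]
        congr 1
        ring
      rw [e1] at hm
      have hE := Real.exp_pos (-(ρ / 2) * (s + τ))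
      have hm2 : Real.exp (ρ * τ / 2) * (b s + c / ρ * α 1 s + D) ≤
          b (s + τ) + c / ρ * α 1 (s + τ) + D := by
        have : Real.exp (-(ρ / 2) * (s + τ)) *
            (Real.exp (ρ * τ / 2) * (b s + c / ρ * α 1 s + D)) ≤
            Real.exp (-(ρ / 2) * (s + τ)) * (b (s + τ) + c / ρ * α 1 (s + τ) + D) := by
          linarith
        exact le_of_mul_le_mul_left this hE
      have hEτ := Real.exp_pos (ρ * τ / 2)
      have hm3 : Real.exp (ρ * τ / 2) * D ≤ b (s + τ) + c / ρ * α 1 (s + τ) + D := by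
        have := mul_nonneg hEτ.le hYs
        linarith
      have hr3 : r ≤ 3 * ρ := by
        have : r ^ 2 ≤ (3 * ρ) ^ 2 := by
          rw [mul_pow, hr2, hρ2]
          linarith
        exact (abs_le_of_sq_le_sq' this (by positivity)).2
      have hx := h1 (s + τ) hsτ
      have hbt := hno (s + τ) ⟨by linarith, le_rfl⟩
      have hbt0 := (hbd (s + τ) hsτ1).2.1
      have hX : c / ρ * α 1 (s + τ) ≤ 3 * b (s + τ) := by
        rw [div_mul_eq_mul_div, div_le_iff₀ hρ0]
        have : r * b (s + τ) ≤ 3 * ρ * b (s + τ) := mul_le_mul_of_nonneg_right hr3 hbt0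
        linarith
      have hm4 : (Real.exp (ρ * τ / 2) - 1) * D < 4 * θ' := by linarith
      have hm5 : (Real.exp (ρ * τ / 2) - 1) * (D * ρ) < 4 * (θ' * ρ) := by
        have := mul_lt_mul_of_pos_right hm4 hρ0
        linarith
      rw [hDρ] at hm5
      have hθρ : 0 < θ' * ρ := by positivity
      linarith
    · intro u hu
      have huW : u ∈ Icc s (s + (τ + w)) := ⟨hu.1, by linarith [hu.2]⟩
      have hu1 : u ∈ Icc (0 : ℝ) 1 := ⟨hs0.trans hu.1, by linarith [hu.2]⟩
      obtain ⟨g1, g2, g3, g4⟩ := hbd u hu1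
      have g5 := hlow u huW
      have hbu : b u < θ' := hno u ⟨hs0.trans hu.1, hu.2⟩
      have hcu := hcle u hu1 (hbu.le.trans hθβ)
      have a1 := abs_le.mp (le_refl |α 0 u|)
      have a2 := abs_le.mp (le_refl |α 2 u|)
      have g6 : 3 / 8 * θ ≤ B u + α 0 u := by linarith [a1.1, abs_nonneg (α 2 u)]
      have g7 : 3 / 8 * θ ≤ B u + α 0 u + α 2 u / 2 := by linarith [a1.1, a2.1]
      have hX0 : 0 ≤ c / ρ * α 1 u := by positivity
      have hXc : c * α 1 u = ρ * (c / ρ * α 1 u) := by field_simp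
      have g8 : ρ * b u ≤ c / ρ * (k * b u * (B u + α 0 u + α 2 u / 2)) := by
        have e1 : ρ * b u = c / ρ * (k * b u * (3 / 8 * θ)) := by
          have : ρ * ρ = 3 / 8 * (c * k * θ) := by rw [← hρ2]; ring
          field_simp
          linear_combination (8 * b u) * this
        rw [e1]
        refine mul_le_mul_of_nonneg_left ?_ (by positivity)
        exact mul_le_mul_of_nonneg_left g7 (by positivity)
      have g9 : ε * (3 / 8 * θ) ≤ ε * (B u + α 0 u) := mul_le_mul_of_nonneg_left g6 hε.le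
      have g10 : l * b u ≤ μ 1 * b u := mul_le_mul_of_nonneg_right hlμ g2
      have g11 : ρ / 2 * (b u + c / ρ * α 1 u) ≤ (ρ - μ 1) * (b u + c / ρ * α 1 u) :=
        mul_le_mul_of_nonneg_right (by linarith) (by linarith)
      have hE := Real.exp_pos (-(ρ / 2) * u)
      have key : 0 ≤ -(ρ / 2) * (b u + c / ρ * α 1 u + D) +
          ((-l * b u + c * α 1 u + ε * (B u + α 0 u)) +
          c / ρ * (-μ 1 * α 1 u + k * cl β (b u) * (B u + α 0 u + α 2 u / 2))) := by
        rw [hcu]
        have e2 : c / ρ * (-μ 1 * α 1 u + k * b u * (B u + α 0 u + α 2 u / 2)) =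
            -μ 1 * (c / ρ * α 1 u) + c / ρ * (k * b u * (B u + α 0 u + α 2 u / 2)) := by ring
        rw [e2, hXc]
        have e3 : ρ / 2 * D = 3 / 8 * (ε * θ) := by linarith
        linarith
      have := mul_nonneg hE.le key
      linarith
  -- step 3: the first time
  have hbc : ContinuousOn b (Icc (0 : ℝ) 1) := fun t ht => (hdb t ht).continuousWithinAt
  have hsub : Icc (0 : ℝ) (s + τ) ⊆ Icc (0 : ℝ) 1 := Icc_subset_Icc le_rfl (by linarith)
  set A : Set ℝ := Icc (0 : ℝ) (s + τ) ∩ b ⁻¹' (Ici θ') with hA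
  have hAcl : IsClosed A := (hbc.mono hsub).preimage_isClosed_of_isClosed isClosed_Icc isClosed_Ici
  have hAcomp : IsCompact A := isCompact_Icc.of_isClosed_subset hAcl inter_subset_left
  have hAne : A.Nonempty := by
    obtain ⟨t, ht, htb⟩ := h2
    exact ⟨t, ht, htb⟩
  set s' := sInf A with hs'
  have hs'A : s' ∈ A := hAcomp.sInf_mem hAne
  have hs'low : ∀ t ∈ A, s' ≤ t := fun t ht => csInf_le hAcomp.bddBelow ht
  obtain ⟨⟨hs'0, hs'1⟩, hs'b⟩ := hs'A
  have hs'b : θ' ≤ b s' := hs'b
  have hbs' : b s' = θ' := by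
    have hiv := intermediate_value_Icc hs'0 (hbc.mono (Icc_subset_Icc le_rfl (by linarith)))
    have hmem : θ' ∈ Icc (b 0) (b s') := ⟨by rw [hb0]; exact hθ'.le, hs'b⟩
    obtain ⟨t, ht, htb⟩ := hiv hmem
    have htA : t ∈ A := ⟨⟨ht.1, ht.2.trans hs'1⟩, by
      show θ' ≤ b t
      rw [htb]⟩
    have : t = s' := le_antisymm ht.2 (hs'low t htA)
    rw [← this, htb]
  refine ⟨s', hs'1, hbs', hs'0, hw, by linarith, ?_, ?_⟩
  · intro t ht
    rcases lt_or_ge t s' with hlt | hge
    · have htA : t ∉ A := fun h => absurd (hs'low t h) (not_le.mpr hlt)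
      have : b t < θ' := by
        by_contra h
        push Not at h
        exact htA ⟨⟨ht.1, hlt.le.trans hs'1⟩, h⟩
      linarith
    · have ht1 : t ≤ 1 := by linarith [ht.2]
      have htW : t ≤ s + (τ + w) := by linarith [ht.2]
      have hm := mono_le
        (f := fun t => 9 / 4 * (ε * θ) * t - Real.exp (-r * t) * (Real.exp (r * s') * b t))
        (f' := fun t => 9 / 4 * (ε * θ) - (Real.exp (-r * t) * (-r) * (Real.exp (r * s') * b t) +
          Real.exp (-r * t) * (Real.exp (r * s') *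
            (-l * b t + c * α 1 t + ε * (B t + α 0 t)))))
        (fun u hu => by
          have e1 : HasDerivWithinAt (fun t : ℝ => 9 / 4 * (ε * θ) * t) (9 / 4 * (ε * θ))
              (Icc 0 1) u := by
            have := (hasDerivAt_id u).const_mul (9 / 4 * (ε * θ))
            rw [mul_one] at this
            exact this.hasDerivWithinAt
          exact e1.sub ((hasDeriv_exp_mul _ _ _).mul ((hdb u hu).const_mul (Real.exp (r * s')))))
        hs'0 hge ht1 ?_
      · have e1 : Real.exp (-r * s') * (Real.exp (r * s') * b s') = θ' := by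
          rw [← mul_assoc, ← Real.exp_add, hbs']
          have : -r * s' + r * s' = 0 := by ring
          rw [this, Real.exp_zero, one_mul]
        have e2 : Real.exp (-r * t) * (Real.exp (r * s') * b t) =
            Real.exp (-(r * (t - s'))) * b t := by
          rw [← mul_assoc, ← Real.exp_add]
          congr 2
          ring
        rw [e1, e2] at hm
        have htw : t - s' ≤ w := by linarith [ht.2]
        have hts : 0 ≤ t - s' := by linarith
        have f1 : 9 / 4 * (ε * θ) * (t - s') ≤ 9 / 4 * (ε * θ) * w :=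
          mul_le_mul_of_nonneg_left htw (by positivity)
        have f2 : Real.exp (-(r * (t - s'))) * b t ≤ 3 / 2 * θ' := by linarith
        have f3 : r * (t - s') ≤ 1 / 4 := (mul_le_mul_of_nonneg_left htw hr0.le).trans hrw
        have f4 : Real.exp (r * (t - s')) ≤ 4 / 3 :=
          (Real.exp_le_exp.mpr f3).trans exp_quarter
        have f5 : b t = Real.exp (r * (t - s')) * (Real.exp (-(r * (t - s'))) * b t) := by
          rw [← mul_assoc, ← Real.exp_add]
          rw [add_neg_cancel, Real.exp_zero, one_mul]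
        rw [f5]
        calc Real.exp (r * (t - s')) * (Real.exp (-(r * (t - s'))) * b t) ≤
              Real.exp (r * (t - s')) * (3 / 2 * θ') :=
              mul_le_mul_of_nonneg_left f2 (Real.exp_pos _).le
          _ ≤ 4 / 3 * (3 / 2 * θ') := mul_le_mul_of_nonneg_right f4 (by positivity)
          _ = 2 * θ' := by ring
      · intro u hu
        have huW : u ∈ Icc (0 : ℝ) (s + (τ + w)) := ⟨hs'0.trans hu.1, hu.2.trans htW⟩
        have g1 := hbder u huW
        have hE := Real.exp_pos (-r * u)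
        have hE2 := Real.exp_pos (r * s')
        have hEE : Real.exp (-r * u) * Real.exp (r * s') ≤ 1 := by
          rw [← Real.exp_add]
          apply Real.exp_le_one_iff.mpr
          have := mul_le_mul_of_nonneg_left hu.1 hr0.le
          linarith
        have hEE0 : 0 < Real.exp (-r * u) * Real.exp (r * s') := mul_pos hE hE2
        have g2 : Real.exp (-r * u) * Real.exp (r * s') *
            (-l * b u + c * α 1 u + ε * (B u + α 0 u) - r * b u) ≤
            Real.exp (-r * u) * Real.exp (r * s') * (9 / 4 * (ε * θ)) :=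
          mul_le_mul_of_nonneg_left (by linarith) hEE0.le
        have g3 : Real.exp (-r * u) * Real.exp (r * s') * (9 / 4 * (ε * θ)) ≤
            1 * (9 / 4 * (ε * θ)) := mul_le_mul_of_nonneg_right hEE (by positivity)
        linarith
  · intro t ht
    have ht1 : t ≤ 1 := by linarith [ht.2]
    have hm := mono_le (f := fun t => Real.exp (l * t) * b t)
      (f' := fun t => Real.exp (l * t) * l * b t +
        Real.exp (l * t) * (-l * b t + c * α 1 t + ε * (B t + α 0 t)))
      (fun u hu => (hasDeriv_exp_mul _ _ _).mul (hdb u hu)) hs'0 ht.1 ht1 ?_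
    · rw [hbs'] at hm
      have e1 : Real.exp (l * t) = Real.exp (l * (t - s')) * Real.exp (l * s') := by
        rw [← Real.exp_add]
        congr 1
        ring
      rw [e1] at hm
      have hE := Real.exp_pos (l * s')
      have hm2 : θ' ≤ Real.exp (l * (t - s')) * b t := by
        have : Real.exp (l * s') * θ' ≤ Real.exp (l * s') * (Real.exp (l * (t - s')) * b t) := by
          linarith
        exact le_of_mul_le_mul_left this hE
      have htw : t - s' ≤ w := by linarith [ht.2]
      have hts : 0 ≤ t - s' := by linarith [ht.1]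
      have f3 : l * (t - s') ≤ 1 / 2 := (mul_le_mul_of_nonneg_left htw hl).trans hlw
      have f4 : 1 / 2 ≤ Real.exp (-(l * (t - s'))) := by
        have := Real.add_one_le_exp (-(l * (t - s')))
        linarith
      have f5 : b t = Real.exp (-(l * (t - s'))) * (Real.exp (l * (t - s')) * b t) := by
        rw [← mul_assoc, ← Real.exp_add, neg_add_cancel, Real.exp_zero, one_mul]
      rw [f5]
      calc θ' / 2 = 1 / 2 * θ' := by ring
        _ ≤ Real.exp (-(l * (t - s'))) * θ' := mul_le_mul_of_nonneg_right f4 hθ'.le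
        _ ≤ _ := mul_le_mul_of_nonneg_left hm2 (Real.exp_pos _).le
    · intro u hu
      have hu1 : u ∈ Icc (0 : ℝ) 1 := ⟨hs'0.trans hu.1, hu.2.trans ht1⟩
      have g1 := hblow u hu1
      have hE := Real.exp_pos (l * u)
      have := mul_nonneg hE.le g1
      linarith

end Pool.Agent.H306.HD.TSTAGE
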