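import Pool.Agent.H306.HD.Stm2

/-! The sum of a sequence of operators. -/

noncomputable section

namespace Pool.Agent.H306.HD.TSUMOP

open Set MeasureTheory Filter

open scoped Real ContDiff ENNReal ComplexConjugate

open Pool.Agent.H306.CK Pool.Agent.H306.DS Pool.Agent.H306.HD

/-- The norm of a partial derivative. -/
theorem hs_pd {v : V → V} (hv : SP v) (j : Fin 3) (s : ℝ) :
    hs s (fun x i => pd j (fun y => v y i) x) ≤ hs (s + 1) v := by
  rw [hs_def, hs_def]
  refine ENNReal.tsum_le_tsum fun k => ENNReal.ofReal_le_ofReal ?_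
  have h1 : ∀ i, ‖fc (fun x => pd j (fun y => v y i) x) k‖ ^ 2 =
      (k j : ℝ) ^ 2 * ‖fc (fun x => v x i) k‖ ^ 2 := by
    intro i
    have e1 := fc_pd (hv.comp i).c1 (hv.comp i).2 j k
    have e2 : fc (fun x => pd j (fun y => v y i) x) k = fc (pd j (fun y => v y i)) k := rfl
    rw [e2, e1, norm_mul, norm_mul, Complex.norm_I, one_mul, mul_pow]
    have h2 : ‖((k j : ℤ) : ℂ)‖ = |(k j : ℝ)| := by
      rw [← Complex.ofReal_intCast, Complex.norm_real, Real.norm_eq_abs]
    rw [h2, sq_abs]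
  have h2 : 0 ≤ ∑ i, ‖fc (fun x => v x i) k‖ ^ 2 := Finset.sum_nonneg fun i _ => sq_nonneg _
  have h3 : (k j : ℝ) ^ 2 ≤ W 1 k := by
    rw [W_one]
    have := Finset.single_le_sum (f := fun j => (k j : ℝ) ^ 2) (fun j _ => sq_nonneg _)
      (Finset.mem_univ j)
    linarith
  rw [W_add]
  simp only [h1]
  rw [← Finset.mul_sum]
  have hW := W_pos s k
  calc W s k * ((k j : ℝ) ^ 2 * ∑ i, ‖fc (fun x => v x i) k‖ ^ 2) =
        W s k * (k j : ℝ) ^ 2 * ∑ i, ‖fc (fun x => v x i) k‖ ^ 2 := by ring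
    _ ≤ W s k * W 1 k * ∑ i, ‖fc (fun x => v x i) k‖ ^ 2 := by gcongr

theorem pd_sp {v : V → V} (hv : SP v) (j : Fin 3) : SP (fun x i => pd j (fun y => v y i) x) := by
  constructor
  · exact contDiff_pi.2 fun i => ((hv.comp i).pd j).1
  · intro l x
    ext i
    exact ((hv.comp i).pd j).2 l x

theorem hr_pd {v : V → V} (hv : SP v) (j : Fin 3) (s : ℝ) :
    hr s (fun x i => pd j (fun y => v y i) x) ≤ hr (s + 1) v := by
  have h1 := hs_pd hv j s
  rw [← ofReal_hr (pd_sp hv j), ← ofReal_hr hv, ENNReal.ofReal_le_ofReal_iff (hr_nonneg _ _)] at h1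
  exact h1

/-- The derivatives are bounded by the norms. -/
theorem iter_le (q : ℕ) : ∃ C : ℝ, 0 ≤ C ∧ ∀ v, SP v → ∀ x i,
    ‖iteratedFDeriv ℝ q (fun y => v y i) x‖ ≤ C * Real.sqrt (hr (3 + q) v) := by
  induction q with
  | zero =>
    obtain ⟨C, hC0, hC⟩ := sobolev
    refine ⟨Real.sqrt C, Real.sqrt_nonneg _, fun v hv x i => ?_⟩
    rw [norm_iteratedFDeriv_zero, Real.norm_eq_abs, ← Real.sqrt_mul hC0, Nat.cast_zero, add_zero]
    apply Real.le_sqrt_of_sq_le
    rw [sq_abs]
    exact hC v hv x i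
  | succ q ih =>
    obtain ⟨C, hC0, hC⟩ := ih
    refine ⟨3 * C, by positivity, fun v hv x i => ?_⟩
    refine (iter_pd' (hv.comp i).1 q x).trans ?_
    have h1 : ∀ j ∈ (Finset.univ : Finset (Fin 3)),
        ‖iteratedFDeriv ℝ q (pd j (fun y => v y i)) x‖ ≤
          C * Real.sqrt (hr (3 + ((q + 1 : ℕ) : ℝ)) v) := by
      intro j _
      have h2 := hC _ (pd_sp hv j) x i
      refine h2.trans ?_
      have h3 := hr_pd hv j (3 + (q : ℝ))
      have h4 : (3 : ℝ) + ((q + 1 : ℕ) : ℝ) = 3 + (q : ℝ) + 1 := by push_cast; ring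
      rw [h4]
      gcongr
    refine (Finset.sum_le_sum h1).trans (le_of_eq ?_)
    rw [Finset.sum_const, Finset.card_univ, Fintype.card_fin, nsmul_eq_mul]
    push_cast
    ring

/-- Exchange of summation and integration. -/
theorem fc_tsumN {g : ℕ → V → ℝ} (hg : ∀ k, Continuous (g k)) {B : ℕ → ℝ}
    (hB : Summable B) (hb : ∀ k x, |g k x| ≤ B k) (l : Fin 3 → ℤ) :
    HasSum (fun k => fc (g k) l) (fc (fun x => ∑' k, g k x) l) := by
  have h := hasSum_integral_of_summable_integral_norm (μ := volume.restrict torus)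
    (F := fun k x => (g k x : ℂ) * ex (-l) x)
    (fun k => cont_intC ((Complex.continuous_ofReal.comp (hg k)).mul (ex_continuous _)))
    (Summable.of_nonneg_of_le (fun l => integral_nonneg fun x => norm_nonneg _) (fun k => ?_)
      (hB.mul_right (volume.real torus)))
  · have e1 : fc (fun x => ∑' k, g k x) l = ∫ x in torus, ∑' k, (g k x : ℂ) * ex (-l) x := by
      rw [fc_eq]
      unfold fcC
      congr 1
      ext x
      rw [tsum_mul_right]
      simp only [Complex.ofReal_tsum]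
    rw [e1]
    refine h.congr_fun fun k => ?_
    rw [fc_eq]
    rfl
  · have h1 : ∫ x in torus, ‖(g k x : ℂ) * ex (-l) x‖ ≤ ∫ _ in torus, B k := by
      apply setIntegral_mono_on
      · exact (cont_intC ((Complex.continuous_ofReal.comp (hg k)).mul (ex_continuous _))).norm
      · exact cont_integrableOn continuous_const
      · exact measurableSet_torus
      · intro x hx
        rw [norm_mul, norm_ex, mul_one, Complex.norm_real, Real.norm_eq_abs]
        exact hb k x
    refine h1.trans (le_of_eq ?_)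
    rw [setIntegral_const, smul_eq_mul]
    ring

/-- The norm of a sum. -/
theorem hs_tsum {w : ℕ → V → V} {U : V → V}
    (h : ∀ i k, HasSum (fun m => fc (fun x => w m x i) k) (fc (fun x => U x i) k)) (t : ℝ) :
    hs t U ≤ ∑' m, 2 * 2 ^ m * hs t (w m) := by
  have h1 : ∀ k i, ENNReal.ofReal (W (t / 2) k * ‖fc (fun x => U x i) k‖) ^ 2 ≤
      ∑' m, 2 * 2 ^ m * ENNReal.ofReal (W (t / 2) k * ‖fc (fun x => w m x i) k‖) ^ 2 := by
    intro k i
    have hW := (W_pos (t / 2) k).le
    have h2 := h i k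
    have h3 : ENNReal.ofReal (W (t / 2) k * ‖fc (fun x => U x i) k‖) ≤
        ∑' m, ENNReal.ofReal (W (t / 2) k * ‖fc (fun x => w m x i) k‖) := by
      rw [← h2.tsum_eq, ENNReal.ofReal_mul hW]
      calc ENNReal.ofReal (W (t / 2) k) *
            ENNReal.ofReal ‖∑' m, fc (fun x => w m x i) k‖ ≤
            ENNReal.ofReal (W (t / 2) k) *
              ∑' m, ENNReal.ofReal ‖fc (fun x => w m x i) k‖ := by
            gcongr
            simp only [ofReal_norm]
            exact enorm_tsum_le_tsum_enorm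
        _ = _ := by
            rw [← ENNReal.tsum_mul_left]
            refine tsum_congr fun m => ?_
            rw [← ENNReal.ofReal_mul hW]
    calc ENNReal.ofReal (W (t / 2) k * ‖fc (fun x => U x i) k‖) ^ 2 ≤
          (∑' m, ENNReal.ofReal (W (t / 2) k * ‖fc (fun x => w m x i) k‖)) ^ 2 := by
          gcongr
      _ ≤ _ := tsum_sq_le _
  rw [hs_eq]
  calc ∑' k, ∑ i, ENNReal.ofReal (W (t / 2) k * ‖fc (fun x => U x i) k‖) ^ 2 ≤
        ∑' k, ∑ i, ∑' m, 2 * 2 ^ m *
        ENNReal.ofReal (W (t / 2) k * ‖fc (fun x => w m x i) k‖) ^ 2 :=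
        ENNReal.tsum_le_tsum fun k => Finset.sum_le_sum fun i _ => h1 k i
    _ = ∑' k, ∑' m, 2 * 2 ^ m *
        ∑ i, ENNReal.ofReal (W (t / 2) k * ‖fc (fun x => w m x i) k‖) ^ 2 := by
        refine tsum_congr fun k => ?_
        rw [← Summable.tsum_finsetSum fun i _ => ENNReal.summable]
        refine tsum_congr fun m => ?_
        rw [Finset.mul_sum]
    _ = _ := by
        rw [ENNReal.tsum_comm]
        refine tsum_congr fun m => ?_
        rw [ENNReal.tsum_mul_left, hs_eq]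

/-- The terms and their derivatives decrease geometrically. -/
theorem term_bound {σ : ℝ} {P : ℕ → (V → V) → V → V} (h1 : ∀ m v, SP v → SF (P m v))
    (h3 : ∀ s : ℝ, ∃ C : ℝ, 0 ≤ C ∧ ∀ m v, SP v →
      hs (s + σ) (P m v) ≤ ENNReal.ofReal (C * (1 / 8) ^ m) * hs s v) {v : V → V} (hv : SP v)
    (q : ℕ) : ∃ B : ℝ, 0 ≤ B ∧ ∀ m x i,
      ‖iteratedFDeriv ℝ q (fun y => P m v y i) x‖ ≤ B * (1 / 2) ^ m := by
  obtain ⟨C, hC0, hC⟩ := iter_le q
  obtain ⟨C', hC'0, hC'⟩ := h3 (3 + q - σ)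
  refine ⟨C * Real.sqrt (C' * hr (3 + q - σ) v), by positivity, fun m x i => ?_⟩
  have hsp := (h1 m v hv).sp
  refine (hC _ hsp x i).trans ?_
  have h4 := hC' m v hv
  rw [sub_add_cancel, ← ofReal_hr hsp, ← ofReal_hr hv, ← ENNReal.ofReal_mul (by positivity),
    ENNReal.ofReal_le_ofReal_iff (mul_nonneg (by positivity) (hr_nonneg _ _))] at h4
  have h5 : Real.sqrt (hr (3 + q) (P m v)) ≤
      Real.sqrt (C' * hr (3 + q - σ) v) * (1 / 2) ^ m := by
    apply Real.sqrt_le_iff.2
    refine ⟨by positivity, ?_⟩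
    rw [mul_pow, Real.sq_sqrt (mul_nonneg hC'0 (hr_nonneg _ _))]
    refine h4.trans ?_
    have h6 : ((1 : ℝ) / 8) ^ m ≤ ((1 / 2) ^ m) ^ 2 := by
      rw [← pow_mul, mul_comm m 2, pow_mul]
      exact pow_le_pow_left₀ (by norm_num) (by norm_num) m
    have h7 := hr_nonneg (3 + q - σ) v
    calc C' * (1 / 8) ^ m * hr (3 + q - σ) v = C' * hr (3 + q - σ) v * (1 / 8) ^ m := by ring
      _ ≤ C' * hr (3 + q - σ) v * ((1 / 2) ^ m) ^ 2 := by gcongr
  calc C * Real.sqrt (hr (3 + q) (P m v)) ≤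
        C * (Real.sqrt (C' * hr (3 + q - σ) v) * (1 / 2) ^ m) := by gcongr
    _ = _ := by ring

theorem geo (B : ℝ) : Summable fun m : ℕ => B * (1 / 2 : ℝ) ^ m :=
  (summable_geometric_of_lt_one (by norm_num) (by norm_num)).mul_left B

/-- Termwise differentiation. -/
theorem pd_tsum {f : ℕ → V → ℝ} (hf : ∀ m, ContDiff ℝ ∞ (f m)) {B0 B1 : ℝ}
    (h0 : ∀ m x, ‖iteratedFDeriv ℝ 0 (f m) x‖ ≤ B0 * (1 / 2) ^ m)
    (h1 : ∀ m x, ‖iteratedFDeriv ℝ 1 (f m) x‖ ≤ B1 * (1 / 2) ^ m) (i : Fin 3) (x : V) :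
    HasSum (fun m => pd i (f m) x) (pd i (fun y => ∑' m, f m y) x) := by
  have hdiff : ∀ m, Differentiable ℝ (f m) := fun m => (hf m).differentiable (by simp)
  have hfd : ∀ m x, ‖fderiv ℝ (f m) x‖ ≤ B1 * (1 / 2) ^ m := by
    intro m x
    rw [← norm_iteratedFDeriv_one]
    exact h1 m x
  have hs0 : Summable fun m => f m x := Summable.of_norm_bounded (geo B0) fun m => by
    have := h0 m x
    rwa [norm_iteratedFDeriv_zero] at this
  have h2 := hasFDerivAt_tsum (𝕜 := ℝ) (f := f) (x₀ := x) (geo B1)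
    (fun j y => (hdiff j y).hasFDerivAt) hfd hs0 x
  have h3 : Summable fun m => fderiv ℝ (f m) x := Summable.of_norm_bounded (geo B1) fun m => hfd m x
  have h4 := h3.hasSum.mapL (ContinuousLinearMap.apply ℝ ℝ (Pi.single i (1 : ℝ) : V))
  have h5 : pd i (fun y => ∑' m, f m y) x = (∑' m, fderiv ℝ (f m) x) (Pi.single i 1) := by
    change fderiv ℝ (fun y => ∑' m, f m y) x (Pi.single i 1) = _
    rw [h2.fderiv]
  rw [h5]
  exact h4

theorem sumop : S_SUMOP := by
  intro σ P h1 h2 h3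
  have hbd : ∀ v, SP v → ∀ q : ℕ, ∃ B : ℝ, 0 ≤ B ∧ ∀ m x i,
      ‖iteratedFDeriv ℝ q (fun y => P m v y i) x‖ ≤ B * (1 / 2) ^ m :=
    fun v hv q => term_bound h1 h3 hv q
  have hsum : ∀ v, SP v → ∀ x i, Summable fun m => P m v x i := by
    intro v hv x i
    obtain ⟨B, -, hB⟩ := hbd v hv 0
    exact Summable.of_norm_bounded (geo B) fun m => by
      have := hB m x i
      rwa [norm_iteratedFDeriv_zero] at this
  have hfc : ∀ v, SP v → ∀ i k, HasSum (fun m => fc (fun x => P m v x i) k)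
      (fc (fun x => ∑' m, P m v x i) k) := by
    intro v hv i k
    obtain ⟨B, -, hB⟩ := hbd v hv 0
    exact fc_tsumN (g := fun m x => P m v x i) (fun m => ((h1 m v hv).sp.comp i).cont) (geo B)
      (fun m x => by
        have := hB m x i
        rwa [norm_iteratedFDeriv_zero, Real.norm_eq_abs] at this) k
  refine ⟨?_, hsum, hfc, ?_⟩
  · intro v hv
    refine ⟨contDiff_pi.2 fun i => ?_, fun l x => ?_, fun x => ?_⟩
    · choose B hB0 hB using hbd v hv
      exact contDiff_tsum (N := ⊤) (v := fun q m => B q * (1 / 2) ^ m)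
        (fun m => ((h1 m v hv).sp.comp i).1) (fun q _ => geo (B q)) (fun q m x _ => hB q m x i)
    · ext i
      exact tsum_congr fun m => ((h1 m v hv).sp.comp i).2 l x
    · obtain ⟨B0, -, hB0⟩ := hbd v hv 0
      obtain ⟨B1, -, hB1⟩ := hbd v hv 1
      have h4 := hasSum_sum (f := fun (i : Fin 3) m => pd i (fun y => P m v y i) x)
        (s := Finset.univ) fun i _ => pd_tsum (f := fun m y => P m v y i)
          (fun m => ((h1 m v hv).sp.comp i).1) (fun m x => hB0 m x i) (fun m x => hB1 m x i) i x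
      have h5 : (fun m => ∑ i, pd i (fun y => P m v y i) x) = fun _ => (0 : ℝ) := by
        ext m
        exact (h1 m v hv).2.2 x
      rw [h5] at h4
      exact h4.unique hasSum_zero
  · intro s C hC hCP v hv
    refine (hs_tsum (w := fun m => P m v) (U := fun x i => ∑' m, P m v x i) (hfc v hv)
      (s + σ)).trans ?_
    have h4 : ∀ m, 2 * 2 ^ m * hs (s + σ) (P m v) ≤
        ENNReal.ofReal (2 * C * (1 / 4) ^ m) * hs s v := by
      intro m
      calc 2 * 2 ^ m * hs (s + σ) (P m v) ≤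
            2 * 2 ^ m * (ENNReal.ofReal (C * (1 / 8) ^ m) * hs s v) := by
            gcongr
            exact hCP m v hv
        _ = (ENNReal.ofReal (2 * 2 ^ m) * ENNReal.ofReal (C * (1 / 8) ^ m)) * hs s v := by
            have e0 : ENNReal.ofReal (2 * 2 ^ m) = 2 * 2 ^ m := by
              rw [ENNReal.ofReal_mul (by norm_num : (0 : ℝ) ≤ 2),
                ENNReal.ofReal_pow (by norm_num : (0 : ℝ) ≤ 2), ENNReal.ofReal_ofNat]
            rw [e0]
            ring
        _ = ENNReal.ofReal (2 * C * (1 / 4) ^ m) * hs s v := by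
            rw [← ENNReal.ofReal_mul (by positivity)]
            congr 2
            have e1 : (2 : ℝ) ^ m * (1 / 8) ^ m = (1 / 4) ^ m := by
              rw [← mul_pow]
              norm_num
            calc 2 * 2 ^ m * (C * (1 / 8 : ℝ) ^ m) = 2 * C * (2 ^ m * (1 / 8) ^ m) := by ring
              _ = _ := by rw [e1]
    refine (ENNReal.tsum_le_tsum h4).trans ?_
    rw [ENNReal.tsum_mul_right]
    gcongr
    have h5 : Summable fun m : ℕ => 2 * C * (1 / 4 : ℝ) ^ m :=
      (summable_geometric_of_lt_one (by norm_num) (by norm_num)).mul_left _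
    rw [← ENNReal.ofReal_tsum_of_nonneg (fun m => by positivity) h5]
    apply ENNReal.ofReal_le_ofReal
    rw [tsum_mul_left, tsum_geometric_of_lt_one (by norm_num) (by norm_num)]
    linarith

end Pool.Agent.H306.HD.TSUMOP
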