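import Pool.Agent.H306.HD.Stm3

/-! The windows by induction from the statement about one stage (helper860, for helper306). -/

set_option autoImplicit false

noncomputable section

namespace Pool.Agent.H306.HD.TWIN

open Set MeasureTheory

open scoped Real ContDiff ENNReal

open Pool.Agent.H306.CK Pool.Agent.H306.DS Pool.Agent.H306.HD

theorem mu_nonneg (P : Prm) (hP : P.Ok) (m j : ℕ) : 0 ≤ mu P m j := by
  unfold mu
  have := hP.ν_pos.le
  positivity

theorem mu_succ_le (P : Prm) (hP : P.Ok) (m : ℕ) : mu P (m + 1) 0 ≤ mu P m 1 := by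
  unfold mu
  refine mul_le_mul_of_nonneg_left (Real.rpow_le_rpow (by positivity) ?_ hP.α_pos.le) hP.ν_pos.le
  push_cast
  have h := sq_nonneg (P.K m : ℝ)
  linarith

/-- one step of the induction -/
theorem step (hS : S_STAGE) (P : Prm) (θ τ W : ℕ → ℝ) (b : ℕ → ℝ → ℝ) (a : ℕ → ℕ → ℝ → ℝ)
    (hP : P.Ok) (hC : ChPar P θ τ W) (hB : BandSeq P θ b a) (m : ℕ) (s : ℝ)
    (hw : Win (BB P (θ 0) b m) (θ m) s (τ m + W m)) :
    ∃ s', s' ≤ s + τ m ∧ b m s' = θ (m + 1) ∧ Win (b m) (θ (m + 1)) s' (W m) := by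
  have hK : (0 : ℝ) < P.K m := by
    have := hP.K_one m
    exact_mod_cast this
  have hθ := hC.θ_pos (m + 1)
  exact hS (P.K m) (2 * θ (m + 1)) (mu P (m + 1) 0) (P.c m) (P.ε m) (θ m) (θ (m + 1)) s (τ m) (W m)
    (mu P m) (BB P (θ 0) b m) (b m) (a m) hK (hC.c_pos m) (hC.ε_pos m) (hC.θ_pos m) hθ
    (mu_nonneg P hP (m + 1) 0) (mu_succ_le P hP m) (hC.τ_nonneg m) (hC.W_nonneg m) (by linarith)
    (hB.sol m)
    (fun t ht => by
      obtain ⟨h1, h2, h3, h4, -, -⟩ := hB.bds m t ht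
      exact ⟨h1, h2, h3, h4⟩)
    (hC.h1 m) (hC.h2 m) (hC.h3 m) (hC.h4 m) (hC.h5 m) hw

theorem win : S_WIN := by
  intro hS P θ τ W b a hP hC hB
  -- the first window
  have h0 : Win (BB P (θ 0) b 0) (θ 0) 0 (τ 0 + W 0) := by
    have hmu := mu_nonneg P hP 0 0
    have hθ := hC.θ_pos 0
    have hT : 0 ≤ τ 0 + W 0 := add_nonneg (hC.τ_nonneg 0) (hC.W_nonneg 0)
    refine ⟨le_rfl, hT, ?_, ?_, ?_⟩
    · have := hC.total
      linarith
    · intro t ht
      show θ 0 * Real.exp (-mu P 0 0 * t) ≤ 2 * θ 0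
      have h1 : Real.exp (-mu P 0 0 * t) ≤ 1 := by
        rw [Real.exp_le_one_iff]
        have := mul_nonneg hmu ht.1
        linarith
      nlinarith
    · intro t ht
      show θ 0 / 2 ≤ θ 0 * Real.exp (-mu P 0 0 * t)
      have h1 : mu P 0 0 * t ≤ 1 / 2 := by
        refine le_trans (mul_le_mul_of_nonneg_left ?_ hmu) hC.h0
        have := ht.2
        linarith
      have h2 : (1 : ℝ) / 2 ≤ Real.exp (-mu P 0 0 * t) := by
        have h3 := Real.add_one_le_exp (-mu P 0 0 * t)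
        linarith
      nlinarith
  obtain ⟨s₀, hs₀, hbs₀, hw₀⟩ := step hS P θ τ W b a hP hC hB 0 0 h0
  have hstep : ∀ (m : ℕ) (s : ℝ), ∃ s' : ℝ, Win (b m) (θ (m + 1)) s (W m) →
      s' ≤ s + τ (m + 1) ∧ b (m + 1) s' = θ (m + 1 + 1) ∧
        Win (b (m + 1)) (θ (m + 1 + 1)) s' (W (m + 1)) := by
    intro m s
    by_cases hw : Win (b m) (θ (m + 1)) s (W m)
    · have hw' : Win (BB P (θ 0) b (m + 1)) (θ (m + 1)) s (τ (m + 1) + W (m + 1)) := by
        rw [← hC.W_eq m]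
        exact hw
      obtain ⟨s', hs'⟩ := step hS P θ τ W b a hP hC hB (m + 1) s hw'
      exact ⟨s', fun _ => hs'⟩
    · exact ⟨0, fun h => absurd h hw⟩
  choose f hf using hstep
  let s : ℕ → ℝ := fun n => Nat.rec s₀ (fun m x => f m x) n
  have hs0 : s 0 = s₀ := rfl
  have hss : ∀ m, s (m + 1) = f m (s m) := fun m => rfl
  have hwin : ∀ m, b m (s m) = θ (m + 1) ∧ Win (b m) (θ (m + 1)) (s m) (W m) := by
    intro m
    induction m with
    | zero => exact ⟨hbs₀, hw₀⟩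
    | succ m ih =>
      rw [hss]
      exact (hf m (s m) ih.2).2
  have hle : ∀ m, s (m + 1) + W (m + 1) ≤ s m + W m := by
    intro m
    have h1 := (hf m (s m) (hwin m).2).1
    rw [← hss] at h1
    have h2 := hC.W_eq m
    linarith
  refine ⟨s, fun m => (hwin m).2.s0, ?_, hle, fun m => (hwin m).1, fun m => (hwin m).2.up⟩
  intro m
  induction m with
  | zero =>
    rw [hs0]
    linarith
  | succ m ih => exact (hle m).trans ih

end Pool.Agent.H306.HD.TWIN
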