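import Pool.Agent.H306.HD.Asm6
import Pool.Agent.H306.HD.TODE
import Pool.Agent.H306.HD.TBANDEX
import Pool.Agent.H306.HD.TBANDBD
import Pool.Agent.H306.HD.TSTAGE
import Pool.Agent.H306.HD.TCOMM
import Pool.Agent.H306.HD.TPROF
import Pool.Agent.H306.HD.TSUMOP
import Pool.Agent.H306.HD.TC1
import Pool.Agent.H306.HD.TFCP
import Pool.Agent.H306.HD.TMODES
import Pool.Agent.H306.HD.TPIM
import Pool.Agent.H306.HD.TFUN
import Pool.Agent.H306.HD.TBDM
import Pool.Agent.H306.HD.TBDP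
import Pool.Agent.H306.HD.TGROW
import Pool.Agent.H306.HD.TREC
import Pool.Agent.H306.HD.TWIN
import Pool.Agent.H306.HD.TOPEN
import Pool.Agent.H306.HD.TPARA
import Pool.Agent.H306.HD.TPARB
import Pool.Agent.H306.HD.TACT
import Pool.Agent.H306.HD.TLOP1
import Pool.Agent.H306.HD.TLOP2
import Pool.Agent.H306.HD.TNL
import Pool.Agent.H306.HD.TPT
import Pool.Agent.H306.HD.TSER
import Pool.Agent.H306.HD.TCHAIN
import Pool.Agent.H306.HD.TCINF
import Pool.Agent.H306.HD.TRB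
import Pool.Agent.H306.HD.TRBY
import Pool.Agent.H306.HD.TFREE

/-! Assembly, part 7: the main theorem. -/

noncomputable section

namespace Pool.Agent.H306.HD.Asm

open Set MeasureTheory

open scoped Real ContDiff ENNReal

open Pool.Agent.H306.CK Pool.Agent.H306.DS

theorem facts : Facts where
  prof := TPROF.prof
  fcp := TFCP.fcp
  modes := TMODES.modes
  lop1 := TLOP1.lop1
  sumop := TSUMOP.sumop
  act := TACT.act TPROF.prof TFCP.fcp TMODES.modes TPIM.pim_modes TFUN.fun_modes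
  cont := TCONT.cont
  c1 := TC1.c1reg
  ser := TSER.ser_sum
  comm := TCOMM.comm
  bdm := TBDM.bdm
  nl := TNL.nl_sum
  pt := TPT.pt

/-- Smoothness of the solution. -/
theorem UU_smooth {P : Prm} (hS : Std P) {θ₀ T : ℝ} {b : ℕ → ℝ → ℝ} {g : ℕ → ℕ → ℝ → ℝ}
    (h : ChSol P θ₀ T b g) (hT : 0 < T) :
    ContDiffOn ℝ ∞ (fun z : ℝ × V => UU P b g z.1 z.2) (Ico 0 T ×ˢ univ) := by
  choose C hC0 hC using TCONT.iter_le'
  rw [contDiffOn_infty]
  intro n
  refine contDiffOn_pi.2 fun i => ?_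
  refine TCINF.cinf TC1.c1reg n _ (fun r x => ph P r x i)
    (fun q r => C q * Real.sqrt (hr (q + 3) (ph P r))) T (yy b g) hT
    (fun r => ((phs facts hS r).sp.comp i).1) (fun q r x => hC q _ (phs facts hS r).sp x i) ?_
  refine TRBY.rby TSER.ser_sum TPROF.prof TCOMM.comm TBDM.bdm P T _ hS.ok hS.rapid hS.ε_pos
    (fun q => ⟨C q, q + 3, hC0 q, fun r => ⟨mul_nonneg (hC0 q) (Real.sqrt_nonneg _), le_rfl⟩⟩) n b g
    (TRB.rb P θ₀ T b g hS.ok hS.rapid hS.ε_pos hS.c_pos hS.c_le h n)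

theorem Em_le {P : Prm} (hP : P.Ok) (m j : ℕ) (x : V) (i : Fin 3) : |Em P m j x i| ≤ 1 := by
  fin_cases i
  · change |(0 : ℝ)| ≤ 1
    simp
  · change |(0 : ℝ)| ≤ 1
    simp
  · change |X P m (x 1) * cmode P m j x| ≤ 1
    have h1 := (TPROF.prof.1 m (P.K (m + 1)) (hP.K_one _) (hP.K_big m)).2.2.1 (x 1)
    have h2 : |cmode P m j x| ≤ 1 := by
      unfold cmode trg
      rw [abs_mul]
      have h3 := Real.abs_cos_le_one (j * P.K (m + 1) * x 1)
      split_ifs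
      · have h4 := Real.abs_cos_le_one (P.K m * x 0)
        exact mul_le_one₀ h3 (abs_nonneg _) h4
      · have h4 := Real.abs_sin_le_one (P.K m * x 0)
        exact mul_le_one₀ h3 (abs_nonneg _) h4
    rw [abs_mul]
    refine mul_le_one₀ ?_ (abs_nonneg _) h2
    unfold X
    rw [abs_of_nonneg h1.1]
    exact h1.2

/-- The main theorem. -/
theorem main (ν α σ δ : ℝ) (hν : 0 < ν) (hα : 0 < α) (hασ : 4 * α + σ < 1 / 4)
    (hσ : -(2 * α) ≤ σ) (hδ : 0 < δ) :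
    ∃ K : (V → V) → V → V,
      (∀ v, SF v → SF (K v)) ∧
      (∀ v w, SF v → SF w → ∀ a b : ℝ,
        K (fun x i => a * v x i + b * w x i) = fun x i => a * K v x i + b * K w x i) ∧
      (∀ s : ℝ, ∃ C : ℝ, ∀ v, SF v → hs (s + σ) (K v) ≤ ENNReal.ofReal C * hs s v) ∧
      (∀ s : ℝ, |s| ≤ 1 / δ → ∀ v, SF v → hs (s + σ) (K v) ≤ ENNReal.ofReal δ * hs s v) ∧
      (∀ v, SF v → |inner3 v (K v)| ≤ δ * inner3 v (MG (lam 1 α) v)) ∧
      (∀ v, SF v → inner3 v (fun x i => -MG (lam ν α) v x i + K v x i) ≤ 0) ∧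
      (∀ (T : ℝ) (u : ℝ → V → V) (p : ℝ → V → ℝ),
        IsSol (fun v x i => -MG (lam ν α) v x i + K v x i) (Ico 0 T) u p →
        (∀ t ∈ Ico 0 T, SF (u t)) → ∀ s ∈ Ico 0 T, ∀ t ∈ Ico 0 T, s ≤ t →
        inner3 (u t) (u t) ≤ inner3 (u s) (u s)) ∧
      ∃ (T : ℝ) (u : ℝ → V → V), 0 < T ∧ T ≤ δ ∧ (∀ x i, |u 0 x i| ≤ δ) ∧
        ContDiffOn ℝ ∞ (fun z : ℝ × V => u z.1 z.2) (Ico 0 T ×ˢ univ) ∧
        IsSol (fun v x i => -MG (lam ν α) v x i + K v x i) (Ico 0 T) u (fun _ _ => 0) ∧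
        (∀ t ∈ Ico 0 T, SF (u t)) ∧
        (∀ s : ℝ, ∀ t ∈ Ico 0 T, ∃ C : ℝ, ∀ τ ∈ Icc 0 t, hs s (u τ) ≤ ENNReal.ofReal C) ∧
        (∀ M : ℝ, ∃ t ∈ Ico 0 T, ∃ x, M < ‖curl (u t) x‖) ∧
        (∀ (T' : ℝ) (v : ℝ → V → V) (q : ℝ → V → ℝ),
          IsSol (fun v x i => -MG (lam ν α) v x i + K v x i) (Ico 0 T') v q →
          (∀ t ∈ Ico 0 T', SF (v t)) → v 0 = u 0 → T' ≤ T ∧ ∀ t ∈ Ico 0 T', v t = u t) ∧
        ∃ w : ℝ → V → V, w 0 = u 0 ∧
          ContDiffOn ℝ ∞ (fun z : ℝ × V => w z.1 z.2) (Ici 0 ×ˢ univ) ∧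
          IsSol (fun v x i => -MG (lam ν α) v x i) (Ici 0) w (fun _ _ => 0) ∧
          (∀ t ∈ Ici (0 : ℝ), SF (w t)) ∧
          ∀ s : ℝ, ∀ t ∈ Ici (0 : ℝ), hs s (w t) ≤ hs s (w 0) := by
  -- constants
  set S : ℝ := max (1 / δ) 1 with hSdef
  have hS1 : 1 / δ ≤ S := le_max_left _ _
  have hS2 : 1 ≤ S := le_max_right _ _
  obtain ⟨C, n, hC1, hbdp⟩ := TBDP.bdp TPROF.prof TCOMM.comm TBDM.bdm TMODES.modes TFCP.fcp S
  obtain ⟨a₀, ha₀⟩ := TPARA.para ν α σ hν hα hασ hσ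
  set a : ℕ := max a₀ 2 with ha
  have ha1 : a₀ ≤ a := le_max_left _ _
  have ha2 : 2 ≤ a := le_max_right _ _
  obtain ⟨A₁, hA₁⟩ := exists_nat_ge (4 * a * (S + 1) + 1)
  set A : ℕ := max (a + 3) A₁ with hA
  have hA1 : a + 3 ≤ A := le_max_left _ _
  have hA2 : 4 * a * (S + 1) + 1 ≤ (A : ℝ) :=
    hA₁.trans (by exact_mod_cast le_max_right _ _)
  set κ : ℝ := min δ ν with hκ
  have hκ0 : 0 < κ := lt_min hδ hν
  have hκδ : κ ≤ δ := min_le_left _ _
  have hκν : κ ≤ ν := min_le_right _ _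
  set η : ℝ := min (δ / 3) (κ ^ 2 / 12) with hη
  have hη0 : 0 < η := lt_min (by positivity) (by positivity)
  have hη1 : 3 * η ≤ δ := by
    have := min_le_left (δ / 3) (κ ^ 2 / 12)
    linarith
  have hη2 : 12 * η ≤ κ ^ 2 := by
    have := min_le_right (δ / 3) (κ ^ 2 / 12)
    linarith
  obtain ⟨N₀, hN₀⟩ := ha₀ a ha1 A hA1 δ hδ
  obtain ⟨N₁, hN₁⟩ := TPARB.parb ν α σ S C η n a A hν hα hασ hσ (by linarith) (by linarith) hη0 ha2
    hA2
  obtain ⟨N₂, hN₂⟩ := exists_nat_ge (1 / δ)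
  set N : ℕ := 2 * (N₀ + N₁ + N₂) + 1 with hN
  obtain ⟨hP, hCh, hTδ⟩ := hN₀ N (by omega)
  obtain ⟨hB1, hB2⟩ := hN₁ N (by omega)
  set P : Prm := prm ν α σ a A N with hPd
  have hPν : P.ν = ν := rfl
  have hPα : P.α = α := rfl
  have hodd : ∀ m, Odd (P.K (m + 1)) := fun m => by
    change Odd (N ^ (a * 2 ^ (m + 1)))
    exact Odd.pow ⟨N₀ + N₁ + N₂, hN⟩
  have hStd : Std P := ⟨hP, hCh.rapid, hCh.ε_pos, hCh.c_pos, hCh.c_le⟩
  have hσ1 : |σ| ≤ 1 := by rw [abs_le]; constructor <;> linarith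
  have hσ2 : σ + 2 * P.α - 1 ≤ 0 := by rw [hPα]; linarith
  -- bounds of the operator
  have hO : OpB P σ := by
    intro s
    obtain ⟨C', n', hC'1, hbdp'⟩ := TBDP.bdp TPROF.prof TCOMM.comm TBDM.bdm TMODES.modes TFCP.fcp |s|
    obtain ⟨C'', hC''0, hC''⟩ := hB2 |s| C' n' (abs_nonneg s) (by linarith)
    refine ⟨C'', hC''0, fun m v hv => ?_⟩
    exact (hbdp' P hP s σ le_rfl hσ1 hσ2 m v hv).trans
      (mul_le_mul' (ENNReal.ofReal_le_ofReal (hC'' m)) le_rfl)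
  have hsm : ∀ s : ℝ, |s| ≤ S → ∀ m v, SP v →
      hs (s + σ) (PP P m v) ≤ ENNReal.ofReal (η * (1 / 8) ^ m) * hs s v := by
    intro s hs m v hv
    exact (hbdp P hP s σ hs hσ1 hσ2 m v hv).trans
      (mul_le_mul' (ENNReal.ofReal_le_ofReal (hB1 m)) le_rfl)
  have hform : ∀ v, SP v → |inner3 v (KK P v)| ≤ inner3 v (MG (lam κ α) v) := fun v hv =>
    form2 TDIS.dis TSUMOP.sumop TLOP1.lop1 TLOP2.lop2 TPROF.prof TFCP.fcp TMODES.modes hP hodd hσ
      hη0.le hκ0 hη2 hO (fun m v hv => by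
        have h1 := hsm (-P.α - σ) (by rw [hPα, abs_le]; constructor <;> linarith) m v hv
        have e : -P.α - σ + σ = -P.α := by ring
        rwa [e] at h1) hv
  have hsc : ∀ (c : ℝ) (v : V → V), inner3 v (MG (lam c α) v) = c * inner3 v (MG (lam 1 α) v) := by
    intro c v
    unfold inner3
    rw [← integral_const_mul]
    congr 1
    ext x
    rw [Finset.mul_sum]
    exact Finset.sum_congr rfl fun i _ => by rw [lam_smul c]; ring
  have hnn : ∀ v, SP v → 0 ≤ inner3 v (MG (lam 1 α) v) := by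
    intro v hv
    have h1 := (abs_nonneg _).trans (hform v hv)
    rw [hsc] at h1
    exact nonneg_of_mul_nonneg_right h1 hκ0
  have hdis : ∀ v, SF v → inner3 v (fun x i => -MG (lam ν α) v x i + KK P v x i) ≤ 0 := by
    intro v hv
    have h1 := le_of_abs_le (hform v hv.sp)
    have h2 := hnn v hv.sp
    have h5 : (fun x i => -MG (lam ν α) v x i + KK P v x i) =
        fun x i => (-1) * MG (lam ν α) v x i + 1 * KK P v x i := by
      ext x i
      ring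
    rw [h5, inner_comb' (MG_sp (TDIS.Mb_lam hν hα) hv.sp).cp (KK_sf facts hStd hO hv.sp).cp hv.sp.cp,
      hsc ν]
    rw [hsc κ] at h1
    nlinarith [mul_le_mul_of_nonneg_right hκν h2]
  have hL : LinS (Aop P) := by
    refine ⟨fun v w hv hw => ?_, fun v hv => (Aop_sf facts hStd hO hv).cp.1, hdis⟩
    have h1 := Aop_comb facts hStd hO hv.sp hw.sp 1 (-1)
    have h2 : (fun x i => 1 * v x i + -1 * w x i) = v - w := by
      ext x i
      simp only [Pi.sub_apply]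
      ring
    rw [h2] at h1
    rw [h1]
    ext x i
    simp only [Pi.sub_apply]
    ring
  -- the chain
  obtain ⟨b, ad, hseq⟩ := TREC.recb (TBANDEX.band_ex TODE.ode) TBANDBD.band_bd P (thP a N)
    (tauP ν α σ a A N) (WP ν α σ a A N) hP hCh
  obtain ⟨T, hT, hTle, hch⟩ := TCHAIN.chain TOPEN.openn TGROW.grow TWIN.win TSTAGE.stage P (thP a N)
    (tauP ν α σ a A N) (WP ν α σ a A N) b ad hP hCh hseq
  set g : ℕ → ℕ → ℝ → ℝ := fun m j t => (if j = 0 then BB P (thP a N 0) b m t else 0) + ad m j t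
    with hg
  have hsol := UU_sol facts hStd hch hO (by linarith) hT
  have husf : ∀ t ∈ Ico 0 T, SF (UU P b g t) := fun t ht => UU_sf facts hStd hch ht
  have hunb : ∀ M : ℝ, ∃ t ∈ Ico 0 T, ∃ x, M < ‖curl (UU P b g t) x‖ := by
    intro M
    obtain ⟨t, ht, m, hm⟩ := hch.unb M
    obtain ⟨x, hx⟩ := UU_curl facts hStd hch hT m
    exact ⟨t, ht, x, hm.trans_le (hx t ht)⟩
  have hzero := UU_zero (P := P) hch
  have hθ : thP a N 0 ≤ δ := by
    have hN1 : (1 : ℝ) ≤ N := by exact_mod_cast (by omega : 1 ≤ N)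
    have hNδ : 1 / δ ≤ N := hN₂.trans (by exact_mod_cast (by omega : N₂ ≤ N))
    have e : zz N 0 = N := by unfold zz; simp
    unfold thP
    rw [e]
    calc (N : ℝ) ^ (-((a : ℝ) / 2 + 1)) ≤ (N : ℝ) ^ (-1 : ℝ) :=
          Real.rpow_le_rpow_of_exponent_le hN1 (by
            have : (0 : ℝ) ≤ a := Nat.cast_nonneg a
            linarith)
      _ = (N : ℝ)⁻¹ := Real.rpow_neg_one _
      _ ≤ δ := by
        rw [inv_le_comm₀ (by linarith) hδ, ← one_div]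
        exact hNδ
  have hθ0 : 0 < thP a N 0 := hCh.θ_pos 0
  -- the free flow
  have hE : SF (Em P 0 0) := (TMODES.modes TPROF.prof TFCP.fcp P hP).2.1 0 0
  obtain ⟨w, hw0, hw1, hw2, hw3, hw4⟩ := TFREE.free TCINF.cinf TC1.c1reg ν α hν hα (by linarith)
    (fun x => thP a N 0 * Em P 0 0 x 2)
    ⟨contDiff_const.mul (hE.sp.comp 2).1, fun i x => by
      have h1 := (hE.sp.comp 2).2 i x
      simp only at h1 ⊢
      rw [h1]⟩ (fun x => by
      have h1 := pd_ph_2 facts hStd (Sum.inr (0, 0)) 2 x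
      change pd 2 (fun z => Em P 0 0 z 2) x = 0 at h1
      have h2 := pd_comb (hE.sp.comp 2).1 (hE.sp.comp 2).1 (thP a N 0) 0 2 x
      simp only [zero_mul, add_zero] at h2
      rw [h2, h1, mul_zero])
  refine ⟨KK P, fun v hv => KK_sf facts hStd hO hv.sp,
    fun v w hv hw c d => KK_comb facts hStd hO hv.sp hw.sp c d, fun s => ?_, fun s hs v hv => ?_,
    fun v hv => ?_, hdis, fun T' u p hu hus => energy_leS hL hu hus, T, UU P b g, hT,
    hTle.trans hTδ, fun x i => ?_, UU_smooth hStd hch hT, hsol, husf,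
    fun s t ht => UU_hs facts hStd hch s ht, hunb,
    fun T' v q hv hvs h0 => maximal hL hsol husf hunb hv hvs h0, w, ?_, hw1, hw2, hw3, hw4⟩
  · obtain ⟨C', hC'0, hC'⟩ := hO s
    exact ⟨3 * C', fun v hv => KK_hs facts hStd hO hC'0 hC' hv.sp⟩
  · refine (KK_hs facts hStd hO hη0.le (hsm s (hs.trans hS1)) hv.sp).trans ?_
    gcongr
  · refine (hform v hv.sp).trans ?_
    rw [hsc κ]
    exact mul_le_mul_of_nonneg_right hκδ (hnn v hv.sp)
  · rw [hzero]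
    rw [abs_mul, abs_of_pos hθ0]
    calc thP a N 0 * |Em P 0 0 x i| ≤ δ * 1 := by
          have := Em_le hP 0 0 x i
          gcongr
      _ = δ := mul_one δ
  · rw [hw0, hzero]
    ext x i
    fin_cases i
    · change (0 : ℝ) = thP a N 0 * Em P 0 0 x 0
      rw [Em_zero, mul_zero]
    · change (0 : ℝ) = thP a N 0 * Em P 0 0 x 1
      rw [Em_one, mul_zero]
    · rfl

end Pool.Agent.H306.HD.Asm
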