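import Pool.Agent.H306.HD.Stm2
import Pool.Agent.H306.HD.Stm

/-! The modes and the operator of the construction. -/

noncomputable section

namespace Pool.Agent.H306.HD

open Set MeasureTheory

open scoped Real ContDiff ENNReal

open Pool.Agent.H306.CK Pool.Agent.H306.DS

/-- Parameters. -/
structure Prm where
  ν : ℝ
  α : ℝ
  K : ℕ → ℕ
  c : ℕ → ℝ
  ε : ℕ → ℝ

/-- Admissible parameters. -/
structure Prm.Ok (P : Prm) : Prop where
  ν_pos : 0 < P.ν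
  α_pos : 0 < P.α
  α_le : P.α ≤ 1 / 2
  K_one : ∀ m, 1 ≤ P.K m
  K_mono : StrictMono P.K
  K_big : ∀ m, 2 ^ m * (2 * π / P.K (m + 1)) ≤ 1 / 16

variable (P : Prm)

/-- The envelope of the vertical velocity in the band `m`. -/
def X (m : ℕ) : ℝ → ℝ := ch m (P.K (m + 1))

def Lm (m : ℕ) : ℝ := ∫ y in (-π)..π, X P m y

def trg (j : ℕ) (a : ℝ) : ℝ := if Even j then Real.cos a else Real.sin a

/-- A pure mode: frequencies `± P.K m` in `x 0` and `± j * P.K (m + 1)` in `x 1`. -/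
def cmode (m j : ℕ) (x : V) : ℝ :=
  Real.cos (j * P.K (m + 1) * x 1) * trg j (P.K m * x 0)

/-- The shear of the band `m`. -/
def Fm (m : ℕ) (x : V) : V := ![hχ m (x 1) * Real.cos (P.K (m + 1) * x 1), 0, 0]

/-- The vertical velocities of the band `m`. -/
def Em (m j : ℕ) (x : V) : V := ![0, 0, X P m (x 1) * cmode P m j x]

def pv (m : ℕ) (x : V) : V := fun i => Fm P m x i + Em P (m + 1) 0 x i

/-- The eigenvalues. -/
def mu (m j : ℕ) : ℝ := P.ν * ((P.K m : ℝ) ^ 2 + (j * P.K (m + 1) : ℝ) ^ 2) ^ P.α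

/-- The multiplier which reads the vertical velocity of the band `m`. -/
def pim (m : ℕ) (k : Fin 3 → ℤ) : ℝ :=
  open Classical in
  if |k 0| = P.K m ∧ k 2 = 0 ∧ ((P.K (m + 1) : ℕ) : ℤ) ∣ k 1 then 2 * π / Lm P m else 0

def lf (m : ℕ) (v : V → V) : ℝ := 1 / (2 * π ^ 2 * Lm P m) *
  inner3 (fun x => ![X P m (x 1) * Real.cos (P.K (m + 1) * x 1), 0, 0]) v

def ls (m : ℕ) (v : V → V) : ℝ := 1 / (π ^ 2 * Lm P m) *
  inner3 (fun x => ![0, 0, Real.cos (P.K (m + 1) * x 1) * Real.sin (P.K m * x 0)]) v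

def lc (m : ℕ) (v : V → V) : ℝ := 1 / (2 * π ^ 2 * Lm P m) *
  inner3 (fun x => ![0, 0, Real.cos (P.K m * x 0)]) v

/-- The operator of the band `m`. -/
def PP (m : ℕ) (v : V → V) (x : V) : V := fun i =>
  (if i = 2 then cm P.ν P.α (X P m) (mg (pim P m) (fun y => v y 2)) x else 0) +
  lf P m v * (MG (lam P.ν P.α) (Fm P m) x i - mu P (m + 1) 0 * Fm P m x i) +
  (P.c m * ls P m v + P.ε m * lc P m v) * pv P m x i

/-- The perturbation. -/
def KK (v : V → V) (x : V) : V := fun i => ∑' m, PP P m v x i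

/-- Fourier integrals of products.

Proof. As `torus_int_prod` in `CK.Field`, with three complex factors
(`integral_fintype_prod_eq_prod`; the third factor is `exp (-i k₂ x₂)`, its integral is `int_exp` of `CK.Four2`);
see also `int_ex` in `CK.Four2`. -/
def S_FCP : Prop := ∀ (g h : ℝ → ℝ), Continuous g → Continuous h → ∀ k : Fin 3 → ℤ,
  fc (fun x => g (x 0) * h (x 1)) k = c1 g (k 0) * c1 h (k 1) * (if k 2 = 0 then 2 * π else 0)

/-- The basic fields and multipliers.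

Proof. Smoothness, periodicity (`cos_nat_per`, `sin_nat_per`, `hχ_per`, first part of `S_PROF`) and zero divergence (the
component `0` does not depend on `x 0`, the component `2` does not depend on `x 2`; `pd_zero_of_line` in
`CK.Field`). `lam`: even, and `|lam ν α k| ≤ ν W α k`. `pim`: even and bounded. For the last statement: by
`S_FCP` and explicit `c1` of `cos (n y)` and `sin (n y)` (`cos_exp`, `sin_exp`, `int_exp`),
`fc (cmode P m j) k ≠ 0` implies `|k 0| = K m`, `|k 1| = j K (m+1)`, `k 2 = 0`, and for such `k`,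
`lam ν α k = mu P m j`; use `fc_mg` and `fc_inj` (`DS.Frac`). -/
def S_MODES : Prop := S_PROF → S_FCP → ∀ P : Prm, P.Ok →
  (∀ m, SF (Fm P m)) ∧ (∀ m j, SF (Em P m j)) ∧ Mb (lam P.ν P.α) ∧ (∀ m, Mb (pim P m)) ∧
  (∀ m j, SPf (cmode P m j)) ∧
  ∀ m j x, mg (lam P.ν P.α) (cmode P m j) x = mu P m j * cmode P m j x

/-- The reading multiplier on the modes.

Proof. `Lm P m > 0`. By `S_FCP`, `fc (X(x 1) cmode) k = c1 (trg j (K ·)) (k 0) * c1 (X cos (j l ·)) (k 1) * ...`, `l = K (m'+1)`, and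
`c1 (X cos (j l ·)) n = (c1 X (n - j l) + c1 X (n + j l)) / 2`, while `c1 X (i l) = 0` for `i ≠ 0`, `c1 X 0 = Lm`. So for
`l ∣ n`: it is `Lm / (2π)` times `c1 (cos (j l ·)) n`. For `m ≠ m'`: `c1 (trg j (K m' ·)) (k 0) ≠ 0` only for
`|k 0| = K m' ≠ K m`. Use `fc_mg`, `fc_inj` (`DS.Frac`). -/
def S_PIM : Prop := S_PROF → S_FCP → ∀ P : Prm, P.Ok → ∀ m m' j,
  mg (pim P m) (fun y => Em P m' j y 2) = if m = m' then cmode P m j else 0

/-- The functionals on the modes.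

Proof. Products of one-dimensional integrals (`torus_int_prod` in `CK.Field`). `X P m y ≠ 0` implies
`hχ m y = 1` and then `hχ m' y = 0` for `m' ≠ m` (`hχ_disj`). `∫ X cos (i l y) dy = Re (c1 X (i l)) = 0` for `i ≠ 0`
(`l = K (m+1)`, `S_PROF`), `∫ X = Lm > 0`; `∫_{-π}^{π} sin² (K s) = ∫ cos² = π`, `∫ sin cos = 0`, and
`∫ sin (K s) trg j (K' s) = 0 = ∫ cos (K s) trg j (K' s)` for different positive integers `K`, `K'`. -/
def S_FUN : Prop := S_PROF → ∀ P : Prm, P.Ok → ∀ m m' j,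
  lf P m (Fm P m') = (if m = m' then 1 else 0) ∧ ls P m (Fm P m') = 0 ∧ lc P m (Fm P m') = 0 ∧
  lf P m (Em P m' j) = 0 ∧ ls P m (Em P m' j) = (if m = m' ∧ j = 1 then 1 else 0) ∧
  lc P m (Em P m' j) = (if m = m' ∧ j = 0 then 1 else 0)

/-- Norms of the modes.

Proof. Weighted absolute sums of Fourier coefficients: `el_Wc`, `Wc_cos1`, `Wc_cos0`, ... in
`CK.Four3` (with the decay from `prof_decay χb` resp. the second part of `S_PROF`), and `hs_le` in `CK.Four4`; for the mode `j`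
use `el_Wc` with `a = ± j l`, `b = ± K m` (frequency `k = max (j l) (K m)`; for `j ≥ 1` it is `j l`), so that
`hs s (Em P m j) ≤ (C 2^(n m) max (j l) (K m)^s)²`. For the last statement write
`MG (lam) (Fm) - mu Fm = cm ν α (hχ m) (cos (l x 1)) e_0` because `mg lam (cos (l x 1)) = mu P (m+1) 0 cos (l x 1)`
(`fc_mg`, `fc_inj`), and use `S_COMM` (hypothesis) with `hsf` of `cos (l x 1)` equal to
`2 ((2π)³/2)² (1 + l²)^s`. -/
def S_BDM : Prop := S_PROF → S_COMM → ∀ S : ℝ, ∃ (C : ℝ) (n : ℕ), 1 ≤ C ∧ ∀ P : Prm, P.Ok →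
  ∀ s : ℝ, |s| ≤ S → ∀ m : ℕ,
  hs s (Fm P m) ≤ ENNReal.ofReal (C * 2 ^ (n * m) * (P.K (m + 1) : ℝ) ^ (2 * s)) ∧
  hs s (Em P m 0) ≤ ENNReal.ofReal (C * 2 ^ (n * m) * (P.K m : ℝ) ^ (2 * s)) ∧
  (∀ j, 1 ≤ j → hs s (Em P m j) ≤
    ENNReal.ofReal (C * 2 ^ (n * m) * ((j : ℝ) * P.K (m + 1)) ^ (2 * s))) ∧
  hs s (fun x => ![X P m (x 1) * Real.cos (P.K (m + 1) * x 1), 0, 0]) ≤
    ENNReal.ofReal (C * 2 ^ (n * m) * (P.K (m + 1) : ℝ) ^ (2 * s)) ∧
  hs s (fun x => ![0, 0, Real.cos (P.K (m + 1) * x 1) * Real.sin (P.K m * x 0)]) ≤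
    ENNReal.ofReal (C * 2 ^ (n * m) * (P.K (m + 1) : ℝ) ^ (2 * s)) ∧
  hs s (fun x => ![0, 0, Real.cos (P.K m * x 0)]) ≤
    ENNReal.ofReal (C * 2 ^ (n * m) * (P.K m : ℝ) ^ (2 * s)) ∧
  hs s (fun x i => MG (lam P.ν P.α) (Fm P m) x i - mu P (m + 1) 0 * Fm P m x i) ≤
    ENNReal.ofReal (C * P.ν ^ 2 * 2 ^ (n * m) * (P.K (m + 1) : ℝ) ^ (2 * (s + 2 * P.α - 1)))

/-- Bounds of the pieces of the operator.

Proof. First term: `hs (s+σ) (0, 0, cm f) = hsf (s+σ) (cm f)`, `f = mg (pim P m) v_2`; by `S_COMM` (with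
`E = D 2^(n m)` from `S_PROF`), `≤ C ν² 4^(n m) hsf (s + σ + 2α - 1) f`; `fc f k = pim P m k * fc v_2 k` lives on
`|k 0| = K m`, where `W (σ + 2α - 1) k ≤ (K m)^(2(σ + 2α - 1))` since `σ + 2α - 1 ≤ 0`, and `pim² ≤ (2π / Lm)² ≤ (32 π 2^m)²`.
The other terms: `pair_hr` (`DS.Hs2`: `inner3 v w ^ 2 ≤ hr (-s) v * hr s w`) for the functionals and `S_BDM`;
`(a + b + c + d)² ≤ 4 (a² + b² + c² + d²)` for `hs` (`hs_smul`, `add_sq_le`); the norm of `pv` is at most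
`2 (hs Fm + hs (Em (m+1) 0))`, both of size `K (m+1)^(2s)`, `2^(n (m+1)) = 2^n 2^(n m)`. For the seed term:
`K m ^ (2·|s|) ≤ K (m+1) ^ (2 S)` and `K (m+1) ^ (2 (s + σ)) ≤ K (m+1) ^ (2 (S + 1))` (`|s + σ| ≤ S + 1`). -/
def S_BDP : Prop := S_PROF → S_COMM → S_BDM → S_MODES → S_FCP → ∀ S : ℝ, ∃ (C : ℝ) (n : ℕ), 1 ≤ C ∧
  ∀ P : Prm, P.Ok → ∀ s σ : ℝ, |s| ≤ S → |σ| ≤ 1 → σ + 2 * P.α - 1 ≤ 0 → ∀ (m : ℕ) (v : V → V),
  SP v → hs (s + σ) (PP P m v) ≤ ENNReal.ofReal (C * 2 ^ (n * m) *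
    (P.ν ^ 2 * (P.K m : ℝ) ^ (2 * (σ + 2 * P.α - 1)) + P.c m ^ 2 * (P.K (m + 1) : ℝ) ^ (2 * σ) +
      P.ε m ^ 2 * (P.K (m + 1) : ℝ) ^ (4 * (S + 1)))) * hs s v

end Pool.Agent.H306.HD
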