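import Pool.Agent.H306.DS.Frac
import Pool.Agent.H306.CK.Four4

/-! Statements about Fourier multipliers, the operator and regularity. -/

noncomputable section

namespace Pool.Agent.H306.HD

open Set MeasureTheory

open scoped Real ContDiff ENNReal

open Pool.Agent.H306.CK Pool.Agent.H306.DS

/-- The symbol of `ν (-Δ)^α`. -/
def lam (ν α : ℝ) (k : Fin 3 → ℤ) : ℝ := ν * (∑ j, (k j : ℝ) ^ 2) ^ α

/-- The square of the norm of `H^s` for functions. -/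
def hsf (s : ℝ) (f : V → ℝ) : ENNReal := ∑' k : Fin 3 → ℤ, ENNReal.ofReal (W s k * ‖fc f k‖ ^ 2)

/-- The commutator of `ν (-Δ)^α` and the multiplication by `h (x 1)`. -/
def cm (ν α : ℝ) (h : ℝ → ℝ) (f : V → ℝ) (x : V) : ℝ :=
  mg (lam ν α) (fun y => h (y 1) * f y) x - h (x 1) * mg (lam ν α) f x

/-- The commutator gains one derivative (order `2α - 1`).

Proof. Let `l = lam ν α`, `e = ![0, 1, 0]`. By `c1_hasSum` (`CK.Four1`; summability from the hypothesis)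
`h y = ∑ n, (1 / (2π)) c1 h n exp (i n y)`, absolutely; hence
`fc (h(x 1) g) k = ∑ n, (1 / (2π)) c1 h n * fc g (k - n e)` for continuous `g` (cf. `int_tsum` in
`CK.Four2`, `ex_mul`), and with `fc_mg` (`DS.Frac`; `lam ν α` satisfies `Mb`: even, `|lam ν α k| ≤ ν W α k`)
`fc (cm ν α h f) k = ∑ n, (1 / (2π)) c1 h n (l k - l (k - n e)) fc f (k - n e)`.
Now `|l k - l k'| ≤ 2 ν |n| W ((2α-1)/2) k'` for `k = k' + n e`: if `k' = 0` then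
`|k|^(2α) = |n|^(2α) ≤ |n|`; otherwise with `θ = 2α ≤ 1`, `|a^θ - b^θ| ≤ |a - b| b^(θ-1)` for `a ≥ 0`, `b > 0`
(for `a ≥ b`: `a^θ ≤ a b^(θ-1)`; for `a ≤ b`: `a^θ ≥ a b^(θ-1)`), `|a - b| ≤ |n|` for `a = |k|`, `b = |k'| ≥ 1`, and
`b^(θ-1) ≤ 2^((1-θ)/2) (1 + b²)^((θ-1)/2)`. Peetre (`peetre` in `CK.Four1`, see `el_Wc` in `CK.Four3`):
`W (t/2) k ≤ 2^(|t|/2) (1 + n²)^(|t|/2) W (t/2) k'`. So
`W (t/2) k ‖fc (cm f) k‖ ≤ ∑ n, A n * G (k - n e)`, `A n = (ν/π) 2^(S/2) (1 + n²)^((S+1)/2) ‖c1 h n‖`,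
`G k' = W ((t + 2α - 1)/2) k' ‖fc f k'‖`, and by Cauchy-Schwarz (Young)
`∑ k (∑ n A n G (k - n e))² ≤ (∑ A)² ∑ G²`, `∑ A ≤ (ν/π) 2^(S/2) E ∑ 1/(1+n²)`. -/
def S_COMM : Prop := ∀ S : ℝ, ∃ C : ℝ, 0 ≤ C ∧ ∀ (ν α t E : ℝ) (h : ℝ → ℝ) (f : V → ℝ), 0 ≤ ν →
  0 < α → α ≤ 1 / 2 → |t| ≤ S → ContDiff ℝ ∞ h → (∀ y, h (y + 2 * π) = h y) →
  (∀ n : ℤ, (1 + (n : ℝ) ^ 2) ^ ((S + 1) / 2) * ‖c1 h n‖ ≤ E * (1 / (1 + (n : ℝ) ^ 2))) →
  SPf f → hsf t (cm ν α h f) ≤ ENNReal.ofReal (C * ν ^ 2 * E ^ 2) * hsf (t + 2 * α - 1) f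

/-- A bump. -/
def ρb : ContDiffBump (3 / 4 : ℝ) := ⟨1 / 32, 1 / 16, by norm_num, by norm_num⟩

/-- The envelope: the mean of `ρb (2^m sin (y - s))` over `0 ≤ s ≤ 2π/l`. -/
def ch (m l : ℕ) (y : ℝ) : ℝ :=
  (l / (2 * π)) * ∫ s in (0 : ℝ)..(2 * π / l), ρb (2 ^ m * Real.sin (y - s))

/-- Properties of the envelope.

Proof. `ρb` has values in `[0, 1]`, equals `1` on `[3/4 - 1/32, 3/4 + 1/32]` and `0` outside
`(3/4 - 1/16, 3/4 + 1/16)`. Smoothness: parametric integral (or a primitive `R` of the smooth function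
`g y = ρb (2^m sin y)`: `ch m l y = (l / 2π) (R y - R (y - 2π/l))`, and `R` is smooth). If `ch m l y ≠ 0`,
some `s ∈ [0, 2π/l]` has `|2^m sin (y - s) - 3/4| < 1/16`, so `|2^m sin y - 3/4| < 1/16 + 2^m 2π/l ≤ 1/8`
and `hχ_one` applies. Fubini and the substitution `y → y + s` (periodicity) give
`c1 (ch m l) n = (l / 2π) (∫_0^{2π/l} e^{-ins} ds) c1 g n`; the bracket times `l/2π` has modulus `≤ 1`, is `0` for
`n = j l`, `j ≠ 0`, and `1` for `n = 0`. The decay is `prof_decay ρb S` (`CK.Four1`). Integral: `∫ ch = ∫ g` and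
`g = 1` on `[arcsin ((23/32)/2^m), arcsin ((25/32)/2^m)]`, of length `≥ (1/16)/2^m`
(`|sin a - sin b| ≤ |a - b|`); cf. `Pi2_lower` in `CK.Prof`. -/
def S_PROF : Prop :=
  (∀ m l : ℕ, 1 ≤ l → 2 ^ m * (2 * π / l) ≤ 1 / 16 →
    ContDiff ℝ ∞ (ch m l) ∧ (∀ y, ch m l (y + 2 * π) = ch m l y) ∧
    (∀ y, 0 ≤ ch m l y ∧ ch m l y ≤ 1) ∧ (∀ y, ch m l y ≠ 0 → hχ m y = 1) ∧
    (∀ j : ℤ, j ≠ 0 → c1 (ch m l) (j * l) = 0) ∧
    1 / (16 * 2 ^ m) ≤ ∫ y in (-π)..π, ch m l y) ∧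
  ∀ S : ℝ, ∃ (D : ℝ) (n : ℕ), 1 ≤ D ∧ ∀ m l : ℕ, 1 ≤ l → ∀ j : ℤ,
    (1 + (j : ℝ) ^ 2) ^ (S / 2) * ‖c1 (ch m l) j‖ ≤ D * 2 ^ (n * m) * (1 / (1 + (j : ℝ) ^ 2))

/-- The sum of a sequence of operators.

Proof. For smooth periodic `f`, `four_inv` and `tg_iter` (`DS.Frac`) give
`‖iteratedFDeriv ℝ q f x‖ ≤ (2π)^(-3) ∑ k, (3 W 1 k)^q ‖fc f k‖ ≤ C_q sqrt (hr (2q + 3) v)` when `f` is a component of `v`
(Cauchy-Schwarz with `W_summable`, as in `sobolev`). With the hypothesis for `s = 2q + 3 - σ` this is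
`≤ C_q' sqrt ((1/8)^m) sqrt (hr s v)`, summable in `m`: `contDiff_tsum`, termwise divergence and
periodicity. Linearity: termwise. `fc`: `hasSum_integral_of_summable_integral_norm` as in `fc_tsum`. The last
statement: for `a_m ≥ 0`, `(∑ a_m)² ≤ ∑ 2^(m+1) a_m²` (Cauchy-Schwarz), so
`hs (s+σ) (K v) ≤ ∑ m, 2^(m+1) hs (s+σ) (P m v)`, and `∑ 2^(m+1) (1/8)^m = 8/3`; see `hs_ser` in `CK.Four4`. -/
def S_SUMOP : Prop := ∀ (σ : ℝ) (P : ℕ → (V → V) → V → V),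
  (∀ m v, SP v → SF (P m v)) →
  (∀ m v w, SP v → SP w → ∀ a b : ℝ, P m (fun x i => a * v x i + b * w x i) =
    fun x i => a * P m v x i + b * P m w x i) →
  (∀ s : ℝ, ∃ C : ℝ, 0 ≤ C ∧ ∀ m v, SP v →
    hs (s + σ) (P m v) ≤ ENNReal.ofReal (C * (1 / 8) ^ m) * hs s v) →
  (∀ v, SP v → SF (fun x i => ∑' m, P m v x i)) ∧
  (∀ v, SP v → ∀ x i, Summable fun m => P m v x i) ∧
  (∀ v, SP v → ∀ i k, HasSum (fun m => fc (fun x => P m v x i) k)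
    (fc (fun x => ∑' m, P m v x i) k)) ∧
  (∀ s C : ℝ, 0 ≤ C → (∀ m v, SP v →
      hs (s + σ) (P m v) ≤ ENNReal.ofReal (C * (1 / 8) ^ m) * hs s v) →
    ∀ v, SP v → hs (s + σ) (fun x i => ∑' m, P m v x i) ≤ ENNReal.ofReal (3 * C) * hs s v)

/-- Operators commute with rapidly converging series.

Proof. As in `S_SUMOP`, `‖iteratedFDeriv ℝ q (φ r · i) x‖ ≤ C_q sqrt (hr (2q+3) (φ r))`, so the series and its
derivatives converge uniformly: it is smooth and periodic (divergence free if all `φ r` are),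
`HasSum` pointwise and for the Fourier integrals. For the operator `A`: let `u_F` be the partial sum over a
finite set `F`, `u` the sum. Then `A u - A u_F = A (u - u_F)` (linearity, induction over `F`), and by `sobolev` and the
hypothesis for `s = 3`: `|A (u - u_F) x i|² ≤ C hr (3 + N) (u - u_F) ≤ C (∑ r ∉ F, |y r| sqrt (hr (3+N) (φ r)))²`
(triangle inequality in `ℓ²` with weights; or use `∑' r, |y r| W((3+N)/2) k ‖fc (φ r) k‖`), which tends to `0`.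
So `∑ r ∈ F, y r * A (φ r) x i = A u_F x i → A u x i`. -/
def S_CONT : Prop := ∀ (ι : Type) (φ : ι → V → V) (y : ι → ℝ), (∀ r, SP (φ r)) →
  (∀ s : ℝ, Summable fun r => |y r| * Real.sqrt (hr s (φ r))) →
  SP (fun x i => ∑' r, y r * φ r x i) ∧
  ((∀ r, SF (φ r)) → SF (fun x i => ∑' r, y r * φ r x i)) ∧
  (∀ x i, HasSum (fun r => y r * φ r x i) (∑' r, y r * φ r x i)) ∧
  (∀ s : ℝ, hr s (fun x i => ∑' r, y r * φ r x i) ≤
    (∑' r, |y r| * Real.sqrt (hr s (φ r))) ^ 2) ∧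
  ∀ (A : (V → V) → V → V) (N : ℝ), (∀ v, SP v → SP (A v)) →
    (∀ v w, SP v → SP w → ∀ a b : ℝ, A (fun x i => a * v x i + b * w x i) =
      fun x i => a * A v x i + b * A w x i) →
    (∀ s : ℝ, ∃ C : ℝ, 0 ≤ C ∧ ∀ v, SP v → hs s (A v) ≤ ENNReal.ofReal C * hs (s + N) v) →
    ∀ x i, HasSum (fun r => y r * A (φ r) x i) (A (fun x i => ∑' r, y r * φ r x i) x i)

/-- Joint `C^1` regularity of a series with time dependent coefficients.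

Proof. Fix `t₁ < T`. Extend `y r` to `t < 0` by `y r 0 + t * y' r 0` (then it is `C^1` on `(-1, T)`; for `t ∈ (-1, 0]`
`|y r t| ≤ |y r 0| + |y' r 0|`). On the open convex set `(-1, t₁) × V` the terms `z ↦ y r z.1 * φ r z.2 i` are
`C^1` with value and derivative bounded by `C u r`; so the sum is differentiable with derivative the
sum of the derivatives (`hasFDerivAt_tsum_of_isPreconnected`), which is continuous
(`continuousOn_tsum`). Restrict to `[0, t₁)`; `ContDiffOn` is local. -/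
def S_C1 : Prop := ∀ (ι : Type) (φ : ι → V → V) (y y' : ι → ℝ → ℝ) (M : ι → ℝ) (T : ℝ), 0 < T →
  (∀ r, ContDiff ℝ 1 (φ r)) → (∀ r x i, |φ r x i| ≤ M r ∧ ∀ j, |pd j (fun z => φ r z i) x| ≤ M r) →
  (∀ r, ∀ t ∈ Ico 0 T, HasDerivWithinAt (y r) (y' r t) (Ico 0 T) t) →
  (∀ r, ContinuousOn (y' r) (Ico 0 T)) →
  (∀ t₁ ∈ Ico 0 T, ∃ u : ι → ℝ, Summable u ∧ ∀ r, ∀ t ∈ Icc 0 t₁,
    (|y r t| + |y' r t|) * M r ≤ u r) →
  ContDiffOn ℝ 1 (fun z : ℝ × V => (fun i => ∑' r, y r z.1 * φ r z.2 i : V)) (Ico 0 T ×ˢ univ) ∧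
  ∀ t ∈ Ico 0 T, ∀ x i,
    HasDerivWithinAt (fun s => ∑' r, y r s * φ r x i) (∑' r, y' r t * φ r x i) (Ico 0 T) t ∧
    ∀ j, HasSum (fun r => y r t * pd j (fun z => φ r z i) x)
      (pd j (fun z => ∑' r, y r t * φ r z i) x)

/-- The form inequality.

Proof. Parseval (`parseval3` in `DS.Hs2`): with `V k = ∑ i ‖fc v_i k‖²`, `Z k = ∑ i ‖fc w_i k‖²`,
`(2π)³ inner3 v (MG (lam ν α) v) = ν ∑ |k|^(2α) V k ≥ (ν/2) ∑_{k ≠ 0} W α k V k =: (ν/2) G`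
(`1 + |k|² ≤ 2 |k|²` for `k ≠ 0`, `2^α ≤ 2`), and since `fc w_i 0 = 0`,
`(2π)³ |inner3 v w| ≤ ∑_{k ≠ 0} sqrt (V k) sqrt (Z k) ≤ sqrt G sqrt (∑ W (-α) k Z k) ≤ sqrt η G ≤ (ν/2) G`. -/
def S_DIS : Prop := ∀ (ν α η : ℝ) (v w : V → V), 0 < ν → 0 < α → α ≤ 1 → 0 ≤ η → 4 * η ≤ ν ^ 2 →
  SP v → SP w → (∀ i, fc (fun x => w x i) 0 = 0) →
  hs (-α) w ≤ ENNReal.ofReal η *
    ∑' k : Fin 3 → ℤ, ENNReal.ofReal (if k = 0 then 0 else W α k * ∑ i, ‖fc (fun x => v x i) k‖ ^ 2) →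
  inner3 v (fun x i => -MG (lam ν α) v x i + w x i) ≤ 0

end Pool.Agent.H306.HD
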