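import Pool.Agent.H306.HD.Def
import Pool.Agent.H306.CK.Par

/-! Statements about the chain of bands. -/

noncomputable section

namespace Pool.Agent.H306.HD

open Set MeasureTheory

open scoped Real ContDiff ENNReal

open Pool.Agent.H306.CK Pool.Agent.H306.DS

/-- The driving amplitude of the band `m`. -/
def BB (P : Prm) (θ₀ : ℝ) (b : ℕ → ℝ → ℝ) : ℕ → ℝ → ℝ
  | 0, t => θ₀ * Real.exp (-mu P 0 0 * t)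
  | m + 1, t => b m t

/-- The conditions on the parameters. -/
structure ChPar (P : Prm) (θ τ W : ℕ → ℝ) : Prop where
  c_pos : ∀ m, 0 < P.c m
  ε_pos : ∀ m, 0 < P.ε m
  θ_pos : ∀ m, 0 < θ m
  τ_nonneg : ∀ m, 0 ≤ τ m
  W_nonneg : ∀ m, 0 ≤ W m
  W_eq : ∀ m, W m = τ (m + 1) + W (m + 1)
  total : τ 0 + W 0 ≤ 1 / 2
  angle : ∀ m, P.K m * (2 * θ (m + 1)) ≤ 1 / 10
  h1 : ∀ m, 2 * mu P m 1 ≤ Real.sqrt (3 / 8 * (P.c m * P.K m * θ m))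
  h2 : ∀ m, θ (m + 1) * Real.sqrt (3 / 8 * (P.c m * P.K m * θ m)) <
    3 / 32 * (P.ε m * θ m) *
      (Real.exp (Real.sqrt (3 / 8 * (P.c m * P.K m * θ m)) * τ m / 2) - 1)
  h3 : ∀ m, Real.sqrt (5 / 2 * (P.c m * P.K m * θ m)) * W m ≤ 1 / 4
  h4 : ∀ m, mu P (m + 1) 0 * W m ≤ 1 / 2
  h5 : ∀ m, 9 / 4 * (P.ε m * θ m) * W m ≤ θ (m + 1) / 2
  h0 : mu P 0 0 * (τ 0 + W 0) ≤ 1 / 2
  rapid : ∀ N : ℕ, ∃ C : ℝ, ∀ m, P.ε m * (P.K (m + 2) : ℝ) ^ N ≤ C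
  c_le : ∃ C : ℝ, ∀ m, P.c m ≤ C * P.K (m + 1)
  seed : ∀ R : ℝ, ∃ m₀ : ℕ, ∀ m, m₀ ≤ m → R * P.ε m < θ (m + 1)
  small : ∀ M : ℝ, ∃ m₀ : ℕ, ∀ m, m₀ ≤ m → M * P.c m ≤ mu P (m + 1) 0 ^ 2

/-- The sequence of bands. -/
structure BandSeq (P : Prm) (θ : ℕ → ℝ) (b : ℕ → ℝ → ℝ) (a : ℕ → ℕ → ℝ → ℝ) : Prop where
  sol : ∀ m, BandSol (P.K m) (2 * θ (m + 1)) (mu P (m + 1) 0) (P.c m) (P.ε m) (mu P m)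
    (BB P (θ 0) b m) (b m) (a m)
  bds : ∀ m, ∀ t ∈ Icc (0 : ℝ) 1, 0 ≤ BB P (θ 0) b m t ∧ 0 ≤ b m t ∧ 0 ≤ a m 1 t ∧
    |a m 0 t| + |a m 2 t| / 2 ≤ BB P (θ 0) b m t / 8 ∧ |a m 0 t| ≤ BB P (θ 0) b m t ∧
    ∀ i, 1 ≤ i → |a m i t| ≤ (1 / 4) ^ i * BB P (θ 0) b m t

/-- Growth of one band.

Proof. `z = r b - c α₁` satisfies `z 0 = 0`, `z' = r (-l b + c α₁ + ε (B + α₀)) + c μ₁ α₁ - c k cl(b) (B + α₀ + α₂/2)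
≥ -(r + μ₁) z + (r² - (9/8) c k B̄) b + r (μ₁ - l) b ≥ -(r + μ₁) z` (`cl(b) ≤ b` as `b ≥ 0`, and
`B + α₀ + α₂/2 ≤ (9/8) B̄`), so `z ≥ 0`. Then `b' ≤ (r - l) b + (9/8) ε B̄`, `b 0 = 0`. (Part (1) of the proof of
`S_STAGE`; see the module of helper632, team-store helper306_HD_TSTAGE.lean, for tools.) -/
def S_GROW : Prop := ∀ (k β l c ε r Bm t₁ : ℝ) (μ : ℕ → ℝ) (B b : ℝ → ℝ) (α : ℕ → ℝ → ℝ),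
  0 ≤ k → 0 ≤ c → 0 ≤ ε → 0 ≤ l → l ≤ μ 1 → 0 ≤ r → 0 ≤ Bm → 5 / 4 * (c * k * Bm) ≤ r ^ 2 →
  BandSol k β l c ε μ B b α →
  (∀ t ∈ Icc (0 : ℝ) 1, 0 ≤ B t ∧ 0 ≤ b t ∧ 0 ≤ α 1 t ∧ |α 0 t| + |α 2 t| / 2 ≤ B t / 8) →
  t₁ ∈ Icc (0 : ℝ) 1 → (∀ t ∈ Icc 0 t₁, B t ≤ Bm) →
  ∀ t ∈ Icc 0 t₁, b t ≤ 9 / 8 * (ε * Bm) * Real.exp r ∧ (r ≤ l → b t ≤ 9 / 8 * (ε * Bm))

/-- Existence of the sequence of bands.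

Proof. Recursion over `m` with `S_BAND_EX` and `S_BAND_BD`, keeping: `B = BB m` is Lipschitz on `[0, 1]`,
nonnegative and `exp (mu P m 0 t) B t` is nondecreasing there. For `m = 0` it is constant. Step: from
`BandSol` the derivative of `b m` is bounded on `[0, 1]` (continuous), so `b m` is Lipschitz; `b m ≥ 0`; and
`(exp (mu P (m+1) 0 t) b m)' = exp (..) (c α₁ + ε (B + α₀)) ≥ 0`. Hypotheses of the two statements: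
`β = 2 θ (m+1)`, `k β ≤ 1/10` is `angle`; `mu P m` is nondecreasing in `j`; and
`mu P m (j+1) - mu P m j ≤ ν K (m+1)`: for `0 < b' ≤ a'` with `b' ≥ 1`, `a'^(2α) - b'^(2α) ≤ (a' - b') b'^(2α-1) ≤ a' - b'`
(`2α ≤ 1`), with `a' = sqrt (K² + (j+1)² l²)`, `b' = sqrt (K² + j² l²)`, `a' - b' ≤ l`. The bounds `bds` follow from
`S_BAND_BD` with `k β ≤ 1/10`. -/
def S_REC : Prop := S_BAND_EX → S_BAND_BD → ∀ (P : Prm) (θ τ W : ℕ → ℝ), P.Ok → ChPar P θ τ W →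
  ∃ (b : ℕ → ℝ → ℝ) (a : ℕ → ℕ → ℝ → ℝ), BandSeq P θ b a

/-- The windows.

Proof. `Win (BB 0) (θ 0) 0 (τ 0 + W 0)` by `h0` (`exp (-1/2) ≥ 1/2`). Then `S_STAGE` for `m = 0, 1, ...` with `s` the
previous time, `τ = τ m`, `w = W m`, `θ = θ m`, `θ' = θ (m+1)`, `β = 2 θ (m+1)`, `l = mu P (m+1) 0 ≤ mu P m 1`; the new
window `Win (b m) (θ (m+1)) (s m) (W m)` is the old one for the next stage as `W m = τ (m+1) + W (m+1)`;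
and `s (m+1) + W (m+1) ≤ s m + τ (m+1) + W (m+1) = s m + W m`. -/
def S_WIN : Prop := S_STAGE → ∀ (P : Prm) (θ τ W : ℕ → ℝ) (b : ℕ → ℝ → ℝ) (a : ℕ → ℕ → ℝ → ℝ),
  P.Ok → ChPar P θ τ W → BandSeq P θ b a →
  ∃ s : ℕ → ℝ, (∀ m, 0 ≤ s m) ∧ (∀ m, s m + W m ≤ τ 0 + W 0) ∧
    (∀ m, s (m + 1) + W (m + 1) ≤ s m + W m) ∧ (∀ m, b m (s m) = θ (m + 1)) ∧
    ∀ m, ∀ t ∈ Icc 0 (s m + W m), b m t ≤ 2 * θ (m + 1)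

/-- Persistence of rapid decay.

Proof. (a) Choose `R ≥ 1` and `m₀ ≥ 1` such that for `m ≥ m₀`: `ε (m-1) ≤ 1/16` and
`(5/4) c m K m (2 R ε (m-1)) ≤ 1` (`rapid`, `c_le`, and `K (m+1) → ∞`), and by continuity of `b (m₀-1)` choose `δ > 0` with
`b (m₀-1) ≤ 2 R ε (m₀-1)` on `[0, t + δ]`. Induction on `m ≥ m₀`: `B = b (m-1) ≤ 2 R ε (m-1)` on `[0, t+δ]` and `S_GROW`
with `r = 1` give `b m ≤ (9/8) ε m 2 R ε (m-1) e ≤ 2 R ε m`. The finitely many `b m`, `m < m₀`, are bounded on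
`[0, 1]`.
(b) By continuity the bound holds on `[0, t]`. For `m ≥ 1`, `B = b (m-1) ≤ M / K m` there (`M ≥ 0` w.l.o.g.), so with
`r = mu P (m+1) 0` and `(5/4) c m M ≤ r²` for `m ≥ m₀` (`small`): `b m ≤ (9/8) ε m M`. The others are bounded. -/
def S_OPEN : Prop := S_GROW → ∀ (P : Prm) (θ τ W : ℕ → ℝ) (b : ℕ → ℝ → ℝ) (a : ℕ → ℕ → ℝ → ℝ),
  P.Ok → ChPar P θ τ W → BandSeq P θ b a →
  (∀ t, 0 ≤ t → t < 1 → (∃ R : ℝ, ∀ m, ∀ s ∈ Icc 0 t, b m s ≤ R * P.ε m) →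
    ∃ δ : ℝ, 0 < δ ∧ t + δ ≤ 1 ∧ ∃ R : ℝ, ∀ m, ∀ s ∈ Icc 0 (t + δ), b m s ≤ R * P.ε m) ∧
  ∀ t, 0 < t → t ≤ 1 → (∃ M : ℝ, ∀ m, ∀ s ∈ Ico 0 t, P.K (m + 1) * b m s ≤ M) →
    ∃ R : ℝ, ∀ m, ∀ s ∈ Icc 0 t, b m s ≤ R * P.ε m

/-- The parameters; `zz N m = N ^ (2 ^ m)` is in `CK.Par`. -/
def prm (ν α σ : ℝ) (a A N : ℕ) : Prm :=
  ⟨ν, α, fun m => N ^ (a * 2 ^ m), fun m => zz N m ^ (-(2 * a * σ + 2) : ℝ),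
    fun m => 1 / zz N m ^ (m + A)⟩

def thP (a N m : ℕ) : ℝ := zz N m ^ (-((a : ℝ) / 2 + 1))

def rhP (ν α σ : ℝ) (a A N m : ℕ) : ℝ :=
  Real.sqrt (3 / 8 * ((prm ν α σ a A N).c m * (prm ν α σ a A N).K m * thP a N m))

def tauP (ν α σ : ℝ) (a A N m : ℕ) : ℝ :=
  2 / rhP ν α σ a A N m * Real.log (1 + 11 * rhP ν α σ a A N m * thP a N (m + 1) /
    ((prm ν α σ a A N).ε m * thP a N m))

def WP (ν α σ : ℝ) (a A N m : ℕ) : ℝ := ∑' i, tauP ν α σ a A N (m + 1 + i)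

/-- Choice of the parameters, first part.

Proof. Let `z m = zz N m` (`zz_succ`: `z (m+1) = z m ^ 2`; `zz_lin`: `N (m+1) ≤ z m`; `zz_two`). `K m = z m ^ a`,
`K (m+1) = z m ^ (2a)`, `θ m = z m ^ (-(a/2 + 1))`, `c m = z m ^ (-γ)`, `γ = 2 a σ + 2`, `ε m = z m ^ (-(m + A))`. Then:
`K m θ (m+1) = z m ^ (-2)`; `c m K m θ m = z m ^ (2 e)` with `2 e = a/2 - γ - 1 = a (1/2 - 2σ) - 3`;
`mu P m 1 ≤ 2 ν z m ^ (4 a α)`, `mu P (m+1) 0 = ν z m ^ (4 a α)`; `a₀` is chosen such that for `a ≥ a₀`: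
`a (1/4 - σ - 4α) ≥ 5/2` and `e ≥ 1`, so `e ≥ 4 a α + 1`. `h1` holds for `N ≥ 10 (ν + 1)`.
`rhP ≥ z m ^ e / 2`, `rhP ≤ z m ^ e`; `h2`: `32/3 < 11`. `log (..) ≤ log (12 z m ^ (e + m + A)) ≤ (m + C) log (z m)
≤ z m ^ (1/4)` for `N` large (`log z ≤ 8 z^(1/8)`, `8 (m + C) ≤ z m ^ (1/8)`), so `τ m ≤ 4 z m ^ (-e + 1/4)`,
summable; `W m ≤ 10 z (m+1) ^ (-e + 1/4) = 10 z m ^ (-2e + 1/2)` (`z (m+1+i) ≥ 2^i z (m+1)`), so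
`sqrt (5/2 ..) W m ≤ 16 z m ^ (-1/2) ≤ 1/4`, same for `h4`, `h0` (`mu P (m+1) 0 ≤ mu P m 1 ≤ rhP m / 2`;
`mu P 0 0 = ν N ^ (2 a α)`); `τ 0 + W 0 ≤ 14 N ^ (-3/4) ≤ δ`. `W_eq`: `tsum` shift. `h5`: `A ≥ a + 3`. `K_big`: `zz_two`
(`2^m N ≤ z m`). `small`: `c m / mu P (m+1) 0 ^ 2 = z^(-γ - 8 a α)/ν²` and `γ + 8 a α = 2 + 2 a (σ + 4 α) ≥ 2` because
`σ ≥ -2 α`. `c_le`: `-γ ≤ 2a` (`σ ≥ -1`, since `2α < 1/4`). `rapid`, `seed`: `K (m+2) = z m ^ (4a)`, `θ (m+1) = z m ^ (-(a+2))`. -/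
def S_PARA : Prop := ∀ (ν α σ : ℝ), 0 < ν → 0 < α → 4 * α + σ < 1 / 4 → -(2 * α) ≤ σ →
  ∃ a₀ : ℕ, ∀ a, a₀ ≤ a → ∀ A, a + 3 ≤ A → ∀ δ : ℝ, 0 < δ → ∃ N₀ : ℕ, ∀ N, N₀ ≤ N →
    (prm ν α σ a A N).Ok ∧
    ChPar (prm ν α σ a A N) (thP a N) (tauP ν α σ a A N) (WP ν α σ a A N) ∧
    tauP ν α σ a A N 0 + WP ν α σ a A N 0 ≤ δ

/-- Choice of the parameters, second part.

Proof. With the notation of `S_PARA`: `1 - 2α - σ > 1/2`, so `K m ^ (2(σ+2α-1)) = z m ^ (-2a(1-2α-σ)) ≤ z m ^ (-2)` for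
`a ≥ 2`; `c m ^ 2 K (m+1) ^ (2σ) = z m ^ (-2γ + 4aσ) = z m ^ (-4)`; `ε m ^ 2 K (m+1) ^ (4(S+1)) =
z m ^ (-2(m+A) + 8a(S+1)) ≤ z m ^ (-2)` if `A ≥ 4 a (S+1) + 1`. So the bracket is at most `(ν² + 2) z m ^ (-2)
≤ (ν² + 2) N ^ (-(m+1)) N ^ (-(m+1))` (`2^m ≥ m+1`), and `C 2^(n m) 8^m N^(-m) ≤ C` for `N ≥ 2^(n+3)`, and
`C (ν² + 2) / N ≤ δ`. Second statement (any `S'`, `C'`, `n'`): only `m` with `2 (m + A) < 8 a (S'+1) + 1` are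
exceptional (finitely many); for the others the bracket is `≤ (ν² + 2) z m ^ (-1)` and
`2^(n' m) 8^m z m ^ (-1) ≤ (2^(n'+3))^m / 2^(2^m)` is bounded. -/
def S_PARB : Prop := ∀ (ν α σ S C δ : ℝ) (n a A : ℕ), 0 < ν → 0 < α → 4 * α + σ < 1 / 4 →
  -(2 * α) ≤ σ → 0 ≤ S → 0 ≤ C → 0 < δ → 2 ≤ a → 4 * a * (S + 1) + 1 ≤ A →
  ∃ N₀ : ℕ, ∀ N, N₀ ≤ N →
    (∀ m, C * 2 ^ (n * m) * (ν ^ 2 * ((prm ν α σ a A N).K m : ℝ) ^ (2 * (σ + 2 * α - 1)) +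
      (prm ν α σ a A N).c m ^ 2 * ((prm ν α σ a A N).K (m + 1) : ℝ) ^ (2 * σ) +
      (prm ν α σ a A N).ε m ^ 2 * ((prm ν α σ a A N).K (m + 1) : ℝ) ^ (4 * (S + 1))) ≤
        δ * (1 / 8) ^ m) ∧
    ∀ (S' C' : ℝ) (n' : ℕ), 0 ≤ S' → 0 ≤ C' → ∃ C'' : ℝ, 0 ≤ C'' ∧ ∀ m,
      C' * 2 ^ (n' * m) * (ν ^ 2 * ((prm ν α σ a A N).K m : ℝ) ^ (2 * (σ + 2 * α - 1)) +
      (prm ν α σ a A N).c m ^ 2 * ((prm ν α σ a A N).K (m + 1) : ℝ) ^ (2 * σ) +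
      (prm ν α σ a A N).ε m ^ 2 * ((prm ν α σ a A N).K (m + 1) : ℝ) ^ (4 * (S' + 1))) ≤
        C'' * (1 / 8) ^ m

end Pool.Agent.H306.HD
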