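import Pool.Agent.H306.HD.Stm3
import Pool.Agent.H306.DS.Uniq2

/-! Statements for the assembly. -/

noncomputable section

namespace Pool.Agent.H306.HD

open Set MeasureTheory

open scoped Real ContDiff ENNReal

open Pool.Agent.H306.CK Pool.Agent.H306.DS

/-- The action of the perturbation on the modes.

Proof. The series `KK` has one nonzero term. `S_FUN` gives the functionals on the modes, `S_PIM` the first term of
`PP`: for the band `m` itself, `mg (pim P m) (Em P m j · 2) = cmode P m j`, and with `S_MODES`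
`cm ν α (X m) (cmode) = mg lam (X * cmode) - X * (mu * cmode)`. For another band (and for `Fm`, whose component `2` is `0`)
the multiplier gives the zero function, and `mg m 0 = 0` (definition of `mg`; `fc` of the zero function is `0`). The
components `0`, `1` of `MG (lam) (Em)` and `1`, `2` of `MG (lam) (Fm)` vanish for the same reason. -/
def S_ACT : Prop := S_PROF → S_FCP → S_MODES → S_PIM → S_FUN → ∀ P : Prm, P.Ok →
  (∀ m x i, KK P (Fm P m) x i = MG (lam P.ν P.α) (Fm P m) x i - mu P (m + 1) 0 * Fm P m x i) ∧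
  ∀ m j x i, KK P (Em P m j) x i = MG (lam P.ν P.α) (Em P m j) x i - mu P m j * Em P m j x i +
    ((if j = 1 then P.c m else 0) + (if j = 0 then P.ε m else 0)) * pv P m x i

/-- Smoothness and linearity of one piece of the operator.

Proof. `f = mg (pim P m) v_2` is `SPf` and does not depend on `x 2` (its Fourier coefficients live on `k 2 = 0`:
`fc (pd 2 f) = i k₂ fc f = 0`, `fc_inj`, or termwise `tg_pd`), so the first term `(0, 0, cm ..)` is divergence free. `MG_sf` for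
`MG lam Fm`, `comb_sf` (`DS.Op`). Linearity: `fc_comb`/`MG_comb` for the multipliers (apply `MG_comb` to the
component `2`), `inner_comb` for the functionals. -/
def S_LOP1 : Prop := S_PROF → S_FCP → S_MODES → ∀ P : Prm, P.Ok → ∀ m : ℕ,
  (∀ v, SP v → SF (PP P m v)) ∧
  ∀ v w, SP v → SP w → ∀ a b : ℝ, PP P m (fun x i => a * v x i + b * w x i) =
    fun x i => a * PP P m v x i + b * PP P m w x i

/-- Constants and means.

Proof. Constants: `fc (mg (pim P m) const) = 0` since `pim P m 0 = 0` (and `fc` of a constant vanishes at `k ≠ 0`), and the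
functionals vanish on constants (`∫ X cos (l y) dy = Re (c1 X l) = 0`, `∫ cos = ∫ sin = 0`); use linearity (the second part of
`S_LOP1`) with `v` and the constant field. Zero mean: `fc` at `k = 0` of `mg lam g` is `lam 0 * fc g 0 = 0`;
`fc (h (x 1) * mg lam f) 0 = 0` for `f = mg (pim P m) v_2` because `mg lam f` has frequencies `|k 0| = K m ≥ 1` only
(`∑ n, c1 h n * fc (..) (- n e)`, see the expansion of products in `TCOMM`, team-store helper306_HD_TCOMM.lean; or approximate);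
`∫ hχ m (y) cos (K y) dy = 0` for odd `K = K (m+1)` by the substitution `y → π - y` (`hχ m (π - y) = hχ m y`,
`cos (K (π - y)) = - cos (K y)`, periodicity); the component `2` of `pv` has the factor `cos (K (m+1) x 0)`. -/
def S_LOP2 : Prop := S_PROF → S_FCP → S_MODES → S_LOP1 → ∀ P : Prm, P.Ok → ∀ m : ℕ,
  (∀ v, SP v → ∀ c : V, PP P m (fun x i => v x i - c i) = PP P m v) ∧
  (Odd (P.K (m + 1)) → ∀ v, SP v → ∀ i, fc (fun x => PP P m v x i) 0 = 0)

/-- The coefficients of the nonlinear term. -/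
def nl (P : Prm) (b : ℕ → ℝ) (g : ℕ → ℕ → ℝ) (m : ℕ) : ℕ → ℝ
  | 0 => P.K m * b m / 2 * g m 1
  | 1 => -(P.K m * b m * (g m 0 + g m 2 / 2))
  | i + 2 => (-1) ^ i * (P.K m * b m / 2) * (g m (i + 1) + g m (i + 3))

/-- The part of the derivative of `g m i` which comes from the previous band. -/
def pre (P : Prm) (g : ℕ → ℕ → ℝ) : ℕ → ℕ → ℝ
  | m + 1, 0 => P.c m * g m 1 + P.ε m * g m 0
  | _, _ => 0

/-- The nonlinear term.

Proof. If `X P m (x 1) = 0` for all `m`, both sides are `0` (`Em P m j x 2 = X * cmode`, and its derivative `pd 0` is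
`X (x 1) * ∂₀ cmode` since `X (x 1)` does not depend on `x 0`). Otherwise take `m` with `X P m (x 1) ≠ 0`: then `hχ m (x 1) = 1`
(`S_PROF`), `hχ m' (x 1) = 0` for `m' ≠ m` (`hχ_disj`) and so `X P m' (x 1) = 0`. All sums over the bands reduce to
`m`: the left side is `b m cos (l y) X ∑ j, g m j cos (j l y) ∂₀ trg j (K m x 0)`, `y = x 1`, `l = K (m+1)`, with
`∂₀ trg j (K ·) = (-1)^(j+1) K trg (j+1) (K ·)`, and `cos (l y) cos (j l y) = (cos ((j+1) l y) + cos ((j-1) l y)) / 2` for `j ≥ 1`.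
Rearrange the (absolutely convergent) sums over `j`. -/
def S_NL : Prop := S_PROF → ∀ P : Prm, P.Ok → ∀ (b : ℕ → ℝ) (g : ℕ → ℕ → ℝ) (x : V),
  (∀ m, Summable fun j => |g m j|) →
  (∑' m, b m * Fm P m x 0) * (∑' r : ℕ × ℕ, g r.1 r.2 * pd 0 (fun z => Em P r.1 r.2 z 2) x) =
    ∑' r : ℕ × ℕ, nl P b g r.1 r.2 * Em P r.1 r.2 x 2

/-- Test points for the vorticity.

Proof. Let `l = K (m+1)`, `y₀ = arcsin (3/4 / 2^m)`. By `K_big` the interval `(y₀ - 1/(16 * 2^m), y₀ + 1/(16 * 2^m))` has length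
`≥ 2π / l`, so it contains `y` with `l y ∈ -π/2 + 2πℤ`, `sin (l y) = -1`, `cos (l y) = 0`; near `y`
`|2^m sin - 3/4| < 1/8`, so `hχ m = 1` (`hχ_one`), and `hχ m' = 0` for `m' ≠ m` (`hχ_disj`). Take
`x = ![0, y, 0]`: near `x`, `Fm P m z 0 = cos (l z 1)`, with derivative `-l sin (l y) = l`. -/
def S_PT : Prop := ∀ P : Prm, P.Ok → ∀ m : ℕ, ∃ x : V, ∀ m',
  pd 1 (fun z => Fm P m' z 0) x = if m' = m then (P.K (m + 1) : ℝ) else 0

/-- Sizes. -/
def eb (P : Prm) : ℕ → ℝ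
  | 0 => 1
  | m + 1 => P.ε m

/-- Summability of the series of modes.

Proof. Let `C, n` be the constants of `S_BDM` for `S ≥ |s|`. `K_big` gives `2^m ≤ K (m+1)`, `K_mono` gives `m + 1 ≤ K (m+1)`.
So `sqrt (hr s (Fm P m)) ≤ C K (m+1)^M`, `sqrt (hr s (Em P m j)) ≤ C (1 + j)^M K (m+1)^M` and
`sqrt (hr s (Em P (m+1) 0)) ≤ C 2^M K (m+1)^M` for some natural number `M` (`rpow` with exponent `≤ |s|`, base `≥ 1`). By `rapid` (first
hypothesis) `eb P m * K (m+1)^(M + N + 2)` is bounded, and `ε m ≤ C' eb P m`..., so each term is at most a constant times `1 / K (m+1)^2 ≤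
1 / (m+1)^2`, times `(1/4)^j (1 + j)^(M + N)` in the second series. -/
def S_SER : Prop := S_PROF → S_COMM → S_BDM → ∀ P : Prm, P.Ok →
  (∀ N : ℕ, ∃ C : ℝ, ∀ m, P.ε m * (P.K (m + 2) : ℝ) ^ N ≤ C) → (∀ m, 0 < P.ε m) →
  ∀ (s : ℝ) (N : ℕ),
  (Summable fun m => (eb P m + P.ε m) * (P.K (m + 1) : ℝ) ^ N * Real.sqrt (hr s (Fm P m))) ∧
  (Summable fun r : ℕ × ℕ => ((1 / 4) ^ r.2 * (1 + r.2 : ℝ) ^ N * (eb P r.1 + P.ε r.1) *
    (P.K (r.1 + 1) : ℝ) ^ N) * Real.sqrt (hr s (Em P r.1 r.2))) ∧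
  Summable fun m => eb P m * (P.K (m + 1) : ℝ) ^ N * Real.sqrt (hr s (Em P (m + 1) 0))

/-- The solution of the chain. -/
structure ChSol (P : Prm) (θ₀ T : ℝ) (b : ℕ → ℝ → ℝ) (g : ℕ → ℕ → ℝ → ℝ) : Prop where
  b0 : ∀ m, b m 0 = 0
  g0 : ∀ m j, g m j 0 = if m = 0 ∧ j = 0 then θ₀ else 0
  db : ∀ m, ∀ t ∈ Ico 0 T, HasDerivWithinAt (b m)
    (-mu P (m + 1) 0 * b m t + P.c m * g m 1 t + P.ε m * g m 0 t) (Ico 0 T) t
  dg : ∀ m i, ∀ t ∈ Ico 0 T, HasDerivWithinAt (g m i)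
    (-mu P m i * g m i t - nl P (fun m => b m t) (fun m j => g m j t) m i +
      pre P (fun m j => g m j t) m i) (Ico 0 T) t
  b_nn : ∀ m, ∀ t ∈ Ico 0 T, 0 ≤ b m t
  bd : ∀ t ∈ Ico 0 T, ∃ R : ℝ, 0 ≤ R ∧ ∀ s ∈ Icc 0 t, ∀ m, |b m s| ≤ R * P.ε m ∧
    ∀ i, |g m i s| ≤ R * ((1 / 4) ^ i * eb P m)
  unb : ∀ M : ℝ, ∃ t ∈ Ico 0 T, ∃ m, M < P.K (m + 1) * b m t

/-- Existence of the solution of the chain.

Proof. `g m j t = (if j = 0 then BB P (θ 0) b m t else 0) + a m j t`. Let `A` be the set of `t ∈ [0, 1]` such that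
`∃ R, ∀ m, ∀ s ∈ [0, t], b m s ≤ R ε m`, and `T = sSup A`. `0 ∈ A` and `T > 0` (first part of `S_OPEN` at `t = 0`, `b m 0 = 0`).
If `t ∈ A` then `t < s m + W m` for all `m` (`s` from `S_WIN`): otherwise `s m' ≤ s m' + W m' ≤ s m + W m ≤ t` for all
`m' ≥ m`, so `θ (m'+1) = b m' (s m') ≤ R ε m'`, which contradicts `seed`. So `T ≤ τ 0 + W 0 ≤ 1/2` and
`b m ≤ 2 θ (m+1)` on `[0, T)`, where hence `cl (2 θ (m+1)) (b m t) = b m t` (`b m ≥ 0`). The equations follow from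
`BandSol` (`mono` to `Ico 0 T ⊆ Icc 0 1`); for `m ≥ 1`, `BB P (θ 0) b m = b (m-1)`. The bounds from `bds` (`eb P (m+1) = ε m`,
`R` replaced by `2 R + 2 θ 0 + 2`, `(1/4)^i`: for `i = 0` use `|a m 0| ≤ BB`). If the last statement fails, then the
second part of `S_OPEN` at `t = T` gives `T ∈ A`, and the first part contradicts `T = sSup A`. -/
def S_CHAIN : Prop := S_OPEN → S_GROW → S_WIN → S_STAGE → ∀ (P : Prm) (θ τ W : ℕ → ℝ)
  (b : ℕ → ℝ → ℝ) (a : ℕ → ℕ → ℝ → ℝ), P.Ok → ChPar P θ τ W → BandSeq P θ b a →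
  ∃ T : ℝ, 0 < T ∧ T ≤ τ 0 + W 0 ∧ ChSol P (θ 0) T b
    (fun m j t => (if j = 0 then BB P (θ 0) b m t else 0) + a m j t)

/-- The form inequality for the perturbation.

Proof. Let `v₀ x i = v x i - c i` with `c i = (2π)^(-3) Re (fc v_i 0)` the mean (`fc v_i 0` is real): `fc v₀_i 0 = 0` and
`fc v₀_i k = fc v_i k` for `k ≠ 0` (`fc` of a constant: `int_exp`/`fc_tg` in `DS.Frac` with `tg c 0`). By `S_LOP2`,
`KK P v = KK P v₀`; by the third part of `S_SUMOP` and `S_LOP2`, `fc (KK P v)_i 0 = 0`. The hypothesis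
for `s = -α - σ` and the last part of `S_SUMOP` give `hs (-α) (KK P v₀) ≤ 3 C hs (-α - σ) v₀ ≤ 3 C ∑_{k ≠ 0} W α k ...`
since `-α - σ ≤ α` and `W ≥ 1`. Apply `S_DIS` with `η = 3 C`. -/
def S_FORM : Prop := S_DIS → S_SUMOP → S_LOP1 → S_LOP2 → S_PROF → S_FCP → S_MODES → ∀ (P : Prm) (σ C : ℝ),
  P.Ok → (∀ m, Odd (P.K (m + 1))) → -(2 * P.α) ≤ σ → 0 ≤ C → 12 * C ≤ P.ν ^ 2 →
  (∀ s : ℝ, ∃ C' : ℝ, 0 ≤ C' ∧ ∀ m v, SP v →
    hs (s + σ) (PP P m v) ≤ ENNReal.ofReal (C' * (1 / 8) ^ m) * hs s v) →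
  (∀ m v, SP v → hs (-P.α) (PP P m v) ≤ ENNReal.ofReal (C * (1 / 8) ^ m) * hs (-P.α - σ) v) →
  ∀ v, SP v → inner3 v (fun x i => -MG (lam P.ν P.α) v x i + KK P v x i) ≤ 0

end Pool.Agent.H306.HD
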