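import Pool.Agent.H306.HD.Stm4

/-! Statements about joint smoothness and the unperturbed flow. -/

noncomputable section

namespace Pool.Agent.H306.HD

open Set MeasureTheory

open scoped Real ContDiff ENNReal

open Pool.Agent.H306.CK Pool.Agent.H306.DS

/-- Locally uniform summability with weights. -/
def SB {ι : Type} (M : ℕ → ι → ℝ) (T : ℝ) (y : ι → ℝ → ℝ) : Prop :=
  ∀ q : ℕ, ∀ t₁ ∈ Ico 0 T, ∃ u : ι → ℝ, Summable u ∧ ∀ r, ∀ t ∈ Icc 0 t₁, |y r t| * M q r ≤ u r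

/-- `n` derivatives with these bounds. -/
def RY {ι : Type} (M : ℕ → ι → ℝ) (T : ℝ) : ℕ → (ι → ℝ → ℝ) → Prop
  | 0, y => (∀ r, ContinuousOn (y r) (Ico 0 T)) ∧ SB M T y
  | n + 1, y => SB M T y ∧ ∃ y' : ι → ℝ → ℝ,
      (∀ r, ∀ t ∈ Ico 0 T, HasDerivWithinAt (y r) (y' r t) (Ico 0 T) t) ∧ RY M T n y'

/-- Joint smoothness of a series with time dependent coefficients.

Proof. Induction over `n` (for all `φ`, `y`, `M`). For `n = 0`: `continuousOn_tsum` on `Icc 0 t₁ ×ˢ univ` (`M 0`). Step: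
`RY (n+1) y` gives `RY n y` (induction) and `RY n y'`. `S_C1` (with fields `fun x => ![φ r x, 0, 0]`, or adapt its
proof, module `TC1`, team-store helper306_HD_TC1.lean; its hypothesis with `M r = M 0 r + M 1 r`; `y'` is continuous on `Ico 0 T`) shows that
the series is `C^1` with derivative at `(t, x)` the linear map `(τ, ξ) ↦ τ ∑ y' r t φ r x + ∑ j, ξ j ∑ y r t pd j (φ r) x`
(`fderivWithin`, `Ico 0 T ×ˢ univ` has unique derivatives). The two kinds of series are `C^n` by induction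
(for `pd j (φ r)` take `M (q+1) r`; `iteratedFDeriv` of `fderiv`), so `contDiffOn_succ_iff_fderivWithin` applies (or
`contDiffOn_succ_iff_hasFDerivWithinAt`). -/
def S_CINF : Prop := S_C1 → ∀ (n : ℕ) (ι : Type) (φ : ι → V → ℝ) (M : ℕ → ι → ℝ) (T : ℝ)
  (y : ι → ℝ → ℝ), 0 < T → (∀ r, ContDiff ℝ ∞ (φ r)) →
  (∀ q r x, ‖iteratedFDeriv ℝ q (φ r) x‖ ≤ M q r) → RY M T n y →
  ContDiffOn ℝ n (fun z : ℝ × V => ∑' r, y r z.1 * φ r z.2) (Ico 0 T ×ˢ univ)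

def e2 (P : Prm) : ℕ → ℝ
  | 0 => 0
  | m + 1 => eb P m + P.ε m

def wB (P : Prm) (N m : ℕ) : ℝ := (eb P m + P.ε m) * (P.K (m + 1) : ℝ) ^ N

def wG (P : Prm) (N m i : ℕ) : ℝ :=
  (1 / 4) ^ i * (1 + i : ℝ) ^ N * (eb P m + P.ε m) * (P.K (m + 1) : ℝ) ^ N +
    (if i = 0 then e2 P m * (P.K m : ℝ) ^ N else 0)

def Bdd (P : Prm) (T : ℝ) (b : ℕ → ℝ → ℝ) (g : ℕ → ℕ → ℝ → ℝ) : Prop :=
  ∃ N : ℕ, ∀ t ∈ Ico 0 T, ∃ R : ℝ, 0 ≤ R ∧ ∀ s ∈ Icc 0 t, ∀ m, |b m s| ≤ R * wB P N m ∧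
    ∀ i, |g m i s| ≤ R * wG P N m i

/-- `n` derivatives with bounds. -/
def RB (P : Prm) (T : ℝ) : ℕ → (ℕ → ℝ → ℝ) → (ℕ → ℕ → ℝ → ℝ) → Prop
  | 0, b, g => (∀ m, ContinuousOn (b m) (Ico 0 T)) ∧ (∀ m i, ContinuousOn (g m i) (Ico 0 T)) ∧
      Bdd P T b g
  | n + 1, b, g => Bdd P T b g ∧ ∃ (b' : ℕ → ℝ → ℝ) (g' : ℕ → ℕ → ℝ → ℝ),
      (∀ m, ∀ t ∈ Ico 0 T, HasDerivWithinAt (b m) (b' m t) (Ico 0 T) t) ∧
      (∀ m i, ∀ t ∈ Ico 0 T, HasDerivWithinAt (g m i) (g' m i t) (Ico 0 T) t) ∧ RB P T n b' g'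

/-- The solution of the chain is smooth in time with bounds.

Proof. `RB (n+1) → RB n`; `RB n` is closed under sums. Key: if `RB n (b, g)` and `RB n (b₂, g₂)` then
`RB n (-mu P (m+1) 0 * b m + c m * g m 1 + ε m * g m 0, -mu P m i * g m i - nl P b₂ g m i + pre P g m i)` by induction
over `n` (product rule; the derivative of this pair is the sum of the pairs for `(b', g')`, `b₂` and for
`(b, g)`, `b₂'` up to the linear part, so it is best to prove it separately for the linear part and for the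
bilinear part `(0, nl P b₂ g)`). Bounds (`n = 0`): `mu P m i ≤ ν (1 + i)^2 K (m+1)^2` (`α ≤ 1/2`), `c m ≤ C K (m+1)`, `ε m ≤ C`
(`rapid` for `N = 0`), `K m ≤ K (m+1)`; all weights are at most `C K (m+1)^N`; for `nl`: `|b₂ m| ≤ R wB`, `|g m i| ≤ R' K (m+1)^N'
(1/4)^i (1+i)^N'`; for `pre` (only at `i = 0`, `m ≥ 1`): `≤ R' e2 P m * K m ^ N'`. Then `RB n (b, g) → RB (n+1) (b, g)` by the
equations `db`, `dg`, starting from `bd` (`N = 0`). -/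
def S_RB : Prop := ∀ (P : Prm) (θ₀ T : ℝ) (b : ℕ → ℝ → ℝ) (g : ℕ → ℕ → ℝ → ℝ), P.Ok →
  (∀ N : ℕ, ∃ C : ℝ, ∀ m, P.ε m * (P.K (m + 2) : ℝ) ^ N ≤ C) → (∀ m, 0 < P.ε m) →
  (∀ m, 0 < P.c m) → (∃ C : ℝ, ∀ m, P.c m ≤ C * P.K (m + 1)) → ChSol P θ₀ T b g →
  ∀ n, RB P T n b g

/-- The modes. -/
def ph (P : Prm) : ℕ ⊕ ℕ × ℕ → V → V
  | Sum.inl m => Fm P m
  | Sum.inr r => Em P r.1 r.2

def yy (b : ℕ → ℝ → ℝ) (g : ℕ → ℕ → ℝ → ℝ) : ℕ ⊕ ℕ × ℕ → ℝ → ℝ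
  | Sum.inl m => b m
  | Sum.inr r => g r.1 r.2

/-- From the chain to the series.

Proof. Induction over `n` for all `b`, `g`; the point is `SB M T (yy b g)` from `Bdd P T b g`: by the hypothesis
`M q r ≤ C sqrt (hr s (ph P r))`, and the three summable series of `S_SER` (the third one for `i = 0`, `m ≥ 1`, where the
weight contains `e2 P (m+1) * K (m+1)^N = (eb P m + ε m) * K (m+1)^N`; since `ε m ≤ C eb P m` for `m` large etc. or directly: use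
`rapid` to bound `ε m K (m+1)^N sqrt (hr s (Em P (m+1) 0))` by `C / K (m+1)^2` as in the proof of `S_SER`, with `S_BDM`). Summability over
`ℕ ⊕ ℕ × ℕ`: `Summable.sum`-type lemma or `summable_sum_iff`/`Equiv`. -/
def S_RBY : Prop := S_SER → S_PROF → S_COMM → S_BDM → ∀ (P : Prm) (T : ℝ) (M : ℕ → ℕ ⊕ ℕ × ℕ → ℝ),
  P.Ok → (∀ N : ℕ, ∃ C : ℝ, ∀ m, P.ε m * (P.K (m + 2) : ℝ) ^ N ≤ C) → (∀ m, 0 < P.ε m) →
  (∀ q, ∃ C s : ℝ, 0 ≤ C ∧ ∀ r, 0 ≤ M q r ∧ M q r ≤ C * Real.sqrt (hr s (ph P r))) →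
  ∀ (n : ℕ) (b : ℕ → ℝ → ℝ) (g : ℕ → ℕ → ℝ → ℝ), RB P T n b g → RY M T n (yy b g)

/-- The unperturbed flow.

Proof. `w t x = ![0, 0, (2π)^(-3) ∑ k, exp (-lam k t) * tg (fc f k) k x]` (`tg`, `tg_iter`, `four_inv`, `fc_decay` in `DS.Frac`; it equals
`f` at `t = 0` by `four_inv`). `S_CINF` for `ι = Fin 3 → ℤ`, `y k t = exp (-lam k t)`, `φ k = tg (fc f k) k`,
`M q k = C_q W q k ‖fc f k‖` (`tg_iter`), any `T`: the `n`-th derivative of `y k` is `(-lam k)^n exp (-lam k t)`, bounded by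
`(ν W 1 k)^n`; `contDiffOn_infty` and locality give `Ici 0`. `fc (w t 2) k = exp (-lam k t) fc f k` (`fc_mg` with the multiplier
`exp (-lam k t)`, which is `Mb`: `w t x = ![0, 0, mg (fun k => exp (-lam k t)) f x]`), so `hs` decreases and the time derivative is
`-mg (lam) (w t 2)` (`MG_MG`/`fc_inj`, or termwise). `pd 2 (w t 2) = 0` (frequencies with `k 2 ≠ 0` are absent: `fc (pd 2 f) k = i k₂ fc f k`),
hence divergence free, and the nonlinear term `w 2 * pd 2 w = 0`. -/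
def S_FREE : Prop := S_CINF → S_C1 → ∀ (ν α : ℝ), 0 < ν → 0 < α → α ≤ 1 / 2 → ∀ f : V → ℝ,
  SPf f → (∀ x, pd 2 f x = 0) → ∃ w : ℝ → V → V, w 0 = (fun x => ![0, 0, f x]) ∧
  ContDiffOn ℝ ∞ (fun z : ℝ × V => w z.1 z.2) (Ici 0 ×ˢ univ) ∧
  IsSol (fun v x i => -MG (lam ν α) v x i) (Ici 0) w (fun _ _ => 0) ∧
  (∀ t ∈ Ici (0 : ℝ), SF (w t)) ∧ ∀ s : ℝ, ∀ t ∈ Ici (0 : ℝ), hs s (w t) ≤ hs s (w 0)

end Pool.Agent.H306.HD
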