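import Pool.Agent.H306.HD.Def

/-! Sobolev bound of one piece of the operator. -/

noncomputable section

namespace Pool.Agent.H306.HD.TBDP

open Set MeasureTheory

open scoped Real ContDiff ENNReal

open Pool.Agent.H306.CK Pool.Agent.H306.DS

/-! ### Smooth periodic fields -/

theorem sp3 {f g h : V → ℝ} (hf : SPf f) (hg : SPf g) (hh : SPf h) :
    SP (fun x => ![f x, g x, h x]) := by
  constructor
  · refine contDiff_pi.2 fun i => ?_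
    fin_cases i
    · exact hf.1
    · exact hg.1
    · exact hh.1
  · intro j x
    ext i
    fin_cases i
    · exact hf.2 j x
    · exact hg.2 j x
    · exact hh.2 j x

theorem spf_zero : SPf (fun _ : V => (0:ℝ)) := ⟨contDiff_const, fun _ _ => rfl⟩

theorem spf_mul {f g : V → ℝ} (hf : SPf f) (hg : SPf g) : SPf (fun x => f x * g x) :=
  ⟨hf.1.mul hg.1, fun j x => by simp only; rw [hf.2 j x, hg.2 j x]⟩

theorem spf_sub {f g : V → ℝ} (hf : SPf f) (hg : SPf g) : SPf (fun x => f x - g x) :=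
  ⟨hf.1.sub hg.1, fun j x => by simp only; rw [hf.2 j x, hg.2 j x]⟩

theorem spf_line {g : ℝ → ℝ} (hg : ContDiff ℝ ∞ g) (hp : ∀ y, g (y + 2 * π) = g y) (i : Fin 3) :
    SPf (fun x : V => g (x i)) := by
  refine ⟨hg.comp (contDiff_apply ℝ ℝ i), fun j x => ?_⟩
  simp only [Pi.add_apply, Pi.single_apply]
  split_ifs with h
  · exact hp _
  · rw [add_zero]

theorem spf_cos (n : ℕ) (i : Fin 3) : SPf (fun x : V => Real.cos (n * x i)) :=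
  spf_line (g := fun y => Real.cos (n * y)) (by fun_prop) (fun y => cos_nat_per n y) i

theorem spf_sin (n : ℕ) (i : Fin 3) : SPf (fun x : V => Real.sin (n * x i)) :=
  spf_line (g := fun y => Real.sin (n * y)) (by fun_prop) (fun y => sin_nat_per n y) i

theorem x_facts (hprof : S_PROF) {P : Prm} (hP : P.Ok) (m : ℕ) :
    ContDiff ℝ ∞ (X P m) ∧ (∀ y, X P m (y + 2 * π) = X P m y) ∧ 1 ≤ Lm P m * (16 * 2 ^ m) := by
  obtain ⟨h1, h2, -, -, -, h6⟩ := hprof.1 m (P.K (m + 1)) (hP.K_one _) (hP.K_big m)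
  refine ⟨h1, h2, ?_⟩
  rw [div_le_iff₀ (by positivity)] at h6
  exact h6

/-! ### Functionals -/

theorem fun_sq {w v : V → V} (hw : SP w) (hv : SP v) {s M : ℝ} (hM : 0 ≤ M)
    (h : hs (-s) w ≤ ENNReal.ofReal M) : inner3 w v ^ 2 ≤ M * hr s v := by
  refine (pair_hr hw hv s).trans (mul_le_mul_of_nonneg_right ?_ (hr_nonneg _ _))
  unfold hr
  exact ENNReal.toReal_le_of_le_ofReal hM h

theorem pi_sq : (9 : ℝ) ≤ π ^ 2 := by nlinarith [Real.pi_gt_three]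

theorem coef1 {L : ℝ} {m : ℕ} (h : 1 ≤ L * (16 * 2 ^ m)) :
    (1 / (2 * π ^ 2 * L)) ^ 2 ≤ (4 : ℝ) ^ m := by
  have h2 : (0:ℝ) < 2 ^ m := by positivity
  have hL : 0 < L := by
    by_contra hL
    rw [not_lt] at hL
    nlinarith [mul_nonneg (neg_nonneg.2 hL) h2.le]
  have hp := pi_sq
  have e : (4 : ℝ) ^ m = (2 ^ m) ^ 2 := by rw [← pow_mul, mul_comm, pow_mul]; norm_num
  rw [e]
  apply pow_le_pow_left₀ (by positivity)
  rw [div_le_iff₀ (by positivity)]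
  have h3 : 9 * (L * 2 ^ m) ≤ π ^ 2 * (L * 2 ^ m) :=
    mul_le_mul_of_nonneg_right hp (by positivity)
  nlinarith

theorem coef2 {L : ℝ} {m : ℕ} (h : 1 ≤ L * (16 * 2 ^ m)) :
    (1 / (π ^ 2 * L)) ^ 2 ≤ 4 * (4 : ℝ) ^ m := by
  have h2 : (0:ℝ) < 2 ^ m := by positivity
  have h1 := coef1 h
  have e : (1 / (π ^ 2 * L)) ^ 2 = 4 * (1 / (2 * π ^ 2 * L)) ^ 2 := by
    rw [div_pow, div_pow, mul_pow, mul_pow, mul_pow]
    norm_num
    ring
  rw [e]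
  linarith

/-! ### The fields -/

theorem rank1 {a : ℝ} {G : V → V} {t A N H : ℝ} (hA : 0 ≤ A) (hN : 0 ≤ N) (hH : 0 ≤ H)
    (ha : a ^ 2 ≤ A * H) (hG : hs t G ≤ ENNReal.ofReal N) :
    hs t (fun x i => a * G x i) ≤ ENNReal.ofReal (A * N) * ENNReal.ofReal H := by
  rw [hs_smul, ← ENNReal.ofReal_mul (by positivity)]
  calc ENNReal.ofReal (a ^ 2) * hs t G ≤ ENNReal.ofReal (A * H) * ENNReal.ofReal N := by gcongr
    _ = ENNReal.ofReal (A * N * H) := by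
        rw [← ENNReal.ofReal_mul (by positivity)]
        congr 1
        ring

theorem comb4 {b1 b2 b3 b4 : ℝ} (h1 : 0 ≤ b1) (h2 : 0 ≤ b2) (h3 : 0 ≤ b3) (h4 : 0 ≤ b4)
    {h a1 a2 a3 a4 : ℝ≥0∞} (g1 : a1 ≤ ENNReal.ofReal b1 * h) (g2 : a2 ≤ ENNReal.ofReal b2 * h)
    (g3 : a3 ≤ ENNReal.ofReal b3 * h) (g4 : a4 ≤ ENNReal.ofReal b4 * h) :
    2 * (2 * a1 + 2 * a2) + 2 * (2 * a3 + 2 * a4) ≤
      ENNReal.ofReal (4 * (b1 + b2 + b3 + b4)) * h := by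
  have e : ENNReal.ofReal (4 * (b1 + b2 + b3 + b4)) = 4 * (ENNReal.ofReal b1 +
      ENNReal.ofReal b2 + ENNReal.ofReal b3 + ENNReal.ofReal b4) := by
    rw [ENNReal.ofReal_mul (by norm_num), ENNReal.ofReal_add (by positivity) h4,
      ENNReal.ofReal_add (by positivity) h3, ENNReal.ofReal_add h1 h2]
    norm_num
  rw [e]
  calc 2 * (2 * a1 + 2 * a2) + 2 * (2 * a3 + 2 * a4) ≤
        2 * (2 * (ENNReal.ofReal b1 * h) + 2 * (ENNReal.ofReal b2 * h)) +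
        2 * (2 * (ENNReal.ofReal b3 * h) + 2 * (ENNReal.ofReal b4 * h)) := by gcongr
    _ = _ := by ring

theorem hs_third (t : ℝ) (g : V → ℝ) :
    hs t (fun x i => if i = (2 : Fin 3) then g x else 0) = hsf t g := by
  rw [hs_def]
  unfold hsf
  refine tsum_congr fun k => ?_
  rw [Fin.sum_univ_three]
  have h0 : fc (fun _ : V => if (0 : Fin 3) = 2 then (0 : ℝ) else 0) k = 0 := by
    simp [fc]
  simp [fc]

theorem pim_W {P : Prm} (hP : P.Ok) (m : ℕ) (hL : 1 ≤ Lm P m * (16 * 2 ^ m)) {s e : ℝ}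
    (he : e ≤ 0) (k : Fin 3 → ℤ) : pim P m k ^ 2 * W (s + e) k ≤
      ((32 * π) ^ 2 * (2 ^ m) ^ 2 * (P.K m : ℝ) ^ (2 * e)) * W s k := by
  have hK : (1:ℝ) ≤ P.K m := by exact_mod_cast hP.K_one m
  have hW0 := W_pos s k
  have hWe := W_pos e k
  have hpi := Real.pi_pos
  have h2m : (0:ℝ) < 2 ^ m := by positivity
  have hL0 : 0 < Lm P m := by
    by_contra hL0
    rw [not_lt] at hL0
    nlinarith [mul_nonneg (neg_nonneg.2 hL0) h2m.le]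
  unfold pim
  split_ifs with h
  · obtain ⟨h0, -, -⟩ := h
    rw [W_add]
    have h1 : W e k ≤ (P.K m : ℝ) ^ (2 * e) := by
      have h2 : ((P.K m : ℝ)) ^ 2 ≤ 1 + ∑ j, (k j : ℝ) ^ 2 := by
        have h3 : ((k 0 : ℤ) : ℝ) ^ 2 = (P.K m : ℝ) ^ 2 := by
          have h5 : (((|k 0| : ℤ)) : ℝ) = (P.K m : ℝ) := by
            rw [h0]
            push_cast
            rfl
          rw [Int.cast_abs] at h5
          rw [← sq_abs, h5]
        have h4 : ((k 0 : ℤ) : ℝ) ^ 2 ≤ ∑ j, (k j : ℝ) ^ 2 :=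
          Finset.single_le_sum (f := fun j => (k j : ℝ) ^ 2) (fun j _ => sq_nonneg _)
            (Finset.mem_univ 0)
        linarith
      have h5 : (P.K m : ℝ) ^ (2 * e) = ((P.K m : ℝ) ^ 2) ^ e := by
        rw [← Real.rpow_natCast, ← Real.rpow_mul (by linarith)]
        norm_num
      rw [h5]
      unfold W
      exact Real.rpow_le_rpow_of_nonpos (by positivity) h2 he
    have hLm : (2 * π / Lm P m) ^ 2 ≤ (32 * π) ^ 2 * (2 ^ m) ^ 2 := by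
      rw [← mul_pow]
      apply pow_le_pow_left₀ (by positivity)
      rw [div_le_iff₀ hL0]
      nlinarith
    calc (2 * π / Lm P m) ^ 2 * (W s k * W e k) = (2 * π / Lm P m) ^ 2 * W e k * W s k := by ring
      _ ≤ ((32 * π) ^ 2 * (2 ^ m) ^ 2) * (P.K m : ℝ) ^ (2 * e) * W s k := by gcongr
  · have h6 : 0 ≤ (P.K m : ℝ) ^ (2 * e) := by positivity
    rw [zero_pow (by norm_num), zero_mul]
    positivity

theorem hsf_pim {P : Prm} (hP : P.Ok) (m : ℕ) (hL : 1 ≤ Lm P m * (16 * 2 ^ m))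
    (hmb : Mb (pim P m)) {s e : ℝ} (he : e ≤ 0) {v : V → V} (hv : SP v) :
    hsf (s + e) (mg (pim P m) (fun y => v y 2)) ≤
      ENNReal.ofReal ((32 * π) ^ 2 * (2 ^ m) ^ 2 * (P.K m : ℝ) ^ (2 * e)) * hs s v := by
  have hB : 0 ≤ (32 * π) ^ 2 * (2 ^ m) ^ 2 * (P.K m : ℝ) ^ (2 * e) := by positivity
  unfold hsf
  rw [hs_def, ← ENNReal.tsum_mul_left]
  refine ENNReal.tsum_le_tsum fun k => ?_
  rw [← ENNReal.ofReal_mul hB]
  apply ENNReal.ofReal_le_ofReal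
  rw [fc_mg hmb (hv.comp 2), norm_mul, mul_pow, Complex.norm_real, Real.norm_eq_abs, sq_abs]
  have h1 := pim_W hP m hL (s := s) he k
  have h2 : ‖fc (fun x => v x 2) k‖ ^ 2 ≤ ∑ i, ‖fc (fun x => v x i) k‖ ^ 2 :=
    Finset.single_le_sum (f := fun i => ‖fc (fun x => v x i) k‖ ^ 2) (fun i _ => sq_nonneg _)
      (Finset.mem_univ 2)
  have hW := W_pos s k
  calc W (s + e) k * (pim P m k ^ 2 * ‖fc (fun x => v x 2) k‖ ^ 2) =
        (pim P m k ^ 2 * W (s + e) k) * ‖fc (fun x => v x 2) k‖ ^ 2 := by ring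
    _ ≤ (((32 * π) ^ 2 * (2 ^ m) ^ 2 * (P.K m : ℝ) ^ (2 * e)) * W s k) *
        ‖fc (fun x => v x 2) k‖ ^ 2 := mul_le_mul_of_nonneg_right h1 (sq_nonneg _)
    _ ≤ (((32 * π) ^ 2 * (2 ^ m) ^ 2 * (P.K m : ℝ) ^ (2 * e)) * W s k) *
        ∑ i, ‖fc (fun x => v x i) k‖ ^ 2 := mul_le_mul_of_nonneg_left h2 (by positivity)
    _ = _ := by ring

theorem cm_spf {P : Prm} {m : ℕ} (hl : Mb (lam P.ν P.α)) (hX : ContDiff ℝ ∞ (X P m))
    (hXp : ∀ y, X P m (y + 2 * π) = X P m y) {f : V → ℝ} (hf : SPf f) :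
    SPf (cm P.ν P.α (X P m) f) := by
  have hx : SPf (fun x : V => X P m (x 1)) := spf_line hX hXp 1
  exact spf_sub (mg_spf hl (spf_mul hx hf)) (spf_mul hx (mg_spf hl hf))

/-- The exponents. -/
theorem pow_id (m n : ℕ) : (4:ℝ) ^ m * (2 ^ (n * m) * 2 ^ (n * m)) = 2 ^ ((2 * n + 2) * m) := by
  rw [show (4:ℝ) = 2 ^ 2 by norm_num, ← pow_mul, ← pow_add, ← pow_add]
  congr 1
  ring

theorem pow_id' (m n : ℕ) : ((2:ℝ) ^ (n * m)) ^ 2 * (2 ^ m) ^ 2 = 2 ^ ((2 * n + 2) * m) := by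
  rw [← pow_mul, ← pow_mul, ← pow_add]
  congr 1
  ring

theorem pow_succ_id (m n : ℕ) : (2:ℝ) ^ (n * (m + 1)) = 2 ^ n * 2 ^ (n * m) := by
  rw [← pow_add]
  congr 1
  ring

theorem sp_smul {v : V → V} (hv : SP v) (a : ℝ) : SP (fun x i => a * v x i) :=
  ⟨contDiff_pi.2 fun i => contDiff_const.mul (contDiff_pi.1 hv.1 i), fun j x => by
    ext i
    simp only
    rw [hv.2 j x]⟩

theorem sp_add {v w : V → V} (hv : SP v) (hw : SP w) : SP (fun x => v x + w x) :=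
  ⟨hv.1.add hw.1, fun j x => by simp only; rw [hv.2 j x, hw.2 j x]⟩

theorem sp_sub {v w : V → V} (hv : SP v) (hw : SP w) (b : ℝ) :
    SP (fun x i => v x i - b * w x i) :=
  ⟨contDiff_pi.2 fun i => (contDiff_pi.1 hv.1 i).sub
    (contDiff_const.mul (contDiff_pi.1 hw.1 i)), fun j x => by
    ext i
    simp only
    rw [hv.2 j x, hw.2 j x]⟩

theorem sp_third {g : V → ℝ} (hg : SPf g) : SP (fun x i => if i = (2 : Fin 3) then g x else 0) := by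
  refine ⟨contDiff_pi.2 fun i => ?_, fun j x => ?_⟩
  · by_cases h : i = 2
    · simp only [h, if_true]
      exact hg.1
    · simp only [h, if_false]
      exact contDiff_const
  · ext i
    simp only
    rw [hg.2 j x]

/-- S_BDP. -/
theorem bdp : S_BDP := by
  intro hprof hcomm hbdm hmodes hfcp S
  obtain ⟨C1, hC1, hcm⟩ := hcomm (S + 1)
  obtain ⟨D, n1, hD, hdec⟩ := hprof.2 (S + 1 + 1)
  obtain ⟨C2, n2, hC2, hb⟩ := hbdm hprof hcomm (S + 1)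
  refine ⟨4 * (C1 * D ^ 2 * (32 * π) ^ 2 + C2 ^ 2 + 16 * (2 ^ n2 * C2 ^ 2)),
    2 * n1 + 2 * n2 + 2, ?_, ?_⟩
  · have h1 : 0 ≤ C1 * D ^ 2 * (32 * π) ^ 2 := by positivity
    have h2 : 1 ≤ C2 ^ 2 := one_le_pow₀ hC2
    have h3 : 0 ≤ 16 * ((2:ℝ) ^ n2 * C2 ^ 2) := by positivity
    linarith
  intro P hP s σ hsS hσ he m v hv
  obtain ⟨hF, hE, hlam, hpim, -, -⟩ := hmodes hprof hfcp P hP
  obtain ⟨hX, hXp, hL⟩ := x_facts hprof hP m
  have hKm : (1:ℝ) ≤ P.K m := by exact_mod_cast hP.K_one m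
  have hK1 : (1:ℝ) ≤ P.K (m + 1) := by exact_mod_cast hP.K_one (m + 1)
  have hKK : (P.K m : ℝ) ≤ P.K (m + 1) := by exact_mod_cast (hP.K_mono (Nat.lt_succ_self m)).le
  have hKm0 : (0:ℝ) < P.K m := by linarith
  have hK10 : (0:ℝ) < P.K (m + 1) := by linarith
  have hS0 : 0 ≤ S := (abs_nonneg s).trans hsS
  have hs' : |-s| ≤ S + 1 := by
    rw [abs_neg]
    linarith
  have hs1 := abs_le.1 hsS
  have hσ1 := abs_le.1 hσ
  have hsσ : |s + σ| ≤ S + 1 := abs_le.2 ⟨by linarith, by linarith⟩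
  have hC20 : 0 ≤ C2 := by linarith
  obtain ⟨H, hH⟩ : ∃ H, H = hr s v := ⟨_, rfl⟩
  have hH0 : 0 ≤ H := by
    rw [hH]
    exact hr_nonneg _ _
  have hHe : hs s v = ENNReal.ofReal H := by
    rw [hH, ofReal_hr hv]
  obtain ⟨-, -, -, g1, g2, g3, -⟩ := hb P hP (-s) hs' m
  obtain ⟨f1, -, -, -, -, -, f7⟩ := hb P hP (s + σ) hsσ m
  obtain ⟨-, f2, -⟩ := hb P hP (s + σ) hsσ (m + 1)
  obtain ⟨Q2, hQ2⟩ : ∃ Q2 : ℝ, Q2 = 2 ^ (n2 * m) := ⟨_, rfl⟩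
  have hQ20 : 0 ≤ Q2 := by
    rw [hQ2]
    positivity
  rw [pow_succ_id, ← hQ2] at f2
  rw [← hQ2] at g1 g2 g3 f1 f7
  have hn2 : (1:ℝ) ≤ 2 ^ n2 := one_le_pow₀ (by norm_num)
  -- the fields
  have hw1 : SP (fun x : V => ![X P m (x 1) * Real.cos (P.K (m + 1) * x 1), 0, 0]) :=
    sp3 (spf_mul (spf_line hX hXp 1) (spf_cos _ 1)) spf_zero spf_zero
  have hw2 : SP (fun x : V => ![0, 0, Real.cos (P.K (m + 1) * x 1) * Real.sin (P.K m * x 0)]) :=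
    sp3 spf_zero spf_zero (spf_mul (spf_cos _ 1) (spf_sin _ 0))
  have hw3 : SP (fun x : V => ![0, 0, Real.cos (P.K m * x 0)]) :=
    sp3 spf_zero spf_zero (spf_cos _ 0)
  have hG : SP (fun x i => MG (lam P.ν P.α) (Fm P m) x i - mu P (m + 1) 0 * Fm P m x i) :=
    sp_sub (MG_sp hlam (hF m).sp) (hF m).sp _
  have hpvE : pv P m = fun x => Fm P m x + Em P (m + 1) 0 x := by
    funext x
    rfl
  have hpv : SP (pv P m) := by
    rw [hpvE]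
    exact sp_add (hF m).sp (hE (m + 1) 0).sp
  -- the functionals
  have hM1 : 0 ≤ C2 * Q2 * (P.K (m + 1) : ℝ) ^ (2 * (-s)) := by positivity
  have hM3 : 0 ≤ C2 * Q2 * (P.K m : ℝ) ^ (2 * (-s)) := by positivity
  have k1 := fun_sq hw1 hv hM1 g1
  have k2 := fun_sq hw2 hv hM1 g2
  have k3 := fun_sq hw3 hv hM3 g3
  rw [← hH] at k1 k2 k3
  have hKs : (P.K m : ℝ) ^ (2 * (-s)) ≤ (P.K (m + 1) : ℝ) ^ (2 * S) :=
    (Real.rpow_le_rpow_of_exponent_le hKm (by linarith)).trans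
      (Real.rpow_le_rpow hKm0.le hKK (by linarith))
  have l1 : lf P m v ^ 2 ≤ (4 ^ m * (C2 * Q2 * (P.K (m + 1) : ℝ) ^ (2 * (-s)))) * H := by
    unfold lf
    rw [mul_pow, mul_assoc ((4:ℝ) ^ m)]
    exact mul_le_mul (coef1 hL) k1 (sq_nonneg _) (by positivity)
  have l2 : (P.c m * ls P m v) ^ 2 ≤
      (P.c m ^ 2 * (4 * 4 ^ m * (C2 * Q2 * (P.K (m + 1) : ℝ) ^ (2 * (-s))))) * H := by
    rw [mul_pow, mul_assoc]
    refine mul_le_mul_of_nonneg_left ?_ (sq_nonneg _)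
    unfold ls
    rw [mul_pow, mul_assoc (4 * (4:ℝ) ^ m)]
    exact mul_le_mul (coef2 hL) k2 (sq_nonneg _) (by positivity)
  have l3 : (P.ε m * lc P m v) ^ 2 ≤
      (P.ε m ^ 2 * (4 ^ m * (C2 * Q2 * (P.K (m + 1) : ℝ) ^ (2 * S)))) * H := by
    rw [mul_pow, mul_assoc]
    refine mul_le_mul_of_nonneg_left ?_ (sq_nonneg _)
    unfold lc
    rw [mul_pow, mul_assoc ((4:ℝ) ^ m)]
    refine mul_le_mul (coef1 hL) (k3.trans ?_) (sq_nonneg _) (by positivity)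
    exact mul_le_mul_of_nonneg_right (mul_le_mul_of_nonneg_left hKs (by positivity)) hH0
  -- the norm of `pv`
  have hpvn : ∀ N : ℝ, (P.K (m + 1) : ℝ) ^ (2 * (s + σ)) ≤ N →
      hs (s + σ) (pv P m) ≤ ENNReal.ofReal (4 * (2 ^ n2 * C2 * Q2 * N)) := by
    intro N hN
    rw [hpvE]
    refine (hs_add (hF m).cp (hE (m + 1) 0).cp).trans ?_
    have e2 : (2 : ℝ≥0∞) = ENNReal.ofReal 2 := by norm_num
    calc 2 * hs (s + σ) (Fm P m) + 2 * hs (s + σ) (Em P (m + 1) 0) ≤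
          2 * ENNReal.ofReal (C2 * Q2 * (P.K (m + 1) : ℝ) ^ (2 * (s + σ))) +
          2 * ENNReal.ofReal (C2 * (2 ^ n2 * Q2) * (P.K (m + 1) : ℝ) ^ (2 * (s + σ))) := by gcongr
      _ = ENNReal.ofReal (2 * (C2 * Q2 * (P.K (m + 1) : ℝ) ^ (2 * (s + σ))) +
          2 * (C2 * (2 ^ n2 * Q2) * (P.K (m + 1) : ℝ) ^ (2 * (s + σ)))) := by
          rw [e2, ← ENNReal.ofReal_mul (by norm_num), ← ENNReal.ofReal_mul (by norm_num),
            ← ENNReal.ofReal_add (by positivity) (by positivity)]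
      _ ≤ _ := by
          apply ENNReal.ofReal_le_ofReal
          have z1 : 0 ≤ C2 * Q2 := by positivity
          have z2 : C2 * Q2 * (P.K (m + 1) : ℝ) ^ (2 * (s + σ)) ≤ C2 * Q2 * N :=
            mul_le_mul_of_nonneg_left hN z1
          have z3 : 0 ≤ C2 * Q2 * N := le_trans (by positivity) z2
          have z4 : 1 * (C2 * Q2 * N) ≤ 2 ^ n2 * (C2 * Q2 * N) :=
            mul_le_mul_of_nonneg_right hn2 z3
          have z5 : 2 ^ n2 * (C2 * Q2 * (P.K (m + 1) : ℝ) ^ (2 * (s + σ))) ≤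
            2 ^ n2 * (C2 * Q2 * N) := mul_le_mul_of_nonneg_left z2 (by positivity)
          have z6 : C2 * (2 ^ n2 * Q2) * (P.K (m + 1) : ℝ) ^ (2 * (s + σ)) =
            2 ^ n2 * (C2 * Q2 * (P.K (m + 1) : ℝ) ^ (2 * (s + σ))) := by ring
          rw [z6]
          linarith
  have hNS : (P.K (m + 1) : ℝ) ^ (2 * (s + σ)) ≤ (P.K (m + 1) : ℝ) ^ (2 * (S + 1)) :=
    Real.rpow_le_rpow_of_exponent_le hK1 (by linarith)
  -- the pieces
  have hf : SPf (mg (pim P m) (fun y => v y 2)) := mg_spf (hpim m) (hv.comp 2)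
  have hE0 : 0 ≤ C1 * P.ν ^ 2 * (D * 2 ^ (n1 * m)) ^ 2 := by positivity
  have p1 : hs (s + σ) (fun x i => if i = (2 : Fin 3) then
      cm P.ν P.α (X P m) (mg (pim P m) (fun y => v y 2)) x else 0) ≤
      ENNReal.ofReal (C1 * P.ν ^ 2 * (D * 2 ^ (n1 * m)) ^ 2 * ((32 * π) ^ 2 * (2 ^ m) ^ 2 *
        (P.K m : ℝ) ^ (2 * (σ + 2 * P.α - 1)))) * ENNReal.ofReal H := by
    rw [hs_third, ← hHe, ENNReal.ofReal_mul hE0, mul_assoc]
    have q1 := hcm P.ν P.α (s + σ) (D * 2 ^ (n1 * m)) (X P m)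
      (mg (pim P m) (fun y => v y 2)) hP.ν_pos.le hP.α_pos hP.α_le hsσ hX hXp
      (hdec m (P.K (m + 1)) (hP.K_one _)) hf
    refine q1.trans ?_
    have q2 := hsf_pim hP m hL (hpim m) (s := s) he hv
    have q3 : s + σ + 2 * P.α - 1 = s + (σ + 2 * P.α - 1) := by ring
    rw [q3]
    gcongr
  have p2 := rank1 (t := s + σ) (a := lf P m v)
    (G := fun x i => MG (lam P.ν P.α) (Fm P m) x i - mu P (m + 1) 0 * Fm P m x i)
    (A := 4 ^ m * (C2 * Q2 * (P.K (m + 1) : ℝ) ^ (2 * (-s))))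
    (N := C2 * P.ν ^ 2 * Q2 * (P.K (m + 1) : ℝ) ^ (2 * (s + σ + 2 * P.α - 1)))
    (by positivity) (by positivity) hH0 l1 f7
  have p3 := rank1 (t := s + σ) (a := P.c m * ls P m v) (G := pv P m)
    (A := P.c m ^ 2 * (4 * 4 ^ m * (C2 * Q2 * (P.K (m + 1) : ℝ) ^ (2 * (-s)))))
    (N := 4 * (2 ^ n2 * C2 * Q2 * (P.K (m + 1) : ℝ) ^ (2 * (s + σ))))
    (by positivity) (by positivity) hH0 l2 (hpvn _ le_rfl)
  have p4 := rank1 (t := s + σ) (a := P.ε m * lc P m v) (G := pv P m)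
    (A := P.ε m ^ 2 * (4 ^ m * (C2 * Q2 * (P.K (m + 1) : ℝ) ^ (2 * S))))
    (N := 4 * (2 ^ n2 * C2 * Q2 * (P.K (m + 1) : ℝ) ^ (2 * (S + 1))))
    (by positivity) (by positivity) hH0 l3 (hpvn _ hNS)
  -- the sum
  have hPP : PP P m v = fun x => ((fun x (i : Fin 3) => if i = (2 : Fin 3) then
      cm P.ν P.α (X P m) (mg (pim P m) (fun y => v y 2)) x else 0) x +
      (fun x i => lf P m v * (MG (lam P.ν P.α) (Fm P m) x i - mu P (m + 1) 0 * Fm P m x i)) x) +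
      ((fun x i => (P.c m * ls P m v) * pv P m x i) x +
        (fun x i => (P.ε m * lc P m v) * pv P m x i) x) := by
    funext x
    funext i
    unfold PP
    simp only [Pi.add_apply]
    ring
  have c1 := sp_third (cm_spf (m := m) hlam hX hXp hf)
  have c2 := sp_smul hG (lf P m v)
  have c3 := sp_smul hpv (P.c m * ls P m v)
  have c4 := sp_smul hpv (P.ε m * lc P m v)
  have z1 := hs_add (t := s + σ) c1.cp c2.cp
  have z2 := hs_add (t := s + σ) c3.cp c4.cp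
  refine (le_trans ?_ (comb4 (by positivity) (by positivity) (by positivity) (by positivity)
    p1 p2 p3 p4)).trans ?_
  · rw [hPP]
    refine (hs_add (sp_add c1 c2).cp (sp_add c3 c4).cp).trans ?_
    exact add_le_add (mul_le_mul' le_rfl z1) (mul_le_mul' le_rfl z2)
  rw [hHe]
  refine mul_le_mul' (ENNReal.ofReal_le_ofReal ?_) le_rfl
  -- scalars
  have r1 : (P.K (m + 1) : ℝ) ^ (2 * (-s)) * (P.K (m + 1) : ℝ) ^ (2 * (s + σ + 2 * P.α - 1)) ≤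
      (P.K m : ℝ) ^ (2 * (σ + 2 * P.α - 1)) := by
    rw [← Real.rpow_add hK10]
    have : 2 * (-s) + 2 * (s + σ + 2 * P.α - 1) = 2 * (σ + 2 * P.α - 1) := by ring
    rw [this]
    exact Real.rpow_le_rpow_of_nonpos hKm0 hKK (by linarith)
  have r2 : (P.K (m + 1) : ℝ) ^ (2 * (-s)) * (P.K (m + 1) : ℝ) ^ (2 * (s + σ)) =
      (P.K (m + 1) : ℝ) ^ (2 * σ) := by
    rw [← Real.rpow_add hK10]
    congr 1
    ring
  have r3 : (P.K (m + 1) : ℝ) ^ (2 * S) * (P.K (m + 1) : ℝ) ^ (2 * (S + 1)) ≤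
      (P.K (m + 1) : ℝ) ^ (4 * (S + 1)) := by
    rw [← Real.rpow_add hK10]
    exact Real.rpow_le_rpow_of_exponent_le hK1 (by linarith)
  obtain ⟨Q, hQ⟩ : ∃ Q : ℝ, Q = 2 ^ ((2 * n1 + 2 * n2 + 2) * m) := ⟨_, rfl⟩
  have hQa : ((2:ℝ) ^ (n1 * m)) ^ 2 * (2 ^ m) ^ 2 ≤ Q := by
    rw [pow_id', hQ]
    exact pow_le_pow_right₀ (by norm_num) (Nat.mul_le_mul_right m (by omega))
  have hQb : (4:ℝ) ^ m * (Q2 * Q2) ≤ Q := by
    rw [hQ2, pow_id, hQ]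
    exact pow_le_pow_right₀ (by norm_num) (Nat.mul_le_mul_right m (by omega))
  rw [← hQ]
  have hQ0 : 0 ≤ Q := le_trans (by positivity) hQb
  obtain ⟨T, hT⟩ : ∃ T : ℝ, T = (P.K m : ℝ) ^ (2 * (σ + 2 * P.α - 1)) := ⟨_, rfl⟩
  have hT0 : 0 ≤ T := by
    rw [hT]
    positivity
  rw [← hT] at r1 ⊢
  obtain ⟨a, ha⟩ : ∃ a : ℝ, a = C1 * D ^ 2 * (32 * π) ^ 2 := ⟨_, rfl⟩
  have ha0 : 0 ≤ a := by
    rw [ha]
    positivity
  obtain ⟨g, hg⟩ : ∃ g : ℝ, g = 2 ^ n2 * C2 ^ 2 := ⟨_, rfl⟩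
  have hg0 : 0 ≤ g := by
    rw [hg]
    positivity
  have u1 : C1 * P.ν ^ 2 * (D * 2 ^ (n1 * m)) ^ 2 * ((32 * π) ^ 2 * (2 ^ m) ^ 2 * T) ≤
      a * (P.ν ^ 2 * T) * Q := by
    calc _ = a * (P.ν ^ 2 * T) * ((2 ^ (n1 * m)) ^ 2 * (2 ^ m) ^ 2) := by
          rw [ha]
          ring
      _ ≤ _ := mul_le_mul_of_nonneg_left hQa (by positivity)
  have u2 : 4 ^ m * (C2 * Q2 * (P.K (m + 1) : ℝ) ^ (2 * (-s))) *
      (C2 * P.ν ^ 2 * Q2 * (P.K (m + 1) : ℝ) ^ (2 * (s + σ + 2 * P.α - 1))) ≤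
      C2 ^ 2 * (P.ν ^ 2 * T) * Q := by
    calc _ = C2 ^ 2 * (P.ν ^ 2 * ((P.K (m + 1) : ℝ) ^ (2 * (-s)) *
          (P.K (m + 1) : ℝ) ^ (2 * (s + σ + 2 * P.α - 1)))) * (4 ^ m * (Q2 * Q2)) := by ring
      _ ≤ C2 ^ 2 * (P.ν ^ 2 * T) * Q := by gcongr
  have u3 : P.c m ^ 2 * (4 * 4 ^ m * (C2 * Q2 * (P.K (m + 1) : ℝ) ^ (2 * (-s)))) *
      (4 * (2 ^ n2 * C2 * Q2 * (P.K (m + 1) : ℝ) ^ (2 * (s + σ)))) ≤
      16 * g * (P.c m ^ 2 * (P.K (m + 1) : ℝ) ^ (2 * σ)) * Q := by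
    calc _ = 16 * g * (P.c m ^ 2 * ((P.K (m + 1) : ℝ) ^ (2 * (-s)) *
          (P.K (m + 1) : ℝ) ^ (2 * (s + σ)))) * (4 ^ m * (Q2 * Q2)) := by
          rw [hg]
          ring
      _ ≤ _ := by
          rw [r2]
          gcongr
  have u4 : P.ε m ^ 2 * (4 ^ m * (C2 * Q2 * (P.K (m + 1) : ℝ) ^ (2 * S))) *
      (4 * (2 ^ n2 * C2 * Q2 * (P.K (m + 1) : ℝ) ^ (2 * (S + 1)))) ≤
      4 * g * (P.ε m ^ 2 * (P.K (m + 1) : ℝ) ^ (4 * (S + 1))) * Q := by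
    calc _ = 4 * g * (P.ε m ^ 2 * ((P.K (m + 1) : ℝ) ^ (2 * S) *
          (P.K (m + 1) : ℝ) ^ (2 * (S + 1)))) * (4 ^ m * (Q2 * Q2)) := by
          rw [hg]
          ring
      _ ≤ _ := by gcongr
  obtain ⟨x, hx⟩ : ∃ x : ℝ, x = P.ν ^ 2 * T := ⟨_, rfl⟩
  obtain ⟨y, hy⟩ : ∃ y : ℝ, y = P.c m ^ 2 * (P.K (m + 1) : ℝ) ^ (2 * σ) := ⟨_, rfl⟩
  obtain ⟨w, hw⟩ : ∃ w : ℝ, w = P.ε m ^ 2 * (P.K (m + 1) : ℝ) ^ (4 * (S + 1)) := ⟨_, rfl⟩
  have hx0 : 0 ≤ x := by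
    rw [hx]
    positivity
  have hy0 : 0 ≤ y := by
    rw [hy]
    positivity
  have hw0 : 0 ≤ w := by
    rw [hw]
    positivity
  rw [← hx] at u1 u2
  rw [← hy] at u3
  rw [← hw] at u4
  rw [← ha, ← hg, ← hx, ← hy, ← hw]
  have t1 : 0 ≤ (16 * g) * x * Q := by positivity
  have t2 : 0 ≤ (a + C2 ^ 2) * y * Q := by positivity
  have t3 : 0 ≤ (a + C2 ^ 2 + 12 * g) * w * Q := by positivity
  nlinarith

end Pool.Agent.H306.HD.TBDP
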