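import Pool.Agent.H306.HD.Stm5

/-! The solution of the chain is smooth in time with bounds (`S_RB`). -/

noncomputable section

namespace Pool.Agent.H306.HD.TRB

open Set MeasureTheory

open scoped Real ContDiff ENNReal

open Pool.Agent.H306.CK Pool.Agent.H306.DS Pool.Agent.H306.HD

/-- Bounds at one time. -/
def Pt (P : Prm) (N : ℕ) (R : ℝ) (b : ℕ → ℝ) (g : ℕ → ℕ → ℝ) : Prop :=
  ∀ m, |b m| ≤ R * wB P N m ∧ ∀ i, |g m i| ≤ R * wG P N m i

/-- The facts about the parameters which are used. -/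
structure Fc (P : Prm) (E : ℝ) : Prop where
  E1 : 1 ≤ E
  al0 : 0 ≤ P.α
  al1 : P.α ≤ 1
  nu0 : 0 ≤ P.ν
  nuE : P.ν ≤ E
  K1 : ∀ m, 1 ≤ (P.K m : ℝ)
  Kle : ∀ m, (P.K m : ℝ) ≤ P.K (m + 1)
  ep0 : ∀ m, 0 ≤ P.ε m
  eb0 : ∀ m, 0 ≤ eb P m
  epE : ∀ m, P.ε m ≤ E
  ebE : ∀ m, eb P m ≤ E
  c0 : ∀ m, 0 ≤ P.c m
  cE : ∀ m, P.c m ≤ E * P.K (m + 1)

theorem fc_ex (P : Prm) (hP : P.Ok)
    (hr : ∀ N : ℕ, ∃ C : ℝ, ∀ m, P.ε m * (P.K (m + 2) : ℝ) ^ N ≤ C) (he : ∀ m, 0 < P.ε m)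
    (hc : ∀ m, 0 < P.c m) (hcl : ∃ C : ℝ, ∀ m, P.c m ≤ C * P.K (m + 1)) : ∃ E, Fc P E := by
  obtain ⟨C₁, h1⟩ := hr 0
  obtain ⟨C₂, h2⟩ := hcl
  have hK1 : ∀ m, 1 ≤ (P.K m : ℝ) := fun m => by exact_mod_cast hP.K_one m
  have hC1 : 0 ≤ C₁ := by
    have := h1 0
    simp only [pow_zero, mul_one] at this
    linarith [he 0]
  have hC2 : 0 ≤ C₂ := by
    by_contra hneg
    push Not at hneg
    have h3 := h2 0
    have h4 := hc 0
    have h5 : C₂ * (P.K (0 + 1) : ℝ) < 0 := mul_neg_of_neg_of_pos hneg (by linarith [hK1 (0 + 1)])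
    linarith
  have hnu := hP.ν_pos
  refine ⟨1 + C₁ + C₂ + P.ν, ⟨by linarith, hP.α_pos.le, by linarith [hP.α_le], hnu.le,
    by linarith, hK1, ?_, fun m => (he m).le, ?_, ?_, ?_, fun m => (hc m).le, ?_⟩⟩
  · intro m
    exact_mod_cast (hP.K_mono (Nat.lt_succ_self m)).le
  · intro m
    cases m with
    | zero => simp [eb]
    | succ m => simpa [eb] using (he m).le
  · intro m
    have := h1 m
    simp only [pow_zero, mul_one] at this
    linarith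
  · intro m
    cases m with
    | zero => simp only [eb]; linarith
    | succ m =>
      have := h1 m
      simp only [pow_zero, mul_one] at this
      simp only [eb]
      linarith
  · intro m
    have h3 := h2 m
    have h4 := hK1 (m + 1)
    nlinarith

variable {P : Prm} {E : ℝ}

theorem e2_nonneg (h : Fc P E) (m : ℕ) : 0 ≤ e2 P m := by
  cases m with
  | zero => simp [e2]
  | succ m => simpa [e2] using add_nonneg (h.eb0 m) (h.ep0 m)

theorem e2_le (h : Fc P E) (m : ℕ) : e2 P m ≤ 2 * E := by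
  cases m with
  | zero => simp only [e2]; linarith [h.E1]
  | succ m => simp only [e2]; linarith [h.ebE m, h.epE m]

theorem wB_nonneg (h : Fc P E) (N m : ℕ) : 0 ≤ wB P N m := by
  have h1 := h.K1 (m + 1)
  exact mul_nonneg (add_nonneg (h.eb0 m) (h.ep0 m)) (pow_nonneg (by linarith) _)

theorem w1_nonneg (h : Fc P E) (N m i : ℕ) :
    0 ≤ (1 / 4 : ℝ) ^ i * (1 + i : ℝ) ^ N * (eb P m + P.ε m) * (P.K (m + 1) : ℝ) ^ N := by
  have h1 := h.K1 (m + 1)
  have h2 : (0 : ℝ) ≤ (1 / 4 : ℝ) ^ i * (1 + i : ℝ) ^ N := by positivity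
  exact mul_nonneg (mul_nonneg h2 (add_nonneg (h.eb0 m) (h.ep0 m))) (pow_nonneg (by linarith) _)

theorem w2_nonneg (h : Fc P E) (N m i : ℕ) :
    0 ≤ (if i = 0 then e2 P m * (P.K m : ℝ) ^ N else 0) := by
  split_ifs
  · have h1 := h.K1 m
    exact mul_nonneg (e2_nonneg h m) (pow_nonneg (by linarith) _)
  · exact le_rfl

theorem wG_nonneg (h : Fc P E) (N m i : ℕ) : 0 ≤ wG P N m i :=
  add_nonneg (w1_nonneg h N m i) (w2_nonneg h N m i)

theorem wB_mono (h : Fc P E) {N N' : ℕ} (hN : N ≤ N') (m : ℕ) : wB P N m ≤ wB P N' m :=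
  mul_le_mul_of_nonneg_left (pow_le_pow_right₀ (h.K1 (m + 1)) hN)
    (add_nonneg (h.eb0 m) (h.ep0 m))

theorem wG_mono (h : Fc P E) {N N' : ℕ} (hN : N ≤ N') (m i : ℕ) : wG P N m i ≤ wG P N' m i := by
  unfold wG
  have h0 := add_nonneg (h.eb0 m) (h.ep0 m)
  have hK := h.K1 (m + 1)
  have h1 : (1 + i : ℝ) ^ N ≤ (1 + i : ℝ) ^ N' :=
    pow_le_pow_right₀ (by have : (0 : ℝ) ≤ i := Nat.cast_nonneg i; linarith) hN
  have h2 : (P.K (m + 1) : ℝ) ^ N ≤ (P.K (m + 1) : ℝ) ^ N' := pow_le_pow_right₀ hK hN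
  refine add_le_add ?_ ?_
  · gcongr
  · split_ifs
    · exact mul_le_mul_of_nonneg_left (pow_le_pow_right₀ (h.K1 m) hN) (e2_nonneg h m)
    · exact le_rfl

theorem wG_le (h : Fc P E) (N m i : ℕ) :
    wG P N m i ≤ 4 * E * (P.K (m + 1) : ℝ) ^ N * ((1 / 4) ^ i * (1 + i : ℝ) ^ N) := by
  unfold wG
  have hE := h.E1
  have h0 := add_nonneg (h.eb0 m) (h.ep0 m)
  have h0' : eb P m + P.ε m ≤ 2 * E := by linarith [h.ebE m, h.epE m]
  have hK := h.K1 (m + 1)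
  have hK0 := h.K1 m
  have hq : (0 : ℝ) ≤ (1 / 4) ^ i * (1 + i : ℝ) ^ N := by positivity
  have hk : (0 : ℝ) ≤ (P.K (m + 1) : ℝ) ^ N := by positivity
  have h1 : (1 / 4 : ℝ) ^ i * (1 + i : ℝ) ^ N * (eb P m + P.ε m) * (P.K (m + 1) : ℝ) ^ N ≤
      2 * E * (P.K (m + 1) : ℝ) ^ N * ((1 / 4) ^ i * (1 + i : ℝ) ^ N) := by
    calc (1 / 4 : ℝ) ^ i * (1 + i : ℝ) ^ N * (eb P m + P.ε m) * (P.K (m + 1) : ℝ) ^ N
        ≤ (1 / 4 : ℝ) ^ i * (1 + i : ℝ) ^ N * (2 * E) * (P.K (m + 1) : ℝ) ^ N := by gcongr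
      _ = _ := by ring
  have h2 : (if i = 0 then e2 P m * (P.K m : ℝ) ^ N else 0) ≤
      2 * E * (P.K (m + 1) : ℝ) ^ N * ((1 / 4) ^ i * (1 + i : ℝ) ^ N) := by
    split_ifs with hi
    · subst hi
      have h3 : (P.K m : ℝ) ^ N ≤ (P.K (m + 1) : ℝ) ^ N :=
        pow_le_pow_left₀ (by linarith) (h.Kle m) N
      have h4 := e2_le h m
      have h5 := e2_nonneg h m
      simp only [pow_zero, Nat.cast_zero, add_zero, one_pow, mul_one]
      exact mul_le_mul h4 h3 (by positivity) (by linarith)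
    · positivity
  linarith

theorem mu_nonneg (h : Fc P E) (m j : ℕ) : 0 ≤ mu P m j :=
  mul_nonneg h.nu0 (Real.rpow_nonneg (by positivity) _)

theorem mu_le' (h : Fc P E) (m j : ℕ) :
    mu P m j ≤ P.ν * ((P.K m : ℝ) ^ 2 + (j * P.K (m + 1) : ℝ) ^ 2) := by
  have hK := h.K1 m
  have h1 : (1 : ℝ) ≤ (P.K m : ℝ) ^ 2 + (j * P.K (m + 1) : ℝ) ^ 2 := by
    nlinarith [sq_nonneg (j * P.K (m + 1) : ℝ)]
  have h2 := Real.rpow_le_rpow_of_exponent_le h1 h.al1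
  rw [Real.rpow_one] at h2
  exact mul_le_mul_of_nonneg_left h2 h.nu0

theorem mu_le0 (h : Fc P E) (m : ℕ) : mu P m 0 ≤ E * (P.K m : ℝ) ^ 2 := by
  have h1 := mu_le' h m 0
  simp only [Nat.cast_zero, zero_mul, ne_eq, OfNat.ofNat_ne_zero, not_false_eq_true, zero_pow,
    add_zero] at h1
  exact h1.trans (mul_le_mul_of_nonneg_right h.nuE (by positivity))

theorem mu_le (h : Fc P E) (m j : ℕ) :
    mu P m j ≤ E * ((1 + j : ℝ) ^ 2 * (P.K (m + 1) : ℝ) ^ 2) := by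
  have h1 := mu_le' h m j
  have hK := h.K1 m
  have hj : (0 : ℝ) ≤ j := Nat.cast_nonneg j
  have h2 : (P.K m : ℝ) ^ 2 ≤ (P.K (m + 1) : ℝ) ^ 2 :=
    pow_le_pow_left₀ (by linarith) (h.Kle m) 2
  have h3 : (P.K m : ℝ) ^ 2 + (j * P.K (m + 1) : ℝ) ^ 2 ≤
      (1 + j : ℝ) ^ 2 * (P.K (m + 1) : ℝ) ^ 2 := by
    have h4 : (0 : ℝ) ≤ j * (P.K (m + 1) : ℝ) ^ 2 := by positivity
    nlinarith
  have hE := h.E1
  calc mu P m j ≤ P.ν * ((P.K m : ℝ) ^ 2 + (j * P.K (m + 1) : ℝ) ^ 2) := h1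
    _ ≤ P.ν * ((1 + j : ℝ) ^ 2 * (P.K (m + 1) : ℝ) ^ 2) := mul_le_mul_of_nonneg_left h3 h.nu0
    _ ≤ E * ((1 + j : ℝ) ^ 2 * (P.K (m + 1) : ℝ) ^ 2) :=
      mul_le_mul_of_nonneg_right h.nuE (by positivity)

/-! Bounds at one time. -/

theorem pt_mono (h : Fc P E) {N N' : ℕ} (hN : N ≤ N') {R R' : ℝ} (hR : 0 ≤ R) (hRR : R ≤ R')
    {b : ℕ → ℝ} {g : ℕ → ℕ → ℝ} (hp : Pt P N R b g) : Pt P N' R' b g := fun m =>
  ⟨(hp m).1.trans (mul_le_mul hRR (wB_mono h hN m) (wB_nonneg h N m) (hR.trans hRR)),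
    fun i => ((hp m).2 i).trans (mul_le_mul hRR (wG_mono h hN m i) (wG_nonneg h N m i)
      (hR.trans hRR))⟩

theorem pt_comb {N : ℕ} {R R₂ : ℝ} {b b₂ : ℕ → ℝ} {g g₂ : ℕ → ℕ → ℝ}
    (hp : Pt P N R b g) (hp₂ : Pt P N R₂ b₂ g₂) (x y : ℝ) :
    Pt P N (|x| * R + |y| * R₂) (fun m => x * b m + y * b₂ m)
      (fun m i => x * g m i + y * g₂ m i) := by
  intro m
  constructor
  · have h1 := mul_le_mul_of_nonneg_left (hp m).1 (abs_nonneg x)
    have h2 := mul_le_mul_of_nonneg_left (hp₂ m).1 (abs_nonneg y)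
    have h3 := abs_add_le (x * b m) (y * b₂ m)
    rw [abs_mul, abs_mul] at h3
    calc |x * b m + y * b₂ m| ≤ |x| * |b m| + |y| * |b₂ m| := h3
      _ ≤ |x| * (R * wB P N m) + |y| * (R₂ * wB P N m) := add_le_add h1 h2
      _ = _ := by ring
  · intro i
    have h1 := mul_le_mul_of_nonneg_left ((hp m).2 i) (abs_nonneg x)
    have h2 := mul_le_mul_of_nonneg_left ((hp₂ m).2 i) (abs_nonneg y)
    have h3 := abs_add_le (x * g m i) (y * g₂ m i)
    rw [abs_mul, abs_mul] at h3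
    calc |x * g m i + y * g₂ m i| ≤ |x| * |g m i| + |y| * |g₂ m i| := h3
      _ ≤ |x| * (R * wG P N m i) + |y| * (R₂ * wG P N m i) := add_le_add h1 h2
      _ = _ := by ring

theorem src_le (h : Fc P E) {N : ℕ} {R : ℝ} (hR : 0 ≤ R) {b : ℕ → ℝ} {g : ℕ → ℕ → ℝ}
    (hp : Pt P N R b g) (m : ℕ) :
    |P.c m * g m 1 + P.ε m * g m 0| ≤ E * (4 + 2 ^ N) * R * wB P (N + 2) m := by
  have hE := h.E1
  have hw := add_nonneg (h.eb0 m) (h.ep0 m)
  have hk := h.K1 (m + 1)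
  set w : ℝ := eb P m + P.ε m with hwdef
  set k : ℝ := (P.K (m + 1) : ℝ) with hkdef
  have hkN : 1 ≤ k ^ N := one_le_pow₀ hk
  have hk2 : 1 ≤ k ^ 2 := one_le_pow₀ hk
  have hkk : k ≤ k ^ 2 := by nlinarith
  have g1 : |g m 1| ≤ R * (2 ^ N * (w * k ^ N)) := by
    refine ((hp m).2 1).trans (mul_le_mul_of_nonneg_left ?_ hR)
    unfold wG
    rw [← hwdef, ← hkdef]
    have e1 : ((1 : ℕ) : ℝ) = 1 := Nat.cast_one
    rw [e1]
    have e2' : (1 + 1 : ℝ) = 2 := by norm_num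
    rw [e2']
    simp only [pow_one, one_ne_zero, if_false, add_zero]
    have h3 : 0 ≤ 2 ^ N * (w * k ^ N) := by positivity
    nlinarith
  have g0 : |g m 0| ≤ R * (4 * E * k ^ N) := by
    refine ((hp m).2 0).trans (mul_le_mul_of_nonneg_left ?_ hR)
    have h1 := wG_le h N m 0
    simpa using h1
  have hc0 := h.c0 m
  have hcE : P.c m ≤ E * k := h.cE m
  have he0 := h.ep0 m
  have hew : P.ε m ≤ w := by rw [hwdef]; linarith [h.eb0 m]
  have a1 : |P.c m * g m 1| ≤ (E * k) * (R * (2 ^ N * (w * k ^ N))) := by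
    rw [abs_mul, abs_of_nonneg hc0]
    exact mul_le_mul hcE g1 (abs_nonneg _) (by positivity)
  have a2 : |P.ε m * g m 0| ≤ w * (R * (4 * E * k ^ N)) := by
    rw [abs_mul, abs_of_nonneg he0]
    exact mul_le_mul hew g0 (abs_nonneg _) hw
  have h4 := abs_add_le (P.c m * g m 1) (P.ε m * g m 0)
  have e3 : wB P (N + 2) m = w * k ^ N * k ^ 2 := by
    unfold wB
    rw [← hwdef, ← hkdef, pow_add]
    ring
  rw [e3]
  have hX : 0 ≤ E * R * (w * k ^ N) := by positivity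
  have b1 : (E * k) * (R * (2 ^ N * (w * k ^ N))) ≤ E * R * (w * k ^ N) * 2 ^ N * k ^ 2 := by
    have : (E * k) * (R * (2 ^ N * (w * k ^ N))) = E * R * (w * k ^ N) * 2 ^ N * k := by ring
    rw [this]
    exact mul_le_mul_of_nonneg_left hkk (by positivity)
  have b2 : w * (R * (4 * E * k ^ N)) ≤ E * R * (w * k ^ N) * 4 * k ^ 2 := by
    have : w * (R * (4 * E * k ^ N)) = E * R * (w * k ^ N) * 4 * 1 := by ring
    rw [this]
    exact mul_le_mul_of_nonneg_left hk2 (by positivity)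
  calc |P.c m * g m 1 + P.ε m * g m 0| ≤ |P.c m * g m 1| + |P.ε m * g m 0| := h4
    _ ≤ E * R * (w * k ^ N) * 2 ^ N * k ^ 2 + E * R * (w * k ^ N) * 4 * k ^ 2 :=
      add_le_add (a1.trans b1) (a2.trans b2)
    _ = _ := by ring

theorem pre_le (h : Fc P E) {N : ℕ} {R : ℝ} (hR : 0 ≤ R) {b : ℕ → ℝ} {g : ℕ → ℕ → ℝ}
    (hp : Pt P N R b g) (m i : ℕ) :
    |pre P g m i| ≤ E * (4 + 2 ^ N) * R * wG P (N + 2) m i := by
  have hE := h.E1
  have h0 : 0 ≤ E * (4 + 2 ^ N) * R * wG P (N + 2) m i := by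
    have := wG_nonneg h (N + 2) m i
    positivity
  cases m with
  | zero => simpa [pre] using h0
  | succ m =>
    cases i with
    | succ i => simpa [pre] using h0
    | zero =>
      have h1 := src_le h hR hp m
      have h2 : pre P g (m + 1) 0 = P.c m * g m 1 + P.ε m * g m 0 := rfl
      rw [h2]
      refine h1.trans (mul_le_mul_of_nonneg_left ?_ (by positivity))
      have h3 := w1_nonneg h (N + 2) (m + 1) 0
      unfold wG wB
      have h4 : (if (0 : ℕ) = 0 then e2 P (m + 1) * (P.K (m + 1) : ℝ) ^ (N + 2) else 0) =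
        (eb P m + P.ε m) * (P.K (m + 1) : ℝ) ^ (N + 2) := by simp [e2]
      rw [h4]
      linarith

theorem mug_le (h : Fc P E) {N : ℕ} {R : ℝ} (hR : 0 ≤ R) {b : ℕ → ℝ} {g : ℕ → ℕ → ℝ}
    (hp : Pt P N R b g) (m i : ℕ) :
    |-mu P m i * g m i| ≤ E * R * wG P (N + 2) m i := by
  have hE := h.E1
  rw [abs_mul, abs_neg, abs_of_nonneg (mu_nonneg h m i)]
  have h1 := (hp m).2 i
  have h2 : mu P m i * |g m i| ≤ mu P m i * (R * wG P N m i) :=
    mul_le_mul_of_nonneg_left h1 (mu_nonneg h m i)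
  refine h2.trans ?_
  have h31 : mu P m i * ((1 / 4) ^ i * (1 + i : ℝ) ^ N * (eb P m + P.ε m) *
      (P.K (m + 1) : ℝ) ^ N) ≤ E * ((1 / 4) ^ i * (1 + i : ℝ) ^ (N + 2) * (eb P m + P.ε m) *
      (P.K (m + 1) : ℝ) ^ (N + 2)) := by
    calc mu P m i * ((1 / 4) ^ i * (1 + i : ℝ) ^ N * (eb P m + P.ε m) *
            (P.K (m + 1) : ℝ) ^ N)
          ≤ (E * ((1 + i : ℝ) ^ 2 * (P.K (m + 1) : ℝ) ^ 2)) *
            ((1 / 4) ^ i * (1 + i : ℝ) ^ N * (eb P m + P.ε m) * (P.K (m + 1) : ℝ) ^ N) :=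
            mul_le_mul_of_nonneg_right (mu_le h m i) (w1_nonneg h N m i)
        _ = _ := by rw [pow_add, pow_add]; ring
  have h32 : mu P m i * (if i = 0 then e2 P m * (P.K m : ℝ) ^ N else 0) ≤
      E * (if i = 0 then e2 P m * (P.K m : ℝ) ^ (N + 2) else 0) := by
    by_cases hi : i = 0
    · subst hi
      simp only [if_true]
      have h5 : 0 ≤ e2 P m * (P.K m : ℝ) ^ N := by
        have := e2_nonneg h m
        positivity
      calc mu P m 0 * (e2 P m * (P.K m : ℝ) ^ N)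
          ≤ (E * (P.K m : ℝ) ^ 2) * (e2 P m * (P.K m : ℝ) ^ N) :=
            mul_le_mul_of_nonneg_right (mu_le0 h m) h5
        _ = _ := by rw [pow_add]; ring
    · simp [hi]
  have h3 : mu P m i * wG P N m i ≤ E * wG P (N + 2) m i := by
    have h6 := add_le_add h31 h32
    rw [← mul_add (mu P m i), ← mul_add E] at h6
    exact h6
  calc mu P m i * (R * wG P N m i) = R * (mu P m i * wG P N m i) := by ring
    _ ≤ R * (E * wG P (N + 2) m i) := mul_le_mul_of_nonneg_left h3 hR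
    _ = _ := by ring

theorem mub_le (h : Fc P E) {N : ℕ} {R : ℝ} {b : ℕ → ℝ} {g : ℕ → ℕ → ℝ}
    (hp : Pt P N R b g) (m : ℕ) :
    |-mu P (m + 1) 0 * b m| ≤ E * R * wB P (N + 2) m := by
  have hE := h.E1
  rw [abs_mul, abs_neg, abs_of_nonneg (mu_nonneg h (m + 1) 0)]
  have h1 := (hp m).1
  have hw := wB_nonneg h N m
  calc mu P (m + 1) 0 * |b m| ≤ (E * (P.K (m + 1) : ℝ) ^ 2) * (R * wB P N m) :=
        mul_le_mul (mu_le0 h (m + 1)) h1 (abs_nonneg _) (by positivity)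
    _ = _ := by unfold wB; rw [pow_add]; ring

/-- The linear part. -/
theorem pt_lin (h : Fc P E) {N : ℕ} {R : ℝ} (hR : 0 ≤ R) {b : ℕ → ℝ} {g : ℕ → ℕ → ℝ}
    (hp : Pt P N R b g) :
    Pt P (N + 2) (E * (5 + 2 ^ N) * R)
      (fun m => -mu P (m + 1) 0 * b m + (P.c m * g m 1 + P.ε m * g m 0))
      (fun m i => -mu P m i * g m i + pre P g m i) := by
  intro m
  constructor
  · have h1 := mub_le h hp m
    have h2 := src_le h hR hp m
    have h3 := abs_add_le (-mu P (m + 1) 0 * b m) (P.c m * g m 1 + P.ε m * g m 0)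
    calc |-mu P (m + 1) 0 * b m + (P.c m * g m 1 + P.ε m * g m 0)|
        ≤ |-mu P (m + 1) 0 * b m| + |P.c m * g m 1 + P.ε m * g m 0| := h3
      _ ≤ E * R * wB P (N + 2) m + E * (4 + 2 ^ N) * R * wB P (N + 2) m := add_le_add h1 h2
      _ = _ := by ring
  · intro i
    have h1 := mug_le h hR hp m i
    have h2 := pre_le h hR hp m i
    have h3 := abs_add_le (-mu P m i * g m i) (pre P g m i)
    calc |-mu P m i * g m i + pre P g m i| ≤ |-mu P m i * g m i| + |pre P g m i| := h3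
      _ ≤ E * R * wG P (N + 2) m i + E * (4 + 2 ^ N) * R * wG P (N + 2) m i := add_le_add h1 h2
      _ = _ := by ring

/-- One band of the nonlinear term. -/
theorem nl_le (P : Prm) (b : ℕ → ℝ) (g : ℕ → ℕ → ℝ) (m N : ℕ) (A : ℝ) (hA : 0 ≤ A)
    (hg : ∀ i, |g m i| ≤ A * ((1 / 4) ^ i * (1 + i : ℝ) ^ N)) (i : ℕ) :
    |nl P b g m i| ≤ P.K m * |b m| * (A * (4 + 2 ^ N) * ((1 / 4) ^ i * (1 + i : ℝ) ^ N)) := by
  have hK : (0 : ℝ) ≤ P.K m := Nat.cast_nonneg _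
  have hKb : 0 ≤ P.K m * |b m| := mul_nonneg hK (abs_nonneg _)
  have h2N : (1 : ℝ) ≤ 2 ^ N := one_le_pow₀ (by norm_num)
  match i with
  | 0 =>
    have h1 := hg 1
    have e : nl P b g m 0 = P.K m * b m / 2 * g m 1 := rfl
    have e1 : ((1 : ℕ) : ℝ) = 1 := Nat.cast_one
    rw [e1] at h1
    have e2' : (1 + 1 : ℝ) = 2 := by norm_num
    rw [e2', pow_one] at h1
    rw [e, abs_mul, abs_div, abs_mul, abs_of_nonneg hK, abs_two]
    simp only [pow_zero, Nat.cast_zero, add_zero, one_pow, mul_one]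
    have h3 : P.K m * |b m| / 2 * |g m 1| = P.K m * |b m| * (|g m 1| / 2) := by ring
    rw [h3]
    refine mul_le_mul_of_nonneg_left ?_ hKb
    nlinarith
  | 1 =>
    have h0 := hg 0
    have h2 := hg 2
    have e : nl P b g m 1 = -(P.K m * b m * (g m 0 + g m 2 / 2)) := rfl
    simp only [pow_zero, Nat.cast_zero, add_zero, one_pow, mul_one] at h0
    have e1 : ((1 : ℕ) : ℝ) = 1 := Nat.cast_one
    have e2' : ((2 : ℕ) : ℝ) = 2 := Nat.cast_ofNat
    rw [e2'] at h2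
    have e3 : (1 + 2 : ℝ) = 3 := by norm_num
    rw [e3] at h2
    rw [e, abs_neg, abs_mul, abs_mul, abs_of_nonneg hK, e1]
    have e4 : (1 + 1 : ℝ) = 2 := by norm_num
    rw [e4, pow_one]
    refine mul_le_mul_of_nonneg_left ?_ hKb
    have h5 := abs_add_le (g m 0) (g m 2 / 2)
    rw [abs_div, abs_two] at h5
    have h34 : (3 : ℝ) ^ N ≤ 2 ^ N * 2 ^ N := by
      rw [← mul_pow]
      exact pow_le_pow_left₀ (by norm_num) (by norm_num) N
    have h30 : (0 : ℝ) ≤ 3 ^ N := by positivity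
    calc |g m 0 + g m 2 / 2| ≤ |g m 0| + |g m 2| / 2 := h5
      _ ≤ A + A * ((1 / 4) ^ 2 * 3 ^ N) / 2 := by linarith
      _ = A * (1 + 3 ^ N / 32) := by ring
      _ ≤ A * ((4 + 2 ^ N) * (1 / 4 * 2 ^ N)) := by
        refine mul_le_mul_of_nonneg_left ?_ hA
        nlinarith
      _ = _ := by ring
  | i + 2 =>
    have h1 := hg (i + 1)
    have h3 := hg (i + 3)
    have e : nl P b g m (i + 2) = (-1) ^ i * (P.K m * b m / 2) * (g m (i + 1) + g m (i + 3)) := rfl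
    rw [e, abs_mul, abs_mul, abs_pow, abs_neg, abs_one, one_pow, one_mul, abs_div, abs_mul,
      abs_of_nonneg hK, abs_two]
    have h4 : P.K m * |b m| / 2 * |g m (i + 1) + g m (i + 3)| =
      P.K m * |b m| * (|g m (i + 1) + g m (i + 3)| / 2) := by ring
    rw [h4]
    refine mul_le_mul_of_nonneg_left ?_ hKb
    have h5 := abs_add_le (g m (i + 1)) (g m (i + 3))
    have hi : (0 : ℝ) ≤ i := Nat.cast_nonneg i
    push_cast at h1 h3 ⊢
    have h6 : (1 + ((i : ℝ) + 1)) ^ N ≤ (1 + ((i : ℝ) + 2)) ^ N :=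
      pow_le_pow_left₀ (by linarith) (by linarith) N
    have h7 : (1 + ((i : ℝ) + 3)) ^ N ≤ 2 ^ N * (1 + ((i : ℝ) + 2)) ^ N := by
      rw [← mul_pow]
      exact pow_le_pow_left₀ (by linarith) (by linarith) N
    have hq : (0 : ℝ) ≤ (1 / 4) ^ i := by positivity
    have q1 : (1 / 4 : ℝ) ^ (i + 1) = (1 / 4) ^ i * (1 / 4) := pow_succ _ _
    have q2 : (1 / 4 : ℝ) ^ (i + 2) = (1 / 4) ^ i * (1 / 16) := by rw [pow_add]; norm_num
    have q3 : (1 / 4 : ℝ) ^ (i + 3) = (1 / 4) ^ i * (1 / 64) := by rw [pow_add]; norm_num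
    rw [q1] at h1
    rw [q3] at h3
    rw [q2]
    have hY : (0 : ℝ) ≤ (1 + ((i : ℝ) + 2)) ^ N := by positivity
    have hAq : 0 ≤ A * (1 / 4) ^ i := mul_nonneg hA hq
    have m1 : A * ((1 / 4) ^ i * (1 / 4) * (1 + ((i : ℝ) + 1)) ^ N) ≤
        A * (1 / 4) ^ i * (1 / 4 * (1 + ((i : ℝ) + 2)) ^ N) := by
      have := mul_le_mul_of_nonneg_left h6 (mul_nonneg hAq (by norm_num : (0 : ℝ) ≤ 1 / 4))
      linarith
    have m3 : A * ((1 / 4) ^ i * (1 / 64) * (1 + ((i : ℝ) + 3)) ^ N) ≤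
        A * (1 / 4) ^ i * (1 / 64 * (2 ^ N * (1 + ((i : ℝ) + 2)) ^ N)) := by
      have := mul_le_mul_of_nonneg_left h7 (mul_nonneg hAq (by norm_num : (0 : ℝ) ≤ 1 / 64))
      linarith
    have h8 : |g m (i + 1) + g m (i + 3)| ≤ A * (1 / 4) ^ i *
        (1 / 4 * (1 + ((i : ℝ) + 2)) ^ N + 1 / 64 * (2 ^ N * (1 + ((i : ℝ) + 2)) ^ N)) := by
      calc |g m (i + 1) + g m (i + 3)| ≤ |g m (i + 1)| + |g m (i + 3)| := h5
        _ ≤ A * (1 / 4) ^ i * (1 / 4 * (1 + ((i : ℝ) + 2)) ^ N) +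
          A * (1 / 4) ^ i * (1 / 64 * (2 ^ N * (1 + ((i : ℝ) + 2)) ^ N)) :=
          add_le_add (h1.trans m1) (h3.trans m3)
        _ = _ := by ring
    have h9 : A * (1 / 4) ^ i *
        (1 / 4 * (1 + ((i : ℝ) + 2)) ^ N + 1 / 64 * (2 ^ N * (1 + ((i : ℝ) + 2)) ^ N)) / 2 ≤
        A * (1 / 4) ^ i * ((4 + 2 ^ N) * (1 / 16 * (1 + ((i : ℝ) + 2)) ^ N)) := by
      have h10 : (1 / 4 * (1 + ((i : ℝ) + 2)) ^ N +
          1 / 64 * (2 ^ N * (1 + ((i : ℝ) + 2)) ^ N)) / 2 ≤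
          (4 + 2 ^ N) * (1 / 16 * (1 + ((i : ℝ) + 2)) ^ N) := by
        have h11 : 0 ≤ 2 ^ N * (1 + ((i : ℝ) + 2)) ^ N := by positivity
        nlinarith
      have := mul_le_mul_of_nonneg_left h10 hAq
      linarith
    calc |g m (i + 1) + g m (i + 3)| / 2 ≤ A * (1 / 4) ^ i *
        (1 / 4 * (1 + ((i : ℝ) + 2)) ^ N + 1 / 64 * (2 ^ N * (1 + ((i : ℝ) + 2)) ^ N)) / 2 := by
          linarith
      _ ≤ _ := h9
      _ = _ := by ring

/-- The bilinear part. -/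
theorem pt_nl (h : Fc P E) {N N₂ : ℕ} {R R₂ : ℝ} (hR : 0 ≤ R) (hR₂ : 0 ≤ R₂)
    {b b₂ : ℕ → ℝ} {g g₂ : ℕ → ℕ → ℝ} (hp : Pt P N R b g) (hp₂ : Pt P N₂ R₂ b₂ g₂) :
    Pt P (N + N₂ + 1) (4 * E * (4 + 2 ^ N) * R * R₂) (fun _ => 0) (nl P b₂ g) := by
  have hE := h.E1
  intro m
  constructor
  · have := wB_nonneg h (N + N₂ + 1) m
    simp only [abs_zero]
    positivity
  · intro i
    have hk := h.K1 (m + 1)
    have hk0 := h.K1 m
    have hkl := h.Kle m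
    have hw := add_nonneg (h.eb0 m) (h.ep0 m)
    set k : ℝ := (P.K (m + 1) : ℝ) with hkdef
    set w : ℝ := eb P m + P.ε m with hwdef
    have hA : 0 ≤ R * (4 * E * k ^ N) := by positivity
    have h1 := nl_le P b₂ g m N (R * (4 * E * k ^ N)) hA (fun j => by
      refine ((hp m).2 j).trans ?_
      have h2 := mul_le_mul_of_nonneg_left (wG_le h N m j) hR
      calc R * wG P N m j ≤ R * (4 * E * k ^ N * ((1 / 4) ^ j * (1 + j : ℝ) ^ N)) := h2
        _ = _ := by ring) i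
    refine h1.trans ?_
    have hb : |b₂ m| ≤ R₂ * (w * k ^ N₂) := (hp₂ m).1
    have hKb : P.K m * |b₂ m| ≤ k * (R₂ * (w * k ^ N₂)) :=
      mul_le_mul hkl hb (abs_nonneg _) (by positivity)
    have hpw : (1 + i : ℝ) ^ N ≤ (1 + i : ℝ) ^ (N + N₂ + 1) :=
      pow_le_pow_right₀ (by have : (0 : ℝ) ≤ i := Nat.cast_nonneg i; linarith) (by omega)
    have h3 : R * (4 * E * k ^ N) * (4 + 2 ^ N) * ((1 / 4) ^ i * (1 + i : ℝ) ^ N) ≤
        R * (4 * E * k ^ N) * (4 + 2 ^ N) * ((1 / 4) ^ i * (1 + i : ℝ) ^ (N + N₂ + 1)) := by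
      gcongr
    have h4 : P.K m * |b₂ m| *
        (R * (4 * E * k ^ N) * (4 + 2 ^ N) * ((1 / 4) ^ i * (1 + i : ℝ) ^ N)) ≤
        k * (R₂ * (w * k ^ N₂)) *
        (R * (4 * E * k ^ N) * (4 + 2 ^ N) * ((1 / 4) ^ i * (1 + i : ℝ) ^ (N + N₂ + 1))) :=
      mul_le_mul hKb h3 (by positivity) (by positivity)
    refine h4.trans ?_
    have h5 := w2_nonneg h (N + N₂ + 1) m i
    have h6 : wG P (N + N₂ + 1) m i = (1 / 4) ^ i * (1 + i : ℝ) ^ (N + N₂ + 1) * w *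
        k ^ (N + N₂ + 1) + (if i = 0 then e2 P m * (P.K m : ℝ) ^ (N + N₂ + 1) else 0) := rfl
    rw [h6]
    have h7 : k * (R₂ * (w * k ^ N₂)) *
        (R * (4 * E * k ^ N) * (4 + 2 ^ N) * ((1 / 4) ^ i * (1 + i : ℝ) ^ (N + N₂ + 1))) =
        4 * E * (4 + 2 ^ N) * R * R₂ * ((1 / 4) ^ i * (1 + i : ℝ) ^ (N + N₂ + 1) * w *
        k ^ (N + N₂ + 1)) := by
      rw [pow_succ k (N + N₂), pow_add k N N₂]
      ring
    rw [h7]
    refine mul_le_mul_of_nonneg_left ?_ (by positivity)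
    linarith

/-! Time dependence. -/

theorem bdd_comb (h : Fc P E) {T : ℝ} {b b₂ : ℕ → ℝ → ℝ} {g g₂ : ℕ → ℕ → ℝ → ℝ}
    (h1 : Bdd P T b g) (h2 : Bdd P T b₂ g₂) (x y : ℝ) :
    Bdd P T (fun m t => x * b m t + y * b₂ m t) (fun m i t => x * g m i t + y * g₂ m i t) := by
  obtain ⟨N, h1⟩ := h1
  obtain ⟨N₂, h2⟩ := h2
  refine ⟨N + N₂, fun t ht => ?_⟩
  obtain ⟨R, hR, h1⟩ := h1 t ht
  obtain ⟨R₂, hR₂, h2⟩ := h2 t ht
  refine ⟨|x| * R + |y| * R₂, by positivity, fun s hs => ?_⟩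
  have p1 : Pt P (N + N₂) R (fun m => b m s) (fun m i => g m i s) :=
    pt_mono h (by omega) hR le_rfl (fun m => h1 s hs m)
  have p2 : Pt P (N + N₂) R₂ (fun m => b₂ m s) (fun m i => g₂ m i s) :=
    pt_mono h (by omega) hR₂ le_rfl (fun m => h2 s hs m)
  exact pt_comb p1 p2 x y

theorem bdd_lin (h : Fc P E) {T : ℝ} {b : ℕ → ℝ → ℝ} {g : ℕ → ℕ → ℝ → ℝ}
    (h1 : Bdd P T b g) :
    Bdd P T (fun m t => -mu P (m + 1) 0 * b m t + (P.c m * g m 1 t + P.ε m * g m 0 t))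
      (fun m i t => -mu P m i * g m i t + pre P (fun m j => g m j t) m i) := by
  have hE := h.E1
  obtain ⟨N, h1⟩ := h1
  refine ⟨N + 2, fun t ht => ?_⟩
  obtain ⟨R, hR, h1⟩ := h1 t ht
  refine ⟨E * (5 + 2 ^ N) * R, by positivity, fun s hs => ?_⟩
  have p1 : Pt P N R (fun m => b m s) (fun m i => g m i s) := fun m => h1 s hs m
  exact pt_lin h hR p1

theorem bdd_nl (h : Fc P E) {T : ℝ} {b b₂ : ℕ → ℝ → ℝ} {g g₂ : ℕ → ℕ → ℝ → ℝ}
    (h1 : Bdd P T b g) (h2 : Bdd P T b₂ g₂) :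
    Bdd P T (fun _ _ => 0) (fun m i t => nl P (fun m => b₂ m t) (fun m j => g m j t) m i) := by
  have hE := h.E1
  obtain ⟨N, h1⟩ := h1
  obtain ⟨N₂, h2⟩ := h2
  refine ⟨N + N₂ + 1, fun t ht => ?_⟩
  obtain ⟨R, hR, h1⟩ := h1 t ht
  obtain ⟨R₂, hR₂, h2⟩ := h2 t ht
  refine ⟨4 * E * (4 + 2 ^ N) * R * R₂, by positivity, fun s hs => ?_⟩
  have p1 : Pt P N R (fun m => b m s) (fun m i => g m i s) := fun m => h1 s hs m
  have p2 : Pt P N₂ R₂ (fun m => b₂ m s) (fun m i => g₂ m i s) := fun m => h2 s hs m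
  exact pt_nl h hR hR₂ p1 p2

theorem rb_bdd {T : ℝ} {n : ℕ} {b : ℕ → ℝ → ℝ} {g : ℕ → ℕ → ℝ → ℝ}
    (h : RB P T n b g) : Bdd P T b g := by
  cases n with
  | zero => exact h.2.2
  | succ n => exact h.1

theorem rb_pred {T : ℝ} : ∀ {n : ℕ} {b : ℕ → ℝ → ℝ} {g : ℕ → ℕ → ℝ → ℝ},
    RB P T (n + 1) b g → RB P T n b g := by
  intro n
  induction n with
  | zero =>
    intro b g h
    obtain ⟨h1, b', g', hb, hg, -⟩ := h
    exact ⟨fun m t ht => (hb m t ht).continuousWithinAt,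
      fun m i t ht => (hg m i t ht).continuousWithinAt, h1⟩
  | succ n ih =>
    intro b g h
    obtain ⟨h1, b', g', hb, hg, h2⟩ := h
    exact ⟨h1, b', g', hb, hg, ih h2⟩

theorem rb_comb (h : Fc P E) {T : ℝ} (x y : ℝ) :
    ∀ {n : ℕ} {b b₂ : ℕ → ℝ → ℝ} {g g₂ : ℕ → ℕ → ℝ → ℝ},
    RB P T n b g → RB P T n b₂ g₂ →
    RB P T n (fun m t => x * b m t + y * b₂ m t) (fun m i t => x * g m i t + y * g₂ m i t) := by
  intro n
  induction n with
  | zero =>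
    intro b b₂ g g₂ h1 h2
    refine ⟨fun m => ?_, fun m i => ?_, bdd_comb h h1.2.2 h2.2.2 x y⟩
    · exact (continuousOn_const.mul (h1.1 m)).add (continuousOn_const.mul (h2.1 m))
    · exact (continuousOn_const.mul (h1.2.1 m i)).add (continuousOn_const.mul (h2.2.1 m i))
  | succ n ih =>
    intro b b₂ g g₂ h1 h2
    obtain ⟨a1, b', g', hb, hg, h3⟩ := h1
    obtain ⟨a2, b₂', g₂', hb₂, hg₂, h4⟩ := h2
    refine ⟨bdd_comb h a1 a2 x y, _, _, ?_, ?_, ih h3 h4⟩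
    · intro m t ht
      exact ((hb m t ht).const_mul x).add ((hb₂ m t ht).const_mul y)
    · intro m i t ht
      exact ((hg m i t ht).const_mul x).add ((hg₂ m i t ht).const_mul y)

theorem pre_deriv {S : Set ℝ} {t : ℝ} {g g' : ℕ → ℕ → ℝ → ℝ}
    (hg : ∀ m i, HasDerivWithinAt (g m i) (g' m i t) S t) (m i : ℕ) :
    HasDerivWithinAt (fun s => pre P (fun m j => g m j s) m i)
      (pre P (fun m j => g' m j t) m i) S t := by
  cases m with
  | zero => simpa [pre] using hasDerivWithinAt_const t S (0 : ℝ)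
  | succ m =>
    cases i with
    | succ i => simpa [pre] using hasDerivWithinAt_const t S (0 : ℝ)
    | zero => exact ((hg m 1).const_mul (P.c m)).add ((hg m 0).const_mul (P.ε m))

theorem pre_cont {S : Set ℝ} {g : ℕ → ℕ → ℝ → ℝ}
    (hg : ∀ m i, ContinuousOn (g m i) S) (m i : ℕ) :
    ContinuousOn (fun s => pre P (fun m j => g m j s) m i) S := by
  cases m with
  | zero => simpa [pre] using (continuousOn_const : ContinuousOn (fun _ : ℝ => (0 : ℝ)) S)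
  | succ m =>
    cases i with
    | succ i => simpa [pre] using (continuousOn_const : ContinuousOn (fun _ : ℝ => (0 : ℝ)) S)
    | zero =>
      exact (continuousOn_const.mul (hg m 1)).add (continuousOn_const.mul (hg m 0))

theorem nl_deriv {S : Set ℝ} {t : ℝ} {b b' : ℕ → ℝ → ℝ} {g g' : ℕ → ℕ → ℝ → ℝ}
    (hb : ∀ m, HasDerivWithinAt (b m) (b' m t) S t)
    (hg : ∀ m i, HasDerivWithinAt (g m i) (g' m i t) S t) (m i : ℕ) :
    HasDerivWithinAt (fun s => nl P (fun m => b m s) (fun m j => g m j s) m i)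
      (1 * nl P (fun m => b' m t) (fun m j => g m j t) m i +
        1 * nl P (fun m => b m t) (fun m j => g' m j t) m i) S t := by
  match i with
  | 0 =>
    have h1 := (((hb m).const_mul (P.K m : ℝ)).div_const 2).mul (hg m 1)
    refine h1.congr_deriv ?_
    simp only [nl]
    ring
  | 1 =>
    have h1 := (((hb m).const_mul (P.K m : ℝ)).mul ((hg m 0).add ((hg m 2).div_const 2))).neg
    refine h1.congr_deriv ?_
    simp only [nl, Pi.add_apply]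
    ring
  | i + 2 =>
    have h1 := ((((hb m).const_mul (P.K m : ℝ)).div_const 2).const_mul ((-1 : ℝ) ^ i)).mul
      ((hg m (i + 1)).add (hg m (i + 3)))
    refine h1.congr_deriv ?_
    simp only [nl, Pi.add_apply]
    ring

theorem nl_cont {S : Set ℝ} {b : ℕ → ℝ → ℝ} {g : ℕ → ℕ → ℝ → ℝ}
    (hb : ∀ m, ContinuousOn (b m) S) (hg : ∀ m i, ContinuousOn (g m i) S) (m i : ℕ) :
    ContinuousOn (fun s => nl P (fun m => b m s) (fun m j => g m j s) m i) S := by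
  match i with
  | 0 => exact ((continuousOn_const.mul (hb m)).div_const 2).mul (hg m 1)
  | 1 =>
    exact ((continuousOn_const.mul (hb m)).mul ((hg m 0).add ((hg m 2).div_const 2))).neg
  | i + 2 =>
    exact (continuousOn_const.mul ((continuousOn_const.mul (hb m)).div_const 2)).mul
      ((hg m (i + 1)).add (hg m (i + 3)))

theorem rb_lin (h : Fc P E) {T : ℝ} : ∀ {n : ℕ} {b : ℕ → ℝ → ℝ} {g : ℕ → ℕ → ℝ → ℝ},
    RB P T n b g →
    RB P T n (fun m t => -mu P (m + 1) 0 * b m t + (P.c m * g m 1 t + P.ε m * g m 0 t))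
      (fun m i t => -mu P m i * g m i t + pre P (fun m j => g m j t) m i) := by
  intro n
  induction n with
  | zero =>
    intro b g h1
    refine ⟨fun m => ?_, fun m i => ?_, bdd_lin h h1.2.2⟩
    · exact (continuousOn_const.mul (h1.1 m)).add
        ((continuousOn_const.mul (h1.2.1 m 1)).add (continuousOn_const.mul (h1.2.1 m 0)))
    · exact (continuousOn_const.mul (h1.2.1 m i)).add (pre_cont h1.2.1 m i)
  | succ n ih =>
    intro b g h1
    obtain ⟨a1, b', g', hb, hg, h3⟩ := h1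
    refine ⟨bdd_lin h a1, _, _, ?_, ?_, ih h3⟩
    · intro m t ht
      exact ((hb m t ht).const_mul _).add
        (((hg m 1 t ht).const_mul _).add ((hg m 0 t ht).const_mul _))
    · intro m i t ht
      exact ((hg m i t ht).const_mul _).add (pre_deriv (fun m i => hg m i t ht) m i)

theorem rb_nl (h : Fc P E) {T : ℝ} : ∀ {n : ℕ} {b b₂ : ℕ → ℝ → ℝ} {g g₂ : ℕ → ℕ → ℝ → ℝ},
    RB P T n b g → RB P T n b₂ g₂ →
    RB P T n (fun _ _ => 0) (fun m i t => nl P (fun m => b₂ m t) (fun m j => g m j t) m i) := by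
  intro n
  induction n with
  | zero =>
    intro b b₂ g g₂ h1 h2
    exact ⟨fun m => continuousOn_const, fun m i => nl_cont h2.1 h1.2.1 m i,
      bdd_nl h h1.2.2 h2.2.2⟩
  | succ n ih =>
    intro b b₂ g g₂ h1 h2
    have p1 := rb_pred h1
    have p2 := rb_pred h2
    obtain ⟨a1, b', g', hb, hg, h3⟩ := h1
    obtain ⟨a2, b₂', g₂', hb₂, hg₂, h4⟩ := h2
    refine ⟨bdd_nl h a1 a2, _, _, ?_, ?_, rb_comb h 1 1 (ih p1 h4) (ih h3 p2)⟩
    · intro m t ht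
      simpa using hasDerivWithinAt_const t (Ico 0 T) (0 : ℝ)
    · intro m i t ht
      exact nl_deriv (fun m => hb₂ m t ht) (fun m i => hg m i t ht) m i

theorem rb : S_RB := by
  intro P θ₀ T b g hP hr he hc hcl hs n
  obtain ⟨E, h⟩ := fc_ex P hP hr he hc hcl
  have hbd : Bdd P T b g := by
    refine ⟨0, fun t ht => ?_⟩
    obtain ⟨R, hR, h1⟩ := hs.bd t ht
    refine ⟨R, hR, fun s hs' m => ?_⟩
    obtain ⟨h2, h3⟩ := h1 s hs' m
    have hb0 := h.eb0 m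
    have he0 := h.ep0 m
    constructor
    · refine h2.trans (mul_le_mul_of_nonneg_left ?_ hR)
      simp only [wB, pow_zero, mul_one]
      linarith
    · intro i
      refine (h3 i).trans (mul_le_mul_of_nonneg_left ?_ hR)
      have h4 := w2_nonneg h 0 m i
      have hq : (0 : ℝ) ≤ (1 / 4) ^ i := by positivity
      unfold wG
      simp only [pow_zero, mul_one] at h4 ⊢
      nlinarith [mul_nonneg hq he0]
  induction n with
  | zero =>
    exact ⟨fun m t ht => (hs.db m t ht).continuousWithinAt,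
      fun m i t ht => (hs.dg m i t ht).continuousWithinAt, hbd⟩
  | succ n ih =>
    refine ⟨hbd, _, _, ?_, ?_, rb_comb h 1 (-1) (rb_lin h ih) (rb_nl h ih ih)⟩
    · intro m t ht
      refine (hs.db m t ht).congr_deriv ?_
      ring
    · intro m i t ht
      refine (hs.dg m i t ht).congr_deriv ?_
      ring

end Pool.Agent.H306.HD.TRB
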